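import Mathlib
import Pool.Agent.T6.H62.PP.Defs

/-!
# Project BT: uniform boundedness over `ℚ` for `x ^ d + c`, every `d ≥ 3`

Statements of the modules. The starting point is Mordell's conjecture for `y ^ 2 = x ^ 6 + 1` over
every number field (`Pool.Agent.H437R2.Man.mordell`). With the unramified correspondences of
Bogomolov and Tschinkel it gives `FIVE`, this gives `FERM`, and this gives `FIN`, `FIN'`.
-/

set_option autoImplicit false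

namespace Pool.Agent.W2helper83.BT

open IsDedekindDomain NumberField

/-- SEL: elements whose orders outside a finite set are multiples of `m` are `m`-th powers up to
finitely many factors (`m = 3` is `Pool.Agent.T6.H62.PP.sel`, `m = 2` is in
`Pool/Agent/H437R2/Man/MWSel.lean`). -/
def SEL (m : ℕ) : Prop := ∀ (K : Type) [Field K] [NumberField K]
  (S : Set (HeightOneSpectrum (𝓞 K))),
  S.Finite → ∃ T : Finset K, (∀ t ∈ T, t ≠ 0) ∧ ∀ a : Kˣ,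
    (∀ v : HeightOneSpectrum (𝓞 K), v ∉ S →
      (m : ℤ) ∣ Multiplicative.toAdd (v.valuationOfNeZero a)) →
    ∃ t ∈ T, ∃ b : K, b ≠ 0 ∧ (a : K) = t * b ^ m

/-- ROOTS: roots of finitely many elements in a number field -/
def ROOTS : Prop := ∀ (K : Type) [Field K] [NumberField K] (T : Finset K) (m : ℕ), 0 < m →
  ∃ (L : Type) (_ : Field L) (_ : NumberField L) (_ : Algebra K L),
    ∀ t ∈ T, ∃ θ : L, θ ^ m = algebraMap K L t

/-- FIVE: Mordell's conjecture for the curves `x - e_i = s_i ^ 2`, `i = 1, 2, 3, 4` -/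
def FIVE : Prop := ∀ (K : Type) [Field K] [NumberField K] (e1 e2 e3 e4 : K),
  e1 ≠ e2 → e1 ≠ e3 → e1 ≠ e4 → e2 ≠ e3 → e2 ≠ e4 → e3 ≠ e4 →
  {x : K | (∃ s, x - e1 = s ^ 2) ∧ (∃ s, x - e2 = s ^ 2) ∧ (∃ s, x - e3 = s ^ 2) ∧
    ∃ s, x - e4 = s ^ 2}.Finite

/-- FERM: Mordell's conjecture for the Fermat curve of degree `l` (here for odd `l ≥ 5`) -/
def FERM (l : ℕ) : Prop := ∀ (K : Type) [Field K] [NumberField K],
  {p : K × K | p.1 ^ l + p.2 ^ l = 1}.Finite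

/-- The condition on pairs which are not both periodic (`F3` with `l` in place of `3`). -/
def FP (l d : ℕ) (X U : ℤ) : Prop := U ≠ 0 ∧ X ^ d ≠ U ^ d ∧ ∀ q : ℕ, q.Prime → ¬ q ∣ d →
  ¬ ((q : ℤ) ∣ X ∧ (q : ℤ) ∣ U) ∧ l ∣ padicValInt q (X ^ d - U ^ d)

/-- The condition on pairs of periodic points (`F3'` with `l` in place of `3`). -/
def FP' (l d : ℕ) (X U : ℤ) : Prop := U ≠ 0 ∧ X ^ d ≠ U ^ d ∧ ∀ q : ℕ, q.Prime → ¬ q ∣ d →
  ¬ ((q : ℤ) ∣ X ∧ (q : ℤ) ∣ U) ∧ l ∣ padicValInt q (Pool.Agent.T6.H62.PP.Psi d X U)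

/-- FIN -/
def FIN (l d : ℕ) : Prop := {t : ℚ | ∃ X U : ℤ, FP l d X U ∧ t = (X : ℚ) / (U : ℚ)}.Finite

/-- FIN' -/
def FIN' (l d : ℕ) : Prop := {t : ℚ | ∃ X U : ℤ, FP' l d X U ∧ t = (X : ℚ) / (U : ℚ)}.Finite

/-- Module FIN -/
def FINStm : Prop := ∀ l d : ℕ, 0 < l → SEL l → FERM l → Even d → 4 ≤ d → FIN l d ∧ FIN' l d

/-- Module DYN: `x ^ d + c` -/
def DYNStm : Prop := ∀ l d : ℕ, 2 ≤ l → Even d → 4 ≤ d → l ∣ d - 1 → FIN l d → FIN' l d →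
  ∃ B : ℕ, ∀ (c : ℚ) (T : Finset ℚ), (∀ x ∈ T, ∃ m n : ℕ, m < n ∧
    (fun x : ℚ => x ^ d + c)^[m] x = (fun x : ℚ => x ^ d + c)^[n] x) → T.card ≤ B

/-- Module EXC: only finitely many exceptional parameters -/
def EXCStm : Prop := ∀ l d : ℕ, 2 ≤ l → Even d → 4 ≤ d → l ∣ d - 1 → FIN l d → FIN' l d →
  {c : ℚ | ∃ x y : ℚ, x ≠ y ∧ (∃ n : ℕ, 0 < n ∧ (fun x : ℚ => x ^ d + c)^[n] x = x) ∧
    ∃ n : ℕ, 0 < n ∧ (fun x : ℚ => x ^ d + c)^[n] y = y}.Finite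

end Pool.Agent.W2helper83.BT
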