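import Mathlib
import Pool.Agent.W2helper83.BT.Defs

/-!
# Project BT, second part: the maps `x ^ e + c` over number fields, `e ≥ 5` or `e ≤ -4`

(`0 ^ e = 0` for `e < 0` in Mathlib, so that `0 ↦ c`: this is the rational map of the projective
line with `0 ↦ ∞ ↦ c`, and a point of the affine line has a finite orbit for one if and only if it
has a finite orbit for the other.)
-/

set_option autoImplicit false

namespace Pool.Agent.W2helper83.BT

open IsDedekindDomain NumberField

/-- the map -/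
def fz {K : Type} [Field K] (e : ℤ) (c x : K) : K := x ^ e + c

/-- periodic points -/
def PerZ {K : Type} [Field K] (e : ℤ) (c x : K) : Prop := ∃ n : ℕ, 0 < n ∧ (fz e c)^[n] x = x

/-- points with finite orbits -/
def PreZ {K : Type} [Field K] (e : ℤ) (c x : K) : Prop :=
  ∃ m n : ℕ, m < n ∧ (fz e c)^[m] x = (fz e c)^[n] x

/-- LOC: at a place outside `d = |e|`, for roots of unity `ζ₁, ζ₂ ≠ 1` of order dividing `d`, the
valuation of `(x - ζ₁ y) / (x - ζ₂ y)` is the `|e - 1|`-th power of the valuation of a nonzero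
element. -/
def LOC : Prop := ∀ (K Γ : Type) [Field K] [LinearOrderedCommGroupWithZero Γ]
  (w : Valuation K Γ) (d : ℕ) (e : ℤ) (c x y ζ₁ ζ₂ : K), 2 ≤ d → (e = d ∨ e = -d) →
  w (d : K) = 1 → (∃ ζ : K, IsPrimitiveRoot ζ d) → PerZ e c x → PerZ e c y → x ≠ y →
  ζ₁ ^ d = 1 → ζ₁ ≠ 1 → ζ₂ ^ d = 1 → ζ₂ ≠ 1 → x - ζ₁ * y ≠ 0 → x - ζ₂ * y ≠ 0 →
  ∃ g : K, g ≠ 0 ∧ w ((x - ζ₁ * y) / (x - ζ₂ * y)) = w g ^ (e - 1).natAbs

/-- RATIO: the ratios of two periodic points in `K`, for all parameters together, are finitely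
many. -/
def RATIO (e : ℤ) : Prop := ∀ (K : Type) [Field K] [NumberField K],
  ∃ R : Set K, R.Finite ∧ ∀ c x y : K, PerZ e c x → PerZ e c y → x ≠ y → y ≠ 0 → x / y ∈ R

/-- EXCZ: at most one periodic point, for all but finitely many parameters. -/
def EXCZ (e : ℤ) : Prop := ∀ (K : Type) [Field K] [NumberField K],
  {c : K | ∃ x y : K, x ≠ y ∧ PerZ e c x ∧ PerZ e c y}.Finite

/-- TAILZ: at most `|μ_e(K)|` points with finite orbits, for all but finitely many parameters
with at most one periodic point: the points are the `ζ y`, `y` the fixed point. -/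
def TAILZ (e : ℤ) : Prop := ∀ (K : Type) [Field K] [NumberField K],
  {c : K | ∃ y z x : K, fz e c y = y ∧ z ^ e = y ^ e ∧ z ≠ y ∧ fz e c x = z}.Finite

end Pool.Agent.W2helper83.BT
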