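import Mathlib
import Pool.Agent.W2helper83.BT.Defs2

/-! Finiteness of the points with finite orbits for one map `x ^ e + c` over a number field. -/

set_option autoImplicit false

open Height

namespace Pool.Agent.W2helper83.BT

theorem north {K : Type} [Field K] [NumberField K] {e : ℤ} (he : 2 ≤ e.natAbs) (c : K) :
    {x : K | PreZ e c x}.Finite := by
  set M : ℝ := totalWeight K * Real.log 2 + logHeight₁ c with hM
  have hstep : ∀ x : K, M < logHeight₁ x → logHeight₁ x < logHeight₁ (fz e c x) := by
    intro x hx
    have h1 : logHeight₁ (x ^ e) ≤ M + logHeight₁ (fz e c x) := by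
      have e1 : x ^ e = fz e c x - c := by simp only [fz]; ring
      rw [e1]
      refine (logHeight₁_sub_le _ _).trans (le_of_eq ?_)
      rw [hM]; ring
    rw [logHeight₁_zpow] at h1
    have h2 : (2 : ℝ) ≤ (e.natAbs : ℝ) := by exact_mod_cast he
    have h0 := zero_le_logHeight₁ x
    nlinarith
  have hfin : {x : K | logHeight₁ x ≤ M}.Finite := NumberField.finite_setOfPred_logHeight₁_le K M
  refine hfin.subset ?_
  intro x hx
  by_contra hcon
  have hcon' : M < logHeight₁ x := not_le.1 hcon
  have hall : ∀ k : ℕ, M < logHeight₁ ((fz e c)^[k] x) ∧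
      logHeight₁ ((fz e c)^[k] x) < logHeight₁ ((fz e c)^[k + 1] x) := by
    intro k
    induction k with
    | zero => exact ⟨hcon', hstep x hcon'⟩
    | succ k ih =>
      have h1 := ih.1.trans ih.2
      refine ⟨h1, ?_⟩
      rw [Function.iterate_succ_apply' (fz e c) (k + 1)]
      exact hstep _ h1
  have hmono : StrictMono fun k : ℕ => logHeight₁ ((fz e c)^[k] x) :=
    strictMono_nat_of_lt_succ (fun k => (hall k).2)
  obtain ⟨m, n, hmn, h⟩ := hx
  have := hmono hmn
  simp only [h] at this
  exact lt_irrefl _ this

end Pool.Agent.W2helper83.BT
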