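import Mathlib
import Pool.Agent.W2helper83.BT.Defs2
import Pool.Agent.W2helper83.BT.North

/-! The points with finite orbits, from `EXCZ` and `TAILZ`. -/

set_option autoImplicit false

namespace Pool.Agent.W2helper83.BT

open NumberField

/-- the description of the points with finite orbits: there are none, or there is a fixed point
`y ≠ 0` and they are the `x` with `x ^ e = y ^ e`. -/
def DESC {K : Type} [Field K] (e : ℤ) (c : K) : Prop :=
  (∀ x : K, ¬ PreZ e c x) ∨ ∃ y : K, y ≠ 0 ∧ fz e c y = y ∧ ∀ x : K, PreZ e c x ↔ x ^ e = y ^ e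

section

variable {K : Type} [Field K] {e : ℤ} {c : K}

theorem PreZ.exists_per {x : K} (h : PreZ e c x) : ∃ m : ℕ, PerZ e c ((fz e c)^[m] x) := by
  obtain ⟨m, n, hmn, h⟩ := h
  refine ⟨m, n - m, by omega, ?_⟩
  rw [← Function.iterate_add_apply, Nat.sub_add_cancel hmn.le]
  exact h.symm

theorem PerZ.step {x : K} (h : PerZ e c x) : PerZ e c (fz e c x) := by
  obtain ⟨n, hn, h⟩ := h
  refine ⟨n, hn, ?_⟩
  rw [← Function.iterate_succ_apply, Function.iterate_succ_apply', h]

theorem desc_of (he : e ≠ 0) (hc : c ≠ 0)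
    (h1 : ¬ ∃ x y : K, x ≠ y ∧ PerZ e c x ∧ PerZ e c y)
    (h2 : ¬ ∃ y z x : K, fz e c y = y ∧ z ^ e = y ^ e ∧ z ≠ y ∧ fz e c x = z) : DESC e c := by
  by_cases hno : ∀ x : K, ¬ PreZ e c x
  · exact Or.inl hno
  right
  push Not at hno
  obtain ⟨x0, hx0⟩ := hno
  obtain ⟨m0, hy⟩ := hx0.exists_per
  set y := (fz e c)^[m0] x0 with hydef
  have huni : ∀ x : K, PerZ e c x → x = y := by
    intro x hx
    by_contra hne
    exact h1 ⟨x, y, hne, hx, hy⟩
  have hfix : fz e c y = y := huni _ hy.step
  have hy0 : y ≠ 0 := by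
    intro h0
    rw [h0] at hfix
    rw [fz, zero_zpow _ he, zero_add] at hfix
    exact hc hfix
  refine ⟨y, hy0, hfix, ?_⟩
  intro x
  constructor
  · intro hx
    obtain ⟨m, hm⟩ := hx.exists_per
    have hex : ∃ k : ℕ, (fz e c)^[k] x = y := ⟨m, huni _ hm⟩
    classical
    obtain ⟨k, hk, hmin⟩ : ∃ k : ℕ, (fz e c)^[k] x = y ∧ ∀ j < k, (fz e c)^[j] x ≠ y :=
      ⟨Nat.find hex, Nat.find_spec hex, fun j hj => Nat.find_min hex hj⟩
    rcases Nat.lt_or_ge k 2 with hk2 | hk2
    · interval_cases k
      · rw [← hk]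
        rfl
      · have h3 : fz e c x = y := hk
        rw [← hfix] at h3
        simp only [fz] at h3
        exact add_right_cancel h3
    · exfalso
      obtain ⟨j, rfl⟩ : ∃ j, k = j + 2 := ⟨k - 2, by omega⟩
      apply h2
      refine ⟨y, (fz e c)^[j + 1] x, (fz e c)^[j] x, hfix, ?_, hmin (j + 1) (by omega), ?_⟩
      · have h3 : fz e c ((fz e c)^[j + 1] x) = y := by
          rw [← Function.iterate_succ_apply' (fz e c)]
          exact hk
        rw [← hfix] at h3
        simp only [fz] at h3
        exact add_right_cancel h3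
      · rw [← Function.iterate_succ_apply' (fz e c)]
  · intro hx
    refine ⟨1, 2, by omega, ?_⟩
    have h3 : fz e c x = y := by
      rw [← hfix]
      simp only [fz]
      rw [hx]
    show fz e c x = fz e c (fz e c x)
    rw [h3, hfix]

end

/-- all but finitely many parameters are as described -/
theorem desc_fin {e : ℤ} (he : e ≠ 0) (hE : EXCZ e) (hT : TAILZ e) (K : Type) [Field K]
    [NumberField K] : {c : K | ¬ DESC e c}.Finite := by
  refine Set.Finite.subset (((hE K).union (hT K)).union (Set.finite_singleton 0)) ?_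
  intro c hc
  by_contra hcon
  rw [Set.mem_union, Set.mem_union, not_or, not_or] at hcon
  exact hc (desc_of he (by simpa using hcon.2) hcon.1.1 hcon.1.2)

theorem card_root_le {K : Type} [Field K] {e : ℤ} (he : e ≠ 0) {y : K} (T : Finset K)
    (hT : ∀ x ∈ T, x ^ e = y ^ e) : T.card ≤ e.natAbs := by
  classical
  have h0 : 0 < e.natAbs := Int.natAbs_pos.2 he
  have hsub : T ⊆ (Polynomial.nthRoots e.natAbs (y ^ e.natAbs)).toFinset := by
    intro x hx
    rw [Multiset.mem_toFinset, Polynomial.mem_nthRoots h0]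
    have h1 := hT x hx
    rcases Int.natAbs_eq e with h2 | h2
    · rw [h2, zpow_natCast, zpow_natCast] at h1
      exact h1
    · rw [h2, zpow_neg, zpow_neg, zpow_natCast, zpow_natCast] at h1
      exact inv_injective h1
  exact (Finset.card_le_card hsub).trans ((Multiset.toFinset_card_le _).trans
    (Polynomial.card_nthRoots _ _))

/-- a uniform bound over a number field -/
theorem ubd_of {e : ℤ} (he : 2 ≤ e.natAbs) (K : Type) [Field K] [NumberField K]
    (hD : {c : K | ¬ DESC e c}.Finite) :
    ∃ B : ℕ, ∀ (c : K) (T : Finset K), (∀ x ∈ T, PreZ e c x) → T.card ≤ B := by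
  classical
  have he0 : e ≠ 0 := by
    rintro rfl
    simp at he
  refine ⟨e.natAbs + ∑ c ∈ hD.toFinset, (north he c).toFinset.card, ?_⟩
  intro c T hT
  by_cases hc : DESC e c
  · rcases hc with h | ⟨y, -, -, h⟩
    · have : T = ∅ := by
        rw [Finset.eq_empty_iff_forall_notMem]
        intro x hx
        exact h x (hT x hx)
      rw [this, Finset.card_empty]
      exact Nat.zero_le _
    · exact (card_root_le he0 T (fun x hx => (h x).1 (hT x hx))).trans (Nat.le_add_right _ _)
  · have h1 : T ⊆ (north he c).toFinset := by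
      intro x hx
      rw [Set.Finite.mem_toFinset]
      exact hT x hx
    refine (Finset.card_le_card h1).trans (le_trans ?_ (Nat.le_add_left _ _))
    exact Finset.single_le_sum (f := fun c => (north he c).toFinset.card)
      (fun _ _ => Nat.zero_le _) ((Set.Finite.mem_toFinset _).2 hc)

end Pool.Agent.W2helper83.BT
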