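import Mathlib
import Pool.Agent.W2helper83.BT.NF

/-! The maps `a (x - r) ^ e + s` of the projective line. -/

set_option autoImplicit false

namespace Pool.Agent.W2helper83.BT

open NumberField

/-- the map `x ↦ a (x - r) ^ e + s` of the projective line `K ∪ {∞}` -/
noncomputable def Phi {K : Type} [Field K] (e : ℤ) (a r s : K) : Option K → Option K
  | none => open Classical in if 0 < e then none else some s
  | some x => open Classical in if e < 0 ∧ x = r then none else some (a * (x - r) ^ e + s)

/-- points with finite orbits -/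
def Preper {X : Type} (f : X → X) (x : X) : Prop := ∃ m n : ℕ, m < n ∧ f^[m] x = f^[n] x

section

variable {K : Type} [Field K] {e : ℤ}

/-- the affine map -/
def aff (e : ℤ) (a r s x : K) : K := a * (x - r) ^ e + s

theorem Phi_some {a r s x : K} (h : ¬ (e < 0 ∧ x = r)) :
    Phi e a r s (some x) = some (aff e a r s x) := by
  classical
  simp only [Phi, aff]
  rw [if_neg h]

theorem Phi_some_pos {a r s x : K} (h : e < 0 ∧ x = r) : Phi e a r s (some x) = none := by
  classical
  simp only [Phi]
  rw [if_pos h]

theorem Phi_none {a r s : K} (h : e < 0) : Phi e a r s none = some s := by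
  classical
  simp only [Phi]
  rw [if_neg (by omega)]

/-- one step of the affine map is one or two steps of the map of the projective line -/
theorem step_aff (he : e ≠ 0) (a r s x : K) :
    ∃ j : ℕ, 0 < j ∧ (Phi e a r s)^[j] (some x) = some (aff e a r s x) := by
  by_cases h : e < 0 ∧ x = r
  · refine ⟨2, by norm_num, ?_⟩
    show Phi e a r s (Phi e a r s (some x)) = _
    rw [Phi_some_pos h, Phi_none h.1, aff, h.2, sub_self, zero_zpow _ he, mul_zero, zero_add]
  · exact ⟨1, one_pos, Phi_some h⟩

theorem iter_aff (he : e ≠ 0) (a r s x : K) :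
    ∃ N : ℕ → ℕ, StrictMono N ∧ ∀ k, (Phi e a r s)^[N k] (some x) =
      some ((aff e a r s)^[k] x) := by
  choose j hj0 hj using fun y : K => step_aff he a r s y
  let N : ℕ → ℕ := fun k => ∑ i ∈ Finset.range k, j ((aff e a r s)^[i] x)
  refine ⟨N, ?_, ?_⟩
  · apply strictMono_nat_of_lt_succ
    intro k
    simp only [N]
    rw [Finset.sum_range_succ]
    have := hj0 ((aff e a r s)^[k] x)
    omega
  · intro k
    induction k with
    | zero => simp [N]
    | succ k ih =>
      have h1 : N (k + 1) = j ((aff e a r s)^[k] x) + N k := by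
        simp only [N]
        rw [Finset.sum_range_succ, Nat.add_comm]
      rw [h1, Function.iterate_add_apply, ih, hj, Function.iterate_succ_apply' (aff e a r s)]

theorem preper_iff (he : e ≠ 0) (a r s x : K) :
    Preper (Phi e a r s) (some x) ↔ Preper (aff e a r s) x := by
  obtain ⟨N, hN, hNx⟩ := iter_aff he a r s x
  constructor
  · rintro ⟨m, n, hmn, h⟩
    -- the orbit is finite
    have hfin : (Set.range fun k : ℕ => (Phi e a r s)^[k] (some x)).Finite := by
      have hsub : (Set.range fun k : ℕ => (Phi e a r s)^[k] (some x)) ⊆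
          (fun k : ℕ => (Phi e a r s)^[k] (some x)) '' (Set.Iio n) := by
        rintro _ ⟨k, rfl⟩
        induction k using Nat.strong_induction_on with
        | _ k ih =>
          by_cases hk : k < n
          · exact ⟨k, hk, rfl⟩
          · have h1 := ih (m + (k - n)) (by omega)
            have h2 : (Phi e a r s)^[m + (k - n)] (some x) = (Phi e a r s)^[k] (some x) := by
              rw [Nat.add_comm m, Function.iterate_add_apply, h, ← Function.iterate_add_apply]
              congr 1
              omega
            simp only at h1 ⊢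
            rwa [h2] at h1
      exact ((Set.finite_Iio n).image _).subset hsub
    by_contra hcon
    have hinj : Function.Injective fun k : ℕ => (Phi e a r s)^[N k] (some x) := by
      intro i j hij
      simp only at hij
      rw [hNx, hNx] at hij
      have h1 : (aff e a r s)^[i] x = (aff e a r s)^[j] x := Option.some.inj hij
      by_contra hne
      rcases lt_or_gt_of_ne hne with h2 | h2
      · exact hcon ⟨i, j, h2, h1⟩
      · exact hcon ⟨j, i, h2, h1.symm⟩
    have hinf := Set.infinite_range_of_injective hinj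
    apply hinf
    refine hfin.subset ?_
    rintro _ ⟨k, rfl⟩
    exact ⟨N k, rfl⟩
  · rintro ⟨m, n, hmn, h⟩
    refine ⟨N m, N n, hN hmn, ?_⟩
    rw [hNx, hNx, h]

theorem aff_one (c x : K) : aff e 1 0 c x = fz e c x := by
  rw [aff, fz, sub_zero, one_mul]

theorem aff_one' (c : K) : aff e 1 0 c = fz e c := funext (aff_one c)

theorem preper_some (he : e ≠ 0) (c x : K) :
    Preper (Phi e 1 0 c) (some x) ↔ PreZ e c x := by
  rw [preper_iff he, aff_one']
  rfl

/-- for negative exponents infinity has an infinite orbit if `DESC` holds -/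
theorem infty_neg (he : e < 0) {c : K} (h : DESC e c) : ¬ Preper (Phi e 1 0 c) none := by
  intro h1
  -- `0` is mapped to infinity
  have h2 : Preper (Phi e 1 0 c) (some (0 : K)) := by
    obtain ⟨m, n, hmn, h3⟩ := h1
    refine ⟨m + 1, n + 1, by omega, ?_⟩
    rw [Function.iterate_succ_apply, Function.iterate_succ_apply, Phi_some_pos ⟨he, rfl⟩]
    exact h3
  rw [preper_some he.ne] at h2
  rcases h with h | ⟨y, hy, -, h⟩
  · exact h 0 h2
  · have h3 := (h 0).1 h2
    rw [zero_zpow _ he.ne] at h3
    exact zpow_ne_zero e hy h3.symm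

/-- the conjugation -/
theorem conj_aff {L : Type} [Field L] (i : K →+* L) {a r s : K} {β : L} (hβ : β ≠ 0)
    (h : β ^ (e - 1) = i a) (x : K) :
    β * (i (aff e a r s x) - i r) = fz e (β * (i s - i r)) (β * (i x - i r)) := by
  rw [aff, fz, mul_zpow, map_add, map_mul, map_zpow₀, map_sub, ← h, zpow_sub_one₀ hβ]
  field_simp
  ring

theorem iter_conj {L : Type} [Field L] (i : K →+* L) {a r s : K} {β : L} (hβ : β ≠ 0)
    (h : β ^ (e - 1) = i a) (x : K) (n : ℕ) :
    β * (i ((aff e a r s)^[n] x) - i r) = (fz e (β * (i s - i r)))^[n] (β * (i x - i r)) := by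
  induction n with
  | zero => rfl
  | succ n ih => rw [Function.iterate_succ_apply', Function.iterate_succ_apply', ← ih, conj_aff i hβ h]

end

/-- the finite points -/
theorem card_opt {K : Type} {f : Option K → Option K} {B : ℕ}
    (h : ∀ T : Finset K, (∀ x ∈ T, Preper f (some x)) → T.card ≤ B) (T : Finset (Option K))
    (hT : ∀ P ∈ T, Preper f P) : T.card ≤ B + 1 := by
  classical
  set T' : Finset K := T.preimage (fun x : K => (some x : Option K))
    (Option.some_injective K).injOn with hT'
  have hcard : T.card ≤ T'.card + 1 := by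
    have hsub : T ⊆ insert none (T'.image fun x : K => (some x : Option K)) := by
      intro P hP
      rcases P with _ | x
      · exact Finset.mem_insert_self _ _
      · refine Finset.mem_insert_of_mem (Finset.mem_image_of_mem _ ?_)
        rw [hT', Finset.mem_preimage]
        exact hP
    refine (Finset.card_le_card hsub).trans ((Finset.card_insert_le _ _).trans ?_)
    exact Nat.add_le_add_right Finset.card_image_le _
  refine hcard.trans (Nat.add_le_add_right (h T' ?_) _)
  intro x hx
  rw [hT', Finset.mem_preimage] at hx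
  exact hT _ hx

/-- a finitely generated group of leading coefficients -/
theorem grp_of (hR : ROOTS) {e : ℤ} (he1 : e ≠ 1) (he0 : e ≠ 0)
    (hU : ∀ (L : Type) [Field L] [NumberField L], ∃ B : ℕ, ∀ (c : L) (T : Finset L),
      (∀ x ∈ T, PreZ e c x) → T.card ≤ B)
    (K : Type) [Field K] [NumberField K] (Γ : Subgroup Kˣ) (hΓ : Γ.FG) :
    ∃ B : ℕ, ∀ a ∈ Γ, ∀ (r s : K) (T : Finset (Option K)),
      (∀ P ∈ T, Preper (Phi e (a : K) r s) P) → T.card ≤ B := by
  classical
  obtain ⟨S, hS⟩ := hΓ
  have hm : 0 < (e - 1).natAbs := Int.natAbs_pos.2 (sub_ne_zero.2 he1)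
  obtain ⟨L, fL, nL, aL, hL⟩ := hR K (S.image fun u : Kˣ => (u : K)) (e - 1).natAbs hm
  have hroot : ∀ a ∈ Γ, ∃ β : Lˣ, (β : L) ^ (e - 1) = algebraMap K L (a : K) := by
    intro a ha
    rw [← hS] at ha
    induction ha using Subgroup.closure_induction with
    | mem x hx =>
      obtain ⟨θ, hθ⟩ := hL (x : K) (Finset.mem_image_of_mem _ hx)
      have hθ0 : θ ≠ 0 := by
        rintro rfl
        rw [zero_pow hm.ne'] at hθ
        exact (map_ne_zero (algebraMap K L)).2 x.ne_zero hθ.symm
      rcases Int.natAbs_eq (e - 1) with h2 | h2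
      · refine ⟨Units.mk0 θ hθ0, ?_⟩
        rw [h2, zpow_natCast]
        simpa using hθ
      · refine ⟨Units.mk0 θ⁻¹ (inv_ne_zero hθ0), ?_⟩
        rw [h2, zpow_neg, zpow_natCast]
        simpa using hθ
    | one => exact ⟨1, by simp⟩
    | mul x y _ _ hx hy =>
      obtain ⟨β, hβ⟩ := hx
      obtain ⟨γ, hγ⟩ := hy
      exact ⟨β * γ, by rw [Units.val_mul, mul_zpow, hβ, hγ, Units.val_mul, map_mul]⟩
    | inv x _ hx =>
      obtain ⟨β, hβ⟩ := hx
      exact ⟨β⁻¹, by rw [Units.val_inv_eq_inv_val, inv_zpow, hβ, Units.val_inv_eq_inv_val, map_inv₀]⟩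
  obtain ⟨B, hB⟩ := hU L
  refine ⟨B + 1, ?_⟩
  intro a ha r s T hT
  obtain ⟨β, hβ⟩ := hroot a ha
  have hβ0 : (β : L) ≠ 0 := β.ne_zero
  refine card_opt (fun T' hT' => ?_) T hT
  have hinj : Function.Injective fun x : K => (β : L) * (algebraMap K L x - algebraMap K L r) := by
    intro x y hxy
    have h1 := mul_left_cancel₀ hβ0 hxy
    exact (algebraMap K L).injective (sub_left_injective h1)
  rw [← Finset.card_image_of_injective T' hinj]
  apply hB (β * (algebraMap K L s - algebraMap K L r))
  intro z hz
  rw [Finset.mem_image] at hz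
  obtain ⟨x, hx, rfl⟩ := hz
  obtain ⟨m, n, hmn, h⟩ := (preper_iff he0 (a : K) r s x).1 (hT' _ hx)
  refine ⟨m, n, hmn, ?_⟩
  rw [← iter_conj (algebraMap K L) hβ0 hβ, ← iter_conj (algebraMap K L) hβ0 hβ, h]

end Pool.Agent.W2helper83.BT
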