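import Mathlib
import Pool.Agent.W2helper83.BT.Defs2

/-! The maps `x ^ (-d) + c` over `ℚ` for odd `d`: homeomorphisms of the circle. -/

set_option autoImplicit false

namespace Pool.Agent.W2helper83.BT

open Finset Polynomial

theorem fz_neg (d : ℕ) (c x : ℚ) : fz (-(d : ℤ)) c x = (x ^ d)⁻¹ + c := by
  rw [fz, zpow_neg, zpow_natCast]

theorem odd_inj {d : ℕ} (ho : Odd d) (c : ℚ) : Function.Injective (fz (-(d : ℤ)) c) := by
  intro x y h
  rw [fz_neg, fz_neg] at h
  have h1 : x ^ d = y ^ d := inv_injective (add_right_cancel h)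
  exact ho.strictMono_pow.injective h1

theorem per_of_pre {d : ℕ} (ho : Odd d) {c x : ℚ} (h : PreZ (-(d : ℤ)) c x) :
    PerZ (-(d : ℤ)) c x := by
  obtain ⟨m, n, hmn, h⟩ := h
  refine ⟨n - m, by omega, ?_⟩
  have h1 : (fz (-(d : ℤ)) c)^[m] x = (fz (-(d : ℤ)) c)^[m] ((fz (-(d : ℤ)) c)^[n - m] x) := by
    rw [← Function.iterate_add_apply, Nat.add_sub_cancel' hmn.le]
    exact h
  exact ((odd_inj ho c).iterate m h1).symm

/-- the map is decreasing on positive numbers -/
theorem anti_pos {d : ℕ} (hd : 0 < d) (c : ℚ) {x y : ℚ} (hx : 0 < x) (hxy : x < y) :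
    fz (-(d : ℤ)) c y < fz (-(d : ℤ)) c x := by
  rw [fz_neg, fz_neg]
  have h1 : x ^ d < y ^ d := pow_lt_pow_left₀ hxy hx.le hd.ne'
  have h2 : (y ^ d)⁻¹ < (x ^ d)⁻¹ := (inv_lt_inv₀ (pow_pos (hx.trans hxy) d) (pow_pos hx d)).2 h1
  linarith

theorem fz_neg_neg {d : ℕ} (ho : Odd d) (c x : ℚ) :
    fz (-(d : ℤ)) (-c) (-x) = -fz (-(d : ℤ)) c x := by
  rw [fz_neg, fz_neg, ho.neg_pow, inv_neg]
  ring

/-- the map is decreasing on negative numbers -/
theorem anti_neg {d : ℕ} (ho : Odd d) (hd : 0 < d) (c : ℚ) {x y : ℚ} (hy : y < 0) (hxy : x < y) :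
    fz (-(d : ℤ)) c y < fz (-(d : ℤ)) c x := by
  have h1 := anti_pos hd (-c) (x := -y) (y := -x) (by linarith) (by linarith)
  rw [fz_neg_neg ho, fz_neg_neg ho] at h1
  linarith

/-- If a periodic orbit lies in a set where the map is decreasing, its period divides two. -/
theorem two_of_anti {f : ℚ → ℚ} {x : ℚ} {P : ℚ → Prop} (hP : ∀ k : ℕ, P (f^[k] x))
    (hf : ∀ a b : ℚ, P a → P b → a < b → f b < f a) (h : ∃ n : ℕ, 0 < n ∧ f^[n] x = x) :
    f (f x) = x := by
  obtain ⟨n, hn, hx⟩ := h
  by_contra hne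
  have hx2 : (f^[2])^[n] x = x := by
    rw [← Function.iterate_mul, Nat.mul_comm, Function.iterate_mul]
    have : (f^[n])^[2] x = x := by
      show f^[n] (f^[n] x) = x
      rw [hx, hx]
    exact this
  have hit : ∀ k : ℕ, (f^[2])^[k] x = f^[2 * k] x := fun k => by rw [← Function.iterate_mul]
  have hf1 : ∀ k, f (f^[2 * k] x) = f^[2 * k + 1] x := fun k =>
    (Function.iterate_succ_apply' f (2 * k) x).symm
  have hf2 : ∀ k, f (f^[2 * k + 1] x) = f^[2 * (k + 1)] x := fun k =>
    (Function.iterate_succ_apply' f (2 * k + 1) x).symm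
  have step : ∀ k, (f^[2 * k] x < f^[2 * (k + 1)] x → f^[2 * (k + 1)] x < f^[2 * (k + 1 + 1)] x) ∧
      (f^[2 * (k + 1)] x < f^[2 * k] x → f^[2 * (k + 1 + 1)] x < f^[2 * (k + 1)] x) := by
    intro k
    constructor
    · intro h1
      have h2 := hf _ _ (hP _) (hP _) h1
      rw [hf1, hf1] at h2
      have h3 := hf _ _ (hP _) (hP _) h2
      rw [hf2, hf2] at h3
      exact h3
    · intro h1
      have h2 := hf _ _ (hP _) (hP _) h1
      rw [hf1, hf1] at h2
      have h3 := hf _ _ (hP _) (hP _) h2
      rw [hf2, hf2] at h3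
      exact h3
  have h0 : f^[2 * 0] x = x := rfl
  have h2' : f^[2 * (0 + 1)] x = f (f x) := rfl
  rcases lt_or_gt_of_ne hne with h1 | h1
  · have hm : StrictAnti fun k : ℕ => f^[2 * k] x := by
      apply strictAnti_nat_of_succ_lt
      intro k
      induction k with
      | zero => rw [h0, h2']; exact h1
      | succ k ih => exact (step k).2 ih
    have := hm hn
    simp only [← hit] at this
    rw [hx2] at this
    simp at this
  · have hm : StrictMono fun k : ℕ => f^[2 * k] x := by
      apply strictMono_nat_of_lt_succ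
      intro k
      induction k with
      | zero => rw [h0, h2']; exact h1
      | succ k ih => exact (step k).1 ih
    have := hm hn
    simp only [← hit] at this
    rw [hx2] at this
    simp at this

/-- the periodic points have period one or two -/
theorem two_periodic {d : ℕ} (ho : Odd d) (hd : 0 < d) {c x : ℚ} (h : PerZ (-(d : ℤ)) c x) :
    fz (-(d : ℤ)) c (fz (-(d : ℤ)) c x) = x := by
  have main : ∀ {c x : ℚ}, 0 ≤ c → PerZ (-(d : ℤ)) c x →
      fz (-(d : ℤ)) c (fz (-(d : ℤ)) c x) = x := by
    intro c x hc h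
    set f := fz (-(d : ℤ)) c with hf
    have hpos : ∀ y : ℚ, 0 < y → 0 < f y := by
      intro y hy
      rw [hf, fz_neg]
      have : 0 < (y ^ d)⁻¹ := inv_pos.2 (pow_pos hy d)
      linarith
    obtain ⟨n, hn, hx⟩ := id h
    have hper : ∀ j k : ℕ, f^[j + n * k] x = f^[j] x := by
      intro j k
      induction k with
      | zero => rw [Nat.mul_zero, Nat.add_zero]
      | succ k ih =>
        rw [Nat.mul_succ, ← Nat.add_assoc, Function.iterate_add_apply, hx, ih]
    by_cases hex : ∃ k, 0 < f^[k] x
    · -- the orbit is positive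
      obtain ⟨k, hk⟩ := hex
      have hall : ∀ j, 0 < f^[k + j] x := by
        intro j
        induction j with
        | zero => exact hk
        | succ j ih =>
          rw [← Nat.add_assoc, Function.iterate_succ_apply']
          exact hpos _ ih
      refine two_of_anti (P := fun y => 0 < y) (fun j => ?_) (fun a b ha _ hab => ?_) h
      · have hle : k ≤ j + n * k := by nlinarith
        have := hall (j + n * k - k)
        rw [Nat.add_sub_cancel' hle, hper] at this
        exact this
      · exact anti_pos hd c ha hab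
    · push Not at hex
      by_cases hz : ∃ k, f^[k] x = 0
      · -- then `c = 0` and the orbit is `0`
        obtain ⟨k, hk⟩ := hz
        have hf0 : f 0 = c := by
          rw [hf, fz_neg, zero_pow hd.ne']; simp
        have h1 := hex (k + 1)
        rw [Function.iterate_succ_apply', hk, hf0] at h1
        have hc0 : c = 0 := le_antisymm h1 hc
        have hall : ∀ j, f^[k + j] x = 0 := by
          intro j
          induction j with
          | zero => exact hk
          | succ j ih => rw [← Nat.add_assoc, Function.iterate_succ_apply', ih, hf0, hc0]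
        have hle : k ≤ n * k := by nlinarith
        have h2 := hall (n * k - k)
        rw [Nat.add_sub_cancel' hle] at h2
        have h3 := hper 0 k
        rw [Nat.zero_add, h2] at h3
        have hx0 : x = 0 := by simpa using h3.symm
        rw [hx0, hf0, hc0, hf0, hc0]
      · push Not at hz
        refine two_of_anti (P := fun y => y < 0) (fun j => ?_) (fun a b _ hb hab => ?_) h
        · exact lt_of_le_of_ne (hex j) (hz j)
        · exact anti_neg ho hd c hb hab
  rcases le_or_gt 0 c with hc | hc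
  · exact main hc h
  · have hconj : ∀ (k : ℕ) (x : ℚ), (fz (-(d : ℤ)) (-c))^[k] (-x) = -(fz (-(d : ℤ)) c)^[k] x := by
      intro k
      induction k with
      | zero => intro x; rfl
      | succ k ih =>
        intro x
        rw [Function.iterate_succ_apply, Function.iterate_succ_apply, fz_neg_neg ho, ih]
    have h1 : PerZ (-(d : ℤ)) (-c) (-x) := by
      obtain ⟨n, hn, hx⟩ := h
      exact ⟨n, hn, by rw [hconj, hx]⟩
    have h2 := main (by linarith) h1
    rw [fz_neg_neg ho, fz_neg_neg ho] at h2
    linarith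

/-- **The case of odd negative exponents.** -/
theorem odd_neg (d : ℕ) (ho : Odd d) (hd2 : 2 ≤ d) (c : ℚ) (T : Finset ℚ)
    (hT : ∀ x ∈ T, PreZ (-(d : ℤ)) c x) : T.card ≤ d ^ 2 + 3 := by
  classical
  have hd : 0 < d := by omega
  set f := fz (-(d : ℤ)) c with hf
  -- the points with `x = 0` or `f x = 0`
  set T0 := T.filter (fun x => x = 0) with hT0
  set T1 := T.filter (fun x => f x = 0) with hT1
  set T2 := T.filter (fun x => x ≠ 0 ∧ f x ≠ 0) with hT2
  have hcov : T ⊆ T0 ∪ T1 ∪ T2 := by
    intro x hx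
    simp only [hT0, hT1, hT2, mem_union, mem_filter]
    by_cases h1 : x = 0
    · exact Or.inl (Or.inl ⟨hx, h1⟩)
    · by_cases h2 : f x = 0
      · exact Or.inl (Or.inr ⟨hx, h2⟩)
      · exact Or.inr ⟨hx, h1, h2⟩
  have hc0 : T0.card ≤ 1 := card_le_one.2 (fun a ha b hb => by
    rw [hT0, mem_filter] at ha hb
    rw [ha.2, hb.2])
  have hc1 : T1.card ≤ 1 := card_le_one.2 (fun a ha b hb => by
    rw [hT1, mem_filter] at ha hb
    exact odd_inj ho c (ha.2.trans hb.2.symm))
  set Q : ℚ[X] := X ^ (d ^ 2) + (C c - X) * (1 + C c * X ^ d) ^ d with hQ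
  have hlin : (1 + C c * X ^ d : ℚ[X]).natDegree ≤ d := by
    refine (natDegree_add_le _ _).trans (max_le (by simp) ?_)
    exact natDegree_C_mul_X_pow_le c d
  have hQne : Q ≠ 0 := by
    intro h0
    by_cases hc : c = 0
    · have h1 := congrArg (eval 2) h0
      simp only [hQ, hc, eval_add, eval_pow, eval_X, eval_mul, eval_C, eval_sub, eval_one,
        eval_zero, map_zero, zero_mul, add_zero, one_pow, mul_one, zero_sub] at h1
      have h2 : (2 : ℚ) ^ 4 ≤ 2 ^ (d ^ 2) :=
        pow_le_pow_right₀ (by norm_num) (by nlinarith)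
      simp at h1
      linarith
    · have hd1 : (C c * X ^ d : ℚ[X]).natDegree = d := natDegree_C_mul_X_pow d c hc
      have hd2 : (1 + C c * X ^ d : ℚ[X]).natDegree = d := by
        rw [natDegree_add_eq_right_of_natDegree_lt, hd1]
        rw [hd1, natDegree_one]; omega
      have hd3 : ((1 + C c * X ^ d : ℚ[X]) ^ d).natDegree = d * d := by
        rw [natDegree_pow, hd2]
      have hd4 : (C c - X : ℚ[X]).natDegree = 1 := by
        rw [natDegree_sub_eq_right_of_natDegree_lt] <;> simp
      have hne2 : (1 + C c * X ^ d : ℚ[X]) ≠ 0 := by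
        intro h; rw [h, natDegree_zero] at hd2; omega
      have hne4 : (C c - X : ℚ[X]) ≠ 0 := by
        intro h; rw [h, natDegree_zero] at hd4; omega
      have hd5 : ((C c - X) * (1 + C c * X ^ d : ℚ[X]) ^ d).natDegree = 1 + d * d := by
        rw [natDegree_mul hne4 (pow_ne_zero _ hne2), hd4, hd3]
      have h1 : Q.natDegree = 1 + d * d := by
        rw [hQ, natDegree_add_eq_right_of_natDegree_lt, hd5]
        rw [hd5, natDegree_X_pow, sq]; omega
      rw [h0, natDegree_zero] at h1
      omega
  have hdeg : Q.natDegree ≤ d ^ 2 + 1 := by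
    rw [hQ]
    refine (natDegree_add_le _ _).trans (max_le ?_ ?_)
    · rw [natDegree_X_pow]; omega
    · refine natDegree_mul_le.trans ?_
      have e1 : (C c - X : ℚ[X]).natDegree ≤ 1 :=
        (natDegree_sub_le _ _).trans (max_le (by simp) (by simp))
      have e2 : ((1 + C c * X ^ d : ℚ[X]) ^ d).natDegree ≤ d * d :=
        natDegree_pow_le.trans (Nat.mul_le_mul_left d hlin)
      rw [sq]; omega
  have hc2 : T2.card ≤ d ^ 2 + 1 := by
    have hsub : T2 ⊆ Q.roots.toFinset := by
      intro x hx
      rw [hT2, mem_filter] at hx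
      obtain ⟨hx, hx0, hfx0⟩ := hx
      have h1 := two_periodic ho hd (per_of_pre ho (hT x hx))
      rw [Multiset.mem_toFinset, mem_roots hQne]
      simp only [hQ, IsRoot.def, eval_add, eval_mul, eval_pow, eval_X, eval_C, eval_sub, eval_one]
      have hz : f x = (x ^ d)⁻¹ + c := fz_neg d c x
      have hz2 : x = ((f x) ^ d)⁻¹ + c := by rw [← fz_neg d c (f x)]; exact h1.symm
      have e1 : 1 + c * x ^ d = x ^ d * f x := by
        rw [hz]; field_simp
      rw [e1, mul_pow]
      have e2 : (c - x) * (f x) ^ d = -1 := by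
        have h3 : (f x) ^ d ≠ 0 := pow_ne_zero _ hfx0
        have h4 : c - x = -((f x) ^ d)⁻¹ := by linarith
        rw [h4]; field_simp
      have e3 : (x ^ d) ^ d = x ^ (d ^ 2) := by rw [← pow_mul, sq]
      rw [e3]
      linear_combination x ^ (d ^ 2) * e2
    exact (card_le_card hsub).trans ((Multiset.toFinset_card_le _).trans
      ((card_roots' Q).trans hdeg))
  have h1 := card_le_card hcov
  have h2 := card_union_le (T0 ∪ T1) T2
  have h3 := card_union_le T0 T1
  omega

end Pool.Agent.W2helper83.BT
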