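import Mathlib
import Pool.Agent.H437R2.Man.MWPar

/-! Multiplication by three on `y ^ 2 = (x + e1) (x + e2) (x + e3)`. -/

set_option autoImplicit false

open WeierstrassCurve

namespace Pool.Agent.W2helper83.BT

open Pool.Agent.H437R2.Man.MW (crv Pt crv_eqn crv_nonsing crv_ell neg_mk)

section poly

variable {F : Type} [Field F]

/-- the cubic -/
def fe (e1 e2 e3 x : F) : F := (x + e1) * (x + e2) * (x + e3)

/-- its derivative -/
def fd (e1 e2 e3 x : F) : F := 3 * x ^ 2 + 2 * (e1 + e2 + e3) * x + (e1 * e2 + e1 * e3 + e2 * e3)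

/-- the third division polynomial -/
def ps (e1 e2 e3 x : F) : F := 4 * fe e1 e2 e3 x * (3 * x + (e1 + e2 + e3)) - fd e1 e2 e3 x ^ 2

/-- the numerator of `x (3 R)` -/
def ph (e1 e2 e3 x : F) : F := x * ps e1 e2 e3 x ^ 2 -
  8 * fe e1 e2 e3 x * fd e1 e2 e3 x * ps e1 e2 e3 x + 64 * fe e1 e2 e3 x ^ 3

end poly

section pts

variable {F : Type} [Field F] [CharZero F] [DecidableEq F] {e1 e2 e3 : F}

theorem negY_eq (x y : F) : (crv e1 e2 e3).toAffine.negY x y = -y := by
  simp [Affine.negY, crv]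

theorem slope_self {r s : F} (hs : s ≠ 0) :
    (crv e1 e2 e3).toAffine.slope r r s s = fd e1 e2 e3 r / (2 * s) := by
  rw [Affine.slope_of_Y_ne rfl (by
    rw [negY_eq]
    intro h
    apply hs
    have : (2 : F) * s = 0 := by linear_combination h
    rcases mul_eq_zero.1 this with h1 | h1
    · exact absurd h1 two_ne_zero
    · exact h1)]
  rw [negY_eq]
  simp only [crv, fd]
  congr 1 <;> ring

/-- the double of a point -/
theorem double_some {r s : F} (h : (crv e1 e2 e3).toAffine.Nonsingular r s) (hs : s ≠ 0) :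
    ∃ (x2 y2 : F) (h2 : (crv e1 e2 e3).toAffine.Nonsingular x2 y2),
      (2 : ℕ) • (Affine.Point.some r s h) = Affine.Point.some x2 y2 h2 ∧
      x2 = (fd e1 e2 e3 r / (2 * s)) ^ 2 - (e1 + e2 + e3) - 2 * r ∧
      y2 = -(fd e1 e2 e3 r / (2 * s) * (x2 - r) + s) := by
  have hne : s ≠ (crv e1 e2 e3).toAffine.negY r s := by
    rw [negY_eq]
    intro h
    apply hs
    have : (2 : F) * s = 0 := by linear_combination h
    rcases mul_eq_zero.1 this with h1 | h1
    · exact absurd h1 two_ne_zero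
    · exact h1
  rw [two_nsmul, Affine.Point.add_self_of_Y_ne hne]
  refine ⟨_, _, _, rfl, ?_, ?_⟩
  · rw [slope_self hs, Affine.addX]
    simp only [crv]
    ring
  · rw [slope_self hs, Affine.addY, negY_eq, Affine.negAddY]

theorem two_torsion {r : F} (h : (crv e1 e2 e3).toAffine.Nonsingular r 0) :
    (2 : ℕ) • (Affine.Point.some r 0 h) = 0 := by
  rw [two_nsmul, Affine.Point.add_self_of_Y_eq (by rw [negY_eq, neg_zero])]

/-- `x (2 R) - x (R)` -/
theorem x2_sub {r s : F} (h : s ^ 2 = fe e1 e2 e3 r) (hs : s ≠ 0) :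
    (fd e1 e2 e3 r / (2 * s)) ^ 2 - (e1 + e2 + e3) - 2 * r - r =
      -ps e1 e2 e3 r / (4 * fe e1 e2 e3 r) := by
  have hf : fe e1 e2 e3 r ≠ 0 := by rw [← h]; exact pow_ne_zero _ hs
  rw [div_pow, mul_pow, h]
  simp only [ps]
  field_simp
  ring

theorem triple_some {r s : F} (h : (crv e1 e2 e3).toAffine.Nonsingular r s)
    (hp : ps e1 e2 e3 r ≠ 0) :
    ∃ (b : F) (h3 : (crv e1 e2 e3).toAffine.Nonsingular (ph e1 e2 e3 r / ps e1 e2 e3 r ^ 2) b),
      (3 : ℕ) • (Affine.Point.some r s h) = Affine.Point.some _ b h3 := by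
  have heq : s ^ 2 = fe e1 e2 e3 r := crv_eqn.1 h.1
  by_cases hs : s = 0
  · subst hs
    have hf : fe e1 e2 e3 r = 0 := by rw [← heq]; ring
    have e : ph e1 e2 e3 r / ps e1 e2 e3 r ^ 2 = r := by
      rw [div_eq_iff (pow_ne_zero _ hp), ph, hf]
      ring
    refine ⟨0, by rw [e]; exact h, ?_⟩
    rw [succ_nsmul, two_torsion h, zero_add]
    simp only [e]
  · obtain ⟨x2, y2, h2, e2', hx2, hy2⟩ := double_some h hs
    have hf : fe e1 e2 e3 r ≠ 0 := by rw [← heq]; exact pow_ne_zero _ hs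
    have hsub : x2 - r = -ps e1 e2 e3 r / (4 * fe e1 e2 e3 r) := by
      rw [hx2]; exact x2_sub heq hs
    have hne : x2 ≠ r := by
      intro h0
      rw [h0, sub_self] at hsub
      have : -ps e1 e2 e3 r = 0 := by
        have h4 : (4 : F) * fe e1 e2 e3 r ≠ 0 := mul_ne_zero (by norm_num) hf
        rw [eq_comm, div_eq_zero_iff] at hsub
        rcases hsub with h5 | h5
        · exact h5
        · exact absurd h5 h4
      exact hp (neg_eq_zero.1 this)
    have hsl : (crv e1 e2 e3).toAffine.slope x2 r y2 s =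
        -(fd e1 e2 e3 r / (2 * s)) + 8 * fe e1 e2 e3 r * s / ps e1 e2 e3 r := by
      rw [Affine.slope_of_X_ne hne, hy2, hsub]
      field_simp
      ring
    have hX : (crv e1 e2 e3).toAffine.addX x2 r ((crv e1 e2 e3).toAffine.slope x2 r y2 s) =
        ph e1 e2 e3 r / ps e1 e2 e3 r ^ 2 := by
      rw [hsl, Affine.addX, hx2]
      simp only [crv, ph]
      field_simp
      have h2' : s ^ 2 = fe e1 e2 e3 r := heq
      have h4' : s ^ 4 = fe e1 e2 e3 r ^ 2 := by rw [← h2']; ring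
      ring_nf
      simp only [h2', h4']
      ring_nf
    have hn := Affine.nonsingular_add h2 h (fun hxy => hne hxy.1)
    rw [succ_nsmul, e2', Affine.Point.add_of_X_ne hne]
    refine ⟨(crv e1 e2 e3).toAffine.addY x2 r y2 ((crv e1 e2 e3).toAffine.slope x2 r y2 s),
      by rw [← hX]; exact hn, ?_⟩
    simp only [hX]

theorem triple_zero {r s : F} (h : (crv e1 e2 e3).toAffine.Nonsingular r s)
    (hf : fe e1 e2 e3 r ≠ 0) (hp : ps e1 e2 e3 r = 0) :
    (3 : ℕ) • (Affine.Point.some r s h) = 0 := by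
  have heq : s ^ 2 = fe e1 e2 e3 r := crv_eqn.1 h.1
  have hs : s ≠ 0 := by
    rintro rfl
    apply hf
    rw [← heq]; ring
  obtain ⟨x2, y2, h2, e2', hx2, hy2⟩ := double_some h hs
  have hsub : x2 - r = 0 := by
    rw [hx2, x2_sub heq hs, hp]; simp
  have hy : y2 = (crv e1 e2 e3).toAffine.negY r s := by
    rw [negY_eq, hy2, hsub]; ring
  rw [succ_nsmul, e2']
  exact Affine.Point.add_of_Y_eq (sub_eq_zero.1 hsub) hy

end pts

end Pool.Agent.W2helper83.BT
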