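import Mathlib
import Pool.Agent.W2helper83.BT.Triple

/-! Valuations of `r - ρ_j` for `3 R = P - Q`, where `x (P) - x (Q)` is a square. -/

set_option autoImplicit false

namespace Pool.Agent.W2helper83.BT

/-- `ρ_1, …, ρ_4` are the abscissas of the points of order three. -/
structure Rho {F : Type} [Field F] (e1 e2 e3 r1 r2 r3 r4 : F) : Prop where
  h1 : 4 * (e1 + e2 + e3) = -3 * (r1 + r2 + r3 + r4)
  h2 : 2 * (e1 * e2 + e1 * e3 + e2 * e3) =
    r1 * r2 + r1 * r3 + r1 * r4 + r2 * r3 + r2 * r4 + r3 * r4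
  h3 : 4 * (e1 * e2 * e3) = -(r1 * r2 * r3 + r1 * r2 * r4 + r1 * r3 * r4 + r2 * r3 * r4)
  h4 : 4 * (e1 + e2 + e3) * (e1 * e2 * e3) - (e1 * e2 + e1 * e3 + e2 * e3) ^ 2 =
    3 * (r1 * r2 * r3 * r4)

section field

variable {F : Type} [Field F] {e1 e2 e3 r1 r2 r3 r4 : F}

theorem ps_expand (x : F) : ps e1 e2 e3 x = 3 * x ^ 4 + 4 * (e1 + e2 + e3) * x ^ 3 +
    6 * (e1 * e2 + e1 * e3 + e2 * e3) * x ^ 2 + 12 * (e1 * e2 * e3) * x +
    (4 * (e1 + e2 + e3) * (e1 * e2 * e3) - (e1 * e2 + e1 * e3 + e2 * e3) ^ 2) := by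
  simp only [ps, fe, fd]
  ring

theorem Rho.eq (h : Rho e1 e2 e3 r1 r2 r3 r4) (x : F) :
    ps e1 e2 e3 x = 3 * ((x - r1) * (x - r2) * (x - r3) * (x - r4)) := by
  rw [ps_expand]
  linear_combination h.h1 * x ^ 3 + 3 * h.h2 * x ^ 2 + 3 * h.h3 * x + h.h4

/-- the cubic and the division polynomial are coprime -/
theorem ps_ne_zero (h12 : e1 ≠ e2) (h13 : e1 ≠ e3) (h23 : e2 ≠ e3) {x : F}
    (hx : fe e1 e2 e3 x = 0) : ps e1 e2 e3 x ≠ 0 := by
  intro h
  rw [ps, hx] at h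
  have hd : fd e1 e2 e3 x = 0 := by
    have : fd e1 e2 e3 x ^ 2 = 0 := by linear_combination -h
    exact pow_eq_zero_iff (two_ne_zero) |>.1 this
  have a12 := sub_ne_zero.2 h12
  have a13 := sub_ne_zero.2 h13
  have a23 := sub_ne_zero.2 h23
  rcases mul_eq_zero.1 hx with h1 | h1
  · rcases mul_eq_zero.1 h1 with h2 | h2
    · have : (e1 - e2) * (e1 - e3) = 0 := by
        have e : x = -e1 := by linear_combination h2
        rw [e, fd] at hd
        linear_combination hd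
      rcases mul_eq_zero.1 this with h3 | h3
      · exact a12 h3
      · exact a13 h3
    · have : (e1 - e2) * (e2 - e3) = 0 := by
        have e : x = -e2 := by linear_combination h2
        rw [e, fd] at hd
        linear_combination -hd
      rcases mul_eq_zero.1 this with h3 | h3
      · exact a12 h3
      · exact a23 h3
  · have : (e1 - e3) * (e2 - e3) = 0 := by
      have e : x = -e3 := by linear_combination h1
      rw [e, fd] at hd
      linear_combination hd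
    rcases mul_eq_zero.1 this with h3 | h3
    · exact a13 h3
    · exact a23 h3

/-- a double root of the division polynomial is a root of the cubic -/
theorem Rho.fe_of_double (h : Rho e1 e2 e3 r1 r2 r3 r4) (h12 : r1 = r2) :
    12 * fe e1 e2 e3 r1 = 0 := by
  subst h12
  simp only [fe]
  linear_combination 3 * h.h1 * r1 ^ 2 + 6 * h.h2 * r1 + 3 * h.h3

theorem Rho.perm (h : Rho e1 e2 e3 r1 r2 r3 r4) : Rho e1 e2 e3 r2 r3 r4 r1 := by
  refine ⟨?_, ?_, ?_, ?_⟩
  · linear_combination h.h1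
  · linear_combination h.h2
  · linear_combination h.h3
  · linear_combination h.h4

theorem Rho.swap (h : Rho e1 e2 e3 r1 r2 r3 r4) : Rho e1 e2 e3 r2 r1 r3 r4 := by
  refine ⟨?_, ?_, ?_, ?_⟩
  · linear_combination h.h1
  · linear_combination h.h2
  · linear_combination h.h3
  · linear_combination h.h4

theorem Rho.root (h : Rho e1 e2 e3 r1 r2 r3 r4) : ps e1 e2 e3 r1 = 0 := by
  rw [h.eq]; ring

theorem Rho.ne12 [CharZero F] (h : Rho e1 e2 e3 r1 r2 r3 r4) (h12 : e1 ≠ e2) (h13 : e1 ≠ e3)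
    (h23 : e2 ≠ e3) : r1 ≠ r2 := by
  intro h0
  have h1 := h.fe_of_double h0
  have h2 : fe e1 e2 e3 r1 = 0 := by
    rcases mul_eq_zero.1 h1 with h3 | h3
    · exact absurd h3 (by norm_num)
    · exact h3
  exact ps_ne_zero h12 h13 h23 h2 h.root

/-- all the four roots are different -/
theorem Rho.ne [CharZero F] (h : Rho e1 e2 e3 r1 r2 r3 r4) (h12 : e1 ≠ e2) (h13 : e1 ≠ e3)
    (h23 : e2 ≠ e3) : r1 ≠ r2 ∧ r1 ≠ r3 ∧ r1 ≠ r4 ∧ r2 ≠ r3 ∧ r2 ≠ r4 ∧ r3 ≠ r4 := by
  have k1 := h.ne12 h12 h13 h23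
  have k2 := h.perm.ne12 h12 h13 h23
  have k3 := h.perm.perm.ne12 h12 h13 h23
  have k4 := h.perm.perm.perm.ne12 h12 h13 h23
  have k5 := h.swap.perm.ne12 h12 h13 h23
  have k6 := h.perm.swap.perm.ne12 h12 h13 h23
  exact ⟨k1, k5, k4.symm, k2, k6, k3⟩

/-- the roots of the division polynomial are not abscissas of points of order two -/
theorem Rho.fe_ne (h : Rho e1 e2 e3 r1 r2 r3 r4) (h12 : e1 ≠ e2) (h13 : e1 ≠ e3)
    (h23 : e2 ≠ e3) : r1 + e1 ≠ 0 ∧ r1 + e2 ≠ 0 ∧ r1 + e3 ≠ 0 := by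
  have h0 := h.root
  refine ⟨fun h1 => ?_, fun h1 => ?_, fun h1 => ?_⟩ <;>
    exact ps_ne_zero h12 h13 h23 (by simp only [fe, h1]; ring) h0

end field

section val

variable {F : Type} [Field F] {Γ : Type} [LinearOrderedCommGroupWithZero Γ] (w : Valuation F Γ)
  {e1 e2 e3 r1 r2 r3 r4 : F}

theorem val_add_of_gt {a e : F} (ha : 1 < w a) (he : w e ≤ 1) : w (a + e) = w a := by
  exact w.map_add_eq_of_lt_left (lt_of_le_of_lt he ha)

theorem val_fe_of_gt {a : F} (ha : 1 < w a) (h1 : w e1 ≤ 1) (h2 : w e2 ≤ 1) (h3 : w e3 ≤ 1) :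
    w (fe e1 e2 e3 a) = w a ^ 3 := by
  rw [fe, map_mul, map_mul, val_add_of_gt w ha h1, val_add_of_gt w ha h2, val_add_of_gt w ha h3,
    pow_succ, pow_two]

theorem val_natCast_le (n : ℕ) : w (n : F) ≤ 1 := by
  induction n with
  | zero => simp
  | succ n ih =>
    push_cast
    exact (w.map_add _ _).trans (max_le ih (by rw [map_one]))

theorem val_fd_le {x : F} (hx : w x ≤ 1) (h1 : w e1 ≤ 1) (h2 : w e2 ≤ 1) (h3 : w e3 ≤ 1) :
    w (fd e1 e2 e3 x) ≤ 1 := by
  have hm : ∀ {a b : F}, w a ≤ 1 → w b ≤ 1 → w (a * b) ≤ 1 := fun ha hb => by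
    rw [map_mul]; exact mul_le_one' ha hb
  have ha : ∀ {a b : F}, w a ≤ 1 → w b ≤ 1 → w (a + b) ≤ 1 := fun ha hb =>
    (w.map_add _ _).trans (max_le ha hb)
  have h2' : w (2 : F) ≤ 1 := by exact_mod_cast val_natCast_le w 2
  have h3' : w (3 : F) ≤ 1 := by exact_mod_cast val_natCast_le w 3
  rw [fd]
  refine ha (ha ?_ ?_) ?_
  · exact hm h3' (by rw [map_pow]; exact pow_le_one' hx 2)
  · exact hm (hm h2' (ha (ha h1 h2) h3)) hx
  · exact ha (ha (hm h1 h2) (hm h1 h3)) (hm h2 h3)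

/-- A point of the kernel of reduction -/
theorem val_infty {a b x q y4 t : F} (he1 : w e1 ≤ 1) (he2 : w e2 ≤ 1) (he3 : w e3 ≤ 1)
    (hq : w q ≤ 1) (hy : w (2 * y4) = 1) (hb : b ^ 2 = fe e1 e2 e3 a)
    (hyq : y4 ^ 2 = fe e1 e2 e3 q)
    (hx : (x + (e1 + e2 + e3) + a + q) * (a - q) ^ 2 = (b - y4) ^ 2) (ht : x - q = t ^ 2)
    (ha : 1 < w a) : w t ^ 4 * w a = 1 := by
  have hm : ∀ {a b : F}, w a ≤ 1 → w b ≤ 1 → w (a * b) ≤ 1 := fun ha hb => by
    rw [map_mul]; exact mul_le_one' ha hb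
  have had : ∀ {a b : F}, w a ≤ 1 → w b ≤ 1 → w (a + b) ≤ 1 := fun ha hb =>
    (w.map_add _ _).trans (max_le ha hb)
  have h2' : w (2 : F) ≤ 1 := by exact_mod_cast val_natCast_le w 2
  have ha0 : w a ≠ 0 := (zero_lt_one.trans ha).ne'
  have hb2 : w b ^ 2 = w a ^ 3 := by rw [← map_pow, hb, val_fe_of_gt w ha he1 he2 he3]
  have hab : w a < w b := by
    by_contra hcon
    rw [not_lt] at hcon
    have h1 : w b ^ 2 ≤ w a ^ 2 := pow_le_pow_left' hcon 2
    rw [hb2, pow_succ] at h1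
    have h2 : w a ^ 2 * 1 < w a ^ 2 * w a := by
      have h0 : 0 < w a ^ 2 := pow_pos (zero_lt_one.trans ha) 2
      exact (mul_lt_mul_iff_right₀ h0).2 ha
    rw [mul_one] at h2
    exact absurd h1 (not_le.2 h2)
  have key : t ^ 2 * (a - q) ^ 2 = -(2 * y4) * b + (fd e1 e2 e3 q * a +
      (2 * (e1 * e2 * e3) + (e1 * e2 + e1 * e3 + e2 * e3) * q - q ^ 3)) := by
    rw [← ht]
    simp only [fe] at hb hyq
    simp only [fd]
    linear_combination hx + hb + hyq
  have hr : w (fd e1 e2 e3 q * a +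
      (2 * (e1 * e2 * e3) + (e1 * e2 + e1 * e3 + e2 * e3) * q - q ^ 3)) ≤ w a := by
    refine (w.map_add _ _).trans (max_le ?_ ?_)
    · rw [map_mul]
      exact mul_le_of_le_one_left' (val_fd_le w hq he1 he2 he3)
    · refine le_trans ?_ ha.le
      rw [sub_eq_add_neg]
      refine had (had (hm h2' (hm (hm he1 he2) he3)) (hm (had (had (hm he1 he2) (hm he1 he3))
        (hm he2 he3)) hq)) ?_
      rw [Valuation.map_neg, map_pow]
      exact pow_le_one' hq 3
  have hmain : w (t ^ 2 * (a - q) ^ 2) = w b := by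
    rw [key, w.map_add_eq_of_lt_left]
    · rw [map_mul, Valuation.map_neg, hy, one_mul]
    · rw [map_mul, Valuation.map_neg, hy, one_mul]
      exact lt_of_le_of_lt hr hab
  have haq : w (a - q) = w a := by
    rw [sub_eq_add_neg]
    exact val_add_of_gt w ha (by rw [Valuation.map_neg]; exact hq)
  rw [map_mul, map_pow, map_pow, haq] at hmain
  have h5 : w t ^ 4 * w a ^ 4 = w a ^ 3 := by
    rw [← hb2, ← hmain, mul_pow, ← pow_mul, ← pow_mul]
  have h6 : (w t ^ 4 * w a) * w a ^ 3 = 1 * w a ^ 3 := by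
    rw [one_mul, mul_assoc, ← pow_succ', h5]
  exact mul_right_cancel₀ (pow_ne_zero 3 ha0) h6

/-- **The valuation of `r - ρ_1` is even.** -/
theorem val_core {a b x q y4 t r s : F} (hρ : Rho e1 e2 e3 r1 r2 r3 r4)
    (he1 : w e1 ≤ 1) (he2 : w e2 ≤ 1) (he3 : w e3 ≤ 1)
    (hq : w q ≤ 1) (hy : w (2 * y4) = 1) (h2 : w (2 : F) = 1) (h3 : w (3 : F) = 1)
    (hr1 : w r1 ≤ 1) (h12 : w (r1 - r2) = 1) (h13 : w (r1 - r3) = 1)
    (h14 : w (r1 - r4) = 1) (k1 : w (r1 + e1) = 1) (k2 : w (r1 + e2) = 1) (k3 : w (r1 + e3) = 1)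
    (hb : b ^ 2 = fe e1 e2 e3 a) (hyq : y4 ^ 2 = fe e1 e2 e3 q)
    (hx : (x + (e1 + e2 + e3) + a + q) * (a - q) ^ 2 = (b - y4) ^ 2) (ht : x - q = t ^ 2)
    (ht0 : t ≠ 0) (hs : s ^ 2 = fe e1 e2 e3 r) (hra : ph e1 e2 e3 r = a * ps e1 e2 e3 r ^ 2)
    (hne : r - r1 ≠ 0) : ∃ g : F, g ≠ 0 ∧ w (r - r1) = w g ^ 2 := by
  have hneg : ∀ {y : F}, w y ≤ 1 → w (-y) ≤ 1 := fun hy => by rwa [Valuation.map_neg]
  rcases lt_trichotomy (w (r - r1)) 1 with hlt | heq | hgt
  · -- close to `ρ_1`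
    have hr : w r ≤ 1 := by
      have e : r = (r - r1) + r1 := by ring
      rw [e]
      exact (w.map_add _ _).trans (max_le hlt.le hr1)
    have hsub : ∀ {y : F}, w (r1 + y) = 1 → w (r + y) = 1 := fun {y} h => by
      have e : r + y = (r - r1) + (r1 + y) := by ring
      rw [e, w.map_add_eq_of_lt_right (by rw [h]; exact hlt), h]
    have f1 := hsub k1
    have f2 := hsub k2
    have f3 := hsub k3
    have g2 : w (r - r2) = 1 := by
      rw [sub_eq_add_neg]; exact hsub (by rw [← sub_eq_add_neg]; exact h12)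
    have g3 : w (r - r3) = 1 := by
      rw [sub_eq_add_neg]; exact hsub (by rw [← sub_eq_add_neg]; exact h13)
    have g4 : w (r - r4) = 1 := by
      rw [sub_eq_add_neg]; exact hsub (by rw [← sub_eq_add_neg]; exact h14)
    have hfe : w (fe e1 e2 e3 r) = 1 := by
      rw [fe, map_mul, map_mul, f1, f2, f3]; simp
    have hps : w (ps e1 e2 e3 r) = w (r - r1) := by
      rw [hρ.eq, map_mul, map_mul, map_mul, map_mul, h3, g2, g3, g4]; simp
    have hfd := val_fd_le w hr he1 he2 he3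
    have hph : w (ph e1 e2 e3 r) = 1 := by
      have e : ph e1 e2 e3 r = (r * ps e1 e2 e3 r -
          8 * fe e1 e2 e3 r * fd e1 e2 e3 r) * ps e1 e2 e3 r + 64 * fe e1 e2 e3 r ^ 3 := by
        rw [ph]; ring
      have h64 : w (64 * fe e1 e2 e3 r ^ 3) = 1 := by
        have e2' : (64 : F) = 2 ^ 6 := by norm_num
        rw [map_mul, e2', map_pow, h2, map_pow, hfe]; simp
      rw [e, w.map_add_eq_of_lt_right, h64]
      rw [h64, map_mul, hps]
      refine lt_of_le_of_lt (mul_le_of_le_one_left' ?_) hlt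
      rw [sub_eq_add_neg]
      refine (w.map_add _ _).trans (max_le ?_ (hneg ?_))
      · rw [map_mul, hps]
        exact mul_le_one' hr hlt.le
      · have h8 : w (8 : F) ≤ 1 := by exact_mod_cast val_natCast_le w 8
        rw [map_mul, map_mul, hfe, mul_one]
        exact mul_le_one' h8 hfd
    have h5 : w a * w (r - r1) ^ 2 = 1 := by
      rw [← hps, ← map_pow, ← map_mul, ← hra, hph]
    have hr0 : w (r - r1) ≠ 0 := (w.ne_zero_iff).2 hne
    have ha : 1 < w a := by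
      by_contra hcon
      rw [not_lt] at hcon
      have h6 : w a * w (r - r1) ^ 2 < 1 := by
        refine lt_of_le_of_lt (mul_le_of_le_one_left' hcon) ?_
        exact pow_lt_one₀ zero_le hlt two_ne_zero
      rw [h5] at h6
      exact lt_irrefl _ h6
    have h7 := val_infty w he1 he2 he3 hq hy hb hyq hx ht ha
    refine ⟨t, ht0, ?_⟩
    have ha0 : w a ≠ 0 := (zero_lt_one.trans ha).ne'
    have h8 : w (r - r1) ^ 2 = (w t ^ 2) ^ 2 := by
      apply mul_left_cancel₀ ha0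
      rw [h5, ← h7, ← pow_mul, mul_comm]
    exact (pow_left_inj₀ zero_le zero_le two_ne_zero).1 h8
  · exact ⟨1, one_ne_zero, by rw [heq]; simp⟩
  · -- the point at infinity
    have hr : w r = w (r - r1) := by
      have e : r = (r - r1) + r1 := by ring
      conv_lhs => rw [e]
      exact val_add_of_gt w hgt hr1
    have hr' : 1 < w r := by rw [hr]; exact hgt
    have hr0 : w r ≠ 0 := (zero_lt_one.trans hr').ne'
    have hrne : r ≠ 0 := by
      rintro rfl
      exact hr0 (map_zero w)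
    have hs2 : w s ^ 2 = w r ^ 3 := by rw [← map_pow, hs, val_fe_of_gt w hr' he1 he2 he3]
    have hs0 : s ≠ 0 := by
      rintro rfl
      rw [map_zero, zero_pow two_ne_zero] at hs2
      exact pow_ne_zero 3 hr0 hs2.symm
    refine ⟨s / r, div_ne_zero hs0 hrne, ?_⟩
    rw [← hr, map_div₀, div_pow, hs2, eq_div_iff (pow_ne_zero 2 hr0), ← pow_succ']

end val

end Pool.Agent.W2helper83.BT
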