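import Mathlib
import Pool.Agent.W2helper83.BT.Val

/-! Points of order three and division by three over algebraically closed fields; finite extensions. -/

set_option autoImplicit false

open WeierstrassCurve Polynomial

namespace Pool.Agent.W2helper83.BT

open Pool.Agent.H437R2.Man.MW (crv Pt crv_eqn crv_nonsing crv_ell neg_mk)

section alg

variable {F : Type} [Field F] [IsAlgClosed F]

theorem quad_roots (b c : F) : ∃ s t : F, b = -(s + t) ∧ c = s * t := by
  obtain ⟨r, hr⟩ := IsAlgClosed.exists_root (X ^ 2 + C b * X + C c : F[X]) (by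
    have : (X ^ 2 + C b * X + C c : F[X]).degree = 2 := by compute_degree!
    rw [this]; norm_num)
  simp only [IsRoot.def, eval_add, eval_mul, eval_pow, eval_X, eval_C] at hr
  exact ⟨r, -b - r, by ring, by linear_combination hr⟩

theorem cubic_roots (a b c : F) : ∃ r s t : F, a = -(r + s + t) ∧ b = r * s + r * t + s * t ∧
    c = -(r * s * t) := by
  obtain ⟨r, hr⟩ := IsAlgClosed.exists_root (X ^ 3 + C a * X ^ 2 + C b * X + C c : F[X]) (by
    have : (X ^ 3 + C a * X ^ 2 + C b * X + C c : F[X]).degree = 3 := by compute_degree!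
    rw [this]; norm_num)
  simp only [IsRoot.def, eval_add, eval_mul, eval_pow, eval_X, eval_C] at hr
  obtain ⟨s, t, h1, h2⟩ := quad_roots (a + r) (b + a * r + r ^ 2)
  refine ⟨r, s, t, by linear_combination h1, by linear_combination h2 - r * h1, ?_⟩
  linear_combination hr - r * h2

theorem quartic_roots (c3 c2 c1 c0 : F) : ∃ r1 r2 r3 r4 : F, c3 = -(r1 + r2 + r3 + r4) ∧
    c2 = r1 * r2 + r1 * r3 + r1 * r4 + r2 * r3 + r2 * r4 + r3 * r4 ∧
    c1 = -(r1 * r2 * r3 + r1 * r2 * r4 + r1 * r3 * r4 + r2 * r3 * r4) ∧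
    c0 = r1 * r2 * r3 * r4 := by
  obtain ⟨r, hr⟩ := IsAlgClosed.exists_root
    (X ^ 4 + C c3 * X ^ 3 + C c2 * X ^ 2 + C c1 * X + C c0 : F[X]) (by
    have : (X ^ 4 + C c3 * X ^ 3 + C c2 * X ^ 2 + C c1 * X + C c0 : F[X]).degree = 4 := by
      compute_degree!
    rw [this]; norm_num)
  simp only [IsRoot.def, eval_add, eval_mul, eval_pow, eval_X, eval_C] at hr
  obtain ⟨s, t, u, h1, h2, h3⟩ := cubic_roots (c3 + r) (c2 + c3 * r + r ^ 2)
    (c1 + c2 * r + c3 * r ^ 2 + r ^ 3)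
  refine ⟨r, s, t, u, by linear_combination h1, by linear_combination h2 - r * h1,
    by linear_combination h3 - r * h2, ?_⟩
  linear_combination hr - r * h3

theorem exists_rho [CharZero F] (e1 e2 e3 : F) : ∃ r1 r2 r3 r4 : F,
    Rho e1 e2 e3 r1 r2 r3 r4 := by
  obtain ⟨r1, r2, r3, r4, h1, h2, h3, h4⟩ := quartic_roots (4 / 3 * (e1 + e2 + e3))
    (2 * (e1 * e2 + e1 * e3 + e2 * e3)) (4 * (e1 * e2 * e3))
    ((4 * (e1 + e2 + e3) * (e1 * e2 * e3) - (e1 * e2 + e1 * e3 + e2 * e3) ^ 2) / 3)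
  have h30 : (3 : F) ≠ 0 := by norm_num
  refine ⟨r1, r2, r3, r4, ?_, h2, h3, ?_⟩
  · have : 4 * (e1 + e2 + e3) = 3 * (4 / 3 * (e1 + e2 + e3)) := by field_simp
    rw [this, h1]; ring
  · rw [div_eq_iff h30] at h4
    rw [h4]; ring

theorem exists_ph (e1 e2 e3 a : F) : ∃ r : F, ph e1 e2 e3 r = a * ps e1 e2 e3 r ^ 2 := by
  set A := e1 + e2 + e3 with hA
  set B := e1 * e2 + e1 * e3 + e2 * e3 with hB
  set D := e1 * e2 * e3 with hD
  obtain ⟨r, hr⟩ := IsAlgClosed.exists_root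
    (X ^ 9 + C ((-9) * a) * X ^ 8 + C ((-12) * B + (-24) * A * a) * X ^ 7 +
      C ((-96) * D + (-36) * B * a + (-8) * A * B + (-16) * A ^ 2 * a) * X ^ 6 +
      C ((-72) * D * a + (30) * B ^ 2 + (-216) * A * D + (-48) * A * B * a) * X ^ 5 +
      C ((-24) * B * D + (-30) * B ^ 2 * a + (-120) * A * D * a + (48) * A * B ^ 2 +
        (-192) * A ^ 2 * D) * X ^ 4 +
      C ((48) * D ^ 2 + (-144) * B * D * a + (36) * B ^ 3 + (-112) * A * B * D +
        (8) * A * B ^ 2 * a + (-32) * A ^ 2 * D * a + (16) * A ^ 2 * B ^ 2 +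
        (-64) * A ^ 3 * D) * X ^ 3 +
      C ((-144) * D ^ 2 * a + (48) * B ^ 2 * D + (12) * B ^ 3 * a + (-48) * A * B * D * a +
        (24) * A * B ^ 3 + (-96) * A ^ 2 * B * D) * X ^ 2 +
      C ((96) * B * D ^ 2 + (24) * B ^ 2 * D * a + (9) * B ^ 4 + (-96) * A * D ^ 2 * a +
        (-24) * A * B ^ 2 * D + (-48) * A ^ 2 * D ^ 2) * X +
      C ((64) * D ^ 3 + (8) * B ^ 3 * D + (-1) * B ^ 4 * a + (-32) * A * B * D ^ 2 +
        (8) * A * B ^ 2 * D * a + (-16) * A ^ 2 * D ^ 2 * a) : F[X]) (by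
    generalize ((-9) * a) = k8
    generalize ((-12) * B + (-24) * A * a) = k7
    generalize ((-96) * D + (-36) * B * a + (-8) * A * B + (-16) * A ^ 2 * a) = k6
    generalize ((-72) * D * a + (30) * B ^ 2 + (-216) * A * D + (-48) * A * B * a) = k5
    generalize ((-24) * B * D + (-30) * B ^ 2 * a + (-120) * A * D * a + (48) * A * B ^ 2 +
        (-192) * A ^ 2 * D) = k4
    generalize ((48) * D ^ 2 + (-144) * B * D * a + (36) * B ^ 3 + (-112) * A * B * D +
        (8) * A * B ^ 2 * a + (-32) * A ^ 2 * D * a + (16) * A ^ 2 * B ^ 2 +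
        (-64) * A ^ 3 * D) = k3
    generalize ((-144) * D ^ 2 * a + (48) * B ^ 2 * D + (12) * B ^ 3 * a +
        (-48) * A * B * D * a + (24) * A * B ^ 3 + (-96) * A ^ 2 * B * D) = k2
    generalize ((96) * B * D ^ 2 + (24) * B ^ 2 * D * a + (9) * B ^ 4 + (-96) * A * D ^ 2 * a +
        (-24) * A * B ^ 2 * D + (-48) * A ^ 2 * D ^ 2) = k1
    generalize ((64) * D ^ 3 + (8) * B ^ 3 * D + (-1) * B ^ 4 * a + (-32) * A * B * D ^ 2 +
        (8) * A * B ^ 2 * D * a + (-16) * A ^ 2 * D ^ 2 * a) = k0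
    have : (X ^ 9 + C k8 * X ^ 8 + C k7 * X ^ 7 + C k6 * X ^ 6 + C k5 * X ^ 5 + C k4 * X ^ 4 +
      C k3 * X ^ 3 + C k2 * X ^ 2 + C k1 * X + C k0 : F[X]).degree = 9 := by
      compute_degree!
    rw [this]; norm_num)
  simp only [IsRoot.def, eval_add, eval_mul, eval_pow, eval_X, eval_C] at hr
  refine ⟨r, ?_⟩
  have hf : fe e1 e2 e3 r = r ^ 3 + A * r ^ 2 + B * r + D := by simp only [fe, hA, hB, hD]; ring
  have hd : fd e1 e2 e3 r = 3 * r ^ 2 + 2 * A * r + B := by simp only [fd, hA, hB]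
  simp only [ph, ps, hf, hd, ← hA]
  linear_combination hr

end alg

section pts

variable {F : Type} [Field F] [CharZero F] [DecidableEq F] {e1 e2 e3 : F}

/-- division by three -/
theorem third (h12 : e1 ≠ e2) (h13 : e1 ≠ e3) (h23 : e2 ≠ e3) {a b r s : F}
    (h : (crv e1 e2 e3).toAffine.Nonsingular a b) (hs : s ^ 2 = fe e1 e2 e3 r)
    (hr : ph e1 e2 e3 r = a * ps e1 e2 e3 r ^ 2) :
    ∃ R : Pt e1 e2 e3, (3 : ℕ) • R = Affine.Point.some a b h := by
  have hps : ps e1 e2 e3 r ≠ 0 := by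
    intro h0
    rw [ph, h0] at hr
    have h1 : fe e1 e2 e3 r ^ 3 = 0 := by
      have : 64 * fe e1 e2 e3 r ^ 3 = 0 := by linear_combination hr
      rcases mul_eq_zero.1 this with h2 | h2
      · exact absurd h2 (by norm_num)
      · exact h2
    exact ps_ne_zero h12 h13 h23 (pow_eq_zero_iff (by norm_num) |>.1 h1) h0
  have hn : (crv e1 e2 e3).toAffine.Nonsingular r s := crv_nonsing h12 h13 h23 hs
  obtain ⟨b', h3, e⟩ := triple_some hn hps
  have ha : ph e1 e2 e3 r / ps e1 e2 e3 r ^ 2 = a := by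
    rw [div_eq_iff (pow_ne_zero 2 hps), hr]
  rcases Affine.Point.X_eq_iff.1 ha with h4 | h4
  · exact ⟨_, e.trans h4⟩
  · refine ⟨-(Affine.Point.some r s hn), ?_⟩
    rw [smul_neg, e]
    rw [h4, neg_neg]

end pts

/-- a finite set of algebraic numbers lies in a number field -/
theorem fin_ext (K : Type) [Field K] [NumberField K] (S : Finset (AlgebraicClosure K)) :
    ∃ (L : Type) (_ : Field L) (_ : NumberField L) (_ : Algebra K L)
      (j : L →ₐ[K] AlgebraicClosure K), ∀ c ∈ S, ∃ l : L, j l = c := by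
  have hfd : FiniteDimensional K (IntermediateField.adjoin K (S : Set (AlgebraicClosure K))) :=
    IntermediateField.finiteDimensional_adjoin (fun x _ => Algebra.IsIntegral.isIntegral x)
  refine ⟨IntermediateField.adjoin K (S : Set (AlgebraicClosure K)), inferInstance,
    NumberField.of_module_finite K _, inferInstance,
    (IntermediateField.adjoin K (S : Set (AlgebraicClosure K))).val, ?_⟩
  intro c hc
  exact ⟨⟨c, IntermediateField.subset_adjoin K _ hc⟩, rfl⟩

end Pool.Agent.W2helper83.BT
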