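import Mathlib
import Pool.Agent.W2helper83.BT.Ext
import Pool.Agent.H437R2.Man.MWWeak

/-! Every point over `K` is divisible by three over a suitable number field. -/

set_option autoImplicit false

open WeierstrassCurve Polynomial

namespace Pool.Agent.W2helper83.BT

open Pool.Agent.H437R2.Man.MW (crv Pt crv_eqn crv_nonsing crv_ell neg_mk pt_fg)

section maps

variable {K L : Type} [Field K] [Field L]

theorem map_fe (i : K →+* L) (e1 e2 e3 x : K) :
    i (fe e1 e2 e3 x) = fe (i e1) (i e2) (i e3) (i x) := by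
  simp only [fe, map_mul, map_add]

theorem map_fd (i : K →+* L) (e1 e2 e3 x : K) :
    i (fd e1 e2 e3 x) = fd (i e1) (i e2) (i e3) (i x) := by
  simp only [fd, map_mul, map_add, map_pow, map_ofNat]

theorem map_ps (i : K →+* L) (e1 e2 e3 x : K) :
    i (ps e1 e2 e3 x) = ps (i e1) (i e2) (i e3) (i x) := by
  simp only [ps, map_mul, map_add, map_sub, map_pow, map_ofNat, map_fe, map_fd]

theorem map_ph (i : K →+* L) (e1 e2 e3 x : K) :
    i (ph e1 e2 e3 x) = ph (i e1) (i e2) (i e3) (i x) := by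
  simp only [ph, map_mul, map_add, map_sub, map_pow, map_ofNat, map_fe, map_fd, map_ps]

theorem crv_map (i : K →+* L) (e1 e2 e3 : K) :
    (crv e1 e2 e3).map i = crv (i e1) (i e2) (i e3) := by
  simp only [crv, WeierstrassCurve.map, map_zero, map_add, map_mul]

theorem Rho.of_map {i : K →+* L} (hi : Function.Injective i) {e1 e2 e3 r1 r2 r3 r4 : K}
    (h : Rho (i e1) (i e2) (i e3) (i r1) (i r2) (i r3) (i r4)) : Rho e1 e2 e3 r1 r2 r3 r4 := by
  obtain ⟨h1, h2, h3, h4⟩ := h
  refine ⟨hi ?_, hi ?_, hi ?_, hi ?_⟩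
  · simpa only [map_mul, map_add, map_neg, map_ofNat] using h1
  · simpa only [map_mul, map_add, map_neg, map_ofNat] using h2
  · simpa only [map_mul, map_add, map_neg, map_ofNat] using h3
  · simpa only [map_mul, map_add, map_neg, map_ofNat, map_sub, map_pow] using h4

theorem Rho.map (i : K →+* L) {e1 e2 e3 r1 r2 r3 r4 : K} (h : Rho e1 e2 e3 r1 r2 r3 r4) :
    Rho (i e1) (i e2) (i e3) (i r1) (i r2) (i r3) (i r4) := by
  obtain ⟨h1, h2, h3, h4⟩ := h
  refine ⟨?_, ?_, ?_, ?_⟩
  · simpa only [map_mul, map_add, map_neg, map_ofNat] using congrArg i h1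
  · simpa only [map_mul, map_add, map_neg, map_ofNat] using congrArg i h2
  · simpa only [map_mul, map_add, map_neg, map_ofNat] using congrArg i h3
  · simpa only [map_mul, map_add, map_neg, map_ofNat, map_sub, map_pow] using congrArg i h4

end maps

/-- points of equal curves -/
theorem pt_congr {F : Type} [Field F] [DecidableEq F] {W W' : WeierstrassCurve F} (h : W = W') :
    ∃ φ : W.toAffine.Point →+ W'.toAffine.Point, ∀ (x y : F) (hn : W.toAffine.Nonsingular x y),
      ∃ hn', φ (.some x y hn) = .some x y hn' := by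
  subst h
  exact ⟨AddMonoidHom.id _, fun x y hn => ⟨hn, rfl⟩⟩

/-- base change of points -/
theorem exists_bc (K L : Type) [Field K] [Field L] [Algebra K L] [DecidableEq K] [DecidableEq L]
    (e1 e2 e3 : K) :
    ∃ φ : Pt e1 e2 e3 →+ Pt (algebraMap K L e1) (algebraMap K L e2) (algebraMap K L e3),
      ∀ (x y : K) (hn : (crv e1 e2 e3).toAffine.Nonsingular x y),
        ∃ hn', φ (.some x y hn) = .some (algebraMap K L x) (algebraMap K L y) hn' := by
  have h1 : crv e1 e2 e3 = (crv e1 e2 e3).baseChange K := by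
    rw [WeierstrassCurve.baseChange, crv_map]
    simp
  have h2 : (crv e1 e2 e3).baseChange L =
      crv (algebraMap K L e1) (algebraMap K L e2) (algebraMap K L e3) := by
    rw [WeierstrassCurve.baseChange, crv_map]
  obtain ⟨φ1, hφ1⟩ := pt_congr h1
  obtain ⟨φ2, hφ2⟩ := pt_congr h2
  let φ0 : ((crv e1 e2 e3).baseChange K).toAffine.Point →+
      ((crv e1 e2 e3).baseChange L).toAffine.Point :=
    Affine.Point.map (Algebra.ofId K L)
  refine ⟨(φ2.comp φ0).comp φ1, ?_⟩
  intro x y hn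
  obtain ⟨hn1, h3⟩ := hφ1 x y hn
  obtain ⟨hn', h4⟩ : ∃ hn' : ((crv e1 e2 e3).baseChange L).toAffine.Nonsingular
      (Algebra.ofId K L x) (Algebra.ofId K L y), φ0 (.some x y hn1) = .some _ _ hn' :=
    ⟨_, Affine.Point.map_some (Algebra.ofId K L) hn1⟩
  obtain ⟨hn2, h5⟩ := hφ2 _ _ hn'
  refine ⟨hn2, ?_⟩
  rw [AddMonoidHom.comp_apply, AddMonoidHom.comp_apply, h3, h4, h5]
  rfl

/-- **Every point over `K` is three times a point over `L`.** -/
theorem mw3 (K : Type) [Field K] [NumberField K] [DecidableEq K] {e1 e2 e3 : K} (h12 : e1 ≠ e2)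
    (h13 : e1 ≠ e3) (h23 : e2 ≠ e3) :
    ∃ (L : Type) (_ : Field L) (_ : NumberField L) (_ : Algebra K L) (_ : DecidableEq L)
      (φ : Pt e1 e2 e3 →+ Pt (algebraMap K L e1) (algebraMap K L e2) (algebraMap K L e3)),
      (∀ (x y : K) (hn : (crv e1 e2 e3).toAffine.Nonsingular x y),
        ∃ hn', φ (.some x y hn) = .some (algebraMap K L x) (algebraMap K L y) hn') ∧
      (∀ P, ∃ R, (3 : ℕ) • R = φ P) ∧ ∃ r1 r2 r3 r4 : L,
        Rho (algebraMap K L e1) (algebraMap K L e2) (algebraMap K L e3) r1 r2 r3 r4 := by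
  classical
  have hFG := pt_fg h12 h13 h23
  obtain ⟨S, hS⟩ := (AddGroup.fg_iff (G := Pt e1 e2 e3)).1 hFG
  obtain ⟨hSc, hSf⟩ := hS
  set Ω := AlgebraicClosure K
  set jK : K →+* Ω := algebraMap K Ω with hjK
  obtain ⟨ρ1, ρ2, ρ3, ρ4, hρ⟩ := exists_rho (jK e1) (jK e2) (jK e3)
  have hch : ∀ P : Pt e1 e2 e3, ∃ rs : Ω × Ω, ∀ (a b : K)
      (hn : (crv e1 e2 e3).toAffine.Nonsingular a b), P = .some a b hn →
      ph (jK e1) (jK e2) (jK e3) rs.1 = jK a * ps (jK e1) (jK e2) (jK e3) rs.1 ^ 2 ∧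
        rs.2 ^ 2 = fe (jK e1) (jK e2) (jK e3) rs.1 := by
    intro P
    rcases P with _ | ⟨a, b, hn⟩
    · exact ⟨0, fun a b hn h => by cases h⟩
    · obtain ⟨r, hr⟩ := exists_ph (jK e1) (jK e2) (jK e3) (jK a)
      obtain ⟨s, hs⟩ := IsAlgClosed.exists_pow_nat_eq (fe (jK e1) (jK e2) (jK e3) r)
        (show 0 < 2 by norm_num)
      refine ⟨(r, s), fun a' b' hn' h => ?_⟩
      injection h with h1 h2
      subst h1
      exact ⟨hr, hs⟩
  choose g hg using hch
  obtain ⟨L, iF, iN, iA, j, hj⟩ := fin_ext K ((hSf.toFinset.image fun P => (g P).1) ∪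
    (hSf.toFinset.image fun P => (g P).2) ∪ {ρ1, ρ2, ρ3, ρ4})
  obtain ⟨φ, hφ⟩ := exists_bc K L e1 e2 e3
  have hjinj : Function.Injective (j : L →+* Ω) := j.injective
  have hcomp : ∀ x : K, (j : L →+* Ω) (algebraMap K L x) = jK x := fun x => j.commutes x
  refine ⟨L, iF, iN, iA, inferInstance, φ, hφ, ?_, ?_⟩
  · -- the set of points divisible by three is a subgroup
    have key : ∀ P ∈ S, ∃ R, (3 : ℕ) • R = φ P := by
      intro P hP
      have hPS : P ∈ hSf.toFinset := hSf.mem_toFinset.2 hP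
      obtain ⟨lr, hlr⟩ := hj (g P).1 (by
        simp only [Finset.mem_union, Finset.mem_image]
        exact Or.inl (Or.inl ⟨P, hPS, rfl⟩))
      obtain ⟨ls, hls⟩ := hj (g P).2 (by
        simp only [Finset.mem_union, Finset.mem_image]
        exact Or.inl (Or.inr ⟨P, hPS, rfl⟩))
      rcases P with _ | ⟨a, b, hn⟩
      · refine ⟨0, ?_⟩
        rw [smul_zero]
        exact (_root_.map_zero φ).symm
      · obtain ⟨hn', h1⟩ := hφ a b hn
        rw [h1]
        obtain ⟨h2, h3⟩ := hg _ a b hn rfl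
        have hlr' : (j : L →+* Ω) lr = (g (Affine.Point.some a b hn)).1 := hlr
        have hls' : (j : L →+* Ω) ls = (g (Affine.Point.some a b hn)).2 := hls
        have inj : Function.Injective (algebraMap K L) := (algebraMap K L).injective
        refine third (inj.ne h12) (inj.ne h13) (inj.ne h23) hn' (r := lr) (s := ls) ?_ ?_
        · apply hjinj
          rw [_root_.map_pow, map_fe, hls', hlr', hcomp, hcomp, hcomp]
          exact h3
        · apply hjinj
          rw [_root_.map_mul, _root_.map_pow, map_ps, map_ph, hlr', hcomp, hcomp, hcomp, hcomp]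
          exact h2
    intro P
    have hP : P ∈ AddSubgroup.closure S := by rw [hSc]; trivial
    induction hP using AddSubgroup.closure_induction with
    | mem P hP => exact key P hP
    | zero => exact ⟨0, by rw [smul_zero, _root_.map_zero]⟩
    | add P Q _ _ hP hQ =>
      obtain ⟨R1, h1⟩ := hP
      obtain ⟨R2, h2⟩ := hQ
      exact ⟨R1 + R2, by rw [smul_add, h1, h2, _root_.map_add]⟩
    | neg P _ hP =>
      obtain ⟨R, h1⟩ := hP
      exact ⟨-R, by rw [smul_neg, h1, _root_.map_neg]⟩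
  · obtain ⟨l1, h1⟩ := hj ρ1 (by simp)
    obtain ⟨l2, h2⟩ := hj ρ2 (by simp)
    obtain ⟨l3, h3⟩ := hj ρ3 (by simp)
    obtain ⟨l4, h4⟩ := hj ρ4 (by simp)
    refine ⟨l1, l2, l3, l4, ?_⟩
    apply Rho.of_map (i := (j : L →+* Ω)) hjinj
    rw [hcomp, hcomp, hcomp]
    have e1' : (j : L →+* Ω) l1 = ρ1 := h1
    have e2' : (j : L →+* Ω) l2 = ρ2 := h2
    have e3' : (j : L →+* Ω) l3 = ρ3 := h3
    have e4' : (j : L →+* Ω) l4 = ρ4 := h4
    rw [e1', e2', e3', e4']
    exact hρ

end Pool.Agent.W2helper83.BT
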