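import Mathlib
import Pool.Agent.W2helper83.BT.Defs
import Pool.Agent.W2helper83.BT.MW3

/-! The correspondence: from four branch points and infinity to the abscissas of the points of
order three. -/

set_option autoImplicit false

open WeierstrassCurve IsDedekindDomain NumberField

namespace Pool.Agent.W2helper83.BT

open Pool.Agent.H437R2.Man.MW (crv Pt crv_eqn crv_nonsing crv_ell neg_mk finite_val_ne_one)

section pts

variable {F : Type} [Field F] [CharZero F] [DecidableEq F] {e1 e2 e3 : F}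

theorem third_data (h12 : e1 ≠ e2) (h13 : e1 ≠ e3) (h23 : e2 ≠ e3) {a b : F}
    (h : (crv e1 e2 e3).toAffine.Nonsingular a b) {R : Pt e1 e2 e3}
    (hR : (3 : ℕ) • R = Affine.Point.some a b h) :
    ∃ (r s : F) (hn : (crv e1 e2 e3).toAffine.Nonsingular r s), R = Affine.Point.some r s hn ∧
      ps e1 e2 e3 r ≠ 0 ∧ ph e1 e2 e3 r = a * ps e1 e2 e3 r ^ 2 := by
  rcases R with _ | ⟨r, s, hn⟩
  · exfalso
    have h0 : (3 : ℕ) • (Affine.Point.zero : Pt e1 e2 e3) = 0 := smul_zero _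
    rw [h0] at hR
    cases hR
  · have hps : ps e1 e2 e3 r ≠ 0 := by
      intro h0
      have h1 : fe e1 e2 e3 r ≠ 0 := fun h2 => ps_ne_zero h12 h13 h23 h2 h0
      rw [triple_zero hn h1 h0] at hR
      cases hR
    refine ⟨r, s, hn, rfl, hps, ?_⟩
    obtain ⟨b', h3, e⟩ := triple_some hn hps
    rw [e] at hR
    injection hR with h4 h5
    rw [← h4, div_mul_cancel₀ _ (pow_ne_zero 2 hps)]

/-- the addition formula -/
theorem add_rel {a b q y4 x y : F} (ha : (crv e1 e2 e3).toAffine.Nonsingular a b)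
    (hq : (crv e1 e2 e3).toAffine.Nonsingular q y4) (hx : (crv e1 e2 e3).toAffine.Nonsingular x y)
    (h : Affine.Point.some a b ha + Affine.Point.some q y4 hq = Affine.Point.some x y hx) :
    (x + (e1 + e2 + e3) + a + q) * (a - q) ^ 2 = (b - y4) ^ 2 := by
  by_cases haq : a = q
  · rcases (Affine.Point.X_eq_iff (h₁ := ha) (h₂ := hq)).1 haq with h1 | h1
    · injection h1 with h2 h3
      rw [h2, h3]; ring
    · rw [h1, neg_add_cancel] at h
      cases h
  · rw [Affine.Point.add_of_X_ne haq] at h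
    injection h with h1 h2
    rw [Affine.slope_of_X_ne haq, Affine.addX] at h1
    simp only [crv] at h1
    have h3 : a - q ≠ 0 := sub_ne_zero.2 haq
    rw [← h1]
    field_simp
    ring

end pts

/-- From valuations to orders -/
theorem even_order {L : Type} [Field L] [NumberField L] (v : HeightOneSpectrum (𝓞 L)) (u : Lˣ)
    {g : L} (hg : g ≠ 0) (h : v.valuation L (u : L) = v.valuation L g ^ 2) :
    (2 : ℤ) ∣ Multiplicative.toAdd (v.valuationOfNeZero u) := by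
  have e : v.valuationOfNeZero u = v.valuationOfNeZero (Units.mk0 g hg) ^ 2 := by
    have h1 := v.valuationOfNeZero_eq (K := L) u
    have h2 := v.valuationOfNeZero_eq (K := L) (Units.mk0 g hg)
    rw [h] at h1
    rw [Units.val_mk0] at h2
    rw [← h2, ← WithZero.coe_pow] at h1
    exact WithZero.coe_inj.1 h1
  rw [e, toAdd_pow]
  exact ⟨Multiplicative.toAdd (v.valuationOfNeZero (Units.mk0 g hg)), by simp⟩

/-- the constants of the construction -/
noncomputable def consts {L : Type} [Field L] (e1 e2 e3 q y4 r1 r2 r3 r4 : L) : List L :=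
  [e1, e2, e3, q, 2 * y4, 2, 3, r1, r1 - r2, r1 - r3, r1 - r4, r1 + e1, r1 + e2, r1 + e3]

/-- the orders of `r - ρ_1` are even outside a finite set of primes -/
theorem even_out {L : Type} [Field L] [NumberField L] {e1 e2 e3 q y4 r1 r2 r3 r4 : L}
    (h12 : e1 ≠ e2) (h13 : e1 ≠ e3) (h23 : e2 ≠ e3) (hρ : Rho e1 e2 e3 r1 r2 r3 r4)
    (hyq : y4 ^ 2 = fe e1 e2 e3 q) (hy0 : y4 ≠ 0) :
    ∃ S : Set (HeightOneSpectrum (𝓞 L)), S.Finite ∧ ∀ (a b x t r s : L),
      b ^ 2 = fe e1 e2 e3 a → (x + (e1 + e2 + e3) + a + q) * (a - q) ^ 2 = (b - y4) ^ 2 →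
      x - q = t ^ 2 → t ≠ 0 → s ^ 2 = fe e1 e2 e3 r →
      ph e1 e2 e3 r = a * ps e1 e2 e3 r ^ 2 → ∀ u : Lˣ, (u : L) = r - r1 → ∀ v ∉ S,
        (2 : ℤ) ∣ Multiplicative.toAdd (v.valuationOfNeZero u) := by
  classical
  set Cs := consts e1 e2 e3 q y4 r1 r2 r3 r4 with hCs
  refine ⟨⋃ c ∈ {c | c ∈ Cs.toFinset ∧ c ≠ 0}, {v : HeightOneSpectrum (𝓞 L) |
    v.valuation L c ≠ 1}, ?_, ?_⟩
  · refine Set.Finite.biUnion ?_ ?_
    · exact (Cs.toFinset.finite_toSet).subset (fun c hc => hc.1)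
    · intro c hc
      exact finite_val_ne_one c hc.2
  · intro a b x t r s hb hx ht ht0 hs hra u hu v hv
    have heq : ∀ c ∈ Cs, c ≠ 0 → v.valuation L c = 1 := by
      intro c hc hc0
      by_contra hcon
      apply hv
      simp only [Set.mem_iUnion]
      exact ⟨c, ⟨List.mem_toFinset.2 hc, hc0⟩, hcon⟩
    have hle : ∀ c ∈ Cs, v.valuation L c ≤ 1 := by
      intro c hc
      by_cases hc0 : c = 0
      · rw [hc0, map_zero]; exact zero_le
      · exact (heq c hc hc0).le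
    obtain ⟨n12, n13, n14, -, -, -⟩ := hρ.ne h12 h13 h23
    obtain ⟨k1, k2, k3⟩ := hρ.fe_ne h12 h13 h23
    obtain ⟨g, hg, h⟩ := val_core (v.valuation L) hρ (hle _ (by simp [hCs, consts]))
      (hle _ (by simp [hCs, consts])) (hle _ (by simp [hCs, consts]))
      (hle q (by simp [hCs, consts])) (heq _ (by simp [hCs, consts]) (mul_ne_zero two_ne_zero hy0))
      (heq 2 (by simp [hCs, consts]) two_ne_zero) (heq 3 (by simp [hCs, consts]) three_ne_zero)
      (hle r1 (by simp [hCs, consts])) (heq _ (by simp [hCs, consts]) (sub_ne_zero.2 n12))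
      (heq _ (by simp [hCs, consts]) (sub_ne_zero.2 n13))
      (heq _ (by simp [hCs, consts]) (sub_ne_zero.2 n14))
      (heq _ (by simp [hCs, consts]) k1) (heq _ (by simp [hCs, consts]) k2)
      (heq _ (by simp [hCs, consts]) k3) hb hyq hx ht ht0 hs hra (by rw [← hu]; exact u.ne_zero)
    rw [← hu] at h
    exact even_order v u hg h

/-- finitely many points with abscissas in a finite set -/
theorem finite_pts {F : Type} [Field F] {e1 e2 e3 : F} {V : Set F} (hV : V.Finite) :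
    {R : Pt e1 e2 e3 | ∀ (r s : F) (hn : (crv e1 e2 e3).toAffine.Nonsingular r s),
      R = Affine.Point.some r s hn → r ∈ V}.Finite := by
  classical
  set Z : Set (F × F) := {p | p.1 ∈ V ∧ p.2 ^ 2 = fe e1 e2 e3 p.1} with hZ
  have hZf : Z.Finite := by
    have h1 : Z ⊆ ⋃ r ∈ V, (fun s => (r, s)) '' {s : F | s ^ 2 = fe e1 e2 e3 r} := by
      rintro ⟨r, s⟩ ⟨h1, h2⟩
      simp only [Set.mem_iUnion]
      exact ⟨r, h1, s, h2, rfl⟩
    refine Set.Finite.subset (Set.Finite.biUnion hV ?_) h1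
    intro r _
    apply Set.Finite.image
    have h2 : {s : F | s ^ 2 = fe e1 e2 e3 r} ⊆
        ((Polynomial.X ^ 2 - Polynomial.C (fe e1 e2 e3 r) : Polynomial F).roots.toFinset : Set F) := by
      intro s hs
      have hne : (Polynomial.X ^ 2 - Polynomial.C (fe e1 e2 e3 r) : Polynomial F) ≠ 0 :=
        Polynomial.X_pow_sub_C_ne_zero (by norm_num) _
      rw [Finset.mem_coe, Multiset.mem_toFinset, Polynomial.mem_roots hne]
      simp only [Polynomial.IsRoot.def, Polynomial.eval_sub, Polynomial.eval_pow,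
        Polynomial.eval_X, Polynomial.eval_C]
      exact sub_eq_zero.2 hs
    exact (Finset.finite_toSet _).subset h2
  let f : Pt e1 e2 e3 → Option (F × F) := fun R => match R with
    | .zero => none
    | .some r s _ => some (r, s)
  have hf : Function.Injective f := by
    rintro (_ | ⟨r, s, h⟩) (_ | ⟨r', s', h'⟩) hRR
    · rfl
    · cases hRR
    · cases hRR
    · simp only [f, Option.some.injEq, Prod.mk.injEq] at hRR
      obtain ⟨rfl, rfl⟩ := hRR
      rfl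
  refine Set.Finite.subset (Set.Finite.preimage hf.injOn
    ((hZf.image some).union (Set.finite_singleton none))) ?_
  rintro (_ | ⟨r, s, h⟩) hR
  · exact Or.inr rfl
  · exact Or.inl ⟨(r, s), ⟨hR r s h rfl, crv_eqn.1 h.1⟩, rfl⟩

/-- The target of the correspondence. -/
def Tgt {L : Type} [Field L] (e1 e2 e3 r1 r2 r3 r4 : L) : Set L :=
  {r : L | (∃ s, s ^ 2 = fe e1 e2 e3 r) ∧ (∃ t, r - r1 = t ^ 2) ∧ (∃ t, r - r2 = t ^ 2) ∧
    (∃ t, r - r3 = t ^ 2) ∧ ∃ t, r - r4 = t ^ 2}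

/-- the source, where infinity is the fifth branch point -/
def Src {K : Type} [Field K] (e1 e2 e3 q : K) : Set K :=
  {x : K | (∃ s, x + e1 = s ^ 2) ∧ (∃ s, x + e2 = s ^ 2) ∧ (∃ s, x + e3 = s ^ 2) ∧
    ∃ s, x - q = s ^ 2}

open Pool.Agent.H437R2.Man.MW in
theorem mw3' (K : Type) [Field K] [NumberField K] [DecidableEq K] {e1 e2 e3 : K} (h12 : e1 ≠ e2)
    (h13 : e1 ≠ e3) (h23 : e2 ≠ e3) :
    ∃ (L : Type) (_ : Field L) (_ : NumberField L) (i : K →+* L) (_ : DecidableEq L)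
      (φ : Pt e1 e2 e3 →+ Pt (i e1) (i e2) (i e3)),
      (∀ (x y : K) (hn : (crv e1 e2 e3).toAffine.Nonsingular x y),
        ∃ hn', φ (.some x y hn) = .some (i x) (i y) hn') ∧
      (∀ P, ∃ R, (3 : ℕ) • R = φ P) ∧ ∃ r1 r2 r3 r4 : L,
        Rho (i e1) (i e2) (i e3) r1 r2 r3 r4 := by
  obtain ⟨L, iF, iN, iA, iD, φ, h⟩ := mw3 K h12 h13 h23
  exact ⟨L, iF, iN, algebraMap K L, iD, φ, h⟩

/-- **The correspondence** -/
theorem bt0 (hS : SEL 2) (hR : ROOTS) (K : Type) [Field K] [NumberField K] {e1 e2 e3 q y4 : K}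
    (h12 : e1 ≠ e2) (h13 : e1 ≠ e3) (h23 : e2 ≠ e3) (hyq : y4 ^ 2 = fe e1 e2 e3 q)
    (hy0 : y4 ≠ 0) :
    ∃ (L : Type) (_ : Field L) (_ : NumberField L) (i : K →+* L) (r1 r2 r3 r4 : L),
      Rho (i e1) (i e2) (i e3) r1 r2 r3 r4 ∧
      ((Tgt (i e1) (i e2) (i e3) r1 r2 r3 r4).Finite → (Src e1 e2 e3 q).Finite) := by
  classical
  obtain ⟨L0, iF, iN, i0, iD, φ, hφ, hdiv, r1, r2, r3, r4, hρ⟩ := mw3' K h12 h13 h23
  have inj0 : Function.Injective i0 := i0.injective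
  have m12 := inj0.ne h12
  have m13 := inj0.ne h13
  have m23 := inj0.ne h23
  have hyq' : i0 y4 ^ 2 = fe (i0 e1) (i0 e2) (i0 e3) (i0 q) := by
    rw [← map_pow, hyq, map_fe]
  have hy0' : i0 y4 ≠ 0 := by rwa [Ne, map_eq_zero]
  obtain ⟨S1, hS1, hv1⟩ := even_out m12 m13 m23 hρ hyq' hy0'
  obtain ⟨S2, hS2, hv2⟩ := even_out m12 m13 m23 hρ.perm hyq' hy0'
  obtain ⟨S3, hS3, hv3⟩ := even_out m12 m13 m23 hρ.perm.perm hyq' hy0'
  obtain ⟨S4, hS4, hv4⟩ := even_out m12 m13 m23 hρ.perm.perm.perm hyq' hy0'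
  obtain ⟨T, hT0, hT⟩ := hS L0 (S1 ∪ S2 ∪ S3 ∪ S4) (((hS1.union hS2).union hS3).union hS4)
  obtain ⟨L, jF, jN, jA, hL⟩ := hR L0 T 2 (by norm_num)
  set i1 : L0 →+* L := algebraMap L0 L with hi1
  refine ⟨L, jF, jN, i1.comp i0, i1 r1, i1 r2, i1 r3, i1 r4, hρ.map i1, ?_⟩
  intro hfin
  have hsq : ∀ u : L0ˣ, (∀ v ∉ S1 ∪ S2 ∪ S3 ∪ S4, (2 : ℤ) ∣
      Multiplicative.toAdd (v.valuationOfNeZero u)) → ∃ t : L, i1 (u : L0) = t ^ 2 := by
    intro u hu
    obtain ⟨t, ht, b, -, hb⟩ := hT u hu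
    obtain ⟨θ, hθ⟩ := hL t ht
    exact ⟨θ * i1 b, by rw [hb, map_mul, map_pow, mul_pow, hθ]⟩
  set V : Set L0 := {r | i1 r ∈ Tgt (i1 (i0 e1)) (i1 (i0 e2)) (i1 (i0 e3)) (i1 r1) (i1 r2)
    (i1 r3) (i1 r4)} with hV
  have hVf : V.Finite := hfin.preimage i1.injective.injOn
  have hPf := finite_pts (e1 := i0 e1) (e2 := i0 e2) (e3 := i0 e3) hVf
  -- the point `Q`
  have hQn : (crv e1 e2 e3).toAffine.Nonsingular q y4 := crv_nonsing h12 h13 h23 hyq
  let xc : Pt (i0 e1) (i0 e2) (i0 e3) → L0 := fun P => match P with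
    | .zero => 0
    | .some x _ _ => x
  set G : Pt (i0 e1) (i0 e2) (i0 e3) → L0 := fun R =>
    xc ((3 : ℕ) • R + φ (Affine.Point.some q y4 hQn)) with hG
  have himg : (i0 '' (Src e1 e2 e3 q \ {q})).Finite := by
    refine Set.Finite.subset (hPf.image G) ?_
    rintro _ ⟨x, ⟨⟨⟨s1, hs1⟩, ⟨s2, hs2⟩, ⟨s3, hs3⟩, ⟨s4, hs4⟩⟩, hxq⟩, rfl⟩
    have hxq' : x ≠ q := hxq
    have hs40 : s4 ≠ 0 := by
      rintro rfl
      apply hxq'
      have : x - q = 0 := by rw [hs4]; ring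
      exact sub_eq_zero.1 this
    have hPn : (crv e1 e2 e3).toAffine.Nonsingular x (s1 * s2 * s3) :=
      crv_nonsing h12 h13 h23 (by rw [hs1, hs2, hs3]; ring)
    set P : Pt e1 e2 e3 := Affine.Point.some x _ hPn with hP
    set Q : Pt e1 e2 e3 := Affine.Point.some q y4 hQn with hQ
    obtain ⟨R, hR3⟩ := hdiv (P - Q)
    -- coordinates of `P - Q`
    rcases hA : P - Q with _ | ⟨a, b, hab⟩
    · exfalso
      have h1 : P = Q := sub_eq_zero.1 hA
      injection h1 with h2 h3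
      exact hxq' h2
    obtain ⟨hab', hφA⟩ := hφ a b hab
    rw [hA, hφA] at hR3
    obtain ⟨r, s, hn, hRe, hps, hph⟩ := third_data m12 m13 m23 hab' hR3
    refine ⟨R, ?_, ?_⟩
    · intro r' s' hn' hR'
      rw [hRe] at hR'
      injection hR' with h1 h2
      rw [← h1]
      have hb2 : i0 b ^ 2 = fe (i0 e1) (i0 e2) (i0 e3) (i0 a) := by
        rw [← map_pow, ← map_fe]
        congr 1
        exact crv_eqn.1 hab.1
      have hPQ : Affine.Point.some a b hab + Affine.Point.some q y4 hQn =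
          Affine.Point.some x _ hPn := by
        rw [← hA, sub_add_cancel]
      have hrel0 := add_rel hab hQn hPn hPQ
      have hrel : (i0 x + (i0 e1 + i0 e2 + i0 e3) + i0 a + i0 q) * (i0 a - i0 q) ^ 2 =
          (i0 b - i0 y4) ^ 2 := by
        simpa only [map_mul, map_add, map_sub, map_pow] using congrArg i0 hrel0
      have ht : i0 x - i0 q = i0 s4 ^ 2 := by rw [← map_sub, hs4, map_pow]
      have ht0 : i0 s4 ≠ 0 := by rwa [Ne, map_eq_zero]
      have hs : s ^ 2 = fe (i0 e1) (i0 e2) (i0 e3) r := crv_eqn.1 hn.1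
      rw [hρ.eq] at hps
      have hps' := mul_ne_zero_iff.1 (mul_ne_zero_iff.1 hps).2
      have hps'' := mul_ne_zero_iff.1 hps'.1
      have hps3 := mul_ne_zero_iff.1 hps''.1
      refine ⟨⟨i1 s, ?_⟩, ?_, ?_, ?_, ?_⟩
      · rw [← map_pow, hs, map_fe]
      · rw [← map_sub]
        exact hsq (Units.mk0 _ hps3.1) (fun v hv => hv1 _ _ _ _ _ _ hb2 hrel ht ht0 hs hph _ rfl v
          (fun h => hv (Or.inl (Or.inl (Or.inl h)))))
      · rw [← map_sub]
        exact hsq (Units.mk0 _ hps3.2) (fun v hv => hv2 _ _ _ _ _ _ hb2 hrel ht ht0 hs hph _ rfl v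
          (fun h => hv (Or.inl (Or.inl (Or.inr h)))))
      · rw [← map_sub]
        exact hsq (Units.mk0 _ hps''.2) (fun v hv => hv3 _ _ _ _ _ _ hb2 hrel ht ht0 hs hph _ rfl v
          (fun h => hv (Or.inl (Or.inr h))))
      · rw [← map_sub]
        exact hsq (Units.mk0 _ hps'.2) (fun v hv => hv4 _ _ _ _ _ _ hb2 hrel ht ht0 hs hph _ rfl v
          (fun h => hv (Or.inr h)))
    · show xc ((3 : ℕ) • R + φ Q) = i0 x
      obtain ⟨hP', hφP⟩ := hφ x _ hPn
      have h1 : (3 : ℕ) • R + φ Q = φ P := by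
        rw [hR3, ← hφA, ← hA, ← map_add, sub_add_cancel]
      rw [h1, hP, hφP]
  have h2 : (Src e1 e2 e3 q \ {q}).Finite := Set.Finite.of_finite_image himg inj0.injOn
  exact (h2.union (Set.finite_singleton q)).subset (fun x hx => by
    by_cases hxq : x = q
    · exact Or.inr hxq
    · exact Or.inl ⟨hx, hxq⟩)

end Pool.Agent.W2helper83.BT
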