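import Mathlib
import Pool.Agent.W2helper83.BT.Main
import Pool.Agent.H437R2.Man.Mord

/-! **FIVE**: Mordell's conjecture for the curves `x - e_i = s_i ^ 2`, `i = 1, …, 4`, over every
number field. -/

set_option autoImplicit false

open NumberField

namespace Pool.Agent.W2helper83.BT

/-- pulling back finiteness -/
theorem src_of_map {K L : Type} [Field K] [Field L] (i : K →+* L) {e1 e2 e3 q : K}
    (h : (Src (i e1) (i e2) (i e3) (i q)).Finite) : (Src e1 e2 e3 q).Finite := by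
  refine Set.Finite.subset (h.preimage i.injective.injOn) ?_
  rintro x ⟨⟨s1, h1⟩, ⟨s2, h2⟩, ⟨s3, h3⟩, ⟨s4, h4⟩⟩
  exact ⟨⟨i s1, by rw [← map_add, h1, map_pow]⟩, ⟨i s2, by rw [← map_add, h2, map_pow]⟩,
    ⟨i s3, by rw [← map_add, h3, map_pow]⟩, ⟨i s4, by rw [← map_sub, h4, map_pow]⟩⟩

theorem bt (hS : SEL 2) (hR : ROOTS) (K : Type) [Field K] [NumberField K] {e1 e2 e3 q : K}
    (h12 : e1 ≠ e2) (h13 : e1 ≠ e3) (h23 : e2 ≠ e3) (hq : fe e1 e2 e3 q ≠ 0) :
    ∃ (L : Type) (_ : Field L) (_ : NumberField L) (i : K →+* L) (r1 r2 r3 r4 : L),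
      Rho (i e1) (i e2) (i e3) r1 r2 r3 r4 ∧
      ((Tgt (i e1) (i e2) (i e3) r1 r2 r3 r4).Finite → (Src e1 e2 e3 q).Finite) := by
  obtain ⟨K1, jF, jN, jA, hL⟩ := hR K {fe e1 e2 e3 q} 2 (by norm_num)
  obtain ⟨y4, hy⟩ := hL _ (Finset.mem_singleton_self _)
  have inj : Function.Injective (algebraMap K K1) := (algebraMap K K1).injective
  rw [map_fe] at hy
  have hy0 : y4 ≠ 0 := by
    rintro rfl
    rw [zero_pow two_ne_zero, ← map_fe, eq_comm, map_eq_zero] at hy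
    exact hq hy
  obtain ⟨L, iF, iN, i, r1, r2, r3, r4, hρ, h⟩ := bt0 hS hR K1 (inj.ne h12) (inj.ne h13)
    (inj.ne h23) hy hy0
  exact ⟨L, iF, iN, i.comp (algebraMap K K1), r1, r2, r3, r4, hρ,
    fun hf => src_of_map (algebraMap K K1) (h hf)⟩

/-- the target in the equianharmonic case -/
theorem tgt_equi (hR : ROOTS) (L : Type) [Field L] [NumberField L] {a1 a2 a3 r1 r2 r3 r4 : L}
    (h12 : a1 ≠ a2) (heq : (a1 + a2 + a3) ^ 2 = 3 * (a1 * a2 + a1 * a3 + a2 * a3))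
    (hρ : Rho a1 a2 a3 r1 r2 r3 r4) : (Tgt a1 a2 a3 r1 r2 r3 r4).Finite := by
  classical
  -- the centre
  set β : L := -(a1 + a2 + a3) / 3 with hβ
  have h3β : a1 + a2 + a3 = -3 * β := by rw [hβ]; ring
  have hs2 : a1 * a2 + a1 * a3 + a2 * a3 = 3 * β ^ 2 := by
    have h3 : (3 : L) ≠ 0 := three_ne_zero
    apply mul_left_cancel₀ h3
    rw [← heq, h3β]; ring
  set D : L := fe a1 a2 a3 β with hD
  have hfe : ∀ x : L, fe a1 a2 a3 x = (x - β) ^ 3 + D := by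
    intro x
    have hx : ∀ x : L, fe a1 a2 a3 x = x ^ 3 + (a1 + a2 + a3) * x ^ 2 +
        (a1 * a2 + a1 * a3 + a2 * a3) * x + a1 * a2 * a3 := by
      intro x; simp only [fe]; ring
    rw [hD, hx, hx, h3β, hs2]
    ring
  have hD0 : D ≠ 0 := by
    intro h0
    have e1 := hfe (-a1)
    have e2 := hfe (-a2)
    have z1 : fe a1 a2 a3 (-a1) = 0 := by simp only [fe]; ring
    have z2 : fe a1 a2 a3 (-a2) = 0 := by simp only [fe]; ring
    rw [z1, h0, add_zero, eq_comm, pow_eq_zero_iff three_ne_zero] at e1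
    rw [z2, h0, add_zero, eq_comm, pow_eq_zero_iff three_ne_zero] at e2
    apply h12
    linear_combination e2 - e1
  have hps : ps a1 a2 a3 β = 0 := by
    have h1 : fd a1 a2 a3 β = 0 := by
      rw [fd, h3β, hs2]; ring
    rw [ps, h1, h3β]; ring
  -- `β` is one of the four roots
  have hroot : β = r1 ∨ β = r2 ∨ β = r3 ∨ β = r4 := by
    rw [hρ.eq] at hps
    rcases mul_eq_zero.1 hps with h | h
    · exact absurd h three_ne_zero
    · rcases mul_eq_zero.1 h with h | h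
      · rcases mul_eq_zero.1 h with h | h
        · rcases mul_eq_zero.1 h with h | h
          · exact Or.inl (sub_eq_zero.1 h)
          · exact Or.inr (Or.inl (sub_eq_zero.1 h))
        · exact Or.inr (Or.inr (Or.inl (sub_eq_zero.1 h)))
      · exact Or.inr (Or.inr (Or.inr (sub_eq_zero.1 h)))
  obtain ⟨M, jF, jN, jA, hL⟩ := hR L {D} 6 (by norm_num)
  obtain ⟨c, hc⟩ := hL _ (Finset.mem_singleton_self _)
  have hc0 : c ≠ 0 := by
    rintro rfl
    rw [zero_pow (by norm_num), eq_comm, map_eq_zero] at hc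
    exact hD0 hc
  have hmor := Pool.Agent.H437R2.Man.mordell M
  set Z : Set L := {t : L | ∃ s, s ^ 2 = t ^ 6 + D} with hZ
  have hZf : Z.Finite := by
    have hinj : Function.Injective (fun t : L => algebraMap L M t / c) := by
      intro t t' h
      have h' : algebraMap L M t / c = algebraMap L M t' / c := h
      rw [div_left_inj' hc0] at h'
      exact (algebraMap L M).injective h'
    refine Set.Finite.subset (hmor.preimage hinj.injOn) ?_
    rintro t ⟨s, hs⟩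
    refine ⟨algebraMap L M s / c ^ 3, ?_⟩
    have e : (algebraMap L M s) ^ 2 = (algebraMap L M t) ^ 6 + c ^ 6 := by
      rw [hc, ← map_pow, hs, map_add, map_pow]
    show (algebraMap L M s / c ^ 3) ^ 2 = (algebraMap L M t / c) ^ 6 + 1
    rw [div_pow, div_pow, e]
    field_simp
  refine Set.Finite.subset (hZf.image (fun t => t ^ 2 + β)) ?_
  rintro r ⟨⟨s, hs⟩, h1, h2, h3, h4⟩
  have ht : ∃ t, r - β = t ^ 2 := by
    rcases hroot with h | h | h | h
    · rw [h]; exact h1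
    · rw [h]; exact h2
    · rw [h]; exact h3
    · rw [h]; exact h4
  obtain ⟨t, ht⟩ := ht
  refine ⟨t, ⟨s, ?_⟩, ?_⟩
  · rw [hs, hfe, ht]; ring
  · show t ^ 2 + β = r
    rw [← ht]; ring

/-- the equianharmonic case -/
theorem src_equi (hS : SEL 2) (hR : ROOTS) (K : Type) [Field K] [NumberField K] {e1 e2 e3 q : K}
    (h12 : e1 ≠ e2) (h13 : e1 ≠ e3) (h23 : e2 ≠ e3) (hq : fe e1 e2 e3 q ≠ 0)
    (heq : (e1 + e2 + e3) ^ 2 = 3 * (e1 * e2 + e1 * e3 + e2 * e3)) : (Src e1 e2 e3 q).Finite := by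
  obtain ⟨L, iF, iN, i, r1, r2, r3, r4, hρ, h⟩ := bt hS hR K h12 h13 h23 hq
  refine h (tgt_equi hR L (i.injective.ne h12) ?_ hρ)
  simpa only [map_mul, map_add, map_pow, map_ofNat] using congrArg i heq

/-- the general target -/
theorem tgt_fin (hS : SEL 2) (hR : ROOTS) (L : Type) [Field L] [NumberField L]
    {a1 a2 a3 r1 r2 r3 r4 : L} (h12 : a1 ≠ a2) (h13 : a1 ≠ a3) (h23 : a2 ≠ a3)
    (hρ : Rho a1 a2 a3 r1 r2 r3 r4) : (Tgt a1 a2 a3 r1 r2 r3 r4).Finite := by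
  classical
  obtain ⟨n12, n13, n14, n23, n24, n34⟩ := hρ.ne h12 h13 h23
  have d1 : r4 - r1 ≠ 0 := sub_ne_zero.2 n14.symm
  have d2 : r4 - r2 ≠ 0 := sub_ne_zero.2 n24.symm
  have d3 : r4 - r3 ≠ 0 := sub_ne_zero.2 n34.symm
  obtain ⟨M, jF, jN, jA, hL⟩ := hR L {(r4 - r1)⁻¹, (r4 - r2)⁻¹, (r4 - r3)⁻¹} 2 (by norm_num)
  obtain ⟨c1, hc1⟩ := hL (r4 - r1)⁻¹ (by simp)
  obtain ⟨c2, hc2⟩ := hL (r4 - r2)⁻¹ (by simp)
  obtain ⟨c3, hc3⟩ := hL (r4 - r3)⁻¹ (by simp)
  set j := algebraMap L M with hj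
  have hinj : Function.Injective j := j.injective
  -- the new configuration `U + 1 / (ρ_4 - ρ_i)`, `U`
  have hsrc : (Src (j (r4 - r1)⁻¹) (j (r4 - r2)⁻¹) (j (r4 - r3)⁻¹) 0).Finite := by
    refine src_equi hS hR M (hinj.ne ?_) (hinj.ne ?_) (hinj.ne ?_) ?_ ?_
    · intro h
      apply n12
      have := inv_injective h
      linear_combination -this
    · intro h
      apply n13
      have := inv_injective h
      linear_combination -this
    · intro h
      apply n23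
      have := inv_injective h
      linear_combination -this
    · simp only [fe, zero_add]
      rw [← map_mul, ← map_mul, Ne, map_eq_zero]
      exact mul_ne_zero (mul_ne_zero (inv_ne_zero d1) (inv_ne_zero d2)) (inv_ne_zero d3)
    · have key : ((r4 - r1)⁻¹ + (r4 - r2)⁻¹ + (r4 - r3)⁻¹) ^ 2 =
          3 * ((r4 - r1)⁻¹ * (r4 - r2)⁻¹ + (r4 - r1)⁻¹ * (r4 - r3)⁻¹ +
            (r4 - r2)⁻¹ * (r4 - r3)⁻¹) := by
        have hI : (r1 * r2 + r1 * r3 + r1 * r4 + r2 * r3 + r2 * r4 + r3 * r4) ^ 2 -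
            3 * (r1 + r2 + r3 + r4) * (r1 * r2 * r3 + r1 * r2 * r4 + r1 * r3 * r4 + r2 * r3 * r4) +
            12 * (r1 * r2 * r3 * r4) = 0 := by
          have k1 := hρ.h1
          have k2 := hρ.h2
          have k3 := hρ.h3
          have k4 := hρ.h4
          set s1 := r1 + r2 + r3 + r4
          set s2 := r1 * r2 + r1 * r3 + r1 * r4 + r2 * r3 + r2 * r4 + r3 * r4
          set s3 := r1 * r2 * r3 + r1 * r2 * r4 + r1 * r3 * r4 + r2 * r3 * r4
          set s4 := r1 * r2 * r3 * r4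
          have q1 : -3 * s1 = 4 * (a1 + a2 + a3) := k1.symm
          have q3 : s3 = -(4 * (a1 * a2 * a3)) := by linear_combination k3
          rw [← k2, q3]
          linear_combination (-4 * (a1 * a2 * a3)) * q1 - 4 * k4
        field_simp
        linear_combination hI
      simpa only [map_mul, map_add, map_pow, map_ofNat] using congrArg j key
  have himg : ((fun r => j (r - r4)⁻¹) '' (Tgt a1 a2 a3 r1 r2 r3 r4 \ {r4})).Finite := by
    refine hsrc.subset ?_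
    rintro _ ⟨r, ⟨⟨-, ⟨t1, h1⟩, ⟨t2, h2⟩, ⟨t3, h3⟩, ⟨t4, h4⟩⟩, hr4⟩, rfl⟩
    have hr : r - r4 ≠ 0 := sub_ne_zero.2 hr4
    have ht4 : t4 ≠ 0 := by
      rintro rfl
      apply hr; rw [h4]; ring
    have key : ∀ (t c : L) (ρ : L), r4 - ρ ≠ 0 → r - ρ = t ^ 2 →
        (r - r4)⁻¹ + (r4 - ρ)⁻¹ = (t / t4) ^ 2 * (r4 - ρ)⁻¹ := by
      intro t c ρ hρ' ht
      have e : (t / t4) ^ 2 = (r - ρ) / (r - r4) := by rw [div_pow, ht, h4]
      rw [e]
      field_simp
      ring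
    refine ⟨⟨j (t1 / t4) * c1, ?_⟩, ⟨j (t2 / t4) * c2, ?_⟩, ⟨j (t3 / t4) * c3, ?_⟩, ⟨j t4⁻¹, ?_⟩⟩
    · show j (r - r4)⁻¹ + j (r4 - r1)⁻¹ = _
      rw [← map_add, key t1 0 r1 d1 h1, map_mul, map_pow, mul_pow, hc1]
    · show j (r - r4)⁻¹ + j (r4 - r2)⁻¹ = _
      rw [← map_add, key t2 0 r2 d2 h2, map_mul, map_pow, mul_pow, hc2]
    · show j (r - r4)⁻¹ + j (r4 - r3)⁻¹ = _
      rw [← map_add, key t3 0 r3 d3 h3, map_mul, map_pow, mul_pow, hc3]
    · show j (r - r4)⁻¹ - 0 = _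
      rw [h4, sub_zero, ← map_pow, inv_pow]
  have h2 : (Tgt a1 a2 a3 r1 r2 r3 r4 \ {r4}).Finite := by
    refine Set.Finite.of_finite_image himg ?_
    intro r _ r' _ h
    have h' := inv_injective (hinj h)
    linear_combination h'
  exact (h2.union (Set.finite_singleton r4)).subset (fun x hx => by
    by_cases hxq : x = r4
    · exact Or.inr hxq
    · exact Or.inl ⟨hx, hxq⟩)

/-- **FIVE** -/
theorem five (hS : SEL 2) (hR : ROOTS) : FIVE := by
  intro K _ _ e1 e2 e3 e4 h12 h13 h14 h23 h24 h34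
  have hq : fe (-e1) (-e2) (-e3) e4 ≠ 0 := by
    simp only [fe, ← sub_eq_add_neg]
    exact mul_ne_zero (mul_ne_zero (sub_ne_zero.2 h14.symm) (sub_ne_zero.2 h24.symm))
      (sub_ne_zero.2 h34.symm)
  have n12 : -e1 ≠ -e2 := fun h => h12 (neg_injective h)
  have n13 : -e1 ≠ -e3 := fun h => h13 (neg_injective h)
  have n23 : -e2 ≠ -e3 := fun h => h23 (neg_injective h)
  obtain ⟨L, iF, iN, i, r1, r2, r3, r4, hρ, h⟩ := bt hS hR K n12 n13 n23 hq
  have h1 := h (tgt_fin hS hR L (i.injective.ne n12) (i.injective.ne n13) (i.injective.ne n23) hρ)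
  refine h1.subset ?_
  rintro x ⟨⟨s1, h1⟩, ⟨s2, h2⟩, ⟨s3, h3⟩, ⟨s4, h4⟩⟩
  exact ⟨⟨s1, by rw [← h1]; ring⟩, ⟨s2, by rw [← h2]; ring⟩, ⟨s3, by rw [← h3]; ring⟩, ⟨s4, h4⟩⟩

end Pool.Agent.W2helper83.BT
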