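import Mathlib
import Pool.Agent.W2helper83.BT.Five
import Pool.Agent.W2helper6.BT.Ferm
import Pool.Agent.W2helper6.BT.Fin
import Pool.Agent.W2helper6.BT.Sel
import Pool.Agent.W2helper9.BT.Dyn
import Pool.Agent.W2helper9.BT.Exc
import Pool.Agent.T6.H62.PP.MainG
import Pool.Agent.T6.H62.PP.Sel
import Pool.Agent.T6.H62.PP.GFin
import Pool.Agent.T6.H62.PP.Val
import Pool.Agent.T6.H62.PP.Emb
import Pool.Agent.T6.H62.PP.Ker
import Pool.Agent.T6.H62.PP.Pt

/-! Uniform boundedness over `ℚ` for `x ^ d + c`, all `d ≥ 3`. -/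

set_option autoImplicit false

namespace Pool.Agent.W2helper83.BT

open Finset Pool.Agent.T6.H62.UB Pool.Agent.T6.H62.PP Pool.Agent.T6.H62.PP.G

theorem five' : FIVE := five (Pool.Agent.W2helper6.BT.sel 2 (by norm_num))
  Pool.Agent.W2helper6.BT.roots

theorem ferm' (l : ℕ) (h5 : 5 ≤ l) (ho : Odd l) : FERM l :=
  Pool.Agent.W2helper6.BT.ferm five' (Pool.Agent.W2helper6.BT.sel 2 (by norm_num))
    Pool.Agent.W2helper6.BT.roots l h5 ho

theorem fin' (d : ℕ) (hde : Even d) (hd : 6 ≤ d) : FIN (d - 1) d ∧ FIN' (d - 1) d := by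
  have ho : Odd (d - 1) := by
    obtain ⟨e, rfl⟩ := hde
    exact ⟨e - 1, by omega⟩
  exact Pool.Agent.W2helper6.BT.finStm Pool.Agent.W2helper6.BT.roots (d - 1) d (by omega)
    (Pool.Agent.W2helper6.BT.sel (d - 1) (by omega)) (ferm' (d - 1) (by omega) ho) hde (by omega)

/-- the maps of odd degree have only fixed points -/
theorem odd_case (d : ℕ) (ho : Odd d) (hd : 3 ≤ d) (c : ℚ) (T : Finset ℚ)
    (hT : ∀ x ∈ T, ∃ m n : ℕ, m < n ∧
      (fun x : ℚ => x ^ d + c)^[m] x = (fun x : ℚ => x ^ d + c)^[n] x) : T.card ≤ d := by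
  classical
  set f : ℚ → ℚ := fun x => x ^ d + c with hf
  have hmono : StrictMono f := fun x y hxy => by
    have := ho.strictMono_pow hxy
    simp only [hf]
    linarith
  have hfix : ∀ x ∈ T, f x = x := by
    intro x hx
    obtain ⟨m, n, hmn, h⟩ := hT x hx
    by_contra hne
    rcases lt_or_gt_of_ne hne with h1 | h1
    · have h2 : StrictAnti fun k : ℕ => f^[k] x := by
        apply strictAnti_nat_of_succ_lt
        intro k
        induction k with
        | zero => simpa using h1
        | succ k ih =>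
          have e1 := Function.iterate_succ_apply' f (k + 1) x
          have e2 := Function.iterate_succ_apply' f k x
          have ih' := hmono ih
          rw [← e1, ← e2] at ih'
          exact ih'
      exact absurd h (h2 hmn).ne'
    · have h2 : StrictMono fun k : ℕ => f^[k] x := by
        apply strictMono_nat_of_lt_succ
        intro k
        induction k with
        | zero => simpa using h1
        | succ k ih =>
          have e1 := Function.iterate_succ_apply' f (k + 1) x
          have e2 := Function.iterate_succ_apply' f k x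
          have ih' := hmono ih
          rw [← e1, ← e2] at ih'
          exact ih'
      exact absurd h (h2 hmn).ne
  -- the fixed points are roots of a polynomial of degree `d`
  set P : Polynomial ℚ := Polynomial.X ^ d - Polynomial.X + Polynomial.C c with hP
  have hdeg : P.natDegree = d := by
    rw [hP]
    have h1 : (Polynomial.X ^ d - Polynomial.X + Polynomial.C c : Polynomial ℚ) =
        Polynomial.X ^ d + (-Polynomial.X + Polynomial.C c) := by ring
    rw [h1, Polynomial.natDegree_add_eq_left_of_natDegree_lt]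
    · exact Polynomial.natDegree_X_pow d
    · rw [Polynomial.natDegree_X_pow]
      refine lt_of_le_of_lt (Polynomial.natDegree_add_le _ _) ?_
      rw [Polynomial.natDegree_neg, Polynomial.natDegree_X, Polynomial.natDegree_C]
      omega
  have hP0 : P ≠ 0 := by
    intro h0
    rw [h0, Polynomial.natDegree_zero] at hdeg
    omega
  have hsub : T ⊆ P.roots.toFinset := by
    intro x hx
    rw [Multiset.mem_toFinset, Polynomial.mem_roots hP0]
    have := hfix x hx
    simp only [hf] at this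
    simp only [hP, Polynomial.IsRoot.def, Polynomial.eval_add, Polynomial.eval_sub,
      Polynomial.eval_pow, Polynomial.eval_X, Polynomial.eval_C]
    linarith
  refine (card_le_card hsub).trans ((Multiset.toFinset_card_le _).trans ?_)
  exact (Polynomial.card_roots' P).trans hdeg.le

/-- **Uniform boundedness for `x ^ d + c` over `ℚ`, every `d ≥ 3`.** -/
theorem ubc (d : ℕ) (hd : 3 ≤ d) : ∃ B : ℕ, ∀ (c : ℚ) (T : Finset ℚ),
    (∀ x ∈ T, ∃ m n : ℕ, m < n ∧
      (fun x : ℚ => x ^ d + c)^[m] x = (fun x : ℚ => x ^ d + c)^[n] x) → T.card ≤ B := by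
  rcases Nat.even_or_odd d with he | ho
  · by_cases h6 : 6 ≤ d
    · have h := fin' d he h6
      exact Pool.Agent.W2helper9.BT.dynStm (d - 1) d (by omega) he (by omega) dvd_rfl h.1 h.2
    · have h4 : d = 4 := by
        obtain ⟨e, rfl⟩ := he
        omega
      subst h4
      exact G.main_c he le_rfl (by norm_num) (per4G emb ker pt) (fin_of sel gfin).1
  · exact ⟨d, fun c T hT => odd_case d ho hd c T hT⟩

/-- two periodic points -/
theorem exc_per (d : ℕ) (he : Even d) (h6 : 6 ≤ d) :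
    {c : ℚ | ∃ x y : ℚ, x ≠ y ∧ (∃ n : ℕ, 0 < n ∧ (fun x : ℚ => x ^ d + c)^[n] x = x) ∧
      ∃ n : ℕ, 0 < n ∧ (fun x : ℚ => x ^ d + c)^[n] y = y}.Finite := by
  have h := fin' d he h6
  exact Pool.Agent.W2helper9.BT.excStm (d - 1) d (by omega) he (by omega) dvd_rfl h.1 h.2

/-- the rational points of the reduced system -/
theorem iter_sys {d v : ℕ} {b : ℤ} {O : Finset ℤ} {φ : ℤ → ℤ} {c : ℚ} (hd : 1 ≤ d) (hv : 0 < v)
    (hden : c.den = v ^ d) (hnum : c.num = b) (h : Sys d 1 b (v ^ (d - 1)) O φ) (n : ℕ) :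
    ∀ u ∈ O, (fun x : ℚ => x ^ d + c)^[n] ((u : ℚ) / v) = (φ^[n] u : ℚ) / v := by
  have hvQ : (v : ℚ) ≠ 0 := by exact_mod_cast hv.ne'
  have hc : c = (b : ℚ) / (v : ℚ) ^ d := by
    have h1 : (c.num : ℚ) / c.den = c := Rat.num_div_den c
    rw [hden, hnum] at h1
    push_cast at h1
    exact h1.symm
  induction n with
  | zero => intro u _; rfl
  | succ n ih =>
    intro u hu
    rw [Function.iterate_succ_apply, Function.iterate_succ_apply, ← ih _ (h.maps u hu)]
    congr 1
    have h1 := h.eqn u hu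
    have h2 : (v : ℚ) ^ (d - 1) * (φ u : ℚ) = (u : ℚ) ^ d + b := by
      have := congrArg (Int.cast : ℤ → ℚ) h1
      push_cast at this
      linarith
    show ((u : ℚ) / v) ^ d + c = _
    rw [hc, div_pow, ← add_div, ← h2]
    obtain ⟨e, rfl⟩ : ∃ e, d = e + 1 := ⟨d - 1, by omega⟩
    simp only [Nat.add_sub_cancel]
    field_simp
    ring

/-- three points with finite orbits -/
theorem exc_pre (d : ℕ) (he : Even d) (h6 : 6 ≤ d) :
    {c : ℚ | ∃ T : Finset ℚ, 3 ≤ T.card ∧ ∀ x ∈ T, ∃ m n : ℕ, m < n ∧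
      (fun x : ℚ => x ^ d + c)^[m] x = (fun x : ℚ => x ^ d + c)^[n] x}.Finite := by
  classical
  have hF := fin' d he h6
  have hexc := exc_per d he h6
  obtain ⟨BT, hBT⟩ := Pool.Agent.W2helper9.BT.tailG hF.1 he (by omega)
  set N : Set ℚ := {c : ℚ | c.num.natAbs ≤ BT ∧ c.den ≤ BT ^ d} with hN
  have hNf : N.Finite := by
    refine Set.Finite.subset (((Finset.Icc (-(BT : ℤ)) BT ×ˢ Finset.range (BT ^ d + 1)).image
      (fun p : ℤ × ℕ => (p.1 : ℚ) / (p.2 : ℚ))).finite_toSet) ?_
    rintro c ⟨h1, h2⟩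
    rw [Finset.mem_coe, mem_image]
    refine ⟨(c.num, c.den), ?_, Rat.num_div_den c⟩
    rw [mem_product, mem_Icc, mem_range]
    refine ⟨?_, by omega⟩
    constructor <;> simp only <;> omega
  refine Set.Finite.subset ((hexc.union hNf).union (Set.finite_singleton 0)) ?_
  rintro c ⟨T, hT3, hT⟩
  by_cases hc1 : c ∈ {c : ℚ | ∃ x y : ℚ, x ≠ y ∧
      (∃ n : ℕ, 0 < n ∧ (fun x : ℚ => x ^ d + c)^[n] x = x) ∧
      ∃ n : ℕ, 0 < n ∧ (fun x : ℚ => x ^ d + c)^[n] y = y}
  · exact Or.inl (Or.inl hc1)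
  have hTne : T.Nonempty := by
    rw [← card_pos]; omega
  obtain ⟨v, b, O, φ, hv, hden, hnum, h, hcard, hev⟩ := exists_sys_c (by omega) T hTne hT
  have hvQ : (v : ℚ) ≠ 0 := by exact_mod_cast hv.ne'
  have hP1 : (G.perSet φ O).card ≤ 1 := by
    by_contra hcon
    obtain ⟨y1, hy1, y2, hy2, hne⟩ := one_lt_card.1 (show 1 < (G.perSet φ O).card by omega)
    obtain ⟨hy1O, n1, hn1, py1⟩ := G.mem_perSet.1 hy1
    obtain ⟨hy2O, n2, hn2, py2⟩ := G.mem_perSet.1 hy2
    apply hc1
    refine ⟨(y1 : ℚ) / v, (y2 : ℚ) / v, ?_, ⟨n1, hn1, ?_⟩, ⟨n2, hn2, ?_⟩⟩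
    · intro h0
      rw [div_left_inj' hvQ] at h0
      exact hne (by exact_mod_cast h0)
    · rw [iter_sys (by omega) hv hden hnum h n1 y1 hy1O, py1]
    · rw [iter_sys (by omega) hv hden hnum h n2 y2 hy2O, py2]
  rcases tail_one h one_ne_zero he (by omega) hev hP1 with ⟨z, x, hz, hx, hfz, hfx⟩ | h1
  · have e1 := h.eqn z hz
    have e2 := h.eqn x hx
    rw [hfz] at e1
    rw [hfx] at e2
    by_cases hz0 : z = 0
    · right
      subst hz0
      have hb : b = 0 := by
        have e3 : (0 : ℤ) ^ d = 0 := zero_pow (by omega)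
        rw [mul_zero, e3] at e1
        linarith
      rw [Set.mem_singleton_iff, ← Rat.num_eq_zero, hnum, hb]
    · left; right
      have h3 := hBT 1 b z x v one_ne_zero hv h.copA h.copB hz0 e1 e2
      have h4 : v ≤ v ^ (d - 1) := Nat.le_self_pow (by omega) v
      refine ⟨by rw [hnum]; omega, ?_⟩
      rw [hden]
      exact Nat.pow_le_pow_left (by omega) d
  · omega

end Pool.Agent.W2helper83.BT
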