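import Mathlib
import Pool.Agent.W2helper83.BT.Line
import Pool.Agent.W2helper83.BT.OddNeg
import Pool.Agent.W2helper83.BT.OverQ
import Pool.Agent.W2helper92.BT2.Loc
import Pool.Agent.W2helper73.BT.Ratio
import Pool.Agent.W2helper71.BT.Excz
import Pool.Agent.W2helper15.BT.Tailz
import Pool.Agent.W2helper53.BT.Four
import Pool.Agent.W2helper53.BT.Even

/-! Assembly: the maps `x ^ e + c` over number fields. -/

set_option autoImplicit false

namespace Pool.Agent.W2helper83.BT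

open NumberField

theorem sel' (m : ℕ) (hm : 0 < m) : SEL m := Pool.Agent.W2helper6.BT.sel m hm

theorem roots' : ROOTS := Pool.Agent.W2helper6.BT.roots

/-- **Mordell's conjecture for all Fermat curves of degree at least four** -/
theorem hF (m : ℕ) (hm : 4 ≤ m) : FERM m := by
  rcases Nat.even_or_odd m with he | ho
  · by_cases h6 : 6 ≤ m
    · exact Pool.Agent.W2helper53.BT.ferm_even five' (sel' 2 (by norm_num)) roots' m h6 he
    · have h4 : m = 4 := by
        obtain ⟨k, rfl⟩ := he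
        omega
      subst h4
      exact Pool.Agent.W2helper53.BT.ferm4 five' (sel' 2 (by norm_num)) (sel' 4 (by norm_num))
        roots'
  · have h5 : 5 ≤ m := by
      obtain ⟨k, rfl⟩ := ho
      omega
    exact ferm' m h5 ho

theorem desc_all {e : ℤ} (he : 5 ≤ e ∨ e ≤ -4) (K : Type) [Field K] [NumberField K] :
    {c : K | ¬ DESC e c}.Finite := by
  have h1 : RATIO e := Pool.Agent.W2helper73.BT.ratio Pool.Agent.W2helper92.BT2.loc roots' e he
    (sel' _ (by omega)) (hF _ (by omega))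
  exact desc_fin (by omega) (Pool.Agent.W2helper71.BT.excz e (by omega) h1)
    (Pool.Agent.W2helper15.BT.tailz roots' sel' (fun m hm => hF m (by omega)) e he) K

theorem ubd_all {e : ℤ} (he : 5 ≤ e ∨ e ≤ -4) (K : Type) [Field K] [NumberField K] :
    ∃ B : ℕ, ∀ (c : K) (T : Finset K), (∀ x ∈ T, PreZ e c x) → T.card ≤ B :=
  ubd_of (by omega) K (desc_all he K)

theorem grp_all {e : ℤ} (he : 5 ≤ e ∨ e ≤ -4) (K : Type) [Field K] [NumberField K]
    (Γ : Subgroup Kˣ) (hΓ : Γ.FG) :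
    ∃ B : ℕ, ∀ a ∈ Γ, ∀ (r s : K) (T : Finset (Option K)),
      (∀ P ∈ T, Preper (Phi e (a : K) r s) P) → T.card ≤ B :=
  grp_of roots' (by omega) (by omega) (fun L _ _ => ubd_all he L) K Γ hΓ

theorem overQ_all {e : ℤ} (he : 3 ≤ |e|) : ∃ B : ℕ, ∀ (c : ℚ) (T : Finset (Option ℚ)),
    (∀ P ∈ T, Preper (Phi e 1 0 c) P) → T.card ≤ B := by
  have he0 : e ≠ 0 := by
    rintro rfl
    simp at he
  suffices h : ∃ B : ℕ, ∀ (c : ℚ) (T : Finset ℚ), (∀ x ∈ T, PreZ e c x) → T.card ≤ B by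
    obtain ⟨B, hB⟩ := h
    refine ⟨B + 1, fun c T hT => card_opt (fun T' hT' => ?_) T hT⟩
    exact hB c T' (fun x hx => (preper_some he0 c x).1 (hT' x hx))
  by_cases h1 : 5 ≤ e ∨ e ≤ -4
  · exact ubd_all h1 ℚ
  have h2 : e = 3 ∨ e = 4 ∨ e = -3 := by
    rcases abs_cases e with h | h <;> omega
  have hpos : ∀ d : ℕ, 3 ≤ d → ∃ B : ℕ, ∀ (c : ℚ) (T : Finset ℚ),
      (∀ x ∈ T, PreZ (d : ℤ) c x) → T.card ≤ B := by
    intro d hd
    obtain ⟨B, hB⟩ := ubc d hd
    refine ⟨B, fun c T hT => hB c T (fun x hx => ?_)⟩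
    have h3 : (fun x : ℚ => x ^ d + c) = fz (d : ℤ) c := by
      funext y
      rw [fz, zpow_natCast]
    rw [h3]
    exact hT x hx
  rcases h2 with rfl | rfl | rfl
  · exact hpos 3 (by norm_num)
  · exact hpos 4 (by norm_num)
  · refine ⟨3 ^ 2 + 3, fun c T hT => ?_⟩
    exact odd_neg 3 (by decide) (by norm_num) c T hT

end Pool.Agent.W2helper83.BT
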