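import Mathlib
import Pool.Agent.W2helper83.BT.Defs2

/-!
# Project BT, third part: the two-parameter families `a t ^ l x ^ e + c`, `l ∣ e - 1`

`a` runs through a finitely generated group, `t` through all nonzero elements of the number field and
`c` through the number field. (`l = |e - 1|` is the family `x ^ e + c` up to conjugation.)
All the statements use Lean's `0 ^ e = 0` for `e < 0`.
-/

set_option autoImplicit false

namespace Pool.Agent.W2helper83.BT

open IsDedekindDomain NumberField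

/-- the map `a x ^ e + c` -/
def fa {K : Type} [Field K] (e : ℤ) (a c x : K) : K := a * x ^ e + c

/-- periodic points -/
def PerA {K : Type} [Field K] (e : ℤ) (a c x : K) : Prop := ∃ n : ℕ, 0 < n ∧ (fa e a c)^[n] x = x

/-- LOCA: at a place `v` outside `d = |e|`, for roots of unity `ζ₁, ζ₂ ≠ 1` of order dividing `d`, the
valuation of `(x - ζ₁ y) / (x - ζ₂ y)` is a power of the valuation of `a u ^ (e - 1)`, `u ≠ 0`.

Proof. Let `L` be a field containing `K` and `β` with `β ^ (e - 1) = a` (for example the algebraic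
closure of `K`), and `w` an extension of the valuation of `v` to `L`, i.e. `w x ≤ 1 ↔ v x ≤ 1` for
`x` in `K`. `β x` and `β y` are periodic for `z ^ e + β c`. By
`Pool.Agent.W2helper92.BT2.loc_pow` the value `w ((x - ζ₁ y) / (x - ζ₂ y))` is
`w (β x) ^ (k (e - 1)) = w (a x ^ (e - 1)) ^ k`, so that (for `x ≠ 0`)
`(x - ζ₁ y) / (x - ζ₂ y) / (a x ^ (e - 1)) ^ k` has `w`-value one, hence `v`-value one. If `x = 0` then
`v ((x - ζ₁ y) / (x - ζ₂ y)) = 1` trivially (`k = 0`, `u = 1`). -/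
def LOCA : Prop := ∀ (K : Type) [Field K] [NumberField K]
  (v : HeightOneSpectrum (𝓞 K)) (d : ℕ) (e : ℤ) (a c x y ζ₁ ζ₂ : K), 2 ≤ d → (e = d ∨ e = -d) →
  v.valuation K (d : K) = 1 → (∃ ζ : K, IsPrimitiveRoot ζ d) → a ≠ 0 →
  PerA e a c x → PerA e a c y → x ≠ y →
  ζ₁ ^ d = 1 → ζ₁ ≠ 1 → ζ₂ ^ d = 1 → ζ₂ ≠ 1 → x - ζ₁ * y ≠ 0 → x - ζ₂ * y ≠ 0 →
  ∃ (k : ℤ) (u : K), u ≠ 0 ∧
    v.valuation K ((x - ζ₁ * y) / (x - ζ₂ * y)) = v.valuation K (a * u ^ (e - 1)) ^ k

/-- POW: the line with `n` points of multiplicity `l` has finitely many points with values in a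
number field (to be proved for `l ≥ 4`, `n = 3`; `l = 3`, `n = 4`; `l = 2`, `n = 5`). -/
def POW (l n : ℕ) : Prop := ∀ (K : Type) [Field K] [NumberField K]
  (S : Set (HeightOneSpectrum (𝓞 K))), S.Finite → ∀ r : Fin n → K, Function.Injective r →
  {ρ : K | (∀ i, ρ ≠ r i) ∧ ∀ i j, ∀ v : HeightOneSpectrum (𝓞 K), v ∉ S →
    ∃ g : K, g ≠ 0 ∧ v.valuation K ((ρ - r i) / (ρ - r j)) = v.valuation K g ^ l}.Finite

/-- POW4. Proof: SEL `l`: `(ρ - r 0) / (ρ - r 2) = ε g ^ l`, `(ρ - r 1) / (ρ - r 2) = ε' h ^ l` with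
`ε, ε'` in a finite set; the linear relation between the three forms is
`A ε g ^ l + B ε' h ^ l = 1`, `A = (r 1 - r 2) / (r 1 - r 0)` etc.; in a bigger field with `l`-th roots of
the `A ε`, `B ε'` (ROOTS) this is a point of the Fermat curve of degree `l`, so there are finitely many
`ε g ^ l`, so finitely many `ρ`. Model: `Pool/Agent/W2helper73/BT/Ratio.lean`. -/
def POW4 : Prop := ∀ l : ℕ, 4 ≤ l → SEL l → ROOTS → FERM l → POW l 3

/-- POW2. Proof: SEL 2: `(ρ - r i) / (ρ - r 4) = ε_i g_i ^ 2`, `i < 4`; with `X = 1 / (ρ - r 4)`: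
`(ρ - r i) / (ρ - r 4) = 1 + (r 4 - r i) X = (r 4 - r i) (X - e_i)`, `e_i = - 1 / (r 4 - r i)`; in a
bigger field with square roots of `ε_i / (r 4 - r i)` (ROOTS) FIVE gives finitely many `X`. Model:
`Pool/Agent/W2helper53/BT/Even.lean`. -/
def POW2 : Prop := SEL 2 → ROOTS → FIVE → POW 2 5

/-- POW3. Proof: `(ρ - r 0) (ρ - r 1) / ((ρ - r 2) (ρ - r 3)) = ε g ^ 3` with `ε` in a finite set
(SEL 3 for the product). For fixed `ε` put `G = ε g ^ 3`. The quadratic equation
`(ρ - r 0) (ρ - r 1) = G (ρ - r 2) (ρ - r 3)` for `ρ` has the discriminant (up to the identity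
`(2 (1 - G) ρ - ...) ^ 2 = D G`)
`D G = (G (r 2 + r 3) - (r 0 + r 1)) ^ 2 - 4 (1 - G) (r 0 r 1 - G r 2 r 3)`, a quadratic polynomial in
`G` with leading coefficient `(r 2 - r 3) ^ 2`, constant term `(r 0 - r 1) ^ 2` and discriminant
`16 (r 0 - r 2) (r 0 - r 3) (r 1 - r 2) (r 1 - r 3)`, all nonzero, so `D (ε g ^ 3) = w ^ 2` is a
square, a polynomial of degree 6 in `g` with 6 distinct roots `g_i` in a bigger field (ROOTS: square
root of the discriminant, then cube roots, and a primitive cube root of unity). Outside a finite set of places the ratios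
`(g - g_i) / (g - g_5)` have even orders (`g` integral: the factors are pairwise coprime and their
product is a square times a unit; otherwise all have the order of `g`). So POW 2 5 applies to `g` (or
SEL 2 and FIVE directly), finitely many `g`, so finitely many `G`, so finitely many `ρ`. -/
def POW3 : Prop := SEL 2 → SEL 3 → ROOTS → POW 2 5 → POW 3 4

/-- RATIOA: the ratios of two periodic points in `K`, for all the maps together, are finitely many. -/
def RATIOA (e : ℤ) (l : ℕ) : Prop := ∀ (K : Type) [Field K] [NumberField K] (Γ : Subgroup Kˣ),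
  Γ.FG → ∃ R : Set K, R.Finite ∧ ∀ a ∈ Γ, ∀ t c x y : K, t ≠ 0 →
    PerA e ((a : K) * t ^ l) c x → PerA e ((a : K) * t ^ l) c y → x ≠ y → y ≠ 0 → x / y ∈ R

/-- The statement of piece RATIOA. Proof: replace `K` by a number field containing a primitive `d`-th
root of unity (as in `Pool/Agent/W2helper73/BT/Ratio.lean`), `S` = the places above `d` and those where
one of the generators of `Γ` is not a unit. If `ρ = x / y` is a nontrivial `d`-th root of unity: finitely
many. Otherwise for all nontrivial `d`-th roots of unity `ζ₁, ζ₂` LOCA gives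
`v ((ρ - ζ₁) / (ρ - ζ₂)) = v (a t ^ l u ^ (e - 1)) ^ k = v (t ^ k u ^ (k (e - 1) / l)) ^ l` outside
`S`, because `l ∣ e - 1`; POW `l` `n` with `n` of the `d - 1` nontrivial roots of unity. -/
def RATIOAStm : Prop := LOCA → ROOTS → ∀ (e : ℤ) (l n : ℕ), POW l n → 2 ≤ n → n + 1 ≤ e.natAbs →
  0 < l → (l : ℤ) ∣ e - 1 → RATIOA e l

/-- EXCA: up to conjugation (`a t ^ l z ^ (e - 1)` is the leading coefficient of the conjugate
`z⁻¹ f (z x)`) finitely many leading coefficients for maps with two periodic points -/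
def EXCA (e : ℤ) (l : ℕ) : Prop := ∀ (K : Type) [Field K] [NumberField K] (Γ : Subgroup Kˣ),
  Γ.FG → ∃ A : Set K, A.Finite ∧ ∀ a ∈ Γ, ∀ t c x y : K, t ≠ 0 → c ≠ 0 →
    PerA e ((a : K) * t ^ l) c x → PerA e ((a : K) * t ^ l) c y → x ≠ y →
    ∃ z : K, z ≠ 0 ∧ (a : K) * t ^ l * z ^ (e - 1) ∈ A

/-- The statement of piece EXCA. Proof: `b = a t ^ l`, `R` the finite set of ratios. If `0` is periodic
then `z = c`: `c` and `f c = b c ^ e + c ≠ c` are periodic and `f c / c = b c ^ (e - 1) + 1 ∈ R`.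
Otherwise all the periodic points are nonzero; `x_k, y_k` the orbits, `ρ_k = x_k / y_k ∈ R`, `ρ_k ≠ 1`,
`c = lam_k b y_k ^ e`, `lam_k = (ρ_{k+1} - ρ_k ^ e) / (1 - ρ_{k+1})`, `y_1 = (1 + lam_0) b y_0 ^ e`; so
`lam_0 b y_0 ^ e = c = lam_1 b (1 + lam_0) ^ e b ^ e y_0 ^ (e ^ 2)`, that is
`(b y_0 ^ (e - 1)) ^ e = lam_0 / (lam_1 (1 + lam_0) ^ e)`: finitely many values; `z = y_0`. Model:
`Pool/Agent/W2helper71/BT/Excz.lean`. -/
def EXCAStm : Prop := ∀ (e : ℤ) (l : ℕ), 2 ≤ e.natAbs → RATIOA e l → EXCA e l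

/-- TAILA -/
def TAILA (e : ℤ) (l : ℕ) : Prop := ∀ (K : Type) [Field K] [NumberField K] (Γ : Subgroup Kˣ),
  Γ.FG → ∃ A : Set K, A.Finite ∧ ∀ a ∈ Γ, ∀ t c y z x : K, t ≠ 0 →
    fa e ((a : K) * t ^ l) c y = y → z ^ e = y ^ e → z ≠ y → fa e ((a : K) * t ^ l) c x = z →
    y ≠ 0 ∧ (a : K) * t ^ l * y ^ (e - 1) ∈ A

/-- The statement of piece TAILA. Proof: `b = a t ^ l`, `α = b y ^ (e - 1)`, `ζ = z / y`, `ζ ^ e = 1`,
`ζ ≠ 1` (finitely many `ζ`), `c = y - b y ^ e`; `f x = ζ y` divided by `y` is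
`α (x / y) ^ e + 1 - α = ζ` (for `x = 0`: `α = 1 - ζ`), so `u ^ e = 1 - (1 - ζ) / α`, `u = x / y`. `Γ` modulo
`l`-th powers is finite and `l ∣ e - 1`, so `α = a_i g ^ l` with `a_i` in a finite set and `g ∈ K`. So
`U ^ d + κ V ^ l = 1` with `U = u` or `u⁻¹`, `V = g⁻¹`, `κ = (1 - ζ) / a_i` in a finite set, and `d`, `l` coprime.
For `l ≥ 3` finitely many `V` by the lemma of `Pool/Agent/W2helper15/BT/Tailz.lean` (coprime exponents, one
at least 5, the other at least 3; here `max d l ≥ 5` and `min d l ≥ 3`); for `l = 2` (so `d ≥ 7` odd)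
`1 - U ^ d = κ V ^ 2` and `Pool.Agent.W2helper6.BT.fin_x` over a bigger field. -/
def TAILAStm : Prop := ROOTS → (∀ m, 0 < m → SEL m) → FIVE → (∀ m, 4 ≤ m → FERM m) →
  ∀ (e : ℤ) (l : ℕ), (5 ≤ e ∨ e ≤ -4) → 2 ≤ l → (l : ℤ) ∣ e - 1 → (l = 2 → 6 ≤ e.natAbs) → TAILA e l

/-- MONO: the points with finite orbits of `b x ^ e`: finitely many up to a factor of the roots of
unity. Proof: if `x, y ≠ 0` have finite orbits then so has the sequence of the ratios
`(x / y) ^ (e ^ k)`, so `x / y` is a root of unity in `K`; the roots of unity in `K` are finitely many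
(`NumberField.Units.torsion`), `B` = their number plus one. -/
def MONO : Prop := ∀ (K : Type) [Field K] [NumberField K], ∃ B : ℕ, ∀ (e : ℤ) (b : K)
  (T : Finset K), 2 ≤ e.natAbs → b ≠ 0 →
  (∀ x ∈ T, ∃ m n : ℕ, m < n ∧ (fa e b 0)^[m] x = (fa e b 0)^[n] x) → T.card ≤ B

end Pool.Agent.W2helper83.BT
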