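import Mathlib
import Pool.Agent.W2helper83.BT.Defs3
import Pool.Agent.W2helper83.BT.Line

/-!
# Project BT, fourth part: all the maps `b x ^ e + c` with a condition on the bad places only

`j = b c ^ (e - 1)` is the conjugacy invariant of `b x ^ e + c`. A place `v` outside `|e|` matters only if
`v j = v g ^ e` with `v g > 1` (in the case `e > 0` the poles of `j` of order divisible by `e`), and then
the condition is that `v g` is an `l`-th power. There is NO condition at the other places (zeros of `j`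
for `e > 0`). For example over `ℚ`: all `(m x ^ d + 1) / t ^ l` with coprime integers `m`, `t ≠ 0`; also all
the `b x ^ e + c` with `b` in a finitely generated group times `l`-th powers, `l ∣ e - 1`.

All the statements use Lean's `0 ^ e = 0` for `e < 0`.
-/

set_option autoImplicit false

namespace Pool.Agent.W2helper83.BT

open IsDedekindDomain NumberField

/-- the condition on `b c ^ (e - 1)` outside `S` -/
def Cnd {K : Type} [Field K] [NumberField K] (S : Set (HeightOneSpectrum (𝓞 K))) (e : ℤ) (l : ℕ)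
    (b c : K) : Prop :=
  ∀ v ∉ S, ∀ g : K, 1 < v.valuation K g →
    v.valuation K (b * c ^ (e - 1)) = v.valuation K g ^ e →
    ∃ h : K, v.valuation K g = v.valuation K h ^ l

/-- PLACE: the places of `L` outside a finite set lie over places of `K` outside `S`.
Proof: `T` = the `w` with `v.asIdeal.map ≤ w.asIdeal` for some `v ∈ S`; for each `v` finitely many
(`Ideal.finite_factors`, the extended ideal is not zero). For `w ∉ T` let `v` be the comap of
`w.asIdeal` (prime, not zero because `𝓞 L` is integral over `𝓞 K`). `v x ≤ 1` means `x = a / s` with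
`s ∉ v`, hence `s ∉ w`, so `w x ≤ 1`; if `v x > 1` then `x⁻¹ = a / s` with `a ∈ v`, `s ∉ v`, so
`w (x⁻¹) < 1`. (`HeightOneSpectrum.valuation_le_one_iff..`, `valuation_lt_one_iff_mem`, or choose
`a`, `s` with `exists_integer..`; any route.) -/
def PLACE : Prop := ∀ (K L : Type) [Field K] [NumberField K] [Field L] [NumberField L]
  [Algebra K L] (S : Set (HeightOneSpectrum (𝓞 K))), S.Finite →
  ∃ T : Set (HeightOneSpectrum (𝓞 L)), T.Finite ∧ ∀ w ∉ T, ∃ v ∉ S, ∀ x : K,
    w.valuation L (algebraMap K L x) ≤ 1 ↔ v.valuation K x ≤ 1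

/-- LOCB: the stronger form of LOCA. Proof: as `Pool.Agent.W2helper85.BT3.loca`, from the stronger form
of `Pool.Agent.W2helper92.BT2.loc_pow` (same proof): for periodic `x ≠ y` of `z ^ e + c` either
`w ((x - ζ₁ y) / (x - ζ₂ y)) = 1` (all cases but the last one of `loc_pow_pos`, `loc_pow_neg`) or
`1 < w x ^ (e - 1)`, `w c = w x ^ e` and `w ((x - ζ₁ y) / (x - ζ₂ y)) = w x ^ (k (e - 1))`. With
`β ^ (e - 1) = b` apply this to `β x`, `β y`, `β c`: `w (β x) ^ (e - 1) = w (b x ^ (e - 1))`,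
`w (b c ^ (e - 1)) = w (β c) ^ (e - 1) = w (β x) ^ (e (e - 1))`. The extension `w` of `v` has
`v x ≤ 1 → w x ≤ 1` and (for `x ≠ 0`) `w x = 1 ↔ v x = 1`, so `1 < w g → 1 < v g`. -/
def LOCB : Prop := ∀ (K : Type) [Field K] [NumberField K]
  (v : HeightOneSpectrum (𝓞 K)) (d : ℕ) (e : ℤ) (b c x y ζ₁ ζ₂ : K), 2 ≤ d → (e = d ∨ e = -d) →
  v.valuation K (d : K) = 1 → (∃ ζ : K, IsPrimitiveRoot ζ d) → b ≠ 0 →
  PerA e b c x → PerA e b c y → x ≠ y →
  ζ₁ ^ d = 1 → ζ₁ ≠ 1 → ζ₂ ^ d = 1 → ζ₂ ≠ 1 → x - ζ₁ * y ≠ 0 → x - ζ₂ * y ≠ 0 →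
  v.valuation K ((x - ζ₁ * y) / (x - ζ₂ * y)) = 1 ∨
  (1 < v.valuation K (b * x ^ (e - 1)) ∧
    v.valuation K (b * c ^ (e - 1)) = v.valuation K (b * x ^ (e - 1)) ^ e ∧
    ∃ k : ℤ, v.valuation K ((x - ζ₁ * y) / (x - ζ₂ * y)) = v.valuation K (b * x ^ (e - 1)) ^ k)

/-- RATB: the ratios of two periodic points in `K`, for all the maps together, are finitely many. -/
def RATB (e : ℤ) (l : ℕ) : Prop := ∀ (K : Type) [Field K] [NumberField K]
  (S : Set (HeightOneSpectrum (𝓞 K))), S.Finite → ∃ R : Set K, R.Finite ∧ ∀ b c x y : K, b ≠ 0 →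
    Cnd S e l b c → PerA e b c x → PerA e b c y → x ≠ y → y ≠ 0 → x / y ∈ R

/-- The statement of piece RATB. Proof: as `Pool.Agent.W2helper53.BT.ratioa`, `L = CyclotomicField d K`,
`S_L` = the places above `d` and the `T` of PLACE. For `w ∉ S_L` LOCB over `L` (for the images of
`b, c, x, y`): either the value is one (`g = 1`) or it is `w g ^ k` with `g = b x ^ (e - 1)` in `K`,
`1 < w g` and `w (b c ^ (e - 1)) = w g ^ e`; with the place `v ∉ S` of PLACE also `1 < v g` and
`v (b c ^ (e - 1)) = v g ^ e` (quotients of elements of `K` of value one), so `v g = v h ^ l` by `Cnd`, so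
`w g = w h ^ l`. Then POW `l` `n` with `n` of the `d - 1` nontrivial roots of unity. -/
def RATBStm : Prop := PLACE → LOCB → ∀ (e : ℤ) (l n : ℕ), POW l n → 2 ≤ n → n + 1 ≤ e.natAbs →
  0 < l → RATB e l

/-- EXCB: finitely many conjugacy classes of maps with two periodic points -/
def EXCB (e : ℤ) (l : ℕ) : Prop := ∀ (K : Type) [Field K] [NumberField K]
  (S : Set (HeightOneSpectrum (𝓞 K))), S.Finite → ∃ A : Set (K × K), A.Finite ∧ ∀ b c x y : K,
    b ≠ 0 → c ≠ 0 → Cnd S e l b c → PerA e b c x → PerA e b c y → x ≠ y →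
    ∃ z : K, z ≠ 0 ∧ (b * z ^ (e - 1), c / z) ∈ A

/-- The statement of piece EXCB. Proof: exactly as `Pool.Agent.W2helper49.BT3.exca`, with
`Cnd S e l b c` instead of `b = a t ^ l`; moreover `c / z = 1` in the case of the periodic point `0`
(`z = c`) and `c / y = (k - 1) (b y ^ (e - 1))` with `k` in a finite set in the other case (`z = y`). -/
def EXCBStm : Prop := ∀ (e : ℤ) (l : ℕ), 2 ≤ e.natAbs → RATB e l → EXCB e l

/-- TAILB -/
def TAILB (e : ℤ) (l : ℕ) : Prop := ∀ (K : Type) [Field K] [NumberField K]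
  (S : Set (HeightOneSpectrum (𝓞 K))), S.Finite → ∃ A : Set K, A.Finite ∧ ∀ b c y z x : K,
    b ≠ 0 → Cnd S e l b c → fa e b c y = y → z ^ e = y ^ e → z ≠ y → fa e b c x = z →
    y ≠ 0 ∧ b * y ^ (e - 1) ∈ A

/-- The statement of piece TAILB. Proof: `y ≠ 0` is clear. `α = b y ^ (e - 1)`, `ζ = z / y`,
`ζ ^ d = 1`, `ζ ≠ 1`, `d = |e|`. If `x = 0` then `α = 1 - ζ`. Otherwise `u = x / y` has
`α (u ^ e - 1) = ζ - 1`, i.e. `U ^ d = 1 + (ζ - 1) / α` with `U = u` (`e = d`) or `U = u⁻¹` (`e = -d`);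
`α = (ζ - 1) / (U ^ d - 1)`, so it suffices that there are finitely many `U`. Let
`L = CyclotomicField d K`, `r i = ζ_d ^ i`, `i < n ≤ d`, `S_L` = the places above `d` and the `T` of PLACE. By
POW `l` `n` (over `L`, for the image of `U`; `U ≠ r i` since `U ^ d ≠ 1`) it suffices that for `w ∉ S_L` all
the `w ((U - r i) / (U - r j))` are `l`-th powers. (Lemmas `val_diff`, `val_prod`, `val_root` of
`Pool.Agent.W2helper92.BT2.Loc`: differences of different `d`-th roots of unity have value one.)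
(1) `w α ≤ 1`: then `w (U ^ d - 1) = 1 / w α ≥ 1`; if `w U > 1` then all `w (U - r i) = w U`; if `w U ≤ 1`
then all the factors of `U ^ d - 1 = ∏ (U - ζ')` have value `≤ 1` and the product has value `≥ 1`, so
all are one. The quotients have value one, `g = 1`.
(2) `w α > 1`: `w (U ^ d - 1) = (w α)⁻¹ < 1`, so `w U = 1`, exactly one factor `U - ζ'` has value `< 1` and it
has the value `(w α)⁻¹`, the others have value one. With the place `v ∉ S` of PLACE: `v α > 1`,
`c = y - b y ^ e = y (1 - α)`, so `v c = v y * v α` and `v (b c ^ (e - 1)) = v α ^ e`; `Cnd` gives `h` with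
`v α = v h ^ l`, so `w α = w h ^ l`, and the quotients have the values `1`, `w h ^ l` or `w h⁻¹ ^ l`. -/
def TAILBStm : Prop := PLACE → ∀ (e : ℤ) (l n : ℕ), POW l n → 2 ≤ n → n ≤ e.natAbs → 0 < l →
  TAILB e l

/-- NORTHA: finitely many preperiodic points. Proof: `Pool.Agent.W2helper83.BT.north` over a number
field `L` containing `β` with `β ^ (e - 1) = b` (ROOTS, `Pool.Agent.W2helper83.BT.roots'`; model:
`grp_of` in `Pool/Agent/W2helper83/BT/Line.lean`): `x ↦ β x` maps the preperiodic points of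
`b x ^ e + c` to those of `x ^ e + β c`. -/
def NORTHA : Prop := ∀ (K : Type) [Field K] [NumberField K] (e : ℤ) (b c : K), 2 ≤ e.natAbs →
  b ≠ 0 → {x : K | Preper (fa e b c) x}.Finite

end Pool.Agent.W2helper83.BT
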