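import Mathlib
import Pool.Agent.W2helper83.BT.Defs4

/-!
# Project BT, sixth part: periodic points of the bicritical maps `(α x ^ d + β) / (γ x ^ d + δ)`

The homogeneous map `F (P₁, P₂) = (α P₁ ^ d + β P₂ ^ d, γ P₁ ^ d + δ P₂ ^ d)`; the point `(x : 1)` is
periodic if `F ^ n (x, 1) = t (x, 1)`, `t ≠ 0`. The condition at a place `v`: the coefficients are
integral, the vectors `F (1, 0)`, `F (0, 1)`, `F (F (1, 0))` are primitive, and the determinant
`α δ - β γ` is the `l`-th power of an element up to a unit.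
-/

set_option autoImplicit false

namespace Pool.Agent.W2helper83.BT

open IsDedekindDomain NumberField

/-- the homogeneous map -/
def FM {K : Type} [Field K] (d : ℕ) (α β γ δ : K) (P : K × K) : K × K :=
  (α * P.1 ^ d + β * P.2 ^ d, γ * P.1 ^ d + δ * P.2 ^ d)

/-- the point `(x : 1)` is periodic -/
def PerM {K : Type} [Field K] (d : ℕ) (α β γ δ x : K) : Prop :=
  ∃ n : ℕ, 0 < n ∧ ∃ t : K, t ≠ 0 ∧ (FM d α β γ δ)^[n] (x, 1) = t • ((x, 1) : K × K)

/-- integral coefficients; `F (1, 0)`, `F (0, 1)`, `F (F (1, 0))` primitive -/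
def Prim {K Γ : Type} [Field K] [LinearOrderedCommGroupWithZero Γ] (w : Valuation K Γ) (d : ℕ)
    (α β γ δ : K) : Prop :=
  (w α ≤ 1 ∧ w β ≤ 1 ∧ w γ ≤ 1 ∧ w δ ≤ 1) ∧ (w α = 1 ∨ w γ = 1) ∧ (w β = 1 ∨ w δ = 1) ∧
    (w (α ^ (d + 1) + β * γ ^ d) = 1 ∨ w (γ * α ^ d + δ * γ ^ d) = 1)

/-- LOCM: in all cases the value is a power of the value of the determinant.

Proof. Write `D = α δ - β γ`, `f` for the map on `ℙ¹`, `x_k`, `y_k` for the orbits, `nn P = max (w P₁) (w P₂)`.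
(Good) If `w D = 1`: `nn (F P) = (nn P) ^ d` (`F` integral, `D P ^ d = adj F`), and
`F P ∧ F Q = D ((P₁ Q₂) ^ d - (Q₁ P₂) ^ d)`, so `Pool.Agent.W2helper92.BT2.good` gives
`w (x - ζ y) = nn (x, 1) nn (y, 1)` for `ζ ≠ 1`: the quotient has value one, `k = 0`.
(Bad) Let `w D < 1`. Call a nonzero vector `P`, scaled such that `nn P = 1`, generic if `nn (F P) = 1` and
special if `nn (F P) < 1`.
(a) The two columns `(α, γ)`, `(β, δ)` are primitive and congruent up to a unit: there is a unit `u` of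
value one with `nn ((β, δ) - u (α, γ)) ≤ w D` (if `w α = 1` take `u = β / α`: `δ - γ β / α = D / α`; then `w u = 1`
since `(β, δ)` is primitive; similarly with `γ`). So `F P = (P₁ ^ d + u P₂ ^ d) (α, γ) + O (D)`: `P` is
special iff `w (P₁ ^ d + u P₂ ^ d) < 1`, and then `w P₁ = w P₂ = 1`.
(b) If `P` is generic then `F P` is a unit times `(α, γ)` modulo `O (D)`, and `(α, γ)` is generic by the last
condition of `Prim`; so all later points of the orbit of a generic point are generic, congruent to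
`(α : γ)`. For two points `P, Q` (`nn = 1`) congruent to `(α : γ)`, generic:
`w (F P ∧ F Q) = w D * w ((P₁ Q₂) ^ d - (Q₁ P₂) ^ d) ≤ w D * w (P ∧ Q) < w (P ∧ Q)` if `P ≠ Q` in `ℙ¹`, while
`nn (F P) = nn (F Q) = 1`; so two periodic points which are both generic are equal. So at most one of
`x`, `y` is generic, and the orbit of a special periodic point consists of special points.
(c) If `x` is generic (periodic, so congruent to `(α : γ)`) and `y` special: `y₁ ^ d + u ≡ 0` but not for `x`,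
so `x`, `ζ y` are different modulo `w`, `w (x - ζ y) = max (w x, 1)` for all `ζ`, quotient one, `k = 0`.
(d) Both special: all `w x_k = w y_k = 1`. With `(α z ^ d + β, γ z ^ d + δ) = ε (z', 1)`, `z = x_k`, `z' = x_{k+1}`:
multiplying by the adjugate `ε (α - γ z') = D`, and `w (α - γ z') = 1` since `z'` is special and `(α : γ)` is
not (they are different modulo `w`); so `w (γ z ^ d + δ) = w D`. Hence
`w (x_{k+1} - y_{k+1}) = w D * w (x_k ^ d - y_k ^ d) / w D ^ 2`, i.e.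
`w (x_k ^ d - y_k ^ d) = w (x_{k+1} - y_{k+1}) * T`, `T = w D < 1`. Now conclude exactly as in LOCHA
(`Pool/Agent/W2helper83/BT/Defs5.lean`; `core_pow` of `Pool/Agent/W2helper92/BT2/LocPow.lean` with
`W = 1`, `g₀ = D`, `m = 1`). -/
def LOCM : Prop := ∀ (K Γ : Type) [Field K] [LinearOrderedCommGroupWithZero Γ]
  (w : Valuation K Γ) (d : ℕ) (α β γ δ x y ζ₁ ζ₂ : K), 2 ≤ d → w (d : K) = 1 →
  (∃ ζ : K, IsPrimitiveRoot ζ d) → α * δ - β * γ ≠ 0 → Prim w d α β γ δ →
  PerM d α β γ δ x → PerM d α β γ δ y → x ≠ y → x ≠ 0 → y ≠ 0 →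
  ζ₁ ^ d = 1 → ζ₁ ≠ 1 → ζ₂ ^ d = 1 → ζ₂ ≠ 1 → x - ζ₁ * y ≠ 0 → x - ζ₂ * y ≠ 0 →
  ∃ k : ℤ, w ((x - ζ₁ * y) / (x - ζ₂ * y)) = w (α * δ - β * γ) ^ k

/-- LOCMG: the case (Good) of LOCM -/
def LOCMG : Prop := ∀ (K Γ : Type) [Field K] [LinearOrderedCommGroupWithZero Γ]
  (w : Valuation K Γ) (d : ℕ) (α β γ δ x y ζ₁ ζ₂ : K), 2 ≤ d → w (d : K) = 1 →
  (∃ ζ : K, IsPrimitiveRoot ζ d) → w (α * δ - β * γ) = 1 → Prim w d α β γ δ →
  PerM d α β γ δ x → PerM d α β γ δ y → x ≠ y →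
  ζ₁ ^ d = 1 → ζ₁ ≠ 1 → ζ₂ ^ d = 1 → ζ₂ ≠ 1 → x - ζ₁ * y ≠ 0 → x - ζ₂ * y ≠ 0 →
  w ((x - ζ₁ * y) / (x - ζ₂ * y)) = 1

/-- LOCMB: the case (Bad) of LOCM -/
def LOCMB : Prop := ∀ (K Γ : Type) [Field K] [LinearOrderedCommGroupWithZero Γ]
  (w : Valuation K Γ) (d : ℕ) (α β γ δ x y ζ₁ ζ₂ : K), 2 ≤ d → w (d : K) = 1 →
  (∃ ζ : K, IsPrimitiveRoot ζ d) → α * δ - β * γ ≠ 0 → w (α * δ - β * γ) < 1 →
  Prim w d α β γ δ → PerM d α β γ δ x → PerM d α β γ δ y → x ≠ y → x ≠ 0 → y ≠ 0 →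
  ζ₁ ^ d = 1 → ζ₁ ≠ 1 → ζ₂ ^ d = 1 → ζ₂ ≠ 1 → x - ζ₁ * y ≠ 0 → x - ζ₂ * y ≠ 0 →
  ∃ k : ℤ, w ((x - ζ₁ * y) / (x - ζ₂ * y)) = w (α * δ - β * γ) ^ k

/-- the condition outside `S` -/
def CndM {K : Type} [Field K] [NumberField K] (S : Set (HeightOneSpectrum (𝓞 K))) (d l : ℕ)
    (α β γ δ : K) : Prop :=
  ∀ v ∉ S, Prim (v.valuation K) d α β γ δ ∧
    ∃ h : K, v.valuation K (α * δ - β * γ) = v.valuation K h ^ l

/-- RATM: finitely many ratios of periodic points, for all the maps together -/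
def RATM (d l : ℕ) : Prop := ∀ (K : Type) [Field K] [NumberField K]
  (S : Set (HeightOneSpectrum (𝓞 K))), S.Finite → ∃ R : Set K, R.Finite ∧
    ∀ α β γ δ x y : K, α * δ - β * γ ≠ 0 → CndM S d l α β γ δ →
      PerM d α β γ δ x → PerM d α β γ δ y → x ≠ y → x ≠ 0 → y ≠ 0 → x / y ∈ R

/-- The statement of piece RATM. Proof: as `Pool.Agent.W2helper49.BT4.ratb`
(`Pool/Agent/W2helper49/BT4/RatB.lean`), with LOCM over `L = CyclotomicField d K` for the images of all
data, `S_L` = the places above `d` and the `T` of PLACE (`w z ≤ 1 ↔ v z ≤ 1` for `z` in `K` gives the same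
for `= 1`, so `Prim` passes from `v` to `w`, and `v D = v h ^ l` gives `w D = w h ^ l`). -/
def RATMStm : Prop := PLACE → LOCM → ∀ d l n : ℕ, POW l n → 2 ≤ n → n + 1 ≤ d →
  0 < l → RATM d l

/-- EXCM: up to conjugation with `x ↦ u x` and scaling of the matrix there are finitely many maps with
at least five periodic points different from `0` and infinity. -/
def EXCM (d l : ℕ) : Prop := ∀ (K : Type) [Field K] [NumberField K]
  (S : Set (HeightOneSpectrum (𝓞 K))), S.Finite → ∃ A : Set (K × K × K × K), A.Finite ∧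
    ∀ α β γ δ : K, α * δ - β * γ ≠ 0 → CndM S d l α β γ δ →
      ∀ T : Finset K, 5 ≤ T.card → (∀ x ∈ T, x ≠ 0 ∧ PerM d α β γ δ x) →
        ∃ u s : K, u ≠ 0 ∧ s ≠ 0 ∧
          (s * α * u ^ d, s * β, s * γ * u ^ (d + 1), s * δ * u) ∈ A

/-- The statement of piece EXCM. Proof: `f` is injective on the periodic points, so at most two of the
five points of `T` are mapped to `0` or infinity; let `p_0, p_1, p_2` be three others and `q_i` their images
(periodic, in `K`, nonzero, different); the `p_i ^ d` are different. `p_i / p_0`, `q_i / q_0`, `q_0 / p_0` are in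
`R ∪ {1}` (`R` of RATM). The conjugate by `u = p_0`, i.e. `x ↦ f (u x) / u` with the matrix
`N = (α u ^ d, β, γ u ^ (d + 1), δ u)` (up to a scalar), maps `(p_i / p_0) ^ d` to `q_i / p_0`, so `N` is in the
one-dimensional space of matrices with the three linear conditions
`N₁ X_i + N₂ = Z_i (N₃ X_i + N₄)`, `i = 0, 1, 2` (`X_i = (p_i / p_0) ^ d` different, `Z_i = q_i / p_0` different);
it is determined up to a scalar by `(X_i, Z_i)`, finitely many possibilities; choose for each one a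
solution `N⁰ ≠ 0` and `s` with `s N = N⁰`. -/
def EXCMStm : Prop := ∀ d l : ℕ, 2 ≤ d → RATM d l → EXCM d l

end Pool.Agent.W2helper83.BT
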