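import Mathlib
import Pool.Agent.W2helper83.BT.Defs4

/-! The condition on the bad places for `(m x ^ d + n) / t ^ l`. -/

set_option autoImplicit false

namespace Pool.Agent.W2helper83.BT

open IsDedekindDomain NumberField

theorem cnd_coprime {K : Type} [Field K] [NumberField K] {d : ℕ} (l : ℕ) (hd : 1 ≤ d)
    {m n t : 𝓞 K} (h : IsCoprime (m * n) t) (ht : t ≠ 0) :
    Cnd ∅ (d : ℤ) l ((m : K) / (t : K) ^ l) ((n : K) / (t : K) ^ l - 0) := by
  intro v _ g hg hj
  have ht0 : (t : K) ≠ 0 := by exact_mod_cast ht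
  have hvt : v.valuation K (t : K) ≤ 1 := HeightOneSpectrum.valuation_le_one v t
  have h4 := HeightOneSpectrum.valuation_le_one (K := K) v m
  have h5 := HeightOneSpectrum.valuation_le_one (K := K) v n
  change v.valuation K (m : K) ≤ 1 at h4
  change v.valuation K (n : K) ≤ 1 at h5
  have hvm : v.valuation K ((m : K) * (n : K) ^ (d - 1)) ≤ 1 := by
    rw [map_mul, map_pow]
    exact mul_le_one' h4 (pow_le_one₀ zero_le h5)
  have e1 : (m : K) / (t : K) ^ l * ((n : K) / (t : K) ^ l - 0) ^ ((d : ℤ) - 1) =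
      (m : K) * (n : K) ^ (d - 1) * (((t : K)⁻¹) ^ l) ^ d := by
    obtain ⟨k, rfl⟩ : ∃ k, d = k + 1 := ⟨d - 1, by omega⟩
    have h1 : (((k + 1 : ℕ) : ℤ) - 1) = ((k : ℕ) : ℤ) := by push_cast; ring
    have h2 : k + 1 - 1 = k := rfl
    rw [h1, h2, sub_zero, zpow_natCast, div_eq_mul_inv, div_eq_mul_inv,
      ← inv_pow, mul_pow, pow_succ]
    ring
  rw [e1, map_mul, map_pow, map_pow, map_inv₀, zpow_natCast] at hj
  have hgd : 1 < v.valuation K g ^ d := one_lt_pow₀ hg (by omega)
  have hlt : v.valuation K (t : K) < 1 := by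
    refine lt_of_le_of_ne hvt fun h1 => ?_
    rw [h1, inv_one, one_pow, one_pow, mul_one] at hj
    rw [hj] at hvm
    exact absurd hgd (not_lt.2 hvm)
  have hmn : v.valuation K ((m : K) * (n : K)) = 1 := by
    refine le_antisymm (by rw [map_mul]; exact mul_le_one' h4 h5) ?_
    by_contra hcon
    rw [not_le] at hcon
    obtain ⟨a, b, hab⟩ := h
    have hab' : (a : K) * ((m : K) * (n : K)) + (b : K) * (t : K) = 1 := by
      have := congrArg (algebraMap (𝓞 K) K) hab
      simpa using this
    have h3 : v.valuation K ((a : K) * ((m : K) * (n : K)) + (b : K) * (t : K)) < 1 := by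
      refine Valuation.map_add_lt _ ?_ ?_
      · rw [map_mul]
        exact mul_lt_one_of_nonneg_of_lt_one_right
          (HeightOneSpectrum.valuation_le_one v a) zero_le hcon
      · rw [map_mul]
        exact mul_lt_one_of_nonneg_of_lt_one_right
          (HeightOneSpectrum.valuation_le_one v b) zero_le hlt
    rw [hab', map_one] at h3
    exact lt_irrefl _ h3
  have hm : v.valuation K (m : K) = 1 ∧ v.valuation K (n : K) = 1 := by
    rw [map_mul] at hmn
    refine ⟨le_antisymm h4 ?_, le_antisymm h5 ?_⟩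
    · rw [← hmn]
      exact mul_le_of_le_one_right' h5
    · rw [← hmn]
      exact mul_le_of_le_one_left' h4
  have hm1 : v.valuation K ((m : K) * (n : K) ^ (d - 1)) = 1 := by
    rw [map_mul, map_pow, hm.1, hm.2, one_pow, one_mul]
  refine ⟨(t : K)⁻¹, ?_⟩
  rw [hm1, one_mul] at hj
  rw [map_inv₀]
  exact ((pow_left_inj₀ zero_le zero_le (by omega)).1 hj).symm

end Pool.Agent.W2helper83.BT
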