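import Mathlib
import Pool.Agent.W2helper83.BT.Final
import Pool.Agent.W2helper83.BT.Defs3

/-! Assembly: the two-parameter families. -/

set_option autoImplicit false

namespace Pool.Agent.W2helper83.BT

open NumberField

section

variable {K : Type} [Field K] {e : ℤ} {b c : K}

theorem Preper.exists_perA {x : K} (h : Preper (fa e b c) x) :
    ∃ m : ℕ, PerA e b c ((fa e b c)^[m] x) := by
  obtain ⟨m, n, hmn, h⟩ := h
  refine ⟨m, n - m, by omega, ?_⟩
  rw [← Function.iterate_add_apply, Nat.sub_add_cancel hmn.le]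
  exact h.symm

theorem PerA.step {x : K} (h : PerA e b c x) : PerA e b c (fa e b c x) := by
  obtain ⟨n, hn, h⟩ := h
  refine ⟨n, hn, ?_⟩
  rw [← Function.iterate_succ_apply, Function.iterate_succ_apply', h]

theorem pow_eq_of_fa (hb : b ≠ 0) {x y : K} (h : fa e b c x = fa e b c y) : x ^ e = y ^ e := by
  simp only [fa] at h
  exact mul_left_cancel₀ hb (add_right_cancel h)

theorem descA (he : e ≠ 0) (hb : b ≠ 0) (hc : c ≠ 0)
    (h1 : ¬ ∃ x y : K, x ≠ y ∧ PerA e b c x ∧ PerA e b c y) {x0 : K}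
    (hx0 : Preper (fa e b c) x0) :
    ∃ y : K, y ≠ 0 ∧ fa e b c y = y ∧
      ((∃ z x : K, z ^ e = y ^ e ∧ z ≠ y ∧ fa e b c x = z) ∨
        ∀ x : K, Preper (fa e b c) x → x ^ e = y ^ e) := by
  classical
  obtain ⟨m0, hy⟩ := hx0.exists_perA
  set y := (fa e b c)^[m0] x0 with hydef
  have huni : ∀ x : K, PerA e b c x → x = y := by
    intro x hx
    by_contra hne
    exact h1 ⟨x, y, hne, hx, hy⟩
  have hfix : fa e b c y = y := huni _ hy.step
  have hy0 : y ≠ 0 := by
    intro h0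
    rw [h0] at hfix
    rw [fa, zero_zpow _ he, mul_zero, zero_add] at hfix
    exact hc hfix
  refine ⟨y, hy0, hfix, ?_⟩
  by_cases h2 : ∃ z x : K, z ^ e = y ^ e ∧ z ≠ y ∧ fa e b c x = z
  · exact Or.inl h2
  right
  intro x hx
  obtain ⟨m, hm⟩ := hx.exists_perA
  have hex : ∃ k : ℕ, (fa e b c)^[k] x = y := ⟨m, huni _ hm⟩
  obtain ⟨k, hk, hmin⟩ : ∃ k : ℕ, (fa e b c)^[k] x = y ∧ ∀ j < k, (fa e b c)^[j] x ≠ y :=
    ⟨Nat.find hex, Nat.find_spec hex, fun j hj => Nat.find_min hex hj⟩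
  rcases Nat.lt_or_ge k 2 with hk2 | hk2
  · interval_cases k
    · rw [← hk]
      rfl
    · have h3 : fa e b c x = y := hk
      rw [← hfix] at h3
      exact pow_eq_of_fa hb h3
  · exfalso
    obtain ⟨j, rfl⟩ : ∃ j, k = j + 2 := ⟨k - 2, by omega⟩
    apply h2
    refine ⟨(fa e b c)^[j + 1] x, (fa e b c)^[j] x, ?_, hmin (j + 1) (by omega), ?_⟩
    · have h3 : fa e b c ((fa e b c)^[j + 1] x) = y := by
        rw [← Function.iterate_succ_apply' (fa e b c)]
        exact hk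
      rw [← hfix] at h3
      exact pow_eq_of_fa hb h3
    · rw [← Function.iterate_succ_apply' (fa e b c)]

/-- scaling -/
theorem scale {z : K} (hz : z ≠ 0) (x : K) :
    fa e b c x / z = aff e (b * z ^ (e - 1)) 0 (c / z) (x / z) := by
  rw [fa, aff, sub_zero, div_zpow, zpow_sub_one₀ hz]
  have : z ^ e ≠ 0 := zpow_ne_zero _ hz
  field_simp

theorem iter_scale {z : K} (hz : z ≠ 0) (x : K) (n : ℕ) :
    (fa e b c)^[n] x / z = (aff e (b * z ^ (e - 1)) 0 (c / z))^[n] (x / z) := by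
  induction n with
  | zero => rfl
  | succ n ih => rw [Function.iterate_succ_apply', Function.iterate_succ_apply', ← ih, scale hz]

/-- translation -/
theorem shift {r s : K} (x : K) : aff e b r s x - r = fa e b (s - r) (x - r) := by
  rw [fa, aff]
  ring

theorem iter_shift {r s : K} (x : K) (n : ℕ) :
    (aff e b r s)^[n] x - r = (fa e b (s - r))^[n] (x - r) := by
  induction n with
  | zero => rfl
  | succ n ih => rw [Function.iterate_succ_apply', Function.iterate_succ_apply', ← ih, shift]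

end

/-- the bound for the conjugates -/
theorem conj_bound {K : Type} [Field K] {e : ℤ} (he : e ≠ 0) {Γ : Subgroup Kˣ} {B : ℕ}
    (hB : ∀ a ∈ Γ, ∀ (r s : K) (T : Finset (Option K)),
      (∀ P ∈ T, Preper (Phi e (a : K) r s) P) → T.card ≤ B) {b c z : K} (hz : z ≠ 0)
    {u : Kˣ} (hu : u ∈ Γ) (hbu : b * z ^ (e - 1) = u) (T : Finset K)
    (hT : ∀ x ∈ T, Preper (fa e b c) x) : T.card ≤ B := by
  classical
  have hinj : Function.Injective fun x : K => (some (x / z) : Option K) := by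
    intro x y h
    exact (div_left_inj' hz).1 (Option.some_injective K h)
  rw [← Finset.card_image_of_injective T hinj]
  apply hB u hu 0 (c / z)
  intro P hP
  rw [Finset.mem_image] at hP
  obtain ⟨x, hx, rfl⟩ := hP
  rw [preper_iff he]
  obtain ⟨m, n, hmn, h⟩ := hT x hx
  refine ⟨m, n, hmn, ?_⟩
  rw [← hbu, ← iter_scale hz, ← iter_scale hz, h]

/-- **The two-parameter families.** -/
theorem two_param (hM : MONO) {e : ℤ} {l : ℕ} (he : 5 ≤ e ∨ e ≤ -4) (hE : EXCA e l)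
    (hT : TAILA e l) (K : Type) [Field K] [NumberField K] (Γ : Subgroup Kˣ) (hΓ : Γ.FG) :
    ∃ B : ℕ, ∀ a ∈ Γ, ∀ t r s : K, t ≠ 0 → ∀ T : Finset (Option K),
      (∀ P ∈ T, Preper (Phi e ((a : K) * t ^ l) r s) P) → T.card ≤ B := by
  classical
  have he0 : e ≠ 0 := by omega
  obtain ⟨A1, hA1, h1⟩ := hE K Γ hΓ
  obtain ⟨A2, hA2, h2⟩ := hT K Γ hΓ
  obtain ⟨B2, hB2⟩ := hM K
  have hUfin : {u : Kˣ | (u : K) ∈ A1 ∪ A2}.Finite :=
    (hA1.union hA2).preimage Units.val_injective.injOn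
  set Γ' : Subgroup Kˣ := Subgroup.closure {u : Kˣ | (u : K) ∈ A1 ∪ A2} with hΓ'
  have hFG : Γ'.FG := ⟨hUfin.toFinset, by rw [Set.Finite.coe_toFinset]⟩
  obtain ⟨B1, hB1⟩ := grp_all he K Γ' hFG
  refine ⟨B1 + B2 + e.natAbs + 1, ?_⟩
  intro a ha t r s ht T hTP
  refine card_opt (fun T' hT' => ?_) T hTP
  set b : K := (a : K) * t ^ l with hb
  have hb0 : b ≠ 0 := mul_ne_zero a.ne_zero (pow_ne_zero _ ht)
  set c : K := s - r with hc
  have hinj : Function.Injective fun x : K => x - r := fun x y h => sub_left_injective h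
  rw [← Finset.card_image_of_injective T' hinj]
  set T2 := T'.image fun x : K => x - r with hT2
  have hpre : ∀ x ∈ T2, Preper (fa e b c) x := by
    intro x hx
    rw [hT2, Finset.mem_image] at hx
    obtain ⟨y, hy, rfl⟩ := hx
    obtain ⟨m, n, hmn, h⟩ := (preper_iff he0 b r s y).1 (hT' y hy)
    exact ⟨m, n, hmn, by rw [← iter_shift, ← iter_shift, h]⟩
  by_cases hc0 : c = 0
  · rw [hc0] at hpre
    have := hB2 e b T2 (by omega) hb0 hpre
    omega
  have hgrp : ∀ z : K, z ≠ 0 → b * z ^ (e - 1) ∈ A1 ∪ A2 → T2.card ≤ B1 := by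
    intro z hz hmem
    have hne : b * z ^ (e - 1) ≠ 0 := mul_ne_zero hb0 (zpow_ne_zero _ hz)
    refine conj_bound he0 hB1 hz (u := Units.mk0 _ hne) (Subgroup.subset_closure hmem) rfl T2 hpre
  by_cases htwo : ∃ x y : K, x ≠ y ∧ PerA e b c x ∧ PerA e b c y
  · obtain ⟨x, y, hxy, hx, hy⟩ := htwo
    obtain ⟨z, hz, hmem⟩ := h1 a ha t c x y ht hc0 hx hy hxy
    have := hgrp z hz (Or.inl hmem)
    omega
  rcases T2.eq_empty_or_nonempty with hem | ⟨x0, hx0⟩
  · rw [hem, Finset.card_empty]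
    exact Nat.zero_le _
  obtain ⟨y, hy0, hfix, h3 | h3⟩ := descA he0 hb0 hc0 htwo (hpre x0 hx0)
  · obtain ⟨z, x, hzy, hne, hxz⟩ := h3
    have h4 := (h2 a ha t c y z x ht hfix hzy hne hxz).2
    have := hgrp y hy0 (Or.inr h4)
    omega
  · have := card_root_le he0 T2 (y := y) (fun x hx => h3 x (hpre x hx))
    omega

end Pool.Agent.W2helper83.BT
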