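import Mathlib
import Pool.Agent.W2helper83.BT.Final2
import Pool.Agent.W2helper85.BT.Loca
import Pool.Agent.W2helper69.BT.Pow4
import Pool.Agent.W2helper92.BT3.Pow2
import Pool.Agent.W2helper17.BT.Pow3
import Pool.Agent.W2helper53.BT.RatioA
import Pool.Agent.W2helper49.BT3.Exca
import Pool.Agent.W2helper53.BT.TailA
import Pool.Agent.W4helper65.BT.Mono

/-!
# The two-parameter families `a t ^ l (x - r) ^ e + s`, `l ∣ e - 1`
-/

set_option autoImplicit false

namespace Pool.Agent.W2helper83.BT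

open NumberField

theorem pow2' : POW 2 5 :=
  Pool.Agent.W2helper92.BT3.pow2 (sel' 2 (by norm_num)) roots' five'

theorem pow3' : POW 3 4 :=
  Pool.Agent.W2helper17.BT.pow3 (sel' 2 (by norm_num)) (sel' 3 (by norm_num)) roots' pow2'

theorem pow4' (l : ℕ) (h : 4 ≤ l) : POW l 3 :=
  Pool.Agent.W2helper69.BT.pow4 l h (sel' l (by omega)) roots' (hF l h)

theorem two_all {e : ℤ} (he : 5 ≤ e ∨ e ≤ -4) {l : ℕ} (hl : 2 ≤ l)
    (hle : (l : ℤ) ∣ e - 1) (h5 : l = 2 → |e| ≠ 5) (K : Type) [Field K] [NumberField K]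
    (Γ : Subgroup Kˣ) (hΓ : Γ.FG) :
    ∃ B : ℕ, ∀ a ∈ Γ, ∀ t r s : K, t ≠ 0 → ∀ T : Finset (Option K),
      (∀ P ∈ T, Preper (Phi e ((a : K) * t ^ l) r s) P) → T.card ≤ B := by
  obtain ⟨q, hq⟩ := hle
  have habs : |e| = e.natAbs := Int.abs_eq_natAbs e
  have hrat : RATIOA e l := by
    rcases Nat.lt_or_ge l 4 with h | h
    · interval_cases l
      · have h6 : 6 ≤ e.natAbs := by
          have := h5 rfl
          omega
        exact Pool.Agent.W2helper53.BT.ratioa Pool.Agent.W2helper85.BT3.loca roots' e 2 5 pow2'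
          (by norm_num) (by omega) (by norm_num) ⟨q, hq⟩
      · exact Pool.Agent.W2helper53.BT.ratioa Pool.Agent.W2helper85.BT3.loca roots' e 3 4 pow3'
          (by norm_num) (by omega) (by norm_num) ⟨q, hq⟩
    · exact Pool.Agent.W2helper53.BT.ratioa Pool.Agent.W2helper85.BT3.loca roots' e l 3
        (pow4' l h) (by norm_num) (by omega) (by omega) ⟨q, hq⟩
  refine two_param Pool.Agent.W4helper65.BT.mono he
    (Pool.Agent.W2helper49.BT3.exca e l (by omega) hrat)
    (Pool.Agent.W2helper53.BT.taila roots' sel' five' hF e l he hl ⟨q, hq⟩ ?_) K Γ hΓ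
  intro h
  have := h5 h
  subst h
  omega

end Pool.Agent.W2helper83.BT
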