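import Mathlib
import Pool.Agent.W2helper83.BT.Final3
import Pool.Agent.W2helper83.BT.Defs4

/-! Assembly: all the maps `b (x - r) ^ e + s` with a condition on the bad places. -/

set_option autoImplicit false

namespace Pool.Agent.W2helper83.BT

open IsDedekindDomain NumberField

theorem scale' {K : Type} [Field K] {e : ℤ} {b c z : K} (hz : z ≠ 0) (x : K) :
    fa e b c x / z = fa e (b * z ^ (e - 1)) (c / z) (x / z) := by
  rw [scale hz, aff, sub_zero, fa]

theorem iter_scale' {K : Type} [Field K] {e : ℤ} {b c z : K} (hz : z ≠ 0) (x : K) (n : ℕ) :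
    (fa e b c)^[n] x / z = (fa e (b * z ^ (e - 1)) (c / z))^[n] (x / z) := by
  induction n with
  | zero => rfl
  | succ n ih => rw [Function.iterate_succ_apply', Function.iterate_succ_apply', ← ih, scale' hz]

/-- **All the maps `b (x - r) ^ e + s` with the condition on the bad places.** -/
theorem thick_of (hN : NORTHA) (hM : MONO) {e : ℤ} {l : ℕ} (he : 2 ≤ e.natAbs) (hE : EXCB e l)
    (hT : TAILB e l) (K : Type) [Field K] [NumberField K] (S : Set (HeightOneSpectrum (𝓞 K)))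
    (hS : S.Finite) :
    ∃ B : ℕ, ∀ b r s : K, b ≠ 0 → Cnd S e l b (s - r) → ∀ T : Finset (Option K),
      (∀ P ∈ T, Preper (Phi e b r s) P) → T.card ≤ B := by
  classical
  have he0 : e ≠ 0 := by omega
  obtain ⟨A1, hA1, h1⟩ := hE K S hS
  obtain ⟨A2, hA2, h2⟩ := hT K S hS
  obtain ⟨B2, hB2⟩ := hM K
  have hB : ∀ p : K × K, ∃ B : ℕ, p.1 ≠ 0 → ∀ T : Finset K,
      (∀ x ∈ T, Preper (fa e p.1 p.2) x) → T.card ≤ B := by
    intro p
    by_cases h : p.1 = 0
    · exact ⟨0, fun h' => absurd h h'⟩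
    · have hfin := hN K e p.1 p.2 he h
      refine ⟨hfin.toFinset.card, fun _ T hT => Finset.card_le_card fun x hx => ?_⟩
      rw [Set.Finite.mem_toFinset]
      exact hT x hx
  choose Bf hBf using hB
  have hA : (A1 ∪ (fun α : K => (α, 1 - α)) '' A2).Finite := hA1.union (hA2.image _)
  set B1 : ℕ := ∑ p ∈ hA.toFinset, Bf p with hB1
  have hle : ∀ p ∈ A1 ∪ (fun α : K => (α, 1 - α)) '' A2, Bf p ≤ B1 := by
    intro p hp
    exact Finset.single_le_sum (f := Bf) (fun _ _ => Nat.zero_le _) (hA.mem_toFinset.2 hp)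
  refine ⟨B1 + B2 + e.natAbs + 1, ?_⟩
  intro b r s hb0 hC T hTP
  refine card_opt (fun T' hT' => ?_) T hTP
  set c : K := s - r with hc
  have hinj : Function.Injective fun x : K => x - r := fun x y h => sub_left_injective h
  rw [← Finset.card_image_of_injective T' hinj]
  set T2 := T'.image fun x : K => x - r with hT2
  have hpre : ∀ x ∈ T2, Preper (fa e b c) x := by
    intro x hx
    rw [hT2, Finset.mem_image] at hx
    obtain ⟨y, hy, rfl⟩ := hx
    obtain ⟨m, n, hmn, h⟩ := (preper_iff he0 b r s y).1 (hT' y hy)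
    exact ⟨m, n, hmn, by rw [← iter_shift, ← iter_shift, h]⟩
  by_cases hc0 : c = 0
  · rw [hc0] at hpre
    have := hB2 e b T2 (by omega) hb0 hpre
    omega
  have hgrp : ∀ z : K, z ≠ 0 →
      (b * z ^ (e - 1), c / z) ∈ A1 ∪ (fun α : K => (α, 1 - α)) '' A2 → T2.card ≤ B1 := by
    intro z hz hmem
    have hne : b * z ^ (e - 1) ≠ 0 := mul_ne_zero hb0 (zpow_ne_zero _ hz)
    have hinj2 : Function.Injective fun x : K => x / z := fun x y h => (div_left_inj' hz).1 h
    rw [← Finset.card_image_of_injective T2 hinj2]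
    refine (hBf (b * z ^ (e - 1), c / z) hne _ ?_).trans (hle _ hmem)
    intro x hx
    rw [Finset.mem_image] at hx
    obtain ⟨y, hy, rfl⟩ := hx
    obtain ⟨m, n, hmn, h⟩ := hpre y hy
    exact ⟨m, n, hmn, by rw [← iter_scale' hz, ← iter_scale' hz, h]⟩
  by_cases htwo : ∃ x y : K, x ≠ y ∧ PerA e b c x ∧ PerA e b c y
  · obtain ⟨x, y, hxy, hx, hy⟩ := htwo
    obtain ⟨z, hz, hmem⟩ := h1 b c x y hb0 hc0 hC hx hy hxy
    have := hgrp z hz (Or.inl hmem)
    omega
  rcases T2.eq_empty_or_nonempty with hem | ⟨x0, hx0⟩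
  · rw [hem, Finset.card_empty]
    exact Nat.zero_le _
  obtain ⟨y, hy0, hfix, h3 | h3⟩ := descA he0 hb0 hc0 htwo (hpre x0 hx0)
  · obtain ⟨z, x, hzy, hne, hxz⟩ := h3
    have h4 := (h2 b c y z x hb0 hC hfix hzy hne hxz).2
    have h5 : c / y = 1 - b * y ^ (e - 1) := by
      rw [div_eq_iff hy0, sub_mul, one_mul, mul_assoc, zpow_sub_one₀ hy0,
        inv_mul_cancel_right₀ hy0]
      rw [fa] at hfix
      linear_combination hfix
    have := hgrp y hy0 (Or.inr ⟨_, h4, by rw [h5]⟩)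
    omega
  · have := card_root_le he0 T2 (y := y) (fun x hx => h3 x (hpre x hx))
    omega

/-- the assembly of the pieces -/
theorem thick_all_of (hPl : PLACE) (hL : LOCB) (hRa : RATBStm) (hE : EXCBStm) (hT : TAILBStm)
    (hN : NORTHA) {e : ℤ} {l : ℕ} (he : 4 ≤ |e|) (hl : 2 ≤ l) (hle : 8 ≤ |e| + l)
    (K : Type) [Field K] [NumberField K] (S : Set (HeightOneSpectrum (𝓞 K))) (hS : S.Finite) :
    ∃ B : ℕ, ∀ b r s : K, b ≠ 0 → Cnd S e l b (s - r) → ∀ T : Finset (Option K),
      (∀ P ∈ T, Preper (Phi e b r s) P) → T.card ≤ B := by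
  have habs : |e| = e.natAbs := Int.abs_eq_natAbs e
  have key : ∃ n : ℕ, POW l n ∧ 2 ≤ n ∧ n + 1 ≤ e.natAbs := by
    rcases Nat.lt_or_ge l 4 with h | h
    · interval_cases l
      · exact ⟨5, pow2', by norm_num, by omega⟩
      · exact ⟨4, pow3', by norm_num, by omega⟩
    · exact ⟨3, pow4' l h, by norm_num, by omega⟩
  obtain ⟨n, hP, hn2, hn⟩ := key
  have hrat : RATB e l := hRa hPl hL e l n hP hn2 hn (by omega)
  exact thick_of hN Pool.Agent.W4helper65.BT.mono (by omega) (hE e l (by omega) hrat)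
    (hT hPl e l n hP hn2 (by omega) (by omega)) K S hS

end Pool.Agent.W2helper83.BT
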