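import Mathlib
import Pool.Agent.W2helper83.BT.Final4
import Pool.Agent.W2helper83.BT.Cor
import Pool.Agent.W2helper85.BT.Locb
import Pool.Agent.W2helper19.BT4.Place
import Pool.Agent.W2helper49.BT4.RatB
import Pool.Agent.W2helper56.BT4.Excb
import Pool.Agent.W2helper15.BT.TailB
import Pool.Agent.W2helper71.BT4.Northa

/-! All the maps `b (x - r) ^ e + s` with a condition on the bad places: bound and description. -/

set_option autoImplicit false

namespace Pool.Agent.W2helper83.BT

open IsDedekindDomain NumberField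

/-- the description -/
def DescA {K : Type} [Field K] (e : ℤ) (b r s : K) : Prop :=
  ((∀ x : K, ¬ Preper (Phi e b r s) (some x)) ∨
    ∃ y : K, y ≠ r ∧ Phi e b r s (some y) = some y ∧
      ∀ x : K, Preper (Phi e b r s) (some x) ↔ (x - r) ^ e = (y - r) ^ e) ∧
  (e < 0 → ¬ Preper (Phi e b r s) none)

theorem desc_thick_of {e : ℤ} {l : ℕ} (he0 : e ≠ 0) (hE : EXCB e l)
    (hT : TAILB e l) (K : Type) [Field K] [NumberField K] (S : Set (HeightOneSpectrum (𝓞 K)))
    (hS : S.Finite) :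
    ∃ A : Set K, A.Finite ∧ ∀ b r s : K, b ≠ 0 → s ≠ r → Cnd S e l b (s - r) →
      b * (s - r) ^ (e - 1) ∉ A → DescA e b r s := by
  classical
  obtain ⟨A1, hA1, h1⟩ := hE K S hS
  obtain ⟨A2, hA2, h2⟩ := hT K S hS
  refine ⟨(fun p : K × K => p.1 * p.2 ^ (e - 1)) '' (A1 ∪ (fun α : K => (α, 1 - α)) '' A2),
    (hA1.union (hA2.image _)).image _, ?_⟩
  intro b r s hb0 hsr hC hj
  set c : K := s - r with hc
  have hc0 : c ≠ 0 := sub_ne_zero.2 hsr
  have hnot : ∀ z : K, z ≠ 0 →
      (b * z ^ (e - 1), c / z) ∉ A1 ∪ (fun α : K => (α, 1 - α)) '' A2 := by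
    intro z hz hmem
    refine hj ⟨_, hmem, ?_⟩
    show b * z ^ (e - 1) * (c / z) ^ (e - 1) = b * c ^ (e - 1)
    rw [mul_assoc, ← mul_zpow, mul_div_cancel₀ _ hz]
  have htwo : ¬ ∃ x y : K, x ≠ y ∧ PerA e b c x ∧ PerA e b c y := by
    rintro ⟨x, y, hxy, hx, hy⟩
    obtain ⟨z, hz, hmem⟩ := h1 b c x y hb0 hc0 hC hx hy hxy
    exact hnot z hz (Or.inl hmem)
  have hpre : ∀ x : K, Preper (Phi e b r s) (some x) ↔ Preper (fa e b c) (x - r) := by
    intro x
    rw [preper_iff he0]
    constructor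
    · rintro ⟨m, n, hmn, h⟩
      exact ⟨m, n, hmn, by rw [← iter_shift, ← iter_shift, h]⟩
    · rintro ⟨m, n, hmn, h⟩
      refine ⟨m, n, hmn, ?_⟩
      rw [← iter_shift, ← iter_shift] at h
      exact sub_left_injective h
  have hnone : e < 0 → Preper (Phi e b r s) none → Preper (fa e b c) 0 := by
    intro hneg h
    have h3 : Preper (Phi e b r s) (some r) := by
      obtain ⟨m, n, hmn, h3⟩ := h
      refine ⟨m + 1, n + 1, by omega, ?_⟩
      rw [Function.iterate_succ_apply, Function.iterate_succ_apply, Phi_some_pos ⟨hneg, rfl⟩]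
      exact h3
    rw [hpre, sub_self] at h3
    exact h3
  by_cases hno : ∃ x : K, Preper (fa e b c) x
  · obtain ⟨x0, hx0⟩ := hno
    obtain ⟨y, hy0, hfix, h3 | h3⟩ := descA he0 hb0 hc0 htwo hx0
    · exfalso
      obtain ⟨z, x, hzy, hne, hxz⟩ := h3
      have h4 := (h2 b c y z x hb0 hC hfix hzy hne hxz).2
      have h5 : c / y = 1 - b * y ^ (e - 1) := by
        rw [div_eq_iff hy0, sub_mul, one_mul, mul_assoc, zpow_sub_one₀ hy0,
          inv_mul_cancel_right₀ hy0]
        rw [fa] at hfix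
        linear_combination hfix
      exact hnot y hy0 (Or.inr ⟨_, h4, by rw [h5]⟩)
    · refine ⟨Or.inr ⟨y + r, ?_, ?_, ?_⟩, ?_⟩
      · intro h
        exact hy0 (by linear_combination h)
      · have h6 : ¬ (e < 0 ∧ y + r = r) := fun h => hy0 (by linear_combination h.2)
        rw [Phi_some h6, aff, add_sub_cancel_right]
        congr 1
        rw [fa] at hfix
        linear_combination hfix + hc
      · intro x
        rw [hpre, add_sub_cancel_right]
        refine ⟨h3 _, fun h => ?_⟩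
        have h7 : fa e b c (x - r) = y := by
          rw [← hfix, fa, fa, h]
        refine ⟨1, 2, by norm_num, ?_⟩
        show fa e b c (x - r) = fa e b c (fa e b c (x - r))
        rw [h7, hfix]
      · intro hneg h
        have h8 := h3 0 (hnone hneg h)
        rw [zero_zpow _ he0] at h8
        exact zpow_ne_zero e hy0 h8.symm
  · push Not at hno
    exact ⟨Or.inl fun x hx => hno _ ((hpre x).1 hx), fun hneg h => hno _ (hnone hneg h)⟩

/-- the condition holds for a finitely generated group times the `l`-th powers, `l ∣ e - 1` -/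
theorem cnd_family {K : Type} [Field K] [NumberField K] {e : ℤ} {l : ℕ} (hle : (l : ℤ) ∣ e - 1)
    (Γ : Subgroup Kˣ) (hΓ : Γ.FG) : ∃ S : Set (HeightOneSpectrum (𝓞 K)), S.Finite ∧
      ∀ a ∈ Γ, ∀ t c : K, Cnd S e l ((a : K) * t ^ l) c := by
  classical
  obtain ⟨G, hG⟩ := hΓ
  obtain ⟨q, hq⟩ := hle
  refine ⟨⋃ g ∈ G, {v | v.valuation K (g : K) ≠ 1},
    G.finite_toSet.biUnion fun g _ => Pool.Agent.W2helper53.BT.fin_places_unit g, ?_⟩
  intro a ha t c v hv g hg hj
  have hunit : v.valuation K (a : K) = 1 := by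
    clear hj
    rw [← hG] at ha
    induction ha using Subgroup.closure_induction with
    | mem g hg =>
      by_contra h
      exact hv (Set.mem_biUnion hg h)
    | one => rw [Units.val_one, map_one]
    | mul x y _ _ hx hy => rw [Units.val_mul, map_mul, hx, hy, one_mul]
    | inv x _ hx => rw [Units.val_inv_eq_inv_val, map_inv₀, hx, inv_one]
  have hg0 : v.valuation K g ≠ 0 := (zero_lt_one.trans hg).ne'
  have e1 : (a : K) * t ^ l * c ^ (e - 1) = (a : K) * (t * c ^ q) ^ l := by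
    rw [hq, mul_comm (l : ℤ) q, zpow_mul, zpow_natCast, mul_pow, mul_assoc]
  rw [e1, map_mul, hunit, one_mul, map_pow] at hj
  refine ⟨t * c ^ q * g ^ (-q), ?_⟩
  rw [map_mul, mul_pow, hj, map_zpow₀, ← zpow_natCast, ← zpow_mul, ← zpow_add₀ hg0]
  have h1 : e + -q * (l : ℤ) = 1 := by linear_combination hq
  rw [h1, zpow_one]

section all

variable {e : ℤ} {l : ℕ} (he : 4 ≤ |e|) (hl : 2 ≤ l) (hle : 8 ≤ |e| + l)

include he hl hle

theorem excb_tailb : EXCB e l ∧ TAILB e l := by
  have habs : |e| = e.natAbs := Int.abs_eq_natAbs e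
  have key : ∃ n : ℕ, POW l n ∧ 2 ≤ n ∧ n + 1 ≤ e.natAbs := by
    rcases Nat.lt_or_ge l 4 with h | h
    · interval_cases l
      · exact ⟨5, pow2', by norm_num, by omega⟩
      · exact ⟨4, pow3', by norm_num, by omega⟩
    · exact ⟨3, pow4' l h, by norm_num, by omega⟩
  obtain ⟨n, hP, hn2, hn⟩ := key
  have hrat : RATB e l := Pool.Agent.W2helper49.BT4.ratb Pool.Agent.W2helper19.BT4.place
    Pool.Agent.W2helper85.BT4.locb e l n hP hn2 hn (by omega)
  exact ⟨Pool.Agent.W2helper56.BT4.excb e l (by omega) hrat,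
    Pool.Agent.W2helper15.BT.tailb Pool.Agent.W2helper19.BT4.place e l n hP hn2 (by omega)
      (by omega)⟩

theorem thick_all (K : Type) [Field K] [NumberField K] (S : Set (HeightOneSpectrum (𝓞 K)))
    (hS : S.Finite) :
    ∃ B : ℕ, ∀ b r s : K, b ≠ 0 → Cnd S e l b (s - r) → ∀ T : Finset (Option K),
      (∀ P ∈ T, Preper (Phi e b r s) P) → T.card ≤ B := by
  have habs : |e| = e.natAbs := Int.abs_eq_natAbs e
  obtain ⟨h1, h2⟩ := excb_tailb he hl hle
  exact thick_of Pool.Agent.W2helper71.BT4.northa Pool.Agent.W4helper65.BT.mono (by omega) h1 h2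
    K S hS

theorem desc_thick (K : Type) [Field K] [NumberField K] (S : Set (HeightOneSpectrum (𝓞 K)))
    (hS : S.Finite) :
    ∃ A : Set K, A.Finite ∧ ∀ b r s : K, b ≠ 0 → s ≠ r → Cnd S e l b (s - r) →
      b * (s - r) ^ (e - 1) ∉ A → DescA e b r s := by
  obtain ⟨h1, h2⟩ := excb_tailb he hl hle
  refine desc_thick_of ?_ h1 h2 K S hS
  rintro rfl
  simp at he

end all

end Pool.Agent.W2helper83.BT
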