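import Mathlib
import Pool.Agent.W2helper83.BT.Final5
import Pool.Agent.W2helper83.BT.Defs6
import Pool.Agent.W2helper19.BT4.Place
import Pool.Agent.W2helper66.BT.LocMG
import Pool.Agent.W2helper63.BT6.LocmB
import Pool.Agent.W2helper15.BT.RatM

/-! Assembly: periodic points of bicritical maps. -/

set_option autoImplicit false

namespace Pool.Agent.W2helper83.BT

open IsDedekindDomain NumberField

theorem locm : LOCM := by
  intro K Γ _ _ w d α β γ δ x y ζ₁ ζ₂ hd hwd hζ hD hP hx hy hxy hx0 hy0 h1 h1' h2 h2' hn1 hn2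
  have hle : w (α * δ - β * γ) ≤ 1 := by
    obtain ⟨⟨ha, hb, hc, hd'⟩, -⟩ := hP
    refine (w.map_sub _ _).trans (max_le ?_ ?_)
    · rw [map_mul]
      exact mul_le_one' ha hd'
    · rw [map_mul]
      exact mul_le_one' hb hc
  rcases hle.lt_or_eq with h | h
  · exact Pool.Agent.W2helper63.BT6.locmb K Γ w d α β γ δ x y ζ₁ ζ₂ hd hwd hζ hD h hP hx hy hxy
      hx0 hy0 h1 h1' h2 h2' hn1 hn2
  · refine ⟨0, ?_⟩
    rw [zpow_zero]
    exact Pool.Agent.W2helper66.BT.locmg K Γ w d α β γ δ x y ζ₁ ζ₂ hd hwd hζ h hP hx hy hxy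
      h1 h1' h2 h2' hn1 hn2

theorem ratm_all {d l : ℕ} (hd : 4 ≤ d) (hl : 2 ≤ l) (hdl : 8 ≤ d + l) : RATM d l := by
  have key : ∃ n : ℕ, POW l n ∧ 2 ≤ n ∧ n + 1 ≤ d := by
    rcases Nat.lt_or_ge l 4 with h | h
    · interval_cases l
      · exact ⟨5, pow2', by norm_num, by omega⟩
      · exact ⟨4, pow3', by norm_num, by omega⟩
    · exact ⟨3, pow4' l h, by norm_num, by omega⟩
  obtain ⟨n, hP, hn2, hn⟩ := key
  exact Pool.Agent.W2helper15.BT.ratm Pool.Agent.W2helper19.BT4.place locm d l n hP hn2 hn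
    (by omega)

/-- the map `x ↦ (α x ^ d + β) / (γ x ^ d + δ)` of the projective line -/
noncomputable def bic {K : Type} [Field K] (d : ℕ) (α β γ δ : K) : Option K → Option K :=
  open Classical in fun z =>
    match z with
    | none => if γ = 0 then none else some (α / γ)
    | some x => if γ * x ^ d + δ = 0 then none else some ((α * x ^ d + β) / (γ * x ^ d + δ))

/-- homogeneous coordinates -/
def vec {K : Type} [Field K] : Option K → K × K
  | none => (1, 0)
  | some x => (x, 1)

theorem FM_smul' {K : Type} [Field K] (d : ℕ) (α β γ δ t : K) (P : K × K) :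
    FM d α β γ δ (t • P) = t ^ d • FM d α β γ δ P := Pool.Agent.W2helper66.BT.FM_smul d α β γ δ t P

theorem bic_vec {K : Type} [Field K] {d : ℕ} (hd : 0 < d) {α β γ δ : K}
    (hD : α * δ - β * γ ≠ 0) (z : Option K) :
    ∃ t : K, t ≠ 0 ∧ FM d α β γ δ (vec z) = t • vec (bic d α β γ δ z) := by
  classical
  cases z with
  | none =>
    have h1 : FM d α β γ δ (vec none) = (α, γ) := by
      simp [FM, vec, hd.ne']
    rw [h1]
    by_cases h : γ = 0
    · have hb : bic d α β γ δ none = none := by simp [bic, h]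
      rw [hb]
      refine ⟨α, ?_, ?_⟩
      · rintro rfl
        apply hD
        rw [h]
        ring
      · simp [vec, h]
    · have hb : bic d α β γ δ none = some (α / γ) := by simp [bic, h]
      rw [hb]
      refine ⟨γ, h, ?_⟩
      simp only [vec, Prod.smul_mk, smul_eq_mul, mul_one]
      rw [mul_div_cancel₀ _ h]
  | some x =>
    have h1 : FM d α β γ δ (vec (some x)) = (α * x ^ d + β, γ * x ^ d + δ) := by
      simp [FM, vec]
    rw [h1]
    by_cases h : γ * x ^ d + δ = 0
    · have hb : bic d α β γ δ (some x) = none := by simp [bic, h]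
      rw [hb]
      refine ⟨α * x ^ d + β, ?_, ?_⟩
      · intro h0
        apply hD
        have e1 : (α * δ - β * γ) * x ^ d = 0 := by linear_combination δ * h0 - β * h
        have e2 : (α * δ - β * γ) = 0 ∨ x ^ d = 0 := mul_eq_zero.1 e1
        rcases e2 with e2 | e2
        · exact e2
        · rw [e2] at h0 h
          have hb0 : β = 0 := by linear_combination h0
          have hd0 : δ = 0 := by linear_combination h
          rw [hb0, hd0]
          ring
      · simp [vec, h]
    · have hb : bic d α β γ δ (some x) = some ((α * x ^ d + β) / (γ * x ^ d + δ)) := by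
        simp [bic, h]
      rw [hb]
      refine ⟨γ * x ^ d + δ, h, ?_⟩
      simp only [vec, Prod.smul_mk, smul_eq_mul, mul_one]
      rw [mul_div_cancel₀ _ h]

theorem bic_iter {K : Type} [Field K] {d : ℕ} (hd : 0 < d) {α β γ δ : K}
    (hD : α * δ - β * γ ≠ 0) (z : Option K) (n : ℕ) :
    ∃ t : K, t ≠ 0 ∧ (FM d α β γ δ)^[n] (vec z) = t • vec ((bic d α β γ δ)^[n] z) := by
  induction n with
  | zero => exact ⟨1, one_ne_zero, by simp⟩
  | succ n ih =>
    obtain ⟨t, ht, h⟩ := ih
    obtain ⟨s, hs, h'⟩ := bic_vec hd hD ((bic d α β γ δ)^[n] z)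
    refine ⟨t ^ d * s, mul_ne_zero (pow_ne_zero _ ht) hs, ?_⟩
    rw [Function.iterate_succ_apply', Function.iterate_succ_apply', h, FM_smul', h', smul_smul]

theorem perM_of_bic {K : Type} [Field K] {d : ℕ} (hd : 0 < d) {α β γ δ : K}
    (hD : α * δ - β * γ ≠ 0) {x : K} (hx : (some x) ∈ Function.periodicPts (bic d α β γ δ)) :
    PerM d α β γ δ x := by
  obtain ⟨n, hn, h⟩ := hx
  obtain ⟨t, ht, h'⟩ := bic_iter hd hD (some x) n
  refine ⟨n, hn, t, ht, ?_⟩
  have h2 : (bic d α β γ δ)^[n] (some x) = some x := h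
  rw [h2] at h'
  exact h'

theorem perm_all {d l : ℕ} (hd : 4 ≤ d) (hl : 2 ≤ l) (hdl : 8 ≤ d + l) (K : Type) [Field K]
    [NumberField K] (S : Set (HeightOneSpectrum (𝓞 K))) (hS : S.Finite) :
    ∃ B : ℕ, ∀ α β γ δ : K, α * δ - β * γ ≠ 0 → CndM S d l α β γ δ →
      ∀ T : Finset K, (∀ x ∈ T, PerM d α β γ δ x) → T.card ≤ B := by
  classical
  obtain ⟨R, hRfin, hR⟩ := ratm_all hd hl hdl K S hS
  refine ⟨hRfin.toFinset.card + 2, fun α β γ δ hD hC T hT => ?_⟩
  by_cases h0 : ∀ y ∈ T, y = 0
  · have : T ⊆ {0} := fun y hy => Finset.mem_singleton.2 (h0 y hy)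
    have h1 := Finset.card_le_card this
    rw [Finset.card_singleton] at h1
    omega
  push Not at h0
  obtain ⟨y, hy, hy0⟩ := h0
  have hsub : T ⊆ insert 0 (insert y (hRfin.toFinset.image fun r => r * y)) := by
    intro x hx
    by_cases hx0 : x = 0
    · rw [hx0]
      exact Finset.mem_insert_self _ _
    by_cases hxy : x = y
    · rw [hxy]
      exact Finset.mem_insert_of_mem (Finset.mem_insert_self _ _)
    · refine Finset.mem_insert_of_mem (Finset.mem_insert_of_mem
        (Finset.mem_image.2 ⟨x / y, ?_, by field_simp⟩))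
      rw [Set.Finite.mem_toFinset]
      exact hR α β γ δ x y hD hC (hT x hx) (hT y hy) hxy hx0 hy0
  calc T.card ≤ _ := Finset.card_le_card hsub
    _ ≤ (insert y (hRfin.toFinset.image fun r => r * y)).card + 1 := Finset.card_insert_le _ _
    _ ≤ (hRfin.toFinset.image fun r => r * y).card + 1 + 1 :=
        Nat.add_le_add_right (Finset.card_insert_le _ _) _
    _ ≤ hRfin.toFinset.card + 2 := by
        have := Finset.card_image_le (s := hRfin.toFinset) (f := fun r => r * y)
        omega

/-- the bound for the periodic points on the projective line -/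
theorem bic_all {d l : ℕ} (hd : 4 ≤ d) (hl : 2 ≤ l) (hdl : 8 ≤ d + l) (K : Type) [Field K]
    [NumberField K] (S : Set (HeightOneSpectrum (𝓞 K))) (hS : S.Finite) :
    ∃ B : ℕ, ∀ α β γ δ : K, α * δ - β * γ ≠ 0 → CndM S d l α β γ δ →
      ∀ T : Finset (Option K), (∀ z ∈ T, z ∈ Function.periodicPts (bic d α β γ δ)) →
        T.card ≤ B := by
  classical
  obtain ⟨B, hB⟩ := perm_all hd hl hdl K S hS
  refine ⟨B + 1, fun α β γ δ hD hC T hT => ?_⟩
  have h1 := hB α β γ δ hD hC (Finset.eraseNone T) fun x hx =>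
    perM_of_bic (by omega) hD (hT _ (Finset.mem_eraseNone.1 hx))
  have h2 : T ⊆ insert none ((Finset.eraseNone T).image some) := by
    intro z hz
    cases z with
    | none => exact Finset.mem_insert_self _ _
    | some x =>
      exact Finset.mem_insert_of_mem (Finset.mem_image.2 ⟨x, Finset.mem_eraseNone.2 hz, rfl⟩)
  calc T.card ≤ _ := Finset.card_le_card h2
    _ ≤ ((Finset.eraseNone T).image some).card + 1 := Finset.card_insert_le _ _
    _ ≤ (Finset.eraseNone T).card + 1 := Nat.add_le_add_right Finset.card_image_le _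
    _ ≤ B + 1 := by omega

end Pool.Agent.W2helper83.BT
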