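import Mathlib
import Pool.Agent.W2helper83.BT.Final8

/-! Assembly: the maps with more than six periodic points; integer matrices. -/

set_option autoImplicit false

namespace Pool.Agent.W2helper83.BT

open IsDedekindDomain NumberField

theorem bic_conj {K : Type} [Field K] (d : ℕ) {α β γ δ u s : K} (hu : u ≠ 0) (hs : s ≠ 0)
    (z : Option K) :
    Option.map (fun y => u * y) (bic d (s * α * u ^ d) (s * β) (s * γ * u ^ (d + 1)) (s * δ * u) z) =
      bic d α β γ δ (Option.map (fun y => u * y) z) := by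
  classical
  cases z with
  | none =>
    by_cases h : γ = 0
    · simp [bic, h]
    · have h1 : s * γ * u ^ (d + 1) ≠ 0 := mul_ne_zero (mul_ne_zero hs h) (pow_ne_zero _ hu)
      have e1 : bic d (s * α * u ^ d) (s * β) (s * γ * u ^ (d + 1)) (s * δ * u) none =
          some (s * α * u ^ d / (s * γ * u ^ (d + 1))) := by
        simp only [bic, if_neg h1]
      have e2 : bic d α β γ δ none = some (α / γ) := by
        simp only [bic, if_neg h]
      rw [e1, Option.map_none, e2, Option.map_some]
      congr 1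
      field_simp
      ring
  | some x =>
    rw [Option.map_some]
    by_cases h : γ * (u * x) ^ d + δ = 0
    · have h1 : s * γ * u ^ (d + 1) * x ^ d + s * δ * u = 0 := by
        have : s * γ * u ^ (d + 1) * x ^ d + s * δ * u = s * u * (γ * (u * x) ^ d + δ) := by
          rw [mul_pow]; ring
        rw [this, h, mul_zero]
      have e1 : bic d (s * α * u ^ d) (s * β) (s * γ * u ^ (d + 1)) (s * δ * u) (some x) = none := by
        simp only [bic, if_pos h1]
      have e2 : bic d α β γ δ (some (u * x)) = none := by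
        simp only [bic, if_pos h]
      rw [e1, e2, Option.map_none]
    · have e0 : s * γ * u ^ (d + 1) * x ^ d + s * δ * u = s * u * (γ * (u * x) ^ d + δ) := by
        rw [mul_pow]; ring
      have e0' : s * α * u ^ d * x ^ d + s * β = s * (α * (u * x) ^ d + β) := by
        rw [mul_pow]; ring
      have h1 : s * γ * u ^ (d + 1) * x ^ d + s * δ * u ≠ 0 := by
        rw [e0]
        exact mul_ne_zero (mul_ne_zero hs hu) h
      have e1 : bic d (s * α * u ^ d) (s * β) (s * γ * u ^ (d + 1)) (s * δ * u) (some x) =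
          some ((s * α * u ^ d * x ^ d + s * β) / (s * γ * u ^ (d + 1) * x ^ d + s * δ * u)) := by
        simp only [bic, if_neg h1]
      have e2 : bic d α β γ δ (some (u * x)) =
          some ((α * (u * x) ^ d + β) / (γ * (u * x) ^ d + δ)) := by
        simp only [bic, if_neg h]
      rw [e1, e2, Option.map_some, e0, e0']
      congr 1
      field_simp

/-- the maps with more than six periodic points -/
theorem bic_exc_of {d l : ℕ} (hd : 0 < d) (hE : EXCM d l) (K : Type) [Field K]
    [NumberField K] (S : Set (HeightOneSpectrum (𝓞 K))) (hS : S.Finite) :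
    ∃ A : Set (Option K → Option K), A.Finite ∧
      ∀ α β γ δ : K, α * δ - β * γ ≠ 0 → CndM S d l α β γ δ →
      ∀ T : Finset (Option K), (∀ z ∈ T, z ∈ Function.periodicPts (bic d α β γ δ)) →
        6 < T.card → ∃ u : K, u ≠ 0 ∧ ∃ g ∈ A, ∀ z,
          Option.map (fun y => u * y) (g z) = bic d α β γ δ (Option.map (fun y => u * y) z) := by
  classical
  obtain ⟨A, hA, hA'⟩ := hE K S hS
  refine ⟨(fun m : K × K × K × K => bic d m.1 m.2.1 m.2.2.1 m.2.2.2) '' A, hA.image _,
    fun α β γ δ hD hC T hT hc => ?_⟩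
  have h2 : T ⊆ insert none ((Finset.eraseNone T).image some) := by
    intro z hz
    cases z with
    | none => exact Finset.mem_insert_self _ _
    | some x =>
      exact Finset.mem_insert_of_mem (Finset.mem_image.2 ⟨x, Finset.mem_eraseNone.2 hz, rfl⟩)
  have h3 : T.card ≤ (Finset.eraseNone T).card + 1 :=
    calc T.card ≤ _ := Finset.card_le_card h2
      _ ≤ ((Finset.eraseNone T).image some).card + 1 := Finset.card_insert_le _ _
      _ ≤ (Finset.eraseNone T).card + 1 := Nat.add_le_add_right Finset.card_image_le _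
  have h4 := Finset.pred_card_le_card_erase (s := Finset.eraseNone T) (a := (0 : K))
  obtain ⟨u, s, hu, hs, hm⟩ := hA' α β γ δ hD hC ((Finset.eraseNone T).erase 0) (by omega)
    fun x hx => ⟨Finset.ne_of_mem_erase hx,
      perM_of_bic hd hD (hT _ (Finset.mem_eraseNone.1 (Finset.mem_of_mem_erase hx)))⟩
  exact ⟨u, hu, _, ⟨_, hm, rfl⟩, fun z => bic_conj d hu hs z⟩

theorem val_int (v : HeightOneSpectrum (𝓞 ℚ)) (n : ℤ) : v.valuation ℚ (n : ℚ) ≤ 1 := by
  have h := v.valuation_le_one (K := ℚ) (n : 𝓞 ℚ)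
  have e : algebraMap (𝓞 ℚ) ℚ (n : 𝓞 ℚ) = (n : ℚ) := map_intCast _ n
  rw [← e]
  exact h

theorem val_coprime (v : HeightOneSpectrum (𝓞 ℚ)) {m n : ℤ} (h : IsCoprime m n) :
    v.valuation ℚ (m : ℚ) = 1 ∨ v.valuation ℚ (n : ℚ) = 1 := by
  by_contra hc
  push Not at hc
  have h1 : v.valuation ℚ (m : ℚ) < 1 := lt_of_le_of_ne (val_int v m) hc.1
  have h2 : v.valuation ℚ (n : ℚ) < 1 := lt_of_le_of_ne (val_int v n) hc.2
  obtain ⟨a, b, hab⟩ := h
  have e : ((a : ℚ) * m + b * n) = 1 := by exact_mod_cast hab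
  have h3 : v.valuation ℚ ((a : ℚ) * m + b * n) < 1 := by
    refine Valuation.map_add_lt _ ?_ ?_
    · rw [map_mul]
      exact lt_of_le_of_lt (mul_le_of_le_one_left' (val_int v a)) h1
    · rw [map_mul]
      exact lt_of_le_of_lt (mul_le_of_le_one_left' (val_int v b)) h2
  rw [e, map_one] at h3
  exact lt_irrefl _ h3

theorem cndM_rat (d l : ℕ) {a b c e t : ℤ} (h1 : IsCoprime a c) (h2 : IsCoprime b e)
    (h3 : IsCoprime (a ^ (d + 1) + b * c ^ d) (c * a ^ d + e * c ^ d))
    (h4 : |a * e - b * c| = |t| ^ l) :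
    CndM (∅ : Set (HeightOneSpectrum (𝓞 ℚ))) d l (a : ℚ) b c e := by
  intro v _
  refine ⟨⟨⟨val_int v a, val_int v b, val_int v c, val_int v e⟩, val_coprime v h1,
    val_coprime v h2, ?_⟩, (t : ℚ), ?_⟩
  · have := val_coprime v h3
    push_cast at this
    exact this
  · have h5 : a * e - b * c = t ^ l ∨ a * e - b * c = -t ^ l := by
      rw [← abs_pow] at h4
      exact abs_eq_abs.1 h4
    have h6 : ((a : ℚ) * e - b * c) = ((a * e - b * c : ℤ) : ℚ) := by push_cast; ring
    rw [h6]
    rcases h5 with h5 | h5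
    · rw [h5]
      push_cast
      rw [map_pow]
    · rw [h5]
      push_cast
      rw [Valuation.map_neg, map_pow]

end Pool.Agent.W2helper83.BT
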