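import Mathlib
import Pool.Agent.W2helper83.BT.Final9
import Pool.Agent.W2helper15.BT.RatM

/-!
# Project BT, sixth part: normal forms which depend on the prime
-/

set_option autoImplicit false

namespace Pool.Agent.W2helper83.BT

open IsDedekindDomain NumberField Polynomial
open Pool.Agent.W2helper73.BT (val_nat)
open Pool.Agent.W2helper49.BT4 (val_one_iff val_eq_iff)
open Pool.Agent.W2helper15.BT (prim_map map_perM one_of_one)

/-- at every prime outside `S` some conjugate by `x ↦ u x` is in normal form -/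
def CndL {K : Type} [Field K] [NumberField K] (S : Set (HeightOneSpectrum (𝓞 K))) (d l : ℕ)
    (α β γ δ : K) : Prop :=
  ∀ v ∉ S, ∃ u s : K, u ≠ 0 ∧ s ≠ 0 ∧
    Prim (v.valuation K) d (s * α * u ^ d) (s * β) (s * γ * u ^ (d + 1)) (s * δ * u) ∧
    ∃ h : K, v.valuation K (s * α * u ^ d * (s * δ * u) - s * β * (s * γ * u ^ (d + 1))) =
      v.valuation K h ^ l

/-- finitely many ratios of periodic points -/
def RATL (d l : ℕ) : Prop := ∀ (K : Type) [Field K] [NumberField K]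
  (S : Set (HeightOneSpectrum (𝓞 K))), S.Finite → ∃ R : Set K, R.Finite ∧
    ∀ α β γ δ x y : K, α * δ - β * γ ≠ 0 → CndL S d l α β γ δ →
      PerM d α β γ δ x → PerM d α β γ δ y → x ≠ y → x ≠ 0 → y ≠ 0 → x / y ∈ R

/-- finitely many exceptional classes -/
def EXCL (d l : ℕ) : Prop := ∀ (K : Type) [Field K] [NumberField K]
  (S : Set (HeightOneSpectrum (𝓞 K))), S.Finite → ∃ A : Set (K × K × K × K), A.Finite ∧
    ∀ α β γ δ : K, α * δ - β * γ ≠ 0 → CndL S d l α β γ δ →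
      ∀ T : Finset K, 5 ≤ T.card → (∀ x ∈ T, x ≠ 0 ∧ PerM d α β γ δ x) →
        ∃ u s : K, u ≠ 0 ∧ s ≠ 0 ∧
          (s * α * u ^ d, s * β, s * γ * u ^ (d + 1), s * δ * u) ∈ A

theorem FM_psi {K : Type} [Field K] {d : ℕ} {α β γ δ u s : K} (hu : u ≠ 0) (P : K × K) :
    FM d (s * α * u ^ d) (s * β) (s * γ * u ^ (d + 1)) (s * δ * u) (P.1 / u, P.2) =
      (s * u) • (((FM d α β γ δ P).1 / u, (FM d α β γ δ P).2) : K × K) := by
  have hud : u ^ d ≠ 0 := pow_ne_zero _ hu
  ext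
  · simp only [FM, Prod.smul_fst, smul_eq_mul, div_pow]
    field_simp
  · simp only [FM, Prod.smul_snd, smul_eq_mul, div_pow, pow_succ]
    field_simp

theorem perM_conj {K : Type} [Field K] {d : ℕ} {α β γ δ u s x : K} (hu : u ≠ 0) (hs : s ≠ 0)
    (hx : PerM d α β γ δ x) :
    PerM d (s * α * u ^ d) (s * β) (s * γ * u ^ (d + 1)) (s * δ * u) (x / u) := by
  obtain ⟨n, hn, t, ht, h⟩ := hx
  have key : ∀ (n : ℕ) (P : K × K), ∃ c : K, c ≠ 0 ∧
      (FM d (s * α * u ^ d) (s * β) (s * γ * u ^ (d + 1)) (s * δ * u))^[n] (P.1 / u, P.2) =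
        c • ((((FM d α β γ δ)^[n] P).1 / u, ((FM d α β γ δ)^[n] P).2) : K × K) := by
    intro n P
    induction n with
    | zero => exact ⟨1, one_ne_zero, by simp⟩
    | succ n ih =>
      obtain ⟨c, hc, h1⟩ := ih
      refine ⟨c ^ d * (s * u), mul_ne_zero (pow_ne_zero _ hc) (mul_ne_zero hs hu), ?_⟩
      rw [Function.iterate_succ_apply', Function.iterate_succ_apply', h1, FM_smul', FM_psi hu,
        smul_smul]
  obtain ⟨c, hc, h1⟩ := key n (x, 1)
  refine ⟨n, hn, c * t, mul_ne_zero hc ht, ?_⟩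
  rw [h] at h1
  simp only [Prod.smul_mk, smul_eq_mul, mul_one] at h1
  rw [h1]
  ext
  · simp only [Prod.smul_fst, smul_eq_mul]
    ring
  · simp only [Prod.smul_snd, smul_eq_mul]
    ring

theorem det_conj {K : Type} [Field K] {d : ℕ} {α β γ δ u s : K} (hu : u ≠ 0) (hs : s ≠ 0)
    (hD : α * δ - β * γ ≠ 0) :
    s * α * u ^ d * (s * δ * u) - s * β * (s * γ * u ^ (d + 1)) ≠ 0 := by
  have : s * α * u ^ d * (s * δ * u) - s * β * (s * γ * u ^ (d + 1)) =
      s ^ 2 * u ^ (d + 1) * (α * δ - β * γ) := by ring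
  rw [this]
  exact mul_ne_zero (mul_ne_zero (pow_ne_zero _ hs) (pow_ne_zero _ hu)) hD

/-- the ratios of periodic points, for maps with local normal forms -/
theorem ratl_of (hPL : PLACE) (hLOC : LOCM) {d l n : ℕ} (hP : POW l n) (hn : 2 ≤ n)
    (hnd : n + 1 ≤ d) (hl : 0 < l) : RATL d l := by
  classical
  intro K _ _ S hS
  have : NeZero d := ⟨by omega⟩
  let L := CyclotomicField d K
  have : NumberField L := inferInstance
  have hζ := IsCyclotomicExtension.zeta_spec d K L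
  set ζ := IsCyclotomicExtension.zeta d K L with hζdef
  obtain ⟨T, hT, hTv⟩ := hPL K L S hS
  have hfin : {w : HeightOneSpectrum (𝓞 L) | ((d : ℤ) : 𝓞 L) ∈ w.asIdeal}.Finite := by
    have hI : Ideal.span {((d : ℤ) : 𝓞 L)} ≠ ⊥ := by
      rw [Ne, Ideal.span_singleton_eq_bot]
      have : d ≠ 0 := by omega
      exact_mod_cast this
    refine (Ideal.finite_factors hI).subset (fun v hv => ?_)
    exact Ideal.dvd_span_singleton.2 hv
  have hζd := hζ.pow_eq_one
  let r : Fin n → L := fun i => ζ ^ ((i : ℕ) + 1)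
  have hr : Function.Injective r := by
    intro i j h
    have h1 := hζ.pow_inj (by omega) (by omega) h
    exact Fin.ext (by omega)
  have hroot : ∀ i, r i ^ d = 1 := by
    intro i
    show (ζ ^ ((i : ℕ) + 1)) ^ d = 1
    rw [← pow_mul, mul_comm, pow_mul, hζd, one_pow]
  have hne1 : ∀ i, r i ≠ 1 := fun i => hζ.pow_ne_one_of_pos_of_lt (by omega) (by omega)
  have hinj := (algebraMap K L).injective
  have hfin2 := (hP L _ (hfin.union hT) r hr).union (Set.finite_range r)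
  refine ⟨_, hfin2.preimage (f := algebraMap K L) hinj.injOn, ?_⟩
  intro α₀ β₀ γ₀ δ₀ x₀ y₀ hD₀ hC hx₀ hy₀ hxy₀ hx00 hy00
  rw [Set.mem_preimage]
  set ρ := algebraMap K L (x₀ / y₀) with hρ
  by_cases hin : ∃ i, r i = ρ
  · exact Or.inr hin
  push Not at hin
  left
  refine ⟨fun i h => hin i h.symm, ?_⟩
  intro i j w hw
  have hw1 : w ∉ T := fun h => hw (Or.inr h)
  obtain ⟨v, hvS, hvw⟩ := hTv w hw1
  obtain ⟨u, s, hu, hs0, hPr, h, hh⟩ := hC v hvS
  have hx := perM_conj (s := s) hu hs0 hx₀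
  have hy := perM_conj (s := s) hu hs0 hy₀
  have hD := det_conj (d := d) hu hs0 hD₀
  have hx0 : x₀ / u ≠ 0 := div_ne_zero hx00 hu
  have hy0 : y₀ / u ≠ 0 := div_ne_zero hy00 hu
  have hxy : x₀ / u ≠ y₀ / u := fun h => hxy₀ ((div_left_inj' hu).1 h)
  have hru : x₀ / u / (y₀ / u) = x₀ / y₀ := by field_simp
  rw [← hru] at hρ
  generalize s * α₀ * u ^ d = α at hx hy hD hPr hh
  generalize s * β₀ = β at hx hy hD hPr hh
  generalize s * γ₀ * u ^ (d + 1) = γ at hx hy hD hPr hh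
  generalize s * δ₀ * u = δ at hx hy hD hPr hh
  generalize x₀ / u = x at hx hx0 hxy hρ
  generalize y₀ / u = y at hy hy0 hxy hρ
  set X := algebraMap K L x with hX
  set Y := algebraMap K L y with hY
  have hX0 : X ≠ 0 := fun h => hx0 (hinj (by rw [← hX, h, map_zero]))
  have hY0 : Y ≠ 0 := fun h => hy0 (hinj (by rw [← hY, h, map_zero]))
  have hXY : X ≠ Y := fun h => hxy (hinj h)
  have hρ' : ρ = X / Y := by rw [hρ, map_div₀]
  have hs : ∀ i, ρ - r i ≠ 0 := fun i => sub_ne_zero.2 fun h => hin i h.symm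
  have e1 : ∀ i, X - r i * Y = (ρ - r i) * Y := fun i => by rw [hρ', sub_mul, div_mul_cancel₀ _ hY0]
  have hDL : algebraMap K L α * algebraMap K L δ - algebraMap K L β * algebraMap K L γ =
      algebraMap K L (α * δ - β * γ) := by
    rw [map_sub, map_mul, map_mul]
  have hDL0 : algebraMap K L α * algebraMap K L δ - algebraMap K L β * algebraMap K L γ ≠ 0 := by
    rw [hDL, Ne, map_eq_zero]
    exact hD
  obtain ⟨k, hk⟩ := hLOC L _ (w.valuation L) d (algebraMap K L α) (algebraMap K L β)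
    (algebraMap K L γ) (algebraMap K L δ) X Y (r i) (r j) (by omega)
    (val_nat w fun h => hw (Or.inl h)) ⟨ζ, hζ⟩ hDL0 (prim_map hvw hPr)
    (map_perM (algebraMap K L) hx) (map_perM (algebraMap K L) hy) hXY hX0 hY0
    (hroot i) (hne1 i) (hroot j) (hne1 j) (by rw [e1]; exact mul_ne_zero (hs i) hY0)
    (by rw [e1]; exact mul_ne_zero (hs j) hY0)
  rw [e1, e1, mul_div_mul_right _ _ hY0, hDL] at hk
  have hvD0 : v.valuation K (α * δ - β * γ) ≠ 0 := (Valuation.ne_zero_iff _).2 hD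
  have hh0 : h ≠ 0 := by
    intro h0
    rw [h0, map_zero, zero_pow hl.ne'] at hh
    exact hvD0 hh
  have h5 : w.valuation L (algebraMap K L (α * δ - β * γ)) =
      w.valuation L (algebraMap K L h) ^ l := by
    rw [← map_pow, ← map_pow]
    rw [← map_pow] at hh
    exact (val_eq_iff hvw hD (pow_ne_zero _ hh0)).2 hh
  refine ⟨algebraMap K L h ^ k, zpow_ne_zero _ (by rw [Ne, map_eq_zero]; exact hh0), ?_⟩
  rw [hk, h5, map_zpow₀, ← zpow_natCast, ← zpow_natCast, ← zpow_mul, ← zpow_mul, mul_comm]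

theorem ratl_all {d l : ℕ} (hd : 4 ≤ d) (hl : 2 ≤ l) (hdl : 8 ≤ d + l) : RATL d l := by
  have key : ∃ n : ℕ, POW l n ∧ 2 ≤ n ∧ n + 1 ≤ d := by
    rcases Nat.lt_or_ge l 4 with h | h
    · interval_cases l
      · exact ⟨5, pow2', by norm_num, by omega⟩
      · exact ⟨4, pow3', by norm_num, by omega⟩
    · exact ⟨3, pow4' l h, by norm_num, by omega⟩
  obtain ⟨n, hP, hn2, hn⟩ := key
  exact ratl_of Pool.Agent.W2helper19.BT4.place locm hP hn2 hn (by omega)

end Pool.Agent.W2helper83.BT
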