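import Mathlib
import Pool.Agent.W2helper83.BT.Loc6
import Pool.Agent.W2helper51.BT6.Excm

/-!
# Project BT, sixth part: the exceptional classes, and the bounds on the projective line, for maps
with local normal forms (the linear algebra of three points is from helper51)
-/

set_option autoImplicit false

namespace Pool.Agent.W2helper83.BT

open IsDedekindDomain NumberField
open Pool.Agent.W2helper51.BT6 (dt prop_of per_inj FM_ne_zero per_image quad)

/-- the exceptional classes, for maps with local normal forms -/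
theorem excl {d l : ℕ} (hd : 2 ≤ d) (hR : RATL d l) : EXCL d l := by
  classical
  intro K _ _ S hS
  obtain ⟨R, hRfin, hR⟩ := hR K S hS
  let R1 : Set K := insert 1 R
  have hR1 : R1.Finite := hRfin.insert 1
  let Q : Set K := (fun r => r ^ d) '' R1
  have hQ : Q.Finite := hR1.image _
  let Φ : K × K × K × K × K × K → K × K × K × K := fun e =>
    if h : ∃ N : K × K × K × K, dt N ≠ 0 ∧ Pool.Agent.W2helper51.BT6.Cnd N e.1 e.2.2.2.1 ∧ Pool.Agent.W2helper51.BT6.Cnd N e.2.1 e.2.2.2.2.1 ∧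
      Pool.Agent.W2helper51.BT6.Cnd N e.2.2.1 e.2.2.2.2.2 then h.choose else 0
  refine ⟨Φ '' (Q ×ˢ Q ×ˢ Q ×ˢ R1 ×ˢ R1 ×ˢ R1),
    (hQ.prod (hQ.prod (hQ.prod (hR1.prod (hR1.prod hR1))))).image _, ?_⟩
  intro α β γ δ hD hC T hT hTp
  have hrat : ∀ x y : K, x ≠ 0 → y ≠ 0 → PerM d α β γ δ x → PerM d α β γ δ y → x / y ∈ R1 := by
    intro x y hx hy px py
    by_cases h : x = y
    · rw [h, div_self hy]
      exact Set.mem_insert _ _
    · exact Set.mem_insert_of_mem _ (hR α β γ δ x y hD hC px py h hx hy)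
  -- the points which are mapped to `0` or infinity
  have hcA : (T.filter fun x => α * x ^ d + β = 0).card ≤ 1 := by
    rw [Finset.card_le_one]
    intro x hx y hy
    rw [Finset.mem_filter] at hx hy
    have px := (hTp x hx.1).2
    have py := (hTp y hy.1).2
    have nx := FM_ne_zero hd px
    have ny := FM_ne_zero hd py
    have ex : FM d α β γ δ (x, 1) = (0, γ * x ^ d + δ) := by simp [FM, hx.2]
    have ey : FM d α β γ δ (y, 1) = (0, γ * y ^ d + δ) := by simp [FM, hy.2]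
    have hy0 : γ * y ^ d + δ ≠ 0 := by
      intro h
      apply ny
      rw [ey, h]
      rfl
    apply per_inj px py (c := (γ * x ^ d + δ) / (γ * y ^ d + δ))
    rw [ex, ey]
    ext
    · simp
    · simp only [Prod.smul_snd, smul_eq_mul]
      field_simp
  have hcB : (T.filter fun x => γ * x ^ d + δ = 0).card ≤ 1 := by
    rw [Finset.card_le_one]
    intro x hx y hy
    rw [Finset.mem_filter] at hx hy
    have px := (hTp x hx.1).2
    have py := (hTp y hy.1).2
    have nx := FM_ne_zero hd px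
    have ny := FM_ne_zero hd py
    have ex : FM d α β γ δ (x, 1) = (α * x ^ d + β, 0) := by simp [FM, hx.2]
    have ey : FM d α β γ δ (y, 1) = (α * y ^ d + β, 0) := by simp [FM, hy.2]
    have hy0 : α * y ^ d + β ≠ 0 := by
      intro h
      apply ny
      rw [ey, h]
      rfl
    apply per_inj px py (c := (α * x ^ d + β) / (α * y ^ d + β))
    rw [ex, ey]
    ext
    · simp only [Prod.smul_fst, smul_eq_mul]
      field_simp
    · simp
  have hT' : 2 < (T \ ((T.filter fun x => α * x ^ d + β = 0) ∪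
      (T.filter fun x => γ * x ^ d + δ = 0))).card := by
    have h1 := Finset.le_card_sdiff ((T.filter fun x => α * x ^ d + β = 0) ∪
      (T.filter fun x => γ * x ^ d + δ = 0)) T
    have h2 := Finset.card_union_le (T.filter fun x => α * x ^ d + β = 0)
      (T.filter fun x => γ * x ^ d + δ = 0)
    omega
  rw [Finset.two_lt_card] at hT'
  obtain ⟨p0, m0, p1, m1, p2, m2, h01, h02, h12⟩ := hT'
  have hm : ∀ p, p ∈ T \ ((T.filter fun x => α * x ^ d + β = 0) ∪
      (T.filter fun x => γ * x ^ d + δ = 0)) →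
      p ≠ 0 ∧ PerM d α β γ δ p ∧ α * p ^ d + β ≠ 0 ∧ γ * p ^ d + δ ≠ 0 := by
    intro p hp
    rw [Finset.mem_sdiff, Finset.mem_union, Finset.mem_filter, Finset.mem_filter] at hp
    push Not at hp
    exact ⟨(hTp p hp.1).1, (hTp p hp.1).2, hp.2.1 hp.1, hp.2.2 hp.1⟩
  obtain ⟨z0, q0, a0, b0⟩ := hm p0 m0
  obtain ⟨z1, q1, a1, b1⟩ := hm p1 m1
  obtain ⟨z2, q2, a2, b2⟩ := hm p2 m2
  have hpow : ∀ x y : K, PerM d α β γ δ x → PerM d α β γ δ y → x ≠ y →
      (x / p0) ^ d ≠ (y / p0) ^ d := by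
    intro x y px py hne h
    rw [div_pow, div_pow] at h
    have h' : x ^ d = y ^ d := by
      have hp : p0 ^ d ≠ 0 := pow_ne_zero _ z0
      field_simp at h
      exact h
    apply hne
    apply per_inj px py (c := 1)
    rw [one_smul]
    simp [FM, h']
  have himg : ∀ p, p ≠ 0 → PerM d α β γ δ p → α * p ^ d + β ≠ 0 → γ * p ^ d + δ ≠ 0 →
      (α * p ^ d + β) / (γ * p ^ d + δ) / p0 ∈ R1 := by
    intro p zp qp ap bp
    refine hrat _ _ (div_ne_zero ap bp) z0 ?_ q0
    exact per_image qp (by simp [FM]) bp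
  have hcnd : ∀ p, γ * p ^ d + δ ≠ 0 → Pool.Agent.W2helper51.BT6.Cnd (α * p0 ^ d, β, γ * p0 ^ (d + 1), δ * p0)
      ((p / p0) ^ d) ((α * p ^ d + β) / (γ * p ^ d + δ) / p0) := by
    intro p bp
    simp only [Pool.Agent.W2helper51.BT6.Cnd]
    have hp : p0 ^ d ≠ 0 := pow_ne_zero _ z0
    have e1 : α * p0 ^ d * (p / p0) ^ d = α * p ^ d := by
      rw [div_pow]
      field_simp
    have e2 : γ * p0 ^ (d + 1) * (p / p0) ^ d = p0 * (γ * p ^ d) := by
      rw [div_pow, pow_succ]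
      field_simp
    rw [e1, e2]
    have e3 : (α * p ^ d + β) / (γ * p ^ d + δ) / p0 * (p0 * (γ * p ^ d) + δ * p0) =
        (α * p ^ d + β) := by
      have e4 : p0 * (γ * p ^ d) + δ * p0 = p0 * (γ * p ^ d + δ) := by ring
      rw [e4, div_mul_eq_mul_div, mul_comm p0, ← mul_assoc, mul_div_cancel_right₀ _ z0,
        div_mul_cancel₀ _ bp]
    rw [e3]
  have hdt : dt (α * p0 ^ d, β, γ * p0 ^ (d + 1), δ * p0) ≠ 0 := by
    have : dt (α * p0 ^ d, β, γ * p0 ^ (d + 1), δ * p0) = p0 ^ (d + 1) * (α * δ - β * γ) := by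
      simp only [dt]
      ring
    rw [this]
    exact mul_ne_zero (pow_ne_zero _ z0) hD
  let e : K × K × K × K × K × K := ((p0 / p0) ^ d, (p1 / p0) ^ d, (p2 / p0) ^ d,
    (α * p0 ^ d + β) / (γ * p0 ^ d + δ) / p0, (α * p1 ^ d + β) / (γ * p1 ^ d + δ) / p0,
    (α * p2 ^ d + β) / (γ * p2 ^ d + δ) / p0)
  have hex : ∃ N : K × K × K × K, dt N ≠ 0 ∧ Pool.Agent.W2helper51.BT6.Cnd N e.1 e.2.2.2.1 ∧ Pool.Agent.W2helper51.BT6.Cnd N e.2.1 e.2.2.2.2.1 ∧
      Pool.Agent.W2helper51.BT6.Cnd N e.2.2.1 e.2.2.2.2.2 :=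
    ⟨(α * p0 ^ d, β, γ * p0 ^ (d + 1), δ * p0), hdt, hcnd p0 b0, hcnd p1 b1, hcnd p2 b2⟩
  have hΦ : Φ e = hex.choose := by
    simp only [Φ]
    rw [dif_pos hex]
  obtain ⟨c0, c1, c2, c3⟩ := hex.choose_spec
  obtain ⟨s, hs, hs'⟩ := prop_of (hpow p0 p1 q0 q1 h01) (hpow p0 p2 q0 q2 h02)
    (hpow p1 p2 q1 q2 h12) hdt c0 (hcnd p0 b0) (hcnd p1 b1) (hcnd p2 b2) c1 c2 c3
  refine ⟨p0, s, z0, hs, e, ?_, ?_⟩
  · refine ⟨⟨_, hrat _ _ z0 z0 q0 q0, rfl⟩, ⟨_, hrat _ _ z1 z0 q1 q0, rfl⟩,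
      ⟨_, hrat _ _ z2 z0 q2 q0, rfl⟩, himg p0 z0 q0 a0 b0, himg p1 z1 q1 a1 b1,
      himg p2 z2 q2 a2 b2⟩
  · rw [hΦ, ← hs']
    simp only [mul_assoc]


theorem perl_all {d l : ℕ} (hd : 4 ≤ d) (hl : 2 ≤ l) (hdl : 8 ≤ d + l) (K : Type) [Field K]
    [NumberField K] (S : Set (HeightOneSpectrum (𝓞 K))) (hS : S.Finite) :
    ∃ B : ℕ, ∀ α β γ δ : K, α * δ - β * γ ≠ 0 → CndL S d l α β γ δ →
      ∀ T : Finset K, (∀ x ∈ T, PerM d α β γ δ x) → T.card ≤ B := by
  classical
  obtain ⟨R, hRfin, hR⟩ := ratl_all hd hl hdl K S hS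
  refine ⟨hRfin.toFinset.card + 2, fun α β γ δ hD hC T hT => ?_⟩
  by_cases h0 : ∀ y ∈ T, y = 0
  · have : T ⊆ {0} := fun y hy => Finset.mem_singleton.2 (h0 y hy)
    have h1 := Finset.card_le_card this
    rw [Finset.card_singleton] at h1
    omega
  push Not at h0
  obtain ⟨y, hy, hy0⟩ := h0
  have hsub : T ⊆ insert 0 (insert y (hRfin.toFinset.image fun r => r * y)) := by
    intro x hx
    by_cases hx0 : x = 0
    · rw [hx0]
      exact Finset.mem_insert_self _ _
    by_cases hxy : x = y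
    · rw [hxy]
      exact Finset.mem_insert_of_mem (Finset.mem_insert_self _ _)
    · refine Finset.mem_insert_of_mem (Finset.mem_insert_of_mem
        (Finset.mem_image.2 ⟨x / y, ?_, by field_simp⟩))
      rw [Set.Finite.mem_toFinset]
      exact hR α β γ δ x y hD hC (hT x hx) (hT y hy) hxy hx0 hy0
  calc T.card ≤ _ := Finset.card_le_card hsub
    _ ≤ (insert y (hRfin.toFinset.image fun r => r * y)).card + 1 := Finset.card_insert_le _ _
    _ ≤ (hRfin.toFinset.image fun r => r * y).card + 1 + 1 :=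
        Nat.add_le_add_right (Finset.card_insert_le _ _) _
    _ ≤ hRfin.toFinset.card + 2 := by
        have := Finset.card_image_le (s := hRfin.toFinset) (f := fun r => r * y)
        omega

/-- the bound for the periodic points on the projective line -/
theorem bicl_all {d l : ℕ} (hd : 4 ≤ d) (hl : 2 ≤ l) (hdl : 8 ≤ d + l) (K : Type) [Field K]
    [NumberField K] (S : Set (HeightOneSpectrum (𝓞 K))) (hS : S.Finite) :
    ∃ B : ℕ, ∀ α β γ δ : K, α * δ - β * γ ≠ 0 → CndL S d l α β γ δ →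
      ∀ T : Finset (Option K), (∀ z ∈ T, z ∈ Function.periodicPts (bic d α β γ δ)) →
        T.card ≤ B := by
  classical
  obtain ⟨B, hB⟩ := perl_all hd hl hdl K S hS
  refine ⟨B + 1, fun α β γ δ hD hC T hT => ?_⟩
  have h1 := hB α β γ δ hD hC (Finset.eraseNone T) fun x hx =>
    perM_of_bic (by omega) hD (hT _ (Finset.mem_eraseNone.1 hx))
  have h2 : T ⊆ insert none ((Finset.eraseNone T).image some) := by
    intro z hz
    cases z with
    | none => exact Finset.mem_insert_self _ _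
    | some x =>
      exact Finset.mem_insert_of_mem (Finset.mem_image.2 ⟨x, Finset.mem_eraseNone.2 hz, rfl⟩)
  calc T.card ≤ _ := Finset.card_le_card h2
    _ ≤ ((Finset.eraseNone T).image some).card + 1 := Finset.card_insert_le _ _
    _ ≤ (Finset.eraseNone T).card + 1 := Nat.add_le_add_right Finset.card_image_le _
    _ ≤ B + 1 := by omega

/-- the maps with more than six periodic points -/
theorem bicl_exc {d l : ℕ} (hd : 4 ≤ d) (hl : 2 ≤ l) (hdl : 8 ≤ d + l) (K : Type) [Field K]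
    [NumberField K] (S : Set (HeightOneSpectrum (𝓞 K))) (hS : S.Finite) :
    ∃ A : Set (Option K → Option K), A.Finite ∧
      ∀ α β γ δ : K, α * δ - β * γ ≠ 0 → CndL S d l α β γ δ →
      ∀ T : Finset (Option K), (∀ z ∈ T, z ∈ Function.periodicPts (bic d α β γ δ)) →
        6 < T.card → ∃ u : K, u ≠ 0 ∧ ∃ g ∈ A, ∀ z,
          Option.map (fun y => u * y) (g z) = bic d α β γ δ (Option.map (fun y => u * y) z) := by
  classical
  obtain ⟨A, hA, hA'⟩ := excl (by omega : 2 ≤ d) (ratl_all hd hl hdl) K S hS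
  refine ⟨(fun m : K × K × K × K => bic d m.1 m.2.1 m.2.2.1 m.2.2.2) '' A, hA.image _,
    fun α β γ δ hD hC T hT hc => ?_⟩
  have h2 : T ⊆ insert none ((Finset.eraseNone T).image some) := by
    intro z hz
    cases z with
    | none => exact Finset.mem_insert_self _ _
    | some x =>
      exact Finset.mem_insert_of_mem (Finset.mem_image.2 ⟨x, Finset.mem_eraseNone.2 hz, rfl⟩)
  have h3 : T.card ≤ (Finset.eraseNone T).card + 1 :=
    calc T.card ≤ _ := Finset.card_le_card h2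
      _ ≤ ((Finset.eraseNone T).image some).card + 1 := Finset.card_insert_le _ _
      _ ≤ (Finset.eraseNone T).card + 1 := Nat.add_le_add_right Finset.card_image_le _
  have h4 := Finset.pred_card_le_card_erase (s := Finset.eraseNone T) (a := (0 : K))
  obtain ⟨u, s, hu, hs, hm⟩ := hA' α β γ δ hD hC ((Finset.eraseNone T).erase 0) (by omega)
    fun x hx => ⟨Finset.ne_of_mem_erase hx,
      perM_of_bic (by omega) hD (hT _ (Finset.mem_eraseNone.1 (Finset.mem_of_mem_erase hx)))⟩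
  exact ⟨u, hu, _, ⟨_, hm, rfl⟩, fun z => bic_conj d hu hs z⟩

end Pool.Agent.W2helper83.BT
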