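import Mathlib
import Pool.Agent.W2helper83.BT.Exc6

/-!
# Project BT, sixth part: preperiodic points of bicritical maps, local part
-/

set_option autoImplicit false

namespace Pool.Agent.W2helper83.BT

open Pool.Agent.W2helper92.BT2 Pool.Agent.W2helper63.BT6
open Polynomial (nthRootsFinset)

section A

variable {K Γ : Type} [Field K] [LinearOrderedCommGroupWithZero Γ] {w : Valuation K Γ}
  {d : ℕ} {α β γ δ : K}

theorem nn_one (w : Valuation K Γ) (z : K) : nn w ((z, 1) : K × K) = max (w z) 1 := by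
  simp [nn]

theorem nn_one_ne (w : Valuation K Γ) (z : K) : nn w ((z, 1) : K × K) ≠ 0 := by
  rw [nn_one]
  exact (lt_of_lt_of_le zero_lt_one (le_max_right _ _)).ne'

/-- the inequality of one step -/
theorem stepA (hd : 2 ≤ d) (hD1 : w (α * δ - β * γ) ≤ 1) {y : K} (hy0 : y ≠ 0) {P Q : K × K}
    (gP : nn w (FM d α β γ δ P) = nn w P ^ d) (gQ : nn w (FM d α β γ δ Q) = nn w Q ^ d)
    (hP2 : w P.2 ≠ 0) (hQ2 : w Q.2 ≠ 0)
    (hQ : w Q.1 = w y * w Q.2) (hP : w P.1 = w y * w P.2)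
    (h : w ((P.1 * Q.2) ^ d - (Q.1 * P.2) ^ d) < (w Q.1 * w P.2) ^ d) :
    w (wd (FM d α β γ δ P) (FM d α β γ δ Q)) * max (w y) 1 ^ 2 <
      w y * (nn w (FM d α β γ δ P) * nn w (FM d α β γ δ Q)) := by
  set M := max (w y) 1 with hM
  have hwy : 0 < w y := zero_lt_iff.2 ((w.ne_zero_iff).2 hy0)
  have hM1 : 1 ≤ M := le_max_right _ _
  have hM0 : 0 < M := lt_of_lt_of_le zero_lt_one hM1
  have hyM : w y ≤ M := le_max_left _ _
  have nP : nn w P = M * w P.2 := by
    unfold nn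
    rw [hP, hM]
    rcases le_total (w y) 1 with h1 | h1
    · rw [max_eq_right h1, one_mul, max_eq_right]
      calc w y * w P.2 ≤ 1 * w P.2 := mul_le_mul' h1 le_rfl
        _ = w P.2 := one_mul _
    · rw [max_eq_left h1, max_eq_left]
      calc w P.2 = 1 * w P.2 := (one_mul _).symm
        _ ≤ w y * w P.2 := mul_le_mul' h1 le_rfl
  have nQ : nn w Q = M * w Q.2 := by
    unfold nn
    rw [hQ, hM]
    rcases le_total (w y) 1 with h1 | h1
    · rw [max_eq_right h1, one_mul, max_eq_right]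
      calc w y * w Q.2 ≤ 1 * w Q.2 := mul_le_mul' h1 le_rfl
        _ = w Q.2 := one_mul _
    · rw [max_eq_left h1, max_eq_left]
      calc w Q.2 = 1 * w Q.2 := (one_mul _).symm
        _ ≤ w y * w Q.2 := mul_le_mul' h1 le_rfl
  rw [gP, gQ, FM_wd, map_mul, nP, nQ]
  have hpos : 0 < (w Q.2 * w P.2) ^ d :=
    pow_pos (mul_pos (zero_lt_iff.2 hQ2) (zero_lt_iff.2 hP2)) _
  have hE : w ((P.1 * Q.2) ^ d - (Q.1 * P.2) ^ d) < w y ^ d * (w Q.2 * w P.2) ^ d := by
    rw [← mul_pow, ← mul_assoc, ← hQ]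
    exact h
  have h1 : w y ^ d ≤ w y * (M ^ 2) ^ (d - 1) := by
    have : w y ^ d = w y * w y ^ (d - 1) := by
      rw [← pow_succ', Nat.sub_add_cancel (by omega)]
    rw [this]
    refine mul_le_mul' le_rfl (pow_le_pow_left₀ zero_le ?_ _)
    calc w y ≤ M := hyM
      _ = M * 1 := (mul_one _).symm
      _ ≤ M * M := mul_le_mul' le_rfl hM1
      _ = M ^ 2 := (pow_two M).symm
  have hM2 : 0 < M ^ 2 := pow_pos hM0 _
  calc w (α * δ - β * γ) * w ((P.1 * Q.2) ^ d - (Q.1 * P.2) ^ d) * M ^ 2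
      ≤ 1 * w ((P.1 * Q.2) ^ d - (Q.1 * P.2) ^ d) * M ^ 2 :=
        mul_le_mul' (mul_le_mul' hD1 le_rfl) le_rfl
    _ = w ((P.1 * Q.2) ^ d - (Q.1 * P.2) ^ d) * M ^ 2 := by rw [one_mul]
    _ < w y ^ d * (w Q.2 * w P.2) ^ d * M ^ 2 := by gcongr
    _ ≤ (w y * (M ^ 2) ^ (d - 1)) * (w Q.2 * w P.2) ^ d * M ^ 2 :=
        mul_le_mul' (mul_le_mul' h1 le_rfl) le_rfl
    _ = w y * ((w Q.2 * w P.2) ^ d * ((M ^ 2) ^ (d - 1) * M ^ 2)) := by ac_rfl
    _ = w y * ((M * w P.2) ^ d * (M * w Q.2) ^ d) := by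
        rw [← pow_succ, Nat.sub_add_cancel (by omega : 1 ≤ d), ← mul_pow, ← mul_pow]
        congr 2
        rw [pow_two]
        ac_rfl

/-- what the inequality says -/
theorem unA {y : K} (hy0 : y ≠ 0) {P Q : K × K} (_hP0 : nn w P ≠ 0) (hQ2 : w Q.2 ≠ 0)
    (hQ : w Q.1 = w y * w Q.2)
    (h : w (wd P Q) * max (w y) 1 ^ 2 < w y * (nn w P * nn w Q)) :
    w (P.1 * Q.2 - Q.1 * P.2) < w (Q.1 * P.2) ∧ w P.2 ≠ 0 ∧ w P.1 = w y * w P.2 := by
  set M := max (w y) 1 with hM
  have hwy : 0 < w y := zero_lt_iff.2 ((w.ne_zero_iff).2 hy0)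
  have hM1 : 1 ≤ M := le_max_right _ _
  have hM0 : 0 < M := lt_of_lt_of_le zero_lt_one hM1
  have hyM : w y ≤ M := le_max_left _ _
  have hQ2p : 0 < w Q.2 := zero_lt_iff.2 hQ2
  have nQ : nn w Q = M * w Q.2 := by
    unfold nn
    rw [hQ, hM]
    rcases le_total (w y) 1 with h1 | h1
    · rw [max_eq_right h1, one_mul, max_eq_right]
      calc w y * w Q.2 ≤ 1 * w Q.2 := mul_le_mul' h1 le_rfl
        _ = w Q.2 := one_mul _
    · rw [max_eq_left h1, max_eq_left]
      calc w Q.2 = 1 * w Q.2 := (one_mul _).symm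
        _ ≤ w y * w Q.2 := mul_le_mul' h1 le_rfl
  have h' : w (P.1 * Q.2 - Q.1 * P.2) * M < w Q.1 * nn w P := by
    have e1 : w (wd P Q) * M ^ 2 = (w (P.1 * Q.2 - Q.1 * P.2) * M) * M := by
      rw [pow_two, mul_assoc]
      rfl
    have e2 : w y * (nn w P * nn w Q) = (w Q.1 * nn w P) * M := by
      rw [nQ, hQ]
      ac_rfl
    rw [e1, e2] at h
    exact lt_of_mul_lt_mul_right h zero_le
  have key : w (P.1 * Q.2 - Q.1 * P.2) < w (Q.1 * P.2) := by
    rcases le_or_gt (w (P.1 * Q.2)) (w (Q.1 * P.2)) with hc | hc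
    · have h2 : w P.1 ≤ w y * w P.2 := by
        rw [map_mul, map_mul, hQ, mul_assoc, mul_comm (w Q.2), ← mul_assoc] at hc
        exact le_of_mul_le_mul_right hc hQ2p
      have h3 : nn w P ≤ M * w P.2 := by
        unfold nn
        refine max_le (h2.trans (mul_le_mul' hyM le_rfl)) ?_
        calc w P.2 = 1 * w P.2 := (one_mul _).symm
          _ ≤ M * w P.2 := mul_le_mul' hM1 le_rfl
      have h4 : w (P.1 * Q.2 - Q.1 * P.2) * M < w (Q.1 * P.2) * M := by
        refine h'.trans_le ?_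
        rw [map_mul]
        calc w Q.1 * nn w P ≤ w Q.1 * (M * w P.2) := mul_le_mul' le_rfl h3
          _ = w Q.1 * w P.2 * M := by ac_rfl
      exact lt_of_mul_lt_mul_right h4 zero_le
    · exfalso
      rw [w.map_sub_eq_of_lt_left hc, map_mul] at h'
      have h2 : w P.1 * M < w y * nn w P := by
        have e1 : w P.1 * w Q.2 * M = (w P.1 * M) * w Q.2 := by ac_rfl
        have e2 : w Q.1 * nn w P = (w y * nn w P) * w Q.2 := by
          rw [hQ]; ac_rfl
        rw [e1, e2] at h'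
        exact lt_of_mul_lt_mul_right h' zero_le
      have h3 : w y * w P.2 < w P.1 := by
        rw [map_mul, map_mul, hQ, mul_assoc, mul_comm (w Q.2), ← mul_assoc] at hc
        exact lt_of_mul_lt_mul_right hc zero_le
      rcases max_choice (w P.1) (w P.2) with h4 | h4
      · have h5 : nn w P = w P.1 := h4
        rw [h5, mul_comm (w y)] at h2
        have := lt_of_mul_lt_mul_left h2 zero_le
        exact absurd hyM (not_le.2 this)
      · have h5 : nn w P = w P.2 := h4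
        rw [h5] at h2
        have h6 : w P.1 * M < w P.1 * 1 := by
          rw [mul_one]
          exact h2.trans h3
        have := lt_of_mul_lt_mul_left h6 zero_le
        exact absurd hM1 (not_le.2 this)
  have hb0 : w (Q.1 * P.2) ≠ 0 := (lt_of_le_of_lt zero_le key).ne'
  have hP2 : w P.2 ≠ 0 := by
    intro h0
    rw [map_mul, h0, mul_zero] at hb0
    exact hb0 rfl
  refine ⟨key, hP2, ?_⟩
  have e : w (P.1 * Q.2) = w (Q.1 * P.2) := by
    have e1 : P.1 * Q.2 = Q.1 * P.2 + (P.1 * Q.2 - Q.1 * P.2) := by ring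
    rw [e1, w.map_add_eq_of_lt_left key]
  rw [map_mul, map_mul, hQ, mul_assoc, mul_comm (w Q.2), ← mul_assoc] at e
  exact mul_right_cancel₀ hQ2 e

theorem pow_lt' (hd : 1 ≤ d) {a b : K} (h : w (a - b) < w b) : w (a ^ d - b ^ d) < w b ^ d := by
  have hb : 0 < w b := lt_of_le_of_lt zero_le h
  have ha : w a = w b := by
    have e1 : a = b + (a - b) := by ring
    rw [e1, w.map_add_eq_of_lt_left h]
  refine (pow_sub_le (M := w b) hd ha.le le_rfl).trans_lt ?_
  have h3 : w b ^ d = w b * w b ^ (d - 1) := by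
    rw [← pow_succ', Nat.sub_add_cancel hd]
  rw [h3]
  have h4 : 0 < w b ^ (d - 1) := pow_pos hb _
  gcongr

theorem locA (hd : 2 ≤ d) (hwd : w (d : K) = 1) (hD0 : α * δ - β * γ ≠ 0)
    (hD1 : w (α * δ - β * γ) ≤ 1) {x y : K} (hy0 : y ≠ 0)
    (gX : ∀ k, nn w (FM d α β γ δ ((FM d α β γ δ)^[k] (x, 1))) =
      nn w ((FM d α β γ δ)^[k] (x, 1)) ^ d)
    (gY : ∀ k, nn w (FM d α β γ δ ((FM d α β γ δ)^[k] (y, 1))) =
      nn w ((FM d α β γ δ)^[k] (y, 1)) ^ d)
    (H : ∀ k, w ((FM d α β γ δ)^[k] (y, 1)).1 = w y * w ((FM d α β γ δ)^[k] (y, 1)).2)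
    (hm : ∃ m, wd ((FM d α β γ δ)^[m] (x, 1)) ((FM d α β γ δ)^[m] (y, 1)) = 0)
    {η : K} (hη : η ^ d = 1) (h : w (x - η * y) < w y) : x = η * y := by
  classical
  by_contra hne
  set F := FM d α β γ δ with hF
  have hwη : w η = 1 := val_root w (by omega) hη
  have hηy : w (η * y) = w y := by rw [map_mul, hwη, one_mul]
  have hxv : w x = w y := by
    have e1 : x = η * y + (x - η * y) := by ring
    rw [e1, w.map_add_eq_of_lt_left (by rw [hηy]; exact h), hηy]
  have nX : ∀ k, nn w (F^[k] (x, 1)) ≠ 0 := by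
    intro k
    induction k with
    | zero => exact nn_one_ne w x
    | succ k ih =>
      rw [Function.iterate_succ_apply', gX]
      exact pow_ne_zero _ ih
  have nY : ∀ k, nn w (F^[k] (y, 1)) ≠ 0 := by
    intro k
    induction k with
    | zero => exact nn_one_ne w y
    | succ k ih =>
      rw [Function.iterate_succ_apply', gY]
      exact pow_ne_zero _ ih
  have Y2 : ∀ k, w (F^[k] (y, 1)).2 ≠ 0 := by
    intro k h0
    have h1 := H k
    rw [h0, mul_zero] at h1
    apply nY k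
    unfold nn
    rw [h0, h1, max_self]
  have hS : ∀ k, w (wd (F^[k + 1] (x, 1)) (F^[k + 1] (y, 1))) * max (w y) 1 ^ 2 <
      w y * (nn w (F^[k + 1] (x, 1)) * nn w (F^[k + 1] (y, 1))) := by
    intro k
    induction k with
    | zero =>
      have gX0 := gX 0
      have gY0 := gY 0
      rw [Function.iterate_zero, id] at gX0 gY0
      have hpl := pow_lt' (w := w) (d := d) (by omega) (a := x) (b := η * y)
        (by rw [hηy]; exact h)
      rw [mul_pow, hη, one_mul, hηy] at hpl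
      have := stepA (w := w) hd hD1 hy0 (P := (x, 1)) (Q := (y, 1)) gX0 gY0 (by simp) (by simp)
        (by simp) (by simp [hxv]) (by simpa using hpl)
      simpa using this
    | succ k ih =>
      obtain ⟨h1, h2, h3⟩ := unA (w := w) hy0 (nX (k + 1)) (Y2 (k + 1)) (H (k + 1)) ih
      have h4 := pow_lt' (w := w) (d := d) (by omega) h1
      rw [map_mul] at h4
      have := stepA (w := w) hd hD1 hy0 (gX (k + 1)) (gY (k + 1)) h2 (Y2 (k + 1)) (H (k + 1)) h3 h4
      rw [Function.iterate_succ_apply' F (k + 1), Function.iterate_succ_apply' F (k + 1)]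
      exact this
  have hbase : x ≠ y := by
    rintro rfl
    have hη1 : η ≠ 1 := by
      rintro rfl
      exact hne (one_mul _).symm
    have e1 : x - η * x = (1 - η) * x := by ring
    rw [e1, map_mul, val_one_sub w (by omega) hwd hη hη1, one_mul] at h
    exact lt_irrefl _ h
  have hmin := Nat.find_spec hm
  rcases Nat.eq_zero_or_pos (Nat.find hm) with h0 | hpos
  · rw [h0] at hmin
    simp only [Function.iterate_zero, id, wd, mul_one] at hmin
    exact hbase (sub_eq_zero.1 hmin)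
  obtain ⟨j, hj⟩ : ∃ j, Nat.find hm = j + 1 := ⟨Nat.find hm - 1, by omega⟩
  have hnj := Nat.find_min hm (m := j) (by omega)
  rw [hj, Function.iterate_succ_apply', Function.iterate_succ_apply', hF, FM_wd, ← hF] at hmin
  set a := (F^[j] (x, 1)).1 * (F^[j] (y, 1)).2 with ha
  set b := (F^[j] (y, 1)).1 * (F^[j] (x, 1)).2 with hb
  have hab : a ^ d = b ^ d := by
    rcases mul_eq_zero.1 hmin with h1 | h1
    · exact absurd h1 hD0
    · exact sub_eq_zero.1 h1
  have hab' : a ≠ b := by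
    intro h1
    apply hnj
    show a - b = 0
    rw [h1, sub_self]
  have hb0 : b ≠ 0 := by
    intro h1
    rw [h1, zero_pow (by omega)] at hab
    exact hab' (by rw [h1]; exact (pow_eq_zero_iff (by omega)).1 hab)
  have hζ : (a / b) ^ d = 1 := by
    rw [div_pow, hab, div_self (pow_ne_zero _ hb0)]
  have hζ1 : a / b ≠ 1 := fun h1 => hab' ((div_eq_one_iff_eq hb0).1 h1)
  rcases Nat.eq_zero_or_pos j with hj0 | hjp
  · subst hj0
    simp only [Function.iterate_zero, id, mul_one] at ha hb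
    rw [ha, hb] at hζ hζ1
    have hne' : x / y ≠ η := by
      intro h1
      apply hne
      rw [← h1, div_mul_cancel₀ _ hy0]
    have e1 : x - η * y = (x / y - η) * y := by
      rw [sub_mul, div_mul_cancel₀ _ hy0]
    rw [e1, map_mul, val_diff w (by omega) hwd hζ hη hne', one_mul] at h
    exact lt_irrefl _ h
  · obtain ⟨i, rfl⟩ : ∃ i, j = i + 1 := ⟨j - 1, by omega⟩
    obtain ⟨h1, -, -⟩ := unA (w := w) hy0 (nX (i + 1)) (Y2 (i + 1)) (H (i + 1)) (hS i)
    have e1 : a - b = (a / b - 1) * b := by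
      rw [sub_mul, div_mul_cancel₀ _ hb0, one_mul]
    have h2 : w (a - b) < w b := h1
    have e2 : w (a / b - 1) = 1 := by
      rw [← Valuation.map_neg, neg_sub]
      exact val_one_sub w (by omega) hwd hζ hζ1
    rw [e1, map_mul, e2, one_mul] at h2
    exact lt_irrefl _ h2

/-- one step of a special orbit -/
theorem sp_step (T : Dt w d α β γ δ) {z : K} (hz : ¬ Gn w d α β γ δ (FM d α β γ δ (z, 1))) :
    γ * z ^ d + δ ≠ 0 ∧ FM d α β γ δ (z, 1) = (γ * z ^ d + δ) • ((Dt.ff d α β γ δ z, 1) : K × K) ∧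
      w (Dt.ff d α β γ δ z) = 1 ∧ w (γ * z ^ d + δ) = w (α * δ - β * γ) := by
  have h1 := T.sp_coord hz
  have h0 : γ * z ^ d + δ ≠ 0 := by
    intro h
    have e2 : (FM d α β γ δ (z, 1)).2 = 0 := by
      simp only [FM, one_pow, mul_one]
      exact h
    have e1 : (FM d α β γ δ (z, 1)).1 = 0 := by
      rw [e2, map_zero] at h1
      exact w.zero_iff.1 h1
    apply T.FM_ne (nn_one_ne w z)
    unfold nn
    rw [e1, e2, map_zero, max_self]
  have hF : FM d α β γ δ (z, 1) = (γ * z ^ d + δ) • ((Dt.ff d α β γ δ z, 1) : K × K) := by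
    unfold Dt.ff
    simp only [FM, one_pow, mul_one, Prod.smul_mk, smul_eq_mul]
    ext
    · simp only
      rw [mul_comm (γ * z ^ d + δ), div_mul_cancel₀ _ h0]
    · rfl
  have hz1 : ¬ Gn w d α β γ δ ((Dt.ff d α β γ δ z, 1) : K × K) := by
    intro h
    apply hz
    rw [hF, Gn_smul h0]
    exact h
  have hv : w (Dt.ff d α β γ δ z) = 1 := by
    have := T.sp_coord hz1
    simpa using this
  refine ⟨h0, hF, hv, ?_⟩
  have h2 : nn w ((Dt.ff d α β γ δ z, 1) : K × K) = 1 := by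
    unfold nn
    rw [map_one, hv, max_self]
  have h3 := T.sep (P := (α, γ)) (by rw [T.hV]; exact one_ne_zero)
    (by rw [h2]; exact one_ne_zero) T.hVg hz1
  rw [T.hV, h2, one_mul, wd_swap, Valuation.map_neg] at h3
  have h4 := Dt.FM_wd_V (d := d) (α := α) (β := β) (γ := γ) (δ := δ) ((z, 1) : K × K)
  rw [hF] at h4
  have h5 : wd ((γ * z ^ d + δ) • ((Dt.ff d α β γ δ z, 1) : K × K)) (α, γ) =
      (γ * z ^ d + δ) * wd ((Dt.ff d α β γ δ z, 1) : K × K) (α, γ) := by
    have := wd_smul (γ * z ^ d + δ) 1 ((Dt.ff d α β γ δ z, 1) : K × K) (α, γ)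
    rw [one_smul, mul_one] at this
    exact this
  rw [h5] at h4
  have h6 := congrArg w h4
  rw [map_mul, h3, mul_one, Valuation.map_neg, one_pow, one_mul] at h6
  exact h6

theorem sp_seq (T : Dt w d α β γ δ) {x : K} {m : ℕ}
    (hs : ∀ k ≤ m, ¬ Gn w d α β γ δ ((FM d α β γ δ)^[k] (x, 1))) :
    ∀ k ≤ m, (∃ c : K, c ≠ 0 ∧ (FM d α β γ δ)^[k] (x, 1) =
      c • (((Dt.ff d α β γ δ)^[k] x, 1) : K × K)) ∧ w ((Dt.ff d α β γ δ)^[k] x) = 1 ∧
      (k < m → γ * ((Dt.ff d α β γ δ)^[k] x) ^ d + δ ≠ 0 ∧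
        w (γ * ((Dt.ff d α β γ δ)^[k] x) ^ d + δ) = w (α * δ - β * γ)) := by
  have h1 : ∀ k ≤ m, ∃ c : K, c ≠ 0 ∧ (FM d α β γ δ)^[k] (x, 1) =
      c • (((Dt.ff d α β γ δ)^[k] x, 1) : K × K) := by
    intro k
    induction k with
    | zero => exact fun _ => ⟨1, one_ne_zero, by simp⟩
    | succ k ih =>
      intro hk
      obtain ⟨c, hc, e⟩ := ih (by omega)
      have h1 := hs (k + 1) hk
      rw [Function.iterate_succ_apply', e, FM_smul, Gn_smul (pow_ne_zero _ hc)] at h1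
      obtain ⟨h2, h3, -, -⟩ := sp_step T h1
      refine ⟨c ^ d * (γ * ((Dt.ff d α β γ δ)^[k] x) ^ d + δ),
        mul_ne_zero (pow_ne_zero _ hc) h2, ?_⟩
      rw [Function.iterate_succ_apply', e, FM_smul, h3, smul_smul, Function.iterate_succ_apply']
  intro k hk
  obtain ⟨c, hc, e⟩ := h1 k hk
  refine ⟨⟨c, hc, e⟩, ?_, ?_⟩
  · have h2 := hs k hk
    rw [e, Gn_smul hc] at h2
    have := T.sp_coord h2
    simpa using this
  · intro hk'
    have h2 := hs (k + 1) hk'
    rw [Function.iterate_succ_apply', e, FM_smul, Gn_smul (pow_ne_zero _ hc)] at h2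
    obtain ⟨h3, -, -, h4⟩ := sp_step T h2
    exact ⟨h3, h4⟩

end A

end Pool.Agent.W2helper83.BT
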