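import Mathlib
import Pool.Agent.W2helper83.BT.Tail6

/-!
# Project BT, sixth part: preperiodic points of bicritical maps, local part (continued)
-/

set_option autoImplicit false

namespace Pool.Agent.W2helper83.BT

open Pool.Agent.W2helper92.BT2 Pool.Agent.W2helper63.BT6
open Polynomial (nthRootsFinset mem_nthRootsFinset)

section B

variable {K Γ : Type} [Field K] [LinearOrderedCommGroupWithZero Γ] {w : Valuation K Γ}
  {d : ℕ} {α β γ δ : K}

theorem locB (T : Dt w d α β γ δ) (hwd : w (d : K) = 1) {z : K} (hz : IsPrimitiveRoot z d)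
    {x y : K} {N : ℕ} (hN : 0 < N) {t : K} (ht : t ≠ 0)
    (hper : (FM d α β γ δ)^[N] (y, 1) = t • ((y, 1) : K × K))
    (hy : ¬ Gn w d α β γ δ (y, 1)) {m : ℕ}
    (hm : wd ((FM d α β γ δ)^[m] (x, 1)) ((FM d α β γ δ)^[m] (y, 1)) = 0) (hxy : x ≠ y)
    {ζ₁ ζ₂ : K} (h1 : ζ₁ ^ d = 1) (h2 : ζ₂ ^ d = 1) (hn1 : x - ζ₁ * y ≠ 0)
    (hn2 : x - ζ₂ * y ≠ 0) :
    ∃ k : ℤ, w ((x - ζ₁ * y) / (x - ζ₂ * y)) = w (α * δ - β * γ) ^ k := by
  have hd := T.hd
  have hd0 : 0 < d := by omega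
  set D := w (α * δ - β * γ) with hDdef
  have hD0 : D ≠ 0 := (w.ne_zero_iff).2 T.hD0
  have hsy : ∀ k, ¬ Gn w d α β γ δ ((FM d α β γ δ)^[k] (y, 1)) := fun k h =>
    hy (T.gen_back (nn_one_ne w y) hN ht hper h)
  have hsx : ∀ k ≤ m, ¬ Gn w d α β γ δ ((FM d α β γ δ)^[k] (x, 1)) := by
    intro k hk h
    obtain ⟨j, rfl⟩ := Nat.exists_eq_add_of_le' hk
    have h3 := T.gen_it (T.it_ne' (nn_one_ne w x) k) h j
    rw [← Function.iterate_add_apply] at h3
    apply hsy (j + k)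
    refine T.cg (T.it_ne' (nn_one_ne w x) _) (T.it_ne' (nn_one_ne w y) _) ?_ h3
    rw [hm, map_zero]
    exact zero_lt_iff.2 (mul_ne_zero (T.it_ne' (nn_one_ne w x) _) (T.it_ne' (nn_one_ne w y) _))
  have qx := sp_seq T hsx
  have qy := sp_seq T (x := y) (m := m) fun k _ => hsy k
  set f := Dt.ff d α β γ δ with hf
  have hend : f^[m] x = f^[m] y := by
    obtain ⟨⟨c, hc, e⟩, -, -⟩ := qx m le_rfl
    obtain ⟨⟨c', hc', e'⟩, -, -⟩ := qy m le_rfl
    rw [e, e', wd_smul] at hm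
    have h3 : wd ((f^[m] x, 1) : K × K) (f^[m] y, 1) = 0 :=
      (mul_eq_zero.1 hm).resolve_left (mul_ne_zero hc hc')
    simp only [wd, mul_one] at h3
    exact sub_eq_zero.1 h3
  have hstep : ∀ k < m, ∃ η₀ ∈ nthRootsFinset d (1 : K),
      w (f^[k] x - η₀ * f^[k] y) = w (f^[k + 1] x - f^[k + 1] y) * D ∧
      ∀ η ∈ nthRootsFinset d (1 : K), η ≠ η₀ → w (f^[k] x - η * f^[k] y) = 1 := by
    intro k hk
    obtain ⟨-, vx, ax⟩ := qx k hk.le
    obtain ⟨-, vy, ay⟩ := qy k hk.le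
    obtain ⟨a0, a1⟩ := ax hk
    obtain ⟨b0, b1⟩ := ay hk
    obtain ⟨-, vx', -⟩ := qx (k + 1) hk
    obtain ⟨-, vy', -⟩ := qy (k + 1) hk
    refine step hd hwd hz (W := (1 : Γ)) one_ne_zero vx vy T.hD ?_ ?_
    · refine (w.map_sub _ _).trans ?_
      rw [vx', vy', max_self]
    · rw [Function.iterate_succ_apply', Function.iterate_succ_apply']
      set u := f^[k] x with hu
      set v := f^[k] y with hv
      have e : (γ * u ^ d + δ) * (γ * v ^ d + δ) * (f u - f v) =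
          (α * δ - β * γ) * (u ^ d - v ^ d) := by
        rw [hf]
        unfold Dt.ff
        field_simp
        ring
      have e' := congrArg w e
      rw [map_mul, map_mul, map_mul, a1, b1, mul_assoc] at e'
      have e3 := mul_left_cancel₀ hD0 e'
      rw [← e3, one_pow, mul_one, mul_comm]
  have hdown : ∀ i ≤ m, w (f^[m - i] x - f^[m - i] y) = 0 ∨
      ∃ j : ℕ, w (f^[m - i] x - f^[m - i] y) = D ^ j := by
    intro i
    induction i with
    | zero =>
      intro _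
      left
      rw [Nat.sub_zero, hend, sub_self, map_zero]
    | succ i ih =>
      intro hi
      have hk : m - (i + 1) < m := by omega
      have hk' : m - (i + 1) + 1 = m - i := by omega
      obtain ⟨η₀, h0, h3, h4⟩ := hstep _ hk
      rw [hk'] at h3
      by_cases hη : η₀ = 1
      · rw [hη, one_mul] at h3
        rcases ih (by omega) with h5 | ⟨j, h5⟩
        · left
          rw [h3, h5, zero_mul]
        · right
          exact ⟨j + 1, by rw [h3, h5, pow_succ]⟩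
      · right
        refine ⟨0, ?_⟩
        have := h4 1 ((mem_nthRootsFinset hd0 1).2 (one_pow d)) (fun h => hη h.symm)
        rw [one_mul] at this
        rw [this, pow_zero]
  have hm0 : 0 < m := by
    rcases Nat.eq_zero_or_pos m with h | h
    · exfalso
      rw [h] at hend
      exact hxy hend
    · exact h
  obtain ⟨η₀, h0, h3, h4⟩ := hstep 0 hm0
  have h5 := hdown (m - 1) (by omega)
  rw [show m - (m - 1) = 0 + 1 by omega] at h5
  have hall : ∀ ζ : K, ζ ^ d = 1 → x - ζ * y ≠ 0 → ∃ j : ℕ, w (x - ζ * y) = D ^ j := by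
    intro ζ hζ hne
    by_cases h : ζ = η₀
    · have h3' : w (x - ζ * y) = w (f^[0 + 1] x - f^[0 + 1] y) * D := by
        rw [h]; exact h3
      rcases h5 with h6 | ⟨j, h6⟩
      · exfalso
        rw [h6, zero_mul] at h3'
        exact hne (w.zero_iff.1 h3')
      · exact ⟨j + 1, by rw [h3', h6, pow_succ]⟩
    · refine ⟨0, ?_⟩
      have : w (x - ζ * y) = 1 := h4 ζ ((mem_nthRootsFinset hd0 1).2 hζ) h
      rw [this, pow_zero]
  obtain ⟨j1, e1⟩ := hall ζ₁ h1 hn1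
  obtain ⟨j2, e2⟩ := hall ζ₂ h2 hn2
  refine ⟨(j1 : ℤ) - j2, ?_⟩
  rw [map_div₀, e1, e2, zpow_sub₀ hD0, zpow_natCast, zpow_natCast]

/-- the value of `x - η y` in the cases without loss of height -/
theorem locA' (hd : 2 ≤ d) (hwd : w (d : K) = 1) (hD0 : α * δ - β * γ ≠ 0)
    (hD1 : w (α * δ - β * γ) ≤ 1) {x y : K} (hy0 : y ≠ 0)
    (gX : w x = w y → (∃ η : K, η ^ d = 1 ∧ w (x - η * y) < w y) →
      ∀ k, nn w (FM d α β γ δ ((FM d α β γ δ)^[k] (x, 1))) =
      nn w ((FM d α β γ δ)^[k] (x, 1)) ^ d)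
    (gY : ∀ k, nn w (FM d α β γ δ ((FM d α β γ δ)^[k] (y, 1))) =
      nn w ((FM d α β γ δ)^[k] (y, 1)) ^ d)
    (H : ∀ k, w ((FM d α β γ δ)^[k] (y, 1)).1 = w y * w ((FM d α β γ δ)^[k] (y, 1)).2)
    (hm : ∃ m, wd ((FM d α β γ δ)^[m] (x, 1)) ((FM d α β γ δ)^[m] (y, 1)) = 0)
    {η : K} (hη : η ^ d = 1) (hne : x - η * y ≠ 0) : w (x - η * y) = max (w x) (w y) := by
  have hwη : w η = 1 := val_root w (by omega) hη
  have hηy : w (η * y) = w y := by rw [map_mul, hwη, one_mul]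
  rcases lt_trichotomy (w x) (w y) with h | h | h
  · rw [w.map_sub_eq_of_lt_right (by rw [hηy]; exact h), hηy, max_eq_right h.le]
  · rw [h, max_self]
    refine le_antisymm ?_ ?_
    · refine (w.map_sub _ _).trans ?_
      rw [hηy, h, max_self]
    · by_contra hcon
      rw [not_le] at hcon
      exact hne (sub_eq_zero.2 (locA hd hwd hD0 hD1 hy0 (gX h ⟨η, hη, hcon⟩) gY H hm hη hcon))
  · rw [w.map_sub_eq_of_lt_left (by rw [hηy]; exact h), max_eq_left h.le]

/-- LOCT: a point and the periodic point with the same image -/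
theorem loct (w : Valuation K Γ) {x y ζ₁ ζ₂ : K} (hd : 2 ≤ d) (hwd : w (d : K) = 1)
    (hz : ∃ ζ : K, IsPrimitiveRoot ζ d) (hD0 : α * δ - β * γ ≠ 0) (hPr : Prim w d α β γ δ)
    (hy : PerM d α β γ δ y)
    (H : ∀ k, w ((FM d α β γ δ)^[k] (y, 1)).1 = w y * w ((FM d α β γ δ)^[k] (y, 1)).2)
    (hm : ∃ m, wd ((FM d α β γ δ)^[m] (x, 1)) ((FM d α β γ δ)^[m] (y, 1)) = 0)
    (hxy : x ≠ y) (hy0 : y ≠ 0) (h1 : ζ₁ ^ d = 1) (h2 : ζ₂ ^ d = 1) (hn1 : x - ζ₁ * y ≠ 0)
    (hn2 : x - ζ₂ * y ≠ 0) :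
    ∃ k : ℤ, w ((x - ζ₁ * y) / (x - ζ₂ * y)) = w (α * δ - β * γ) ^ k := by
  obtain ⟨z, hz⟩ := hz
  have hwy : 0 < w y := zero_lt_iff.2 ((w.ne_zero_iff).2 hy0)
  have hM0 : max (w x) (w y) ≠ 0 := (lt_of_lt_of_le hwy (le_max_right _ _)).ne'
  have hle : w (α * δ - β * γ) ≤ 1 := by
    obtain ⟨⟨ha, hb, hc, hd'⟩, -⟩ := hPr
    refine (w.map_sub _ _).trans (max_le ?_ ?_)
    · rw [map_mul]
      exact mul_le_one' ha hd'
    · rw [map_mul]
      exact mul_le_one' hb hc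
  have fin : (∀ η : K, η ^ d = 1 → x - η * y ≠ 0 → w (x - η * y) = max (w x) (w y)) →
      ∃ k : ℤ, w ((x - ζ₁ * y) / (x - ζ₂ * y)) = w (α * δ - β * γ) ^ k := by
    intro h
    refine ⟨0, ?_⟩
    rw [zpow_zero, map_div₀, h ζ₁ h1 hn1, h ζ₂ h2 hn2, div_self hM0]
  rcases hle.lt_or_eq with hlt | heq
  · have T : Dt w d α β γ δ := Dt.of (hd := hd) hD0 hlt hPr
    by_cases gy : Gn w d α β γ δ (y, 1)
    · refine fin fun η hη hne => locA' hd hwd hD0 hle hy0 ?_
        (fun k => T.gen_it (nn_one_ne w y) gy k) H hm hη hne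
      rintro hxv ⟨η', hη', hlt'⟩ k
      refine T.gen_it (nn_one_ne w x) ?_ k
      have hv : w η' = 1 := val_root w (by omega) hη'
      have hnn : nn w ((η' * y, 1) : K × K) = nn w ((y, 1) : K × K) := by
        rw [nn_one, nn_one, map_mul, hv, one_mul]
      have gy' : Gn w d α β γ δ ((η' * y, 1) : K × K) := by
        unfold Gn
        have e : FM d α β γ δ (η' * y, 1) = FM d α β γ δ (y, 1) := by
          simp only [FM, mul_pow, hη', one_mul]
        rw [e, hnn]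
        exact gy
      refine T.cg (nn_one_ne w (η' * y)) (nn_one_ne w x) ?_ gy'
      have e1 : wd ((η' * y, 1) : K × K) (x, 1) = -(x - η' * y) := by
        simp only [wd]
        ring
      rw [e1, Valuation.map_neg, nn_one, nn_one, map_mul, hv, one_mul, hxv]
      calc w (x - η' * y) < w y := hlt'
        _ ≤ max (w y) 1 := le_max_left _ _
        _ = max (w y) 1 * 1 := (mul_one _).symm
        _ ≤ max (w y) 1 * max (w y) 1 := mul_le_mul' le_rfl (le_max_right _ _)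
    · obtain ⟨N, hN, t, ht, hper⟩ := hy
      obtain ⟨m, hm⟩ := hm
      exact locB T hwd hz hN ht hper gy hm hxy h1 h2 hn1 hn2
  · obtain ⟨⟨hα, hβ, hγ, hδ⟩, -⟩ := hPr
    have hnn : ∀ P : K × K, nn w (FM d α β γ δ P) = nn w P ^ d := fun P =>
      Pool.Agent.W2helper66.BT.FM_nn w hα hβ hγ hδ heq P
    exact fin fun η hη hne => locA' hd hwd hD0 hle hy0 (fun _ _ k => hnn _) (fun k => hnn _) H hm
      hη hne

end B

end Pool.Agent.W2helper83.BT
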