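import Mathlib
import Pool.Agent.W2helper83.BT.Tail7

/-!
# Project BT, sixth part: preperiodic points of bicritical maps, global part
-/

set_option autoImplicit false

namespace Pool.Agent.W2helper83.BT

open IsDedekindDomain NumberField Polynomial
open Pool.Agent.W2helper73.BT (val_nat)
open Pool.Agent.W2helper49.BT4 (val_one_iff val_eq_iff)
open Pool.Agent.W2helper15.BT (prim_map map_perM one_of_one mp map_FM_iter)
open Pool.Agent.W2helper63.BT6 (wd wd_smul)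

theorem fin_unit {L : Type} [Field L] [NumberField L] {g : L} (hg : g ≠ 0) :
    {v : HeightOneSpectrum (𝓞 L) | v.valuation L g ≠ 1}.Finite := by
  have h1 := HeightOneSpectrum.Support.finite (𝓞 L) (K := L) g
  have h2 := HeightOneSpectrum.Support.finite (𝓞 L) (K := L) g⁻¹
  refine (h1.union h2).subset ?_
  intro v hv
  rcases lt_or_gt_of_ne hv with h | h
  · right
    show 1 < v.valuation L g⁻¹
    rw [map_inv₀]
    exact (one_lt_inv₀ (zero_lt_iff.2 ((Valuation.ne_zero_iff _).2 hg))).2 h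
  · left
    exact h

section

variable {K : Type} [Field K] {d : ℕ} {α β γ δ : K}

theorem FM_conj_iter {u s : K} (hu : u ≠ 0) (hs : s ≠ 0) (n : ℕ) (P : K × K) :
    ∃ c : K, c ≠ 0 ∧
      (FM d (s * α * u ^ d) (s * β) (s * γ * u ^ (d + 1)) (s * δ * u))^[n] (P.1 / u, P.2) =
        c • ((((FM d α β γ δ)^[n] P).1 / u, ((FM d α β γ δ)^[n] P).2) : K × K) := by
  induction n with
  | zero => exact ⟨1, one_ne_zero, by simp⟩
  | succ n ih =>
    obtain ⟨c, hc, h1⟩ := ih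
    refine ⟨c ^ d * (s * u), mul_ne_zero (pow_ne_zero _ hc) (mul_ne_zero hs hu), ?_⟩
    rw [Function.iterate_succ_apply', Function.iterate_succ_apply', h1, FM_smul', FM_psi hu,
      smul_smul]

theorem FM_it_smul' (s : K) (P : K × K) (k : ℕ) :
    (FM d α β γ δ)^[k] (s • P) = s ^ (d ^ k) • (FM d α β γ δ)^[k] P :=
  Pool.Agent.W2helper63.BT6.FM_it_smul s P k

/-- a point of the orbit of a periodic point -/
theorem per_orb {y : K} (hy : PerM d α β γ δ y) (k : ℕ)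
    (h : ((FM d α β γ δ)^[k] (y, 1)).2 ≠ 0) :
    PerM d α β γ δ (((FM d α β γ δ)^[k] (y, 1)).1 / ((FM d α β γ δ)^[k] (y, 1)).2) := by
  obtain ⟨n, hn, t, ht, e⟩ := hy
  set Y := (FM d α β γ δ)^[k] (y, 1) with hY
  have e1 : (FM d α β γ δ)^[n] Y = t ^ d ^ k • Y := by
    rw [hY, ← Function.iterate_add_apply, Nat.add_comm, Function.iterate_add_apply, e,
      FM_it_smul']
  have e2 : Y = Y.2 • ((Y.1 / Y.2, 1) : K × K) := by
    ext
    · simp only [Prod.smul_fst, smul_eq_mul]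
      rw [mul_div_cancel₀ _ h]
    · simp
  have e3 : (FM d α β γ δ)^[n] Y = Y.2 ^ d ^ n • (FM d α β γ δ)^[n] ((Y.1 / Y.2, 1) : K × K) := by
    conv_lhs => rw [e2]
    rw [FM_it_smul']
  refine ⟨n, hn, t ^ d ^ k * Y.2 / Y.2 ^ d ^ n, div_ne_zero (mul_ne_zero (pow_ne_zero _ ht) h)
    (pow_ne_zero _ h), ?_⟩
  have h4 : t ^ d ^ k * Y.2 / Y.2 ^ d ^ n = (Y.2 ^ d ^ n)⁻¹ * (t ^ d ^ k * Y.2) :=
    div_eq_inv_mul _ _
  rw [h4, mul_smul, mul_smul, ← e2, ← e1, e3, smul_smul, inv_mul_cancel₀ (pow_ne_zero _ h),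
    one_smul]

/-- the orbit of `y` does not meet zero and infinity -/
def OrbK (d : ℕ) (α β γ δ y : K) : Prop :=
  ∀ k, ((FM d α β γ δ)^[k] (y, 1)).1 ≠ 0 ∧ ((FM d α β γ δ)^[k] (y, 1)).2 ≠ 0

end

/-- finitely many ratios of a point and the periodic point with the same image -/
def RATT (d l : ℕ) : Prop := ∀ (K : Type) [Field K] [NumberField K]
  (S : Set (HeightOneSpectrum (𝓞 K))), S.Finite → ∃ R : Set K, R.Finite ∧
    ∀ α β γ δ x y : K, α * δ - β * γ ≠ 0 → CndL S d l α β γ δ →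
      PerM d α β γ δ y → OrbK d α β γ δ y →
      (∃ m, wd ((FM d α β γ δ)^[m] (x, 1)) ((FM d α β γ δ)^[m] (y, 1)) = 0) → x ≠ y → x / y ∈ R

theorem ratt_of (hPL : PLACE) {d l n : ℕ} (hP : POW l n) (hn : 2 ≤ n)
    (hnd : n + 1 ≤ d) (hl : 0 < l) (hRL : RATL d l) : RATT d l := by
  classical
  intro K _ _ S hS
  have : NeZero d := ⟨by omega⟩
  let L := CyclotomicField d K
  have : NumberField L := inferInstance
  have hζ := IsCyclotomicExtension.zeta_spec d K L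
  set ζ := IsCyclotomicExtension.zeta d K L with hζdef
  obtain ⟨T, hT, hTv⟩ := hPL K L S hS
  obtain ⟨R, hRfin, hR⟩ := hRL K S hS
  have hinj := (algebraMap K L).injective
  have hfin : {w : HeightOneSpectrum (𝓞 L) | ((d : ℤ) : 𝓞 L) ∈ w.asIdeal}.Finite := by
    have hI : Ideal.span {((d : ℤ) : 𝓞 L)} ≠ ⊥ := by
      rw [Ne, Ideal.span_singleton_eq_bot]
      have : d ≠ 0 := by omega
      exact_mod_cast this
    refine (Ideal.finite_factors hI).subset (fun v hv => ?_)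
    exact Ideal.dvd_span_singleton.2 hv
  have hSR : (⋃ r ∈ R ∩ {r | r ≠ 0}, {w : HeightOneSpectrum (𝓞 L) |
      w.valuation L (algebraMap K L r) ≠ 1}).Finite := by
    refine (hRfin.inter_of_left _).biUnion fun r hr => fin_unit ?_
    rw [Ne, map_eq_zero]
    exact hr.2
  have hζd := hζ.pow_eq_one
  let r : Fin n → L := fun i => ζ ^ ((i : ℕ) + 1)
  have hr : Function.Injective r := by
    intro i j h
    have h1 := hζ.pow_inj (by omega) (by omega) h
    exact Fin.ext (by omega)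
  have hroot : ∀ i, r i ^ d = 1 := by
    intro i
    show (ζ ^ ((i : ℕ) + 1)) ^ d = 1
    rw [← pow_mul, mul_comm, pow_mul, hζd, one_pow]
  have hfin2 := (hP L _ ((hfin.union hT).union hSR) r hr).union (Set.finite_range r)
  refine ⟨_, hfin2.preimage (f := algebraMap K L) hinj.injOn, ?_⟩
  intro α₀ β₀ γ₀ δ₀ x₀ y₀ hD₀ hC hy₀ hO hm₀ hxy₀
  have hy00 : y₀ ≠ 0 := by
    have := (hO 0).1
    simpa using this
  rw [Set.mem_preimage]
  set ρ := algebraMap K L (x₀ / y₀) with hρ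
  by_cases hin : ∃ i, r i = ρ
  · exact Or.inr hin
  push Not at hin
  left
  refine ⟨fun i h => hin i h.symm, ?_⟩
  intro i j w hw
  have hw1 : w ∉ T := fun h => hw (Or.inl (Or.inr h))
  have hw2 : ∀ r ∈ R, r ≠ 0 → w.valuation L (algebraMap K L r) = 1 := by
    intro r hr hr0
    by_contra h
    exact hw (Or.inr (Set.mem_biUnion (x := r) ⟨hr, hr0⟩ h))
  obtain ⟨v, hvS, hvw⟩ := hTv w hw1
  obtain ⟨u, s, hu, hs0, hPr, h, hh⟩ := hC v hvS
  have hy := perM_conj (s := s) hu hs0 hy₀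
  have hD := det_conj (d := d) hu hs0 hD₀
  have hy0 : y₀ / u ≠ 0 := div_ne_zero hy00 hu
  have hxy : x₀ / u ≠ y₀ / u := fun h => hxy₀ ((div_left_inj' hu).1 h)
  have hru : x₀ / u / (y₀ / u) = x₀ / y₀ := by field_simp
  rw [← hru] at hρ
  -- the values along the orbit
  have hH : ∀ k, w.valuation L (algebraMap K L
      ((FM d (s * α₀ * u ^ d) (s * β₀) (s * γ₀ * u ^ (d + 1)) (s * δ₀ * u))^[k]
        (y₀ / u, 1)).1) = w.valuation L (algebraMap K L (y₀ / u)) *
      w.valuation L (algebraMap K L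
      ((FM d (s * α₀ * u ^ d) (s * β₀) (s * γ₀ * u ^ (d + 1)) (s * δ₀ * u))^[k]
        (y₀ / u, 1)).2) := by
    intro k
    obtain ⟨c, hc, e⟩ := FM_conj_iter (d := d) (α := α₀) (β := β₀) (γ := γ₀) (δ := δ₀) hu hs0 k
      ((y₀, 1) : K × K)
    obtain ⟨hA, hB⟩ := hO k
    have hp := per_orb hy₀ k hB
    have e' := e
    simp only at e'
    rw [e']
    set A := ((FM d α₀ β₀ γ₀ δ₀)^[k] (y₀, 1)).1 with hAd
    set B := ((FM d α₀ β₀ γ₀ δ₀)^[k] (y₀, 1)).2 with hBd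
    have h1 : w.valuation L (algebraMap K L (A / B / y₀)) = 1 := by
      by_cases hpy : A / B = y₀
      · rw [hpy, div_self hy00, map_one, map_one]
      · exact hw2 _ (hR α₀ β₀ γ₀ δ₀ (A / B) y₀ hD₀ hC hp hy₀ hpy (div_ne_zero hA hB) hy00)
          (div_ne_zero (div_ne_zero hA hB) hy00)
    simp only [Prod.smul_fst, Prod.smul_snd, smul_eq_mul]
    have e2 : c * (A / u) = A / B / y₀ * (y₀ / u * (c * B)) := by
      field_simp
    rw [e2, map_mul, map_mul, h1, one_mul, map_mul, map_mul]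
  have hmL : ∃ m, wd ((FM d (s * α₀ * u ^ d) (s * β₀) (s * γ₀ * u ^ (d + 1)) (s * δ₀ * u))^[m]
      (x₀ / u, 1)) ((FM d (s * α₀ * u ^ d) (s * β₀) (s * γ₀ * u ^ (d + 1)) (s * δ₀ * u))^[m]
        (y₀ / u, 1)) = 0 := by
    obtain ⟨m, hm⟩ := hm₀
    refine ⟨m, ?_⟩
    obtain ⟨c, hc, e⟩ := FM_conj_iter (d := d) (α := α₀) (β := β₀) (γ := γ₀) (δ := δ₀) hu hs0 m
      ((x₀, 1) : K × K)
    obtain ⟨c', hc', e'⟩ := FM_conj_iter (d := d) (α := α₀) (β := β₀) (γ := γ₀) (δ := δ₀) hu hs0 m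
      ((y₀, 1) : K × K)
    simp only at e e'
    rw [e, e', wd_smul]
    have : wd ((((FM d α₀ β₀ γ₀ δ₀)^[m] (x₀, 1)).1 / u, ((FM d α₀ β₀ γ₀ δ₀)^[m] (x₀, 1)).2) :
        K × K) (((FM d α₀ β₀ γ₀ δ₀)^[m] (y₀, 1)).1 / u, ((FM d α₀ β₀ γ₀ δ₀)^[m] (y₀, 1)).2) =
        wd ((FM d α₀ β₀ γ₀ δ₀)^[m] (x₀, 1)) ((FM d α₀ β₀ γ₀ δ₀)^[m] (y₀, 1)) / u := by
      simp only [wd]
      field_simp
    rw [this, hm, zero_div, mul_zero]
  generalize s * α₀ * u ^ d = α at hy hD hPr hh hH hmL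
  generalize s * β₀ = β at hy hD hPr hh hH hmL
  generalize s * γ₀ * u ^ (d + 1) = γ at hy hD hPr hh hH hmL
  generalize s * δ₀ * u = δ at hy hD hPr hh hH hmL
  generalize x₀ / u = x at hxy hρ hmL
  generalize y₀ / u = y at hy hy0 hxy hρ hH hmL
  set X := algebraMap K L x with hX
  set Y := algebraMap K L y with hY
  have hY0 : Y ≠ 0 := fun h => hy0 (hinj (by rw [← hY, h, map_zero]))
  have hXY : X ≠ Y := fun h => hxy (hinj h)
  have hρ' : ρ = X / Y := by rw [hρ, map_div₀]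
  have hs : ∀ i, ρ - r i ≠ 0 := fun i => sub_ne_zero.2 fun h => hin i h.symm
  have e1 : ∀ i, X - r i * Y = (ρ - r i) * Y := fun i => by rw [hρ', sub_mul, div_mul_cancel₀ _ hY0]
  have hDL : algebraMap K L α * algebraMap K L δ - algebraMap K L β * algebraMap K L γ =
      algebraMap K L (α * δ - β * γ) := by
    rw [map_sub, map_mul, map_mul]
  have hDL0 : algebraMap K L α * algebraMap K L δ - algebraMap K L β * algebraMap K L γ ≠ 0 := by
    rw [hDL, Ne, map_eq_zero]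
    exact hD
  have hit : ∀ (k : ℕ) (z : K), (FM d (algebraMap K L α) (algebraMap K L β) (algebraMap K L γ)
      (algebraMap K L δ))^[k] (algebraMap K L z, 1) =
      mp (algebraMap K L) ((FM d α β γ δ)^[k] (z, 1)) := by
    intro k z
    rw [map_FM_iter]
    simp [mp]
  obtain ⟨k, hk⟩ := loct (d := d) (α := algebraMap K L α) (β := algebraMap K L β)
    (γ := algebraMap K L γ) (δ := algebraMap K L δ) (w.valuation L) (x := X) (y := Y)
    (ζ₁ := r i) (ζ₂ := r j) (by omega) (val_nat w fun h => hw (Or.inl (Or.inl h))) ⟨ζ, hζ⟩ hDL0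
    (prim_map hvw hPr) (map_perM (algebraMap K L) hy)
    (fun k => by rw [hY, hit]; exact hH k)
    (by
      obtain ⟨m, hm⟩ := hmL
      refine ⟨m, ?_⟩
      rw [hX, hY, hit, hit]
      have := congrArg (algebraMap K L) hm
      simp only [wd, map_sub, map_mul, map_zero] at this
      simpa only [wd, mp] using this)
    hXY hY0 (hroot i) (hroot j) (by rw [e1]; exact mul_ne_zero (hs i) hY0)
    (by rw [e1]; exact mul_ne_zero (hs j) hY0)
  rw [e1, e1, mul_div_mul_right _ _ hY0, hDL] at hk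
  have hvD0 : v.valuation K (α * δ - β * γ) ≠ 0 := (Valuation.ne_zero_iff _).2 hD
  have hh0 : h ≠ 0 := by
    intro h0
    rw [h0, map_zero, zero_pow hl.ne'] at hh
    exact hvD0 hh
  have h5 : w.valuation L (algebraMap K L (α * δ - β * γ)) =
      w.valuation L (algebraMap K L h) ^ l := by
    rw [← map_pow, ← map_pow]
    rw [← map_pow] at hh
    exact (val_eq_iff hvw hD (pow_ne_zero _ hh0)).2 hh
  refine ⟨algebraMap K L h ^ k, zpow_ne_zero _ (by rw [Ne, map_eq_zero]; exact hh0), ?_⟩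
  rw [hk, h5, map_zpow₀, ← zpow_natCast, ← zpow_natCast, ← zpow_mul, ← zpow_mul, mul_comm]

theorem ratt_all {d l : ℕ} (hd : 4 ≤ d) (hl : 2 ≤ l) (hdl : 8 ≤ d + l) : RATT d l := by
  have key : ∃ n : ℕ, POW l n ∧ 2 ≤ n ∧ n + 1 ≤ d := by
    rcases Nat.lt_or_ge l 4 with h | h
    · interval_cases l
      · exact ⟨5, pow2', by norm_num, by omega⟩
      · exact ⟨4, pow3', by norm_num, by omega⟩
    · exact ⟨3, pow4' l h, by norm_num, by omega⟩
  obtain ⟨n, hP, hn2, hn⟩ := key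
  exact ratt_of Pool.Agent.W2helper19.BT4.place hP hn2 hn (by omega) (ratl_all hd hl hdl)

end Pool.Agent.W2helper83.BT
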