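import Mathlib
import Pool.Agent.W2helper83.BT.Tail8

/-!
# Project BT, sixth part: preperiodic points of bicritical maps, the bound
-/

set_option autoImplicit false

namespace Pool.Agent.W2helper83.BT

open IsDedekindDomain NumberField
open Pool.Agent.W2helper63.BT6 (wd wd_smul)

/-- the periodic point with the same image -/
theorem exists_per {X : Type} {f : X → X} {z : X} {m n : ℕ} (hmn : m < n)
    (h : f^[m] z = f^[n] z) : ∃ q ∈ Function.periodicPts f, f^[m] q = f^[m] z := by
  have hP : 0 < n - m := by omega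
  have h1 : Function.IsPeriodicPt f (n - m) (f^[m] z) := by
    show f^[n - m] (f^[m] z) = f^[m] z
    rw [← Function.iterate_add_apply, Nat.sub_add_cancel hmn.le, ← h]
  refine ⟨f^[m * (n - m) - m] (f^[m] z), ⟨n - m, hP, h1.apply_iterate _⟩, ?_⟩
  have h2 : m ≤ m * (n - m) := Nat.le_mul_of_pos_right m hP
  rw [← Function.iterate_add_apply, Nat.add_sub_cancel' h2]
  have h3 : Function.IsPeriodicPt f (m * (n - m)) (f^[m] z) := h1.const_mul m
  exact h3

theorem orbK_of {K : Type} [Field K] {d : ℕ} (hd : 0 < d) {α β γ δ : K}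
    (hD : α * δ - β * γ ≠ 0) {y : K} (hy : some y ∈ Function.periodicPts (bic d α β γ δ))
    (h1 : none ∉ Function.periodicPts (bic d α β γ δ))
    (h2 : some 0 ∉ Function.periodicPts (bic d α β γ δ)) : OrbK d α β γ δ y := by
  intro k
  obtain ⟨n, hn, h⟩ := hy
  have hk : (bic d α β γ δ)^[k] (some y) ∈ Function.periodicPts (bic d α β γ δ) :=
    ⟨n, hn, h.apply_iterate k⟩
  obtain ⟨t, ht, e⟩ := bic_iter hd hD (some y) k
  have e' : (FM d α β γ δ)^[k] (y, 1) = t • vec ((bic d α β γ δ)^[k] (some y)) := e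
  rw [e']
  rcases hc : (bic d α β γ δ)^[k] (some y) with _ | c
  · rw [hc] at hk
    exact absurd hk h1
  · have hc0 : c ≠ 0 := by
      rintro rfl
      rw [hc] at hk
      exact h2 hk
    simp only [vec, Prod.smul_fst, Prod.smul_snd, smul_eq_mul, mul_one]
    exact ⟨mul_ne_zero ht hc0, ht⟩

/-- the bound for the preperiodic points, if zero and infinity are not periodic -/
theorem prep_all {d l : ℕ} (hd : 4 ≤ d) (hl : 2 ≤ l) (hdl : 8 ≤ d + l) (K : Type) [Field K]
    [NumberField K] (S : Set (HeightOneSpectrum (𝓞 K))) (hS : S.Finite) :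
    ∃ B : ℕ, ∀ α β γ δ : K, α * δ - β * γ ≠ 0 → CndL S d l α β γ δ →
      none ∉ Function.periodicPts (bic d α β γ δ) →
      some 0 ∉ Function.periodicPts (bic d α β γ δ) →
      ∀ T : Finset (Option K), (∀ z ∈ T, ∃ m n : ℕ, m < n ∧
        (bic d α β γ δ)^[m] z = (bic d α β γ δ)^[n] z) → T.card ≤ B := by
  classical
  obtain ⟨B₀, hB₀⟩ := bicl_all hd hl hdl K S hS
  obtain ⟨R, hRfin, hR⟩ := ratt_all hd hl hdl K S hS
  refine ⟨1 + (B₀ + B₀ * hRfin.toFinset.card), fun α β γ δ hD hC h1 h2 T hT => ?_⟩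
  have hex : ∀ z ∈ T, ∃ q ∈ Function.periodicPts (bic d α β γ δ), ∃ m : ℕ,
      (bic d α β γ δ)^[m] q = (bic d α β γ δ)^[m] z := by
    intro z hz
    obtain ⟨m, n, hmn, h⟩ := hT z hz
    obtain ⟨q, hq, hq'⟩ := exists_per hmn h
    exact ⟨q, hq, m, hq'⟩
  choose! p hp hp' using hex
  have hTP : (T.image p).card ≤ B₀ := by
    refine hB₀ α β γ δ hD hC _ fun z hz => ?_
    obtain ⟨z', hz', rfl⟩ := Finset.mem_image.1 hz
    exact hp z' hz'
  have hsub : T ⊆ {none} ∪ (T.image p ∪ ((T.image p) ×ˢ hRfin.toFinset).image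
      fun e => Option.map (fun y => e.2 * y) e.1) := by
    intro z hz
    rw [Finset.mem_union, Finset.mem_union]
    rcases hzx : z with _ | x
    · left
      exact Finset.mem_singleton_self _
    right
    obtain ⟨m, hm⟩ := hp' z hz
    have hpz := hp z hz
    have hmem : p z ∈ T.image p := Finset.mem_image_of_mem p hz
    rcases hq : p z with _ | y
    · rw [hq] at hpz
      exact absurd hpz h1
    by_cases hxy : x = y
    · left
      rw [hxy, ← hq]
      exact hmem
    right
    rw [hq] at hpz hm hmem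
    rw [hzx] at hm
    have hy := perM_of_bic (by omega) hD hpz
    have hO := orbK_of (by omega) hD hpz h1 h2
    have hy0 : y ≠ 0 := by
      have := (hO 0).1
      simpa using this
    have hr := hR α β γ δ x y hD hC hy hO ⟨m, by
      obtain ⟨t, ht, e⟩ := bic_iter (by omega : 0 < d) hD (some x) m
      obtain ⟨t', ht', e'⟩ := bic_iter (by omega : 0 < d) hD (some y) m
      have e1 : (FM d α β γ δ)^[m] (x, 1) = t • vec ((bic d α β γ δ)^[m] (some x)) := e
      have e2 : (FM d α β γ δ)^[m] (y, 1) = t' • vec ((bic d α β γ δ)^[m] (some y)) := e'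
      rw [e1, e2, hm, wd_smul]
      have : wd (vec ((bic d α β γ δ)^[m] (some x))) (vec ((bic d α β γ δ)^[m] (some x))) = 0 := by
        simp only [wd]
        ring
      rw [this, mul_zero]⟩ hxy
    refine Finset.mem_image.2 ⟨(some y, x / y), Finset.mem_product.2 ⟨hmem, ?_⟩, ?_⟩
    · rw [Set.Finite.mem_toFinset]
      exact hr
    · simp only [Option.map_some]
      rw [div_mul_cancel₀ _ hy0]
  calc T.card ≤ _ := Finset.card_le_card hsub
    _ ≤ 1 + (T.image p ∪ ((T.image p) ×ˢ hRfin.toFinset).image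
      fun e => Option.map (fun y => e.2 * y) e.1).card := by
        refine (Finset.card_union_le _ _).trans ?_
        rw [Finset.card_singleton]
    _ ≤ 1 + ((T.image p).card + (T.image p).card * hRfin.toFinset.card) := by
        refine Nat.add_le_add_left ((Finset.card_union_le _ _).trans ?_) _
        refine Nat.add_le_add_left ?_ _
        refine Finset.card_image_le.trans ?_
        rw [Finset.card_product]
    _ ≤ 1 + (B₀ + B₀ * hRfin.toFinset.card) := by
        have := Nat.mul_le_mul_right hRfin.toFinset.card hTP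
        omega

theorem cndL_of_M {K : Type} [Field K] [NumberField K] {S : Set (HeightOneSpectrum (𝓞 K))}
    {d l : ℕ} {α β γ δ : K} (h : CndM S d l α β γ δ) : CndL S d l α β γ δ := by
  intro v hv
  obtain ⟨h1, h2⟩ := h v hv
  refine ⟨1, 1, one_ne_zero, one_ne_zero, ?_, ?_⟩
  · simpa using h1
  · simpa using h2

end Pool.Agent.W2helper83.BT
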