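import Mathlib
import Pool.Agent.W2helper83.BT.Tail9

/-!
# Project BT, sixth part: preperiodic points of bicritical maps, good places
-/

set_option autoImplicit false

namespace Pool.Agent.W2helper83.BT

open Pool.Agent.W2helper92.BT2 Pool.Agent.W2helper63.BT6
open Polynomial (nthRootsFinset mem_nthRootsFinset)

section

variable {K Γ : Type} [Field K] [LinearOrderedCommGroupWithZero Γ] {w : Valuation K Γ}
  {d : ℕ} {α β γ δ : K}

theorem fac_le (hd : 0 < d) (P Q : K × K) {η : K} (hη : η ^ d = 1) :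
    w (P.1 * Q.2 - η * (Q.1 * P.2)) ≤ nn w P * nn w Q := by
  refine (w.map_sub _ _).trans ?_
  rw [map_mul, map_mul, map_mul, val_root w (by omega) hη, one_mul]
  apply max_le
  · exact mul_le_mul' (le_max_left _ _) (le_max_right _ _)
  · rw [mul_comm]
    exact mul_le_mul' (le_max_right _ _) (le_max_left _ _)

theorem prodF (hd : 0 < d) {z : K} (hz : IsPrimitiveRoot z d) (hD : w (α * δ - β * γ) = 1)
    (P Q : K × K) : w (wd (FM d α β γ δ P) (FM d α β γ δ Q)) =
      ∏ η ∈ nthRootsFinset d (1 : K), w (P.1 * Q.2 - η * (Q.1 * P.2)) := by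
  rw [FM_wd, map_mul, hD, one_mul, val_prod w hd hz]

/-- one step backwards -/
theorem backG (hd : 2 ≤ d) {z : K} (hz : IsPrimitiveRoot z d) (hD : w (α * δ - β * γ) = 1)
    (hG : ∀ P : K × K, nn w (FM d α β γ δ P) = nn w P ^ d) {P Q : K × K} (hP : nn w P ≠ 0)
    (hQ : nn w Q ≠ 0)
    (h : w (wd (FM d α β γ δ P) (FM d α β γ δ Q)) =
      nn w (FM d α β γ δ P) * nn w (FM d α β γ δ Q)) {η : K} (hη : η ^ d = 1) :
    w (P.1 * Q.2 - η * (Q.1 * P.2)) = nn w P * nn w Q := by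
  classical
  have hd0 : 0 < d := by omega
  refine le_antisymm (fac_le hd0 P Q hη) ?_
  have hmem : η ∈ nthRootsFinset d (1 : K) := (mem_nthRootsFinset hd0 1).2 hη
  rw [prodF hd0 hz hD, hG, hG, ← mul_pow, ← Finset.mul_prod_erase _ _ hmem] at h
  have h1 : ∏ x ∈ (nthRootsFinset d (1 : K)).erase η, w (P.1 * Q.2 - x * (Q.1 * P.2)) ≤
      (nn w P * nn w Q) ^ (d - 1) := by
    calc ∏ x ∈ (nthRootsFinset d (1 : K)).erase η, w (P.1 * Q.2 - x * (Q.1 * P.2))
        ≤ ∏ _x ∈ (nthRootsFinset d (1 : K)).erase η, nn w P * nn w Q :=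
          Finset.prod_le_prod' fun x hx =>
            fac_le hd0 P Q ((mem_nthRootsFinset hd0 1).1 (Finset.mem_of_mem_erase hx))
      _ = (nn w P * nn w Q) ^ (d - 1) := by
          rw [Finset.prod_const, Finset.card_erase_of_mem hmem, hz.card_nthRootsFinset]
  have h2 : (nn w P * nn w Q) * (nn w P * nn w Q) ^ (d - 1) ≤
      w (P.1 * Q.2 - η * (Q.1 * P.2)) * (nn w P * nn w Q) ^ (d - 1) := by
    rw [← pow_succ', Nat.sub_add_cancel (by omega), ← h]
    exact mul_le_mul' le_rfl h1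
  exact le_of_mul_le_mul_right h2 (zero_lt_iff.2 (pow_ne_zero _ (mul_ne_zero hP hQ)))

theorem nn_it (hG : ∀ P : K × K, nn w (FM d α β γ δ P) = nn w P ^ d) {P : K × K}
    (hP : nn w P ≠ 0) (k : ℕ) : nn w ((FM d α β γ δ)^[k] P) ≠ 0 := by
  induction k with
  | zero => exact hP
  | succ k ih =>
    rw [Function.iterate_succ_apply', hG]
    exact pow_ne_zero _ ih

/-- all the way back -/
theorem backAll (hd : 2 ≤ d) {z : K} (hz : IsPrimitiveRoot z d) (hD : w (α * δ - β * γ) = 1)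
    (hG : ∀ P : K × K, nn w (FM d α β γ δ P) = nn w P ^ d) {P Q : K × K} (hP : nn w P ≠ 0)
    (hQ : nn w Q ≠ 0) (m : ℕ)
    (h : w (wd ((FM d α β γ δ)^[m + 1] P) ((FM d α β γ δ)^[m + 1] Q)) =
      nn w ((FM d α β γ δ)^[m + 1] P) * nn w ((FM d α β γ δ)^[m + 1] Q)) {η : K}
    (hη : η ^ d = 1) : w (P.1 * Q.2 - η * (Q.1 * P.2)) = nn w P * nn w Q := by
  induction m generalizing η with
  | zero => exact backG hd hz hD hG hP hQ (by simpa using h) hη
  | succ m ih =>
    refine ih ?_ hη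
    rw [Function.iterate_succ_apply' _ (m + 1), Function.iterate_succ_apply' _ (m + 1)] at h
    have := backG hd hz hD hG (nn_it hG hP (m + 1)) (nn_it hG hQ (m + 1)) h (one_pow d)
    rw [one_mul] at this
    exact this

/-- normalized distance -/
noncomputable def dl (w : Valuation K Γ) (P Q : K × K) : Γ := w (wd P Q) / (nn w P * nn w Q)

theorem dl_smul {s t : K} (hs : s ≠ 0) (ht : t ≠ 0) (P Q : K × K) :
    dl w (s • P) (t • Q) = dl w P Q := by
  have hs' : w s ≠ 0 := (w.ne_zero_iff).2 hs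
  have ht' : w t ≠ 0 := (w.ne_zero_iff).2 ht
  unfold dl
  rw [wd_smul, nn_smul, nn_smul, map_mul, map_mul]
  have e : w s * nn w P * (w t * nn w Q) = w s * w t * (nn w P * nn w Q) := by ac_rfl
  rw [e, mul_div_mul_left _ _ (mul_ne_zero hs' ht')]

theorem dl_le (hd : 2 ≤ d) {z : K} (hz : IsPrimitiveRoot z d) (hD : w (α * δ - β * γ) = 1)
    (hG : ∀ P : K × K, nn w (FM d α β γ δ P) = nn w P ^ d) {P Q : K × K} (hP : nn w P ≠ 0)
    (hQ : nn w Q ≠ 0) : dl w (FM d α β γ δ P) (FM d α β γ δ Q) ≤ dl w P Q := by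
  classical
  have hd0 : 0 < d := by omega
  have hM : 0 < nn w P * nn w Q := zero_lt_iff.2 (mul_ne_zero hP hQ)
  have hone : (1 : K) ∈ nthRootsFinset d (1 : K) := (mem_nthRootsFinset hd0 1).2 (one_pow d)
  unfold dl
  rw [prodF hd0 hz hD, hG, hG, ← mul_pow, ← Finset.mul_prod_erase _ _ hone, one_mul]
  have h1 : ∏ x ∈ (nthRootsFinset d (1 : K)).erase 1, w (P.1 * Q.2 - x * (Q.1 * P.2)) ≤
      (nn w P * nn w Q) ^ (d - 1) := by
    calc ∏ x ∈ (nthRootsFinset d (1 : K)).erase 1, w (P.1 * Q.2 - x * (Q.1 * P.2))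
        ≤ ∏ _x ∈ (nthRootsFinset d (1 : K)).erase 1, nn w P * nn w Q :=
          Finset.prod_le_prod' fun x hx =>
            fac_le hd0 P Q ((mem_nthRootsFinset hd0 1).1 (Finset.mem_of_mem_erase hx))
      _ = (nn w P * nn w Q) ^ (d - 1) := by
          rw [Finset.prod_const, Finset.card_erase_of_mem hone, hz.card_nthRootsFinset]
  have h2 : (nn w P * nn w Q) ^ d = (nn w P * nn w Q) * (nn w P * nn w Q) ^ (d - 1) := by
    rw [← pow_succ', Nat.sub_add_cancel (by omega)]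
  rw [h2, div_le_div_iff₀ (mul_pos hM (pow_pos hM _)) hM]
  calc w (P.1 * Q.2 - Q.1 * P.2) * (∏ x ∈ (nthRootsFinset d (1 : K)).erase 1,
        w (P.1 * Q.2 - x * (Q.1 * P.2))) * (nn w P * nn w Q)
      ≤ w (P.1 * Q.2 - Q.1 * P.2) * (nn w P * nn w Q) ^ (d - 1) * (nn w P * nn w Q) :=
        mul_le_mul' (mul_le_mul' le_rfl h1) le_rfl
    _ = w (wd P Q) * (nn w P * nn w Q * (nn w P * nn w Q) ^ (d - 1)) := by
        unfold wd
        ac_rfl

/-- periodic points at a good place: the distance is constant -/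
theorem dl_const (hd : 2 ≤ d) {z : K} (hz : IsPrimitiveRoot z d) (hD : w (α * δ - β * γ) = 1)
    (hG : ∀ P : K × K, nn w (FM d α β γ δ P) = nn w P ^ d) {P Q : K × K} (hP : nn w P ≠ 0)
    (hQ : nn w Q ≠ 0) {N : ℕ} (hN : 0 < N) {s t : K} (hs : s ≠ 0) (ht : t ≠ 0)
    (h1 : (FM d α β γ δ)^[N] P = s • P) (h2 : (FM d α β γ δ)^[N] Q = t • Q) (k : ℕ) :
    dl w ((FM d α β γ δ)^[k] P) ((FM d α β γ δ)^[k] Q) = dl w P Q := by
  set c : ℕ → Γ := fun k => dl w ((FM d α β γ δ)^[k] P) ((FM d α β γ δ)^[k] Q) with hc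
  have hanti : Antitone c := antitone_nat_of_succ_le fun k => by
    simp only [hc]
    rw [Function.iterate_succ_apply', Function.iterate_succ_apply']
    exact dl_le hd hz hD hG (nn_it hG hP k) (nn_it hG hQ k)
  obtain ⟨s', hs', e1⟩ := FM_it_mul hs h1 k
  obtain ⟨t', ht', e2⟩ := FM_it_mul ht h2 k
  have h3 : c (N * k) = c 0 := by
    simp only [hc]
    rw [e1, e2, dl_smul hs' ht']
    rfl
  have h4 : k ≤ N * k := Nat.le_mul_of_pos_left k hN
  refine le_antisymm (hanti (Nat.zero_le k)) ?_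
  have h5 : c (N * k) ≤ c k := hanti h4
  rw [h3] at h5
  exact h5

/-- a zero coordinate somewhere -/
theorem dl_one (hd : 2 ≤ d) {z : K} (hz : IsPrimitiveRoot z d) (hD : w (α * δ - β * γ) = 1)
    (hG : ∀ P : K × K, nn w (FM d α β γ δ P) = nn w P ^ d) {P Q : K × K} (hP : nn w P ≠ 0)
    (hQ : nn w Q ≠ 0) {N : ℕ} (hN : 0 < N) {s t : K} (hs : s ≠ 0) (ht : t ≠ 0)
    (h1 : (FM d α β γ δ)^[N] P = s • P) (h2 : (FM d α β γ δ)^[N] Q = t • Q)
    (hPQ : wd P Q ≠ 0) {k : ℕ}
    (h : (((FM d α β γ δ)^[k] P).1 * ((FM d α β γ δ)^[k] Q).2) *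
      (((FM d α β γ δ)^[k] Q).1 * ((FM d α β γ δ)^[k] P).2) = 0) : dl w P Q = 1 := by
  have c0 := dl_const hd hz hD hG hP hQ hN hs ht h1 h2 k
  have c1 := dl_const hd hz hD hG hP hQ hN hs ht h1 h2 (k + 1)
  rw [Function.iterate_succ_apply', Function.iterate_succ_apply'] at c1
  set A := (FM d α β γ δ)^[k] P with hA
  set B := (FM d α β γ δ)^[k] Q with hB
  have e1 : dl w (FM d α β γ δ A) (FM d α β γ δ B) = dl w A B ^ d := by
    have hd0 : d ≠ 0 := by omega
    have e0 : w ((A.1 * B.2) ^ d - (B.1 * A.2) ^ d) = w (wd A B) ^ d := by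
      rcases mul_eq_zero.1 h with h0 | h0
      · rw [h0, zero_pow hd0, zero_sub, Valuation.map_neg, map_pow]
        unfold wd
        rw [h0, zero_sub, Valuation.map_neg]
      · rw [h0, zero_pow hd0, sub_zero, map_pow]
        unfold wd
        rw [h0, sub_zero]
    unfold dl
    rw [FM_wd, map_mul, hD, one_mul, hG, hG, e0, ← mul_pow, ← div_pow]
  rw [e1, c0] at c1
  have hne : dl w P Q ≠ 0 := by
    unfold dl
    exact div_ne_zero ((w.ne_zero_iff).2 hPQ) (mul_ne_zero hP hQ)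
  have h3 : dl w P Q ^ (d - 1) = 1 := by
    have h4 : dl w P Q * dl w P Q ^ (d - 1) = dl w P Q * 1 := by
      rw [← pow_succ', Nat.sub_add_cancel (by omega), c1, mul_one]
    exact mul_left_cancel₀ hne h4
  exact one_of_pow (by omega) h3

/-- at a bad place the cycle of a periodic point different from zero and infinity does not meet
them -/
theorem orbK_bad (T : Dt w d α β γ δ) {y : K} (hy0 : y ≠ 0) (hy : PerM d α β γ δ y) :
    OrbK d α β γ δ y := by
  obtain ⟨N, hN, t, ht, hper⟩ := hy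
  intro k
  have hne := T.it_ne' (nn_one_ne w y) k
  by_cases gy : Gn w d α β γ δ (y, 1)
  · -- the point is fixed
    have hper' : (FM d α β γ δ)^[N] (FM d α β γ δ (y, 1)) = t ^ d • FM d α β γ δ (y, 1) := by
      rw [← Function.iterate_succ_apply, Function.iterate_succ_apply', hper, FM_smul]
    have h1 := T.no_two (nn_one_ne w y) (T.FM_ne (nn_one_ne w y)) hN ht (pow_ne_zero _ ht) hper
      hper' gy (T.gen_succ (nn_one_ne w y) gy)
    have hfix : ∃ c : K, FM d α β γ δ (y, 1) = c • ((y, 1) : K × K) := by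
      refine ⟨(FM d α β γ δ (y, 1)).2, ?_⟩
      have h2 : y * (FM d α β γ δ (y, 1)).2 - (FM d α β γ δ (y, 1)).1 * 1 = 0 := h1
      ext
      · simp only [Prod.smul_fst, smul_eq_mul]
        linear_combination -h2
      · simp
    obtain ⟨c, hc⟩ := hfix
    have hk : ∀ k, ∃ c : K, (FM d α β γ δ)^[k] (y, 1) = c • ((y, 1) : K × K) := by
      intro k
      induction k with
      | zero => exact ⟨1, by simp⟩
      | succ k ih =>
        obtain ⟨c', h'⟩ := ih
        exact ⟨c' ^ d * c, by rw [Function.iterate_succ_apply', h', FM_smul, hc, smul_smul]⟩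
    obtain ⟨c', h'⟩ := hk k
    have hc' : c' ≠ 0 := by
      rintro rfl
      apply hne
      rw [h', zero_smul]
      simp [nn]
    rw [h']
    simp only [Prod.smul_fst, Prod.smul_snd, smul_eq_mul, mul_one]
    exact ⟨mul_ne_zero hc' hy0, hc'⟩
  · have hs : ¬ Gn w d α β γ δ ((FM d α β γ δ)^[k] (y, 1)) := fun h =>
      gy (T.gen_back (nn_one_ne w y) hN ht hper h)
    have h1 := T.sp_coord hs
    constructor
    · intro h0
      rw [h0, map_zero] at h1
      apply hne
      unfold nn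
      rw [h0, ← h1, map_zero, max_self]
    · intro h0
      rw [h0, map_zero] at h1
      apply hne
      unfold nn
      rw [h0, h1, map_zero, max_self]

end

end Pool.Agent.W2helper83.BT
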