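import Mathlib
import Pool.Agent.W2helper83.BT.Full6

/-!
# Project BT, sixth part: maps with good reduction outside `S`, the ratios of preperiodic points
-/

set_option autoImplicit false

namespace Pool.Agent.W2helper83.BT

open IsDedekindDomain NumberField Polynomial
open Pool.Agent.W2helper73.BT (val_nat)
open Pool.Agent.W2helper15.BT (prim_map map_perM one_of_one mp map_FM_iter)
open Pool.Agent.W2helper63.BT6 (wd wd_smul FM_it_mul FM_wd nn_eq_zero Dt)
open Pool.Agent.W2helper92.BT2 (nn nn_smul good)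

section

variable {K : Type} [Field K] {d : ℕ} {α β γ δ : K}

theorem per_of_vec {P : K × K} {n : ℕ} (hn : 0 < n) {t : K} (ht : t ≠ 0)
    (e : (FM d α β γ δ)^[n] P = t • P) (h : P.2 ≠ 0) : PerM d α β γ δ (P.1 / P.2) := by
  have e2 : P = P.2 • ((P.1 / P.2, 1) : K × K) := by
    ext
    · simp only [Prod.smul_fst, smul_eq_mul]
      rw [mul_div_cancel₀ _ h]
    · simp
  have e3 : (FM d α β γ δ)^[n] P = P.2 ^ d ^ n • (FM d α β γ δ)^[n] ((P.1 / P.2, 1) : K × K) := by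
    conv_lhs => rw [e2]
    rw [FM_it_smul']
  refine ⟨n, hn, t * P.2 / P.2 ^ d ^ n, div_ne_zero (mul_ne_zero ht h) (pow_ne_zero _ h), ?_⟩
  have h4 : t * P.2 / P.2 ^ d ^ n = (P.2 ^ d ^ n)⁻¹ * (t * P.2) := div_eq_inv_mul _ _
  rw [h4, mul_smul, mul_smul, ← e2, ← e, e3, smul_smul, inv_mul_cancel₀ (pow_ne_zero _ h),
    one_smul]

theorem prop_of_wd {A B : K × K} (hA : A ≠ 0) (hB : B ≠ 0) (h : wd A B = 0) :
    ∃ c : K, c ≠ 0 ∧ A = c • B := by
  have h' : A.1 * B.2 = B.1 * A.2 := sub_eq_zero.1 h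
  by_cases h2 : B.2 = 0
  · have h1 : B.1 ≠ 0 := fun h1 => hB (Prod.ext h1 h2)
    have hA2 : A.2 = 0 := by
      rw [h2, mul_zero] at h'
      exact (mul_eq_zero.1 h'.symm).resolve_left h1
    have hA1 : A.1 ≠ 0 := fun h1 => hA (Prod.ext h1 hA2)
    refine ⟨A.1 / B.1, div_ne_zero hA1 h1, ?_⟩
    ext
    · simp only [Prod.smul_fst, smul_eq_mul]
      rw [div_mul_cancel₀ _ h1]
    · simp only [Prod.smul_snd, smul_eq_mul]
      rw [hA2, h2, mul_zero]
  · have hA2 : A.2 ≠ 0 := by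
      intro h0
      rw [h0, mul_zero] at h'
      exact hA (Prod.ext ((mul_eq_zero.1 h').resolve_right h2) h0)
    refine ⟨A.2 / B.2, div_ne_zero hA2 h2, ?_⟩
    ext
    · simp only [Prod.smul_fst, smul_eq_mul]
      field_simp
      linear_combination h'
    · simp only [Prod.smul_snd, smul_eq_mul]
      rw [div_mul_cancel₀ _ h2]

end

/-- finitely many ratios for the maps with a cycle through zero or infinity -/
def RATG (d l : ℕ) : Prop := ∀ (K : Type) [Field K] [NumberField K]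
  (S : Set (HeightOneSpectrum (𝓞 K))), S.Finite → ∃ R : Set K, R.Finite ∧
    ∀ (α β γ δ a x q : K) (P : K × K), α * δ - β * γ ≠ 0 → CndL S d l α β γ δ →
      a ≠ 0 → PerM d α β γ δ a → ¬ OrbK d α β γ δ a →
      P ≠ 0 → (∃ N : ℕ, 0 < N ∧ ∃ t : K, t ≠ 0 ∧ (FM d α β γ δ)^[N] P = t • P) →
      (∃ m, wd ((FM d α β γ δ)^[m] (x, 1)) ((FM d α β γ δ)^[m] P) = 0) →
      q ≠ 0 → PerM d α β γ δ q → wd P (q, 1) ≠ 0 → x / q ∈ R

theorem ratg_of (hPL : PLACE) {d l n : ℕ} (hP : POW l n) (hn : 2 ≤ n)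
    (hnd : n + 1 ≤ d) (hl : 0 < l) (hRL : RATL d l) : RATG d l := by
  classical
  intro K _ _ S hS
  have : NeZero d := ⟨by omega⟩
  let L := CyclotomicField d K
  have : NumberField L := inferInstance
  have hζ := IsCyclotomicExtension.zeta_spec d K L
  set ζ := IsCyclotomicExtension.zeta d K L with hζdef
  obtain ⟨T, hT, hTv⟩ := hPL K L S hS
  obtain ⟨R, hRfin, hR⟩ := hRL K S hS
  have hinj := (algebraMap K L).injective
  have hfin : {w : HeightOneSpectrum (𝓞 L) | ((d : ℤ) : 𝓞 L) ∈ w.asIdeal}.Finite := by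
    have hI : Ideal.span {((d : ℤ) : 𝓞 L)} ≠ ⊥ := by
      rw [Ne, Ideal.span_singleton_eq_bot]
      have : d ≠ 0 := by omega
      exact_mod_cast this
    refine (Ideal.finite_factors hI).subset (fun v hv => ?_)
    exact Ideal.dvd_span_singleton.2 hv
  have hSR1 : (⋃ r ∈ R ∩ {r | algebraMap K L r - 1 ≠ 0}, {w : HeightOneSpectrum (𝓞 L) |
      w.valuation L (algebraMap K L r - 1) ≠ 1}).Finite :=
    (hRfin.inter_of_left _).biUnion fun r hr => fin_unit hr.2
  have hSR2 : (⋃ r ∈ R ∩ {r | algebraMap K L r - ζ ≠ 0}, {w : HeightOneSpectrum (𝓞 L) |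
      w.valuation L (algebraMap K L r - ζ) ≠ 1}).Finite :=
    (hRfin.inter_of_left _).biUnion fun r hr => fin_unit hr.2
  have hζd := hζ.pow_eq_one
  have hζ1 : ζ ≠ 1 := by
    have := hζ.pow_ne_one_of_pos_of_lt (l := 1) (by omega) (by omega)
    rwa [pow_one] at this
  let r : Fin n → L := fun i => ζ ^ ((i : ℕ) + 1)
  have hr : Function.Injective r := by
    intro i j h
    have h1 := hζ.pow_inj (by omega) (by omega) h
    exact Fin.ext (by omega)
  have hroot : ∀ i, r i ^ d = 1 := by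
    intro i
    show (ζ ^ ((i : ℕ) + 1)) ^ d = 1
    rw [← pow_mul, mul_comm, pow_mul, hζd, one_pow]
  have hfin2 := (hP L _ ((hfin.union hT).union (hSR1.union hSR2)) r hr).union
    (Set.finite_range r)
  refine ⟨_, hfin2.preimage (f := algebraMap K L) hinj.injOn, ?_⟩
  intro α₀ β₀ γ₀ δ₀ a₀ x₀ q₀ P₀ hD₀ hC ha0 hPa hOa hP0 hPP hm₀ hq0 hPq hPQ₀
  rw [Set.mem_preimage]
  set ρ := algebraMap K L (x₀ / q₀) with hρ
  by_cases hin : ∃ i, r i = ρ
  · exact Or.inr hin
  push Not at hin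
  left
  refine ⟨fun i h => hin i h.symm, ?_⟩
  intro i j w hw
  have hw1 : w ∉ T := fun h => hw (Or.inl (Or.inr h))
  have hw2 : ∀ r ∈ R, algebraMap K L r - 1 ≠ 0 →
      w.valuation L (algebraMap K L r - 1) = 1 := by
    intro r hr hr0
    by_contra h
    exact hw (Or.inr (Or.inl (Set.mem_biUnion (x := r) ⟨hr, hr0⟩ h)))
  have hw3 : ∀ r ∈ R, algebraMap K L r - ζ ≠ 0 →
      w.valuation L (algebraMap K L r - ζ) = 1 := by
    intro r hr hr0
    by_contra h
    exact hw (Or.inr (Or.inr (Set.mem_biUnion (x := r) ⟨hr, hr0⟩ h)))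
  have hwd : w.valuation L (d : L) = 1 := val_nat w fun h => hw (Or.inl (Or.inl h))
  obtain ⟨v, hvS, hvw⟩ := hTv w hw1
  obtain ⟨u, s, hu, hs0, hPr, h, hh⟩ := hC v hvS
  set φ := algebraMap K L with hφ
  have hφu : φ u ≠ 0 := by rw [Ne, map_eq_zero]; exact hu
  have hD := det_conj (d := d) hu hs0 hD₀
  have hPr' := prim_map hvw hPr
  -- the conjugate map over `L`
  set a := φ (s * α₀ * u ^ d) with hadef
  set b := φ (s * β₀) with hbdef
  set c := φ (s * γ₀ * u ^ (d + 1)) with hcdef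
  set e := φ (s * δ₀ * u) with hedef
  have hDL : a * e - b * c ≠ 0 := by
    rw [hadef, hbdef, hcdef, hedef, ← map_mul, ← map_mul, ← map_sub, Ne, map_eq_zero]
    exact hD
  have htr : ∀ (k : ℕ) (V : K × K), ∃ g : L, g ≠ 0 ∧
      (FM d a b c e)^[k] (φ V.1 / φ u, φ V.2) =
        g • ((φ ((FM d α₀ β₀ γ₀ δ₀)^[k] V).1 / φ u, φ ((FM d α₀ β₀ γ₀ δ₀)^[k] V).2) : L × L) := by
    intro k V
    obtain ⟨g, hg, h1⟩ := FM_conj_iter (d := d) (α := α₀) (β := β₀) (γ := γ₀) (δ := δ₀) hu hs0 k V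
    refine ⟨φ g, by rw [Ne, map_eq_zero]; exact hg, ?_⟩
    have h2 := congrArg (mp φ) h1
    rw [map_FM_iter] at h2
    have h3 : mp φ ((V.1 / u, V.2) : K × K) = (φ V.1 / φ u, φ V.2) := by
      simp [mp]
    rw [h3] at h2
    rw [hadef, hbdef, hcdef, hedef, h2]
    ext
    · simp only [mp, Prod.smul_fst, smul_eq_mul, map_mul, map_div₀]
    · simp only [mp, Prod.smul_snd, smul_eq_mul, map_mul]
  have hgood : w.valuation L (a * e - b * c) = 1 := by
    have hle : w.valuation L (a * e - b * c) ≤ 1 := by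
      obtain ⟨⟨ha, hb, hc, hd'⟩, -⟩ := hPr'
      refine ((w.valuation L).map_sub _ _).trans (max_le ?_ ?_)
      · rw [map_mul]
        exact mul_le_one' ha hd'
      · rw [map_mul]
        exact mul_le_one' hb hc
    rcases hle.lt_or_eq with hlt | heq
    · exfalso
      have T' : Dt (w.valuation L) d a b c e :=
        Dt.of (hd := by omega) hDL hlt hPr'
      have hy := map_perM φ (perM_conj (s := s) hu hs0 hPa)
      have hOL := orbK_bad T' (y := φ (a₀ / u))
        (by rw [Ne, map_eq_zero]; exact div_ne_zero ha0 hu) hy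
      apply hOa
      intro k
      obtain ⟨g, hg, h1⟩ := htr k (a₀, 1)
      have h2 : ((φ a₀ / φ u, φ 1) : L × L) = (φ (a₀ / u), 1) := by
        rw [map_div₀, map_one]
      simp only at h1
      rw [h2] at h1
      obtain ⟨h3, h4⟩ := hOL k
      rw [h1] at h3 h4
      simp only [Prod.smul_fst, Prod.smul_snd, smul_eq_mul] at h3 h4
      refine ⟨fun h0 => h3 ?_, fun h0 => h4 ?_⟩
      · rw [h0, map_zero, zero_div, mul_zero]
      · rw [h0, map_zero, mul_zero]
    · exact heq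
  have hG : ∀ V : L × L, nn (w.valuation L) (FM d a b c e V) = nn (w.valuation L) V ^ d := by
    obtain ⟨⟨ha, hb, hc, hd'⟩, -⟩ := hPr'
    exact fun V => Pool.Agent.W2helper66.BT.FM_nn (w.valuation L) ha hb hc hd' hgood V
  set PL : L × L := (φ P₀.1 / φ u, φ P₀.2) with hPL'
  set QL : L × L := (φ q₀ / φ u, 1) with hQL
  set XL : L × L := (φ x₀ / φ u, 1) with hXL
  have hQ1 : ((φ ((q₀, 1) : K × K).1 / φ u, φ ((q₀, 1) : K × K).2) : L × L) = QL := by
    simp [hQL]
  have hX1 : ((φ ((x₀, 1) : K × K).1 / φ u, φ ((x₀, 1) : K × K).2) : L × L) = XL := by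
    simp [hXL]
  have nP : nn (w.valuation L) PL ≠ 0 := by
    intro h0
    have h1 := nn_eq_zero h0
    apply hP0
    have e1 : φ P₀.1 / φ u = 0 := congrArg Prod.fst h1
    have e2 : φ P₀.2 = 0 := congrArg Prod.snd h1
    rw [div_eq_zero_iff, or_iff_left hφu, map_eq_zero] at e1
    rw [map_eq_zero] at e2
    exact Prod.ext e1 e2
  have nQ : nn (w.valuation L) QL ≠ 0 := nn_one_ne _ _
  have nX : nn (w.valuation L) XL ≠ 0 := nn_one_ne _ _
  have hwdPQ : wd PL QL = φ (wd P₀ (q₀, 1)) / φ u := by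
    simp only [wd, hPL', hQL, map_sub, map_mul, map_one]
    ring
  have hwdne : wd PL QL ≠ 0 := by
    rw [hwdPQ]
    exact div_ne_zero (by rw [Ne, map_eq_zero]; exact hPQ₀) hφu
  obtain ⟨N₁, hN₁, t₁, ht₁, hper₁⟩ := hPP
  obtain ⟨N₂, hN₂, t₂, ht₂, hper₂⟩ := hPq
  have hpP : ∃ t : L, t ≠ 0 ∧ (FM d a b c e)^[N₁] PL = t • PL := by
    obtain ⟨g, hg, h1⟩ := htr N₁ P₀
    refine ⟨g * φ t₁, mul_ne_zero hg (by rw [Ne, map_eq_zero]; exact ht₁), ?_⟩
    rw [hPL', h1, hper₁]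
    ext
    · simp only [Prod.smul_fst, smul_eq_mul, map_mul]
      ring
    · simp only [Prod.smul_snd, smul_eq_mul, map_mul]
      ring
  have hpQ : ∃ t : L, t ≠ 0 ∧ (FM d a b c e)^[N₂] QL = t • QL := by
    obtain ⟨g, hg, h1⟩ := htr N₂ (q₀, 1)
    refine ⟨g * φ t₂, mul_ne_zero hg (by rw [Ne, map_eq_zero]; exact ht₂), ?_⟩
    rw [hQ1, hper₂] at h1
    rw [h1, hQL]
    ext
    · simp only [Prod.smul_fst, smul_eq_mul, map_mul]
      ring
    · simp only [Prod.smul_snd, smul_eq_mul, map_mul, map_one]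
      ring
  obtain ⟨tP, htP, eP⟩ := hpP
  obtain ⟨tQ, htQ, eQ⟩ := hpQ
  obtain ⟨sP, hsP, eP'⟩ := FM_it_mul htP eP N₂
  obtain ⟨sQ, hsQ, eQ'⟩ := FM_it_mul htQ eQ N₁
  rw [Nat.mul_comm N₂ N₁] at eQ'
  have hN : 0 < N₁ * N₂ := Nat.mul_pos hN₁ hN₂
  -- the distance is one
  have hdl : dl (w.valuation L) PL QL = 1 := by
    by_cases hk : ∃ k, (((FM d a b c e)^[k] PL).1 * ((FM d a b c e)^[k] QL).2) *
        (((FM d a b c e)^[k] QL).1 * ((FM d a b c e)^[k] PL).2) = 0
    · obtain ⟨k, hk⟩ := hk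
      exact dl_one (by omega) hζ hgood hG nP nQ hN hsP hsQ eP' eQ' hwdne hk
    · push Not at hk
      have h0 := hk 0
      simp only [Function.iterate_zero, id] at h0
      have hP1 : P₀.1 ≠ 0 := by
        intro h1
        apply h0
        simp [hPL', h1]
      have hP2 : P₀.2 ≠ 0 := by
        intro h1
        apply h0
        simp [hPL', h1]
      have hp := per_of_vec hN₁ ht₁ hper₁ hP2
      have hpq : P₀.1 / P₀.2 ≠ q₀ := by
        intro h1
        apply hPQ₀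
        simp only [wd, mul_one]
        rw [← h1, div_mul_cancel₀ _ hP2, sub_self]
      have hrR := hR α₀ β₀ γ₀ δ₀ (P₀.1 / P₀.2) q₀ hD₀ hC hp ⟨N₂, hN₂, t₂, ht₂, hper₂⟩ hpq
        (div_ne_zero hP1 hP2) hq0
      set ρ' := P₀.1 / P₀.2 / q₀ with hρ'
      have hfac : ∀ η : L, PL.1 * QL.2 - η * (QL.1 * PL.2) =
          (φ P₀.2 * φ q₀ / φ u) * (φ ρ' - η) := by
        intro η
        have e0 : P₀.1 = P₀.2 * q₀ * ρ' := by
          rw [hρ']
          field_simp
        have e1 : φ P₀.1 = φ P₀.2 * φ q₀ * φ ρ' := by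
          rw [← map_mul, ← map_mul, ← e0]
        simp only [hPL', hQL]
        rw [e1]
        ring
      have hgd := good (w := w.valuation L) (d := d) (by omega) hζ (F := FM d a b c e)
        (by
          intro P Q
          have e1 : (FM d a b c e P).1 * (FM d a b c e Q).2 -
              (FM d a b c e Q).1 * (FM d a b c e P).2
              = (a * e - b * c) * ((P.1 * Q.2) ^ d - (Q.1 * P.2) ^ d) := by
            simp only [FM]
            rw [mul_pow, mul_pow]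
            ring
          rw [e1, map_mul, hgood, one_mul])
        hG hN (P := PL) (Q := QL) hwdne hsP hsQ eP' eQ' hζd hζ1
      rw [hfac ζ, map_mul] at hgd
      have hn0 : nn (w.valuation L) PL * nn (w.valuation L) QL ≠ 0 := mul_ne_zero nP nQ
      have h2 : φ ρ' - ζ ≠ 0 := by
        intro h2
        rw [h2, map_zero, mul_zero] at hgd
        exact hn0 hgd.symm
      have hf1 := hfac 1
      rw [one_mul] at hf1
      have h3 : φ ρ' - 1 ≠ 0 := by
        intro h3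
        apply hwdne
        show PL.1 * QL.2 - QL.1 * PL.2 = 0
        rw [hf1, h3, mul_zero]
      rw [hw3 _ hrR h2, mul_one] at hgd
      have h4 : w.valuation L (wd PL QL) = nn (w.valuation L) PL * nn (w.valuation L) QL := by
        show w.valuation L (PL.1 * QL.2 - QL.1 * PL.2) = _
        rw [hf1, map_mul, hw2 _ hrR h3, mul_one, hgd]
      unfold dl
      rw [h4, div_self hn0]
  obtain ⟨m, hm⟩ := hm₀
  have hdk := dl_const (by omega : 2 ≤ d) hζ hgood hG nP nQ hN hsP hsQ eP' eQ' (m + 1)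
  rw [hdl] at hdk
  have nPk := nn_it hG nP (m + 1)
  have nQk := nn_it hG nQ (m + 1)
  have nXk := nn_it hG nX (m + 1)
  have hPQk : w.valuation L (wd ((FM d a b c e)^[m + 1] PL) ((FM d a b c e)^[m + 1] QL)) =
      nn (w.valuation L) ((FM d a b c e)^[m + 1] PL) *
        nn (w.valuation L) ((FM d a b c e)^[m + 1] QL) := by
    unfold dl at hdk
    exact (div_eq_one_iff_eq (mul_ne_zero nPk nQk)).1 hdk
  have hXP : wd ((FM d a b c e)^[m + 1] XL) ((FM d a b c e)^[m + 1] PL) = 0 := by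
    rw [Function.iterate_succ_apply', Function.iterate_succ_apply', FM_wd]
    have h1 : wd ((FM d a b c e)^[m] XL) ((FM d a b c e)^[m] PL) = 0 := by
      obtain ⟨g, hg, h1⟩ := htr m (x₀, 1)
      obtain ⟨g', hg', h2⟩ := htr m P₀
      rw [hX1] at h1
      rw [h1, hPL', h2, wd_smul]
      have : wd ((φ ((FM d α₀ β₀ γ₀ δ₀)^[m] (x₀, 1)).1 / φ u,
          φ ((FM d α₀ β₀ γ₀ δ₀)^[m] (x₀, 1)).2) : L × L)
          (φ ((FM d α₀ β₀ γ₀ δ₀)^[m] P₀).1 / φ u, φ ((FM d α₀ β₀ γ₀ δ₀)^[m] P₀).2) =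
          φ (wd ((FM d α₀ β₀ γ₀ δ₀)^[m] (x₀, 1)) ((FM d α₀ β₀ γ₀ δ₀)^[m] P₀)) / φ u := by
        simp only [wd, map_sub, map_mul]
        ring
      rw [this, hm, map_zero, zero_div, mul_zero]
    have h2 : ((FM d a b c e)^[m] XL).1 * ((FM d a b c e)^[m] PL).2 =
        ((FM d a b c e)^[m] PL).1 * ((FM d a b c e)^[m] XL).2 := sub_eq_zero.1 h1
    rw [h2, sub_self, mul_zero]
  obtain ⟨g, hg, hXg⟩ := prop_of_wd
    (fun h0 => nXk (by rw [h0]; simp [nn])) (fun h0 => nPk (by rw [h0]; simp [nn])) hXP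
  have hXQ : w.valuation L (wd ((FM d a b c e)^[m + 1] XL) ((FM d a b c e)^[m + 1] QL)) =
      nn (w.valuation L) ((FM d a b c e)^[m + 1] XL) *
        nn (w.valuation L) ((FM d a b c e)^[m + 1] QL) := by
    have h1 := wd_smul g 1 ((FM d a b c e)^[m + 1] PL) ((FM d a b c e)^[m + 1] QL)
    rw [one_smul, mul_one] at h1
    rw [hXg, h1, map_mul, hPQk, nn_smul, mul_assoc]
  have hall : ∀ η : L, η ^ d = 1 →
      w.valuation L (φ x₀ / φ u - η * (φ q₀ / φ u)) =
        nn (w.valuation L) XL * nn (w.valuation L) QL := by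
    intro η hη
    have := backAll (by omega : 2 ≤ d) hζ hgood hG nX nQ m hXQ hη
    simpa [hXL, hQL] using this
  refine ⟨1, one_ne_zero, ?_⟩
  rw [map_one, one_pow]
  have hφq : φ q₀ ≠ 0 := by rw [Ne, map_eq_zero]; exact hq0
  have e1 : ∀ i, φ x₀ / φ u - r i * (φ q₀ / φ u) = (ρ - r i) * (φ q₀ / φ u) := by
    intro i
    rw [hρ, map_div₀, sub_mul, ← mul_div_assoc (φ x₀ / φ q₀), div_mul_cancel₀ _ hφq]
  have h1 := hall (r i) (hroot i)
  have h2 := hall (r j) (hroot j)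
  rw [e1] at h1 h2
  have hq' : φ q₀ / φ u ≠ 0 := div_ne_zero hφq hφu
  have e3 : (ρ - r i) / (ρ - r j) = ((ρ - r i) * (φ q₀ / φ u)) / ((ρ - r j) * (φ q₀ / φ u)) := by
    rw [mul_div_mul_right _ _ hq']
  rw [e3, map_div₀, h1, h2, div_self (mul_ne_zero nX nQ)]

theorem ratg_all {d l : ℕ} (hd : 4 ≤ d) (hl : 2 ≤ l) (hdl : 8 ≤ d + l) : RATG d l := by
  have key : ∃ n : ℕ, POW l n ∧ 2 ≤ n ∧ n + 1 ≤ d := by
    rcases Nat.lt_or_ge l 4 with h | h
    · interval_cases l
      · exact ⟨5, pow2', by norm_num, by omega⟩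
      · exact ⟨4, pow3', by norm_num, by omega⟩
    · exact ⟨3, pow4' l h, by norm_num, by omega⟩
  obtain ⟨n, hP, hn2, hn⟩ := key
  exact ratg_of Pool.Agent.W2helper19.BT4.place hP hn2 hn (by omega) (ratl_all hd hl hdl)

end Pool.Agent.W2helper83.BT
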