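import Mathlib
import Pool.Agent.W2helper83.BT.Full7

/-!
# Project BT, sixth part: preperiodic points of bicritical maps, the bound
-/

set_option autoImplicit false

namespace Pool.Agent.W2helper83.BT

open IsDedekindDomain NumberField
open Pool.Agent.W2helper63.BT6 (wd wd_smul FM_wd)

section

variable {K : Type} [Field K] {d : ℕ} {α β γ δ : K}

theorem vec_ne (z : Option K) : vec z ≠ 0 := by
  cases z with
  | none =>
    intro h
    exact one_ne_zero (congrArg Prod.fst h)
  | some x =>
    intro h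
    exact one_ne_zero (congrArg Prod.snd h)

theorem wd_self (P : K × K) : wd P P = 0 := by
  simp only [wd]
  ring

/-- equal images -/
theorem bic_eq (hd : 0 < d) (hD : α * δ - β * γ ≠ 0) {z z' : Option K}
    (h : bic d α β γ δ z = bic d α β γ δ z') :
    ((vec z).1 * (vec z').2) ^ d = ((vec z').1 * (vec z).2) ^ d := by
  obtain ⟨t, ht, e⟩ := bic_vec hd hD z
  obtain ⟨t', ht', e'⟩ := bic_vec hd hD z'
  have h1 : wd (FM d α β γ δ (vec z)) (FM d α β γ δ (vec z')) = 0 := by
    rw [e, e', h, wd_smul, wd_self, mul_zero]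
  rw [FM_wd] at h1
  exact sub_eq_zero.1 ((mul_eq_zero.1 h1).resolve_left hD)

theorem wd_it (hd : 0 < d) (hD : α * δ - β * γ ≠ 0) {z z' : Option K} {m : ℕ}
    (h : (bic d α β γ δ)^[m] z = (bic d α β γ δ)^[m] z') :
    wd ((FM d α β γ δ)^[m] (vec z)) ((FM d α β γ δ)^[m] (vec z')) = 0 := by
  obtain ⟨t, ht, e⟩ := bic_iter hd hD z m
  obtain ⟨t', ht', e'⟩ := bic_iter hd hD z' m
  rw [e, e', h, wd_smul, wd_self, mul_zero]

theorem vec_per (hd : 0 < d) (hD : α * δ - β * γ ≠ 0) {z : Option K}
    (hz : z ∈ Function.periodicPts (bic d α β γ δ)) :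
    ∃ N : ℕ, 0 < N ∧ ∃ t : K, t ≠ 0 ∧ (FM d α β γ δ)^[N] (vec z) = t • vec z := by
  obtain ⟨N, hN, h⟩ := hz
  obtain ⟨t, ht, e⟩ := bic_iter hd hD z N
  have h' : (bic d α β γ δ)^[N] z = z := h
  rw [h'] at e
  exact ⟨N, hN, t, ht, e⟩

/-- the two critical points are totally ramified -/
theorem tot_ram (hd : 0 < d) (hD : α * δ - β * γ ≠ 0) {z p : Option K}
    (hp : p = none ∨ p = some 0) (h : bic d α β γ δ z = bic d α β γ δ p) : z = p := by
  have h1 := bic_eq hd hD h
  rcases hp with rfl | rfl
  · cases z with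
    | none => rfl
    | some x =>
      exfalso
      simp only [vec, mul_zero, mul_one, one_pow, zero_pow hd.ne'] at h1
      exact one_ne_zero h1.symm
  · cases z with
    | none =>
      exfalso
      simp only [vec, mul_one, zero_mul, one_pow, zero_pow hd.ne'] at h1
      exact one_ne_zero h1
    | some x =>
      simp only [vec, mul_one, zero_pow hd.ne'] at h1
      rw [(pow_eq_zero_iff hd.ne').1 h1]

theorem tot_it (hd : 0 < d) (hD : α * δ - β * γ ≠ 0) (m : ℕ) :
    ∀ {z p : Option K}, (∀ k, (bic d α β γ δ)^[k] p = none ∨ (bic d α β γ δ)^[k] p = some 0) →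
      (bic d α β γ δ)^[m] z = (bic d α β γ δ)^[m] p → z = p := by
  induction m with
  | zero => exact fun _ h => h
  | succ m ih =>
    intro z p hp h
    rw [Function.iterate_succ_apply, Function.iterate_succ_apply] at h
    have h1 := ih (z := bic d α β γ δ z) (p := bic d α β γ δ p)
      (fun k => by rw [← Function.iterate_succ_apply]; exact hp (k + 1)) h
    exact tot_ram hd hD (hp 0) h1

/-- a witness of a cycle through zero or infinity -/
theorem exists_wit (hd : 0 < d) (hD : α * δ - β * γ ≠ 0) {z p : Option K} {m : ℕ}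
    (hp : p ∈ Function.periodicPts (bic d α β γ δ))
    (hz : z ∉ Function.periodicPts (bic d α β γ δ))
    (h : (bic d α β γ δ)^[m] z = (bic d α β γ δ)^[m] p)
    (hpc : ∀ y, p = some y → ¬ OrbK d α β γ δ y) :
    ∃ a : K, a ≠ 0 ∧ some a ∈ Function.periodicPts (bic d α β γ δ) ∧ ¬ OrbK d α β γ δ a := by
  obtain ⟨N, hN, hN'⟩ := hp
  have hex : ∃ k, ¬ ((bic d α β γ δ)^[k] p = none ∨ (bic d α β γ δ)^[k] p = some 0) := by
    by_contra hcon
    push Not at hcon
    have h1 := tot_it hd hD m (z := z) (p := p) hcon h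
    exact hz (h1 ▸ ⟨N, hN, hN'⟩)
  obtain ⟨k, hk⟩ := hex
  rcases hka : (bic d α β γ δ)^[k] p with _ | a
  · exact absurd (Or.inl hka) hk
  have ha0 : a ≠ 0 := by
    rintro rfl
    exact hk (Or.inr hka)
  have haper : some a ∈ Function.periodicPts (bic d α β γ δ) :=
    hka ▸ ⟨N, hN, hN'.apply_iterate k⟩
  rcases p with _ | y
  · refine ⟨a, ha0, haper, fun hO => ?_⟩
    have hkN : k ≤ k * N := Nat.le_mul_of_pos_right k hN
    have h1 : (bic d α β γ δ)^[k * N - k] (some a) = none := by
      rw [← hka, ← Function.iterate_add_apply, Nat.sub_add_cancel hkN]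
      exact hN'.const_mul k
    obtain ⟨t, ht, e⟩ := bic_iter hd hD (some a) (k * N - k)
    rw [h1] at e
    have e' : (FM d α β γ δ)^[k * N - k] (a, 1) = t • vec none := e
    have := (hO (k * N - k)).2
    rw [e'] at this
    simp [vec] at this
  · by_cases hy : y = 0
    · refine ⟨a, ha0, haper, fun hO => ?_⟩
      have hkN : k ≤ k * N := Nat.le_mul_of_pos_right k hN
      have h1 : (bic d α β γ δ)^[k * N - k] (some a) = some y := by
        rw [← hka, ← Function.iterate_add_apply, Nat.sub_add_cancel hkN]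
        exact hN'.const_mul k
      obtain ⟨t, ht, e⟩ := bic_iter hd hD (some a) (k * N - k)
      rw [h1, hy] at e
      have e' : (FM d α β γ δ)^[k * N - k] (a, 1) = t • vec (some 0) := e
      have := (hO (k * N - k)).1
      rw [e'] at this
      simp [vec] at this
    · exact ⟨y, hy, ⟨N, hN, hN'⟩, hpc y rfl⟩

theorem not_fixed (hd : 0 < d) (hD : α * δ - β * γ ≠ 0) {a : K} (ha : a ≠ 0)
    (hO : ¬ OrbK d α β γ δ a) : bic d α β γ δ (some a) ≠ some a := by
  intro h
  apply hO
  intro k
  obtain ⟨t, ht, e⟩ := bic_iter hd hD (some a) k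
  rw [Function.iterate_fixed h] at e
  have e' : (FM d α β γ δ)^[k] (a, 1) = t • vec (some a) := e
  rw [e']
  simp only [vec, Prod.smul_fst, Prod.smul_snd, smul_eq_mul, mul_one]
  exact ⟨mul_ne_zero ht ha, ht⟩

theorem wd_vec_ne {p : Option K} {a : K} (h : p ≠ some a) : wd (vec p) ((a, 1) : K × K) ≠ 0 := by
  cases p with
  | none =>
    simp [wd, vec]
  | some y =>
    simp only [wd, vec, mul_one]
    intro h1
    exact h (by rw [sub_eq_zero.1 h1])

end

/-- the bound for the preperiodic points -/
theorem full_all {d l : ℕ} (hd : 4 ≤ d) (hl : 2 ≤ l) (hdl : 8 ≤ d + l) (K : Type) [Field K]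
    [NumberField K] (S : Set (HeightOneSpectrum (𝓞 K))) (hS : S.Finite) :
    ∃ B : ℕ, ∀ α β γ δ : K, α * δ - β * γ ≠ 0 → CndL S d l α β γ δ →
      ∀ T : Finset (Option K), (∀ z ∈ T, ∃ m n : ℕ, m < n ∧
        (bic d α β γ δ)^[m] z = (bic d α β γ δ)^[n] z) → T.card ≤ B := by
  classical
  obtain ⟨B₀, hB₀⟩ := bicl_all hd hl hdl K S hS
  obtain ⟨R, hRfin, hR⟩ := ratt_all hd hl hdl K S hS
  obtain ⟨R', hR'fin, hR'⟩ := ratg_all hd hl hdl K S hS
  have hd0 : 0 < d := by omega
  set ρ := hRfin.toFinset with hρ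
  set ρ' := hR'fin.toFinset with hρ'
  refine ⟨1 + (1 + (B₀ + (B₀ * ρ.card + (ρ'.card + (1 + ρ'.card) * d)))),
    fun α β γ δ hD hC T hT => ?_⟩
  set f := bic d α β γ δ with hf
  have hex : ∀ z ∈ T, ∃ q ∈ Function.periodicPts f, ∃ m : ℕ, f^[m] q = f^[m] z := by
    intro z hz
    obtain ⟨m, n, hmn, h⟩ := hT z hz
    obtain ⟨q, hq, hq'⟩ := exists_per hmn h
    exact ⟨q, hq, m, hq'⟩
  choose! p hp hp' using hex
  set TP := T.image p with hTPdef
  have hTP : TP.card ≤ B₀ := by
    refine hB₀ α β γ δ hD hC _ fun z hz => ?_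
    obtain ⟨z', hz', rfl⟩ := Finset.mem_image.1 hz
    exact hp z' hz'
  set T0 := T.filter fun z => z ∈ Function.periodicPts f with hT0
  have hT0c : T0.card ≤ B₀ := hB₀ α β γ δ hD hC _ fun z hz => (Finset.mem_filter.1 hz).2
  set a : K := if h : ∃ a : K, a ≠ 0 ∧ some a ∈ Function.periodicPts f ∧ ¬ OrbK d α β γ δ a
    then h.choose else 1 with ha
  set A1 : Finset (Option K) := (TP ×ˢ ρ).image fun e => Option.map (fun y => e.2 * y) e.1
    with hA1
  set A2 : Finset (Option K) := ρ'.image fun r => some (r * a) with hA2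
  set ref : Option K → K := fun z₁ => if h : ∃ x : K, x ≠ 0 ∧ f (some x) = z₁ then h.choose else 1
    with href
  set A3 : Finset (Option K) := ((({none} : Finset (Option K)) ∪ A2) ×ˢ
    Polynomial.nthRootsFinset d (1 : K)).image fun e => some (e.2 * ref e.1) with hA3
  have hsub : T ⊆ {none} ∪ ({some 0} ∪ (T0 ∪ (A1 ∪ (A2 ∪ A3)))) := by
    intro z hz
    simp only [Finset.mem_union, Finset.mem_singleton]
    by_cases hzn : z = none
    · exact Or.inl hzn
    by_cases hz0 : z = some 0
    · exact Or.inr (Or.inl hz0)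
    by_cases hzp : z ∈ Function.periodicPts f
    · exact Or.inr (Or.inr (Or.inl (Finset.mem_filter.2 ⟨hz, hzp⟩)))
    right; right; right
    obtain ⟨x, rfl⟩ := Option.ne_none_iff_exists'.1 hzn
    have hx0 : x ≠ 0 := fun h => hz0 (by rw [h])
    obtain ⟨m, hm⟩ := hp' _ hz
    have hpz := hp _ hz
    have hmem : p (some x) ∈ TP := Finset.mem_image_of_mem p hz
    by_cases hcase : ∃ y, p (some x) = some y ∧ OrbK d α β γ δ y
    · left
      obtain ⟨y, hy, hO⟩ := hcase
      rw [hy] at hpz hm hmem
      have hxy : x ≠ y := by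
        rintro rfl
        exact hzp hpz
      have hy0 : y ≠ 0 := by
        have := (hO 0).1
        simpa using this
      have hr := hR α β γ δ x y hD hC (perM_of_bic hd0 hD hpz) hO
        ⟨m, wd_it hd0 hD (z := some x) (z' := some y) hm.symm⟩ hxy
      refine Finset.mem_image.2 ⟨(some y, x / y), Finset.mem_product.2 ⟨hmem, ?_⟩, ?_⟩
      · rw [hρ, Set.Finite.mem_toFinset]
        exact hr
      · simp only [Option.map_some]
        rw [div_mul_cancel₀ _ hy0]
    right
    push Not at hcase
    have hwit := exists_wit hd0 hD hpz hzp hm.symm hcase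
    obtain ⟨ha0, haper, haO⟩ : a ≠ 0 ∧ some a ∈ Function.periodicPts f ∧ ¬ OrbK d α β γ δ a := by
      rw [ha, dif_pos hwit]
      exact hwit.choose_spec
    have haM := perM_of_bic hd0 hD haper
    by_cases hpa : p (some x) = some a
    · right
      -- the image of `z`
      have hfa : f (some a) ∈ Function.periodicPts f := by
        obtain ⟨N, hN, h⟩ := haper
        exact ⟨N, hN, h.apply⟩
      have hne := not_fixed hd0 hD ha0 haO
      have hm1 : f^[m] (f (some x)) = f^[m] (f (some a)) := by
        rw [← Function.iterate_succ_apply, ← Function.iterate_succ_apply,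
          Function.iterate_succ_apply', Function.iterate_succ_apply', ← hm, hpa]
      have hz1 : f (some x) ∈ ({none} : Finset (Option K)) ∪ A2 := by
        rw [Finset.mem_union, Finset.mem_singleton]
        rcases hfx : f (some x) with _ | x₁
        · exact Or.inl rfl
        · right
          rw [hfx] at hm1
          have hr := hR' α β γ δ a x₁ a (vec (f (some a))) hD hC ha0 haM haO (vec_ne _)
            (vec_per hd0 hD hfa) ⟨m, wd_it hd0 hD (z := some x₁) (z' := f (some a)) hm1⟩ ha0 haM
            (wd_vec_ne hne)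
          refine Finset.mem_image.2 ⟨x₁ / a, ?_, by rw [div_mul_cancel₀ _ ha0]⟩
          rw [hρ', Set.Finite.mem_toFinset]
          exact hr
      have hrex : ∃ x' : K, x' ≠ 0 ∧ f (some x') = f (some x) := ⟨x, hx0, rfl⟩
      have hrefx : ref (f (some x)) ≠ 0 ∧ f (some (ref (f (some x)))) = f (some x) := by
        simp only [href]
        rw [dif_pos hrex]
        exact hrex.choose_spec
      obtain ⟨hr0, hrf⟩ := hrefx
      have hpow := bic_eq hd0 hD hrf.symm
      simp only [vec, mul_one] at hpow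
      refine Finset.mem_image.2 ⟨(f (some x), x / ref (f (some x))),
        Finset.mem_product.2 ⟨hz1, ?_⟩, ?_⟩
      · rw [Polynomial.mem_nthRootsFinset hd0, div_pow, hpow, div_self (pow_ne_zero _ hr0)]
      · simp only
        rw [div_mul_cancel₀ _ hr0]
    · left
      have hr := hR' α β γ δ a x a (vec (p (some x))) hD hC ha0 haM haO (vec_ne _)
        (vec_per hd0 hD hpz) ⟨m, wd_it hd0 hD (z := some x) (z' := p (some x)) hm.symm⟩ ha0 haM
        (wd_vec_ne hpa)
      refine Finset.mem_image.2 ⟨x / a, ?_, by rw [div_mul_cancel₀ _ ha0]⟩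
      rw [hρ', Set.Finite.mem_toFinset]
      exact hr
  have c1 : A1.card ≤ B₀ * ρ.card := by
    refine Finset.card_image_le.trans ?_
    rw [Finset.card_product]
    exact Nat.mul_le_mul_right _ hTP
  have c2 : A2.card ≤ ρ'.card := Finset.card_image_le
  have c3 : A3.card ≤ (1 + ρ'.card) * d := by
    refine Finset.card_image_le.trans ?_
    rw [Finset.card_product]
    refine Nat.mul_le_mul ?_ ?_
    · refine (Finset.card_union_le _ _).trans ?_
      rw [Finset.card_singleton]
      omega
    · refine (Multiset.toFinset_card_le _).trans ?_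
      exact Polynomial.card_nthRoots d 1
  calc T.card ≤ _ := Finset.card_le_card hsub
    _ ≤ 1 + (1 + (T0.card + (A1.card + (A2.card + A3.card)))) := by
        refine (Finset.card_union_le _ _).trans ?_
        rw [Finset.card_singleton]
        refine Nat.add_le_add_left ((Finset.card_union_le _ _).trans ?_) _
        rw [Finset.card_singleton]
        refine Nat.add_le_add_left ((Finset.card_union_le _ _).trans ?_) _
        refine Nat.add_le_add_left ((Finset.card_union_le _ _).trans ?_) _
        exact Nat.add_le_add_left (Finset.card_union_le _ _) _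
    _ ≤ 1 + (1 + (B₀ + (B₀ * ρ.card + (ρ'.card + (1 + ρ'.card) * d)))) := by
        omega

end Pool.Agent.W2helper83.BT
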