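import Mathlib
import Pool.Agent.W2helper83.BT.Defs4

/-!
# Project BT, fifth part: periodic points of the polynomials `c H (x ^ d)`, `H` monic of any degree
-/

set_option autoImplicit false

namespace Pool.Agent.W2helper83.BT

open IsDedekindDomain NumberField

/-- the polynomial map `c H (x ^ d)` -/
noncomputable def fH {K : Type} [Field K] (d : ℕ) (c : K) (H : Polynomial K) (x : K) : K :=
  c * H.eval (x ^ d)

/-- periodic points -/
def PerH {K : Type} [Field K] (d : ℕ) (c : K) (H : Polynomial K) (x : K) : Prop :=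
  ∃ n : ℕ, 0 < n ∧ (fH d c H)^[n] x = x

/-- LOCHA: the places where `c` has a pole and `H` has simple nonzero zeros in the residue field.
`w` is a valuation of `L`, the map is defined over `K`, write `W z = w z` for `z` in `K`.

Proof. `x_k`, `y_k` the orbits (common period `N`, `x_k ≠ y_k`). `deg H ≥ 1` (otherwise the map is
constant). If `W x > 1` then `W (f x) = W c * W x ^ (d deg H) > W x`, so the orbit of `x` increases,
impossible. So `W x_k ≤ 1`, `W (H (x_k ^ d)) = W x_{k+1} / W c < 1`, so `W x_k = 1` and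
`W (H' (x_k ^ d)) = 1`; the same for `y_k`. With `X = x_k ^ d`, `Y = y_k ^ d`:
`x_{k+1} - y_{k+1} = c (H X - H Y) = c (X - Y) (H' Y + (X - Y) G)`, `W G ≤ 1`; so if `W (X - Y) < 1` then
`W (X - Y) = W (x_{k+1} - y_{k+1}) * T` with `T = (W c)⁻¹ < 1`. Over `L`:
`x_k ^ d - y_k ^ d = ∏ (x_k - η y_k)` over the `d`-th roots of unity `η`; all factors have values `≤ 1` and
differences of two factors have value one, so at most one factor has value `< 1`. So either all
`w (x_k - η y_k) = 1` or there is one `η₀` with `w (x_k - η₀ y_k) = W (x_{k+1} - y_{k+1}) * T` and the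
others have value one (`Pool.Agent.W2helper92.BT2.step`, `val_prod`, `val_diff`, `val_root`, with `W = 1`).
As in `core_pow` (`Pool/Agent/W2helper92/BT2/LocPow.lean`): all `W (x_k - y_k)` are powers `T ^ j`
(otherwise `W (x_k - y_k) = W (x_{k+1} - y_{k+1}) * T` for all `k`, contradiction after `N` steps), so all
`w (x - η y)` are powers of `T`. -/
def LOCHA : Prop := ∀ (K L Γ : Type) [Field K] [Field L] [Algebra K L]
  [LinearOrderedCommGroupWithZero Γ] (w : Valuation L Γ) (d : ℕ) (c : K) (H : Polynomial K)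
  (x y : K) (ζ₁ ζ₂ : L), 2 ≤ d → w (d : L) = 1 → (∃ ζ : L, IsPrimitiveRoot ζ d) → H.Monic →
  (∀ i, w (algebraMap K L (H.coeff i)) ≤ 1) → 1 < w (algebraMap K L c) →
  (∀ X : K, w (algebraMap K L X) ≤ 1 → w (algebraMap K L (H.eval X)) < 1 →
    w (algebraMap K L X) = 1 ∧ w (algebraMap K L (H.derivative.eval X)) = 1) →
  PerH d c H x → PerH d c H y → x ≠ y →
  ζ₁ ^ d = 1 → ζ₁ ≠ 1 → ζ₂ ^ d = 1 → ζ₂ ≠ 1 →
  algebraMap K L x - ζ₁ * algebraMap K L y ≠ 0 → algebraMap K L x - ζ₂ * algebraMap K L y ≠ 0 →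
  ∃ k : ℤ, w ((algebraMap K L x - ζ₁ * algebraMap K L y) /
    (algebraMap K L x - ζ₂ * algebraMap K L y)) = w (algebraMap K L c) ^ k

/-- LOCHB: the places where `c` has no pole: the quotients have value one.

Proof. `x_k`, `y_k`, `W`, `N` as above, `m = deg H ≥ 1`, `q = d m`. `H X - H Y = (X - Y) G (X, Y)` where
`W (G (X, Y)) ≤ R ^ (m - 1)` if `W X, W Y ≤ R` and `R ≥ 1`.
(1) If `z` is periodic and `W z > 1` then `W c * W z ^ (q - 1) = 1`, and all the points of the orbit
have the same value: `W (f z) = W c * W z ^ q`; if `W c * W z ^ (q - 1) > 1` then the values increase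
along the orbit; if `< 1` then they decrease as long as they are `> 1`, and once they are `≤ 1` they
stay `≤ 1` (`W (f z) ≤ W c ≤ 1` if `W z ≤ 1`).
(2) So if one of `W x`, `W y` is `> 1` and the other `≤ 1` then `w (x - ζ y)` is the bigger one for all `ζ`.
(3) If both are `≤ 1` (then all the orbits): `x_{k+1} - y_{k+1} = c ∏_η (x_k - η y_k) G`, all factors have
value `≤ 1`, so `W (x_{k+1} - y_{k+1}) ≤ W (x_k - y_k) * w (x_k - ζ y_k) ≤ W (x_k - y_k)` for `ζ ≠ 1`. By
periodicity all are equal, so `w (x - ζ y) = 1`.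
(4) If both are `> 1` then both are equal to the same `R` (`W c * R ^ (q - 1) = 1`), all factors have
value `≤ R`, `W G ≤ R ^ (d (m - 1))`, so
`W (x_{k+1} - y_{k+1}) ≤ W c * W (x_k - y_k) * w (x_k - ζ y_k) * R ^ (d - 2) * R ^ (d (m - 1)) =
W (x_k - y_k) * (w (x_k - ζ y_k) / R) ≤ W (x_k - y_k)`, and by periodicity `w (x - ζ y) = R`. -/
def LOCHB : Prop := ∀ (K L Γ : Type) [Field K] [Field L] [Algebra K L]
  [LinearOrderedCommGroupWithZero Γ] (w : Valuation L Γ) (d : ℕ) (c : K) (H : Polynomial K)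
  (x y : K) (ζ₁ ζ₂ : L), 2 ≤ d → w (d : L) = 1 → (∃ ζ : L, IsPrimitiveRoot ζ d) → c ≠ 0 → H.Monic →
  (∀ i, w (algebraMap K L (H.coeff i)) ≤ 1) → w (algebraMap K L c) ≤ 1 →
  PerH d c H x → PerH d c H y → x ≠ y →
  ζ₁ ^ d = 1 → ζ₁ ≠ 1 → ζ₂ ^ d = 1 → ζ₂ ≠ 1 →
  algebraMap K L x - ζ₁ * algebraMap K L y ≠ 0 → algebraMap K L x - ζ₂ * algebraMap K L y ≠ 0 →
  w ((algebraMap K L x - ζ₁ * algebraMap K L y) /
    (algebraMap K L x - ζ₂ * algebraMap K L y)) = 1

/-- the condition on `c` and `H` outside `S` -/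
def CndH {K : Type} [Field K] [NumberField K] (S : Set (HeightOneSpectrum (𝓞 K))) (l : ℕ)
    (c : K) (H : Polynomial K) : Prop :=
  ∀ v ∉ S, (∀ i, v.valuation K (H.coeff i) ≤ 1) ∧ (1 < v.valuation K c →
    (∃ h : K, v.valuation K c = v.valuation K h ^ l) ∧
    ∀ X : K, v.valuation K X ≤ 1 → v.valuation K (H.eval X) < 1 →
      v.valuation K X = 1 ∧ v.valuation K (H.derivative.eval X) = 1)

/-- RATH: finitely many ratios of periodic points, for all degrees of `H` together -/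
def RATH (d l : ℕ) : Prop := ∀ (K : Type) [Field K] [NumberField K]
  (S : Set (HeightOneSpectrum (𝓞 K))), S.Finite → ∃ R : Set K, R.Finite ∧
    ∀ (c : K) (H : Polynomial K) (x y : K), c ≠ 0 → H.Monic → CndH S l c H →
      PerH d c H x → PerH d c H y → x ≠ y → y ≠ 0 → x / y ∈ R

/-- The statement of piece RATH. Proof: as `Pool.Agent.W2helper49.BT4.ratb`
(`Pool/Agent/W2helper49/BT4/RatB.lean`): `L = CyclotomicField d K`, `S_L` = the places above `d` and
the `T` of PLACE, POW `l` `n` with `n` of the `d - 1` nontrivial roots of unity. For `w ∉ S_L` take the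
place `v ∉ S` of PLACE; `w (algebraMap z) ≤ 1 ↔ v z ≤ 1` gives the same equivalence for `= 1`, `< 1`,
`1 <`. If `v c ≤ 1` then LOCHB gives the value one (`g = 1`). If `1 < v c` then LOCHA gives `w c ^ k`,
and `v c = v h ^ l` gives `w c = w h ^ l`. -/
def RATHStm : Prop := PLACE → LOCHA → LOCHB → ∀ d l n : ℕ, POW l n → 2 ≤ n → n + 1 ≤ d →
  0 < l → RATH d l

/-- CORH: the condition for integer polynomials over `ℚ`.
Proof. Values of integers are `≤ 1`. If `1 < v (s / t ^ l)` then `v t < 1`; let `p` be the prime number in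
`v.asIdeal`; for integers `n`: `v n < 1 ↔ p ∣ n`. So `p ∣ t`, `v s = 1`, `h = t⁻¹`. A Bezout relation
`A H + B H' = 1` modulo `p` lifts to `A H + B H' = 1 + p E` over `ℤ`; so for `v X ≤ 1`, `v (H X) < 1`:
`v (B X * H' X) = 1`, so `v (H' X) = 1`; and `H X = H 0 + X Q X`, `v (H 0) = 1`, so `v X = 1`. -/
def CORH : Prop := ∀ (l : ℕ) (H : Polynomial ℤ) (s t : ℤ), H.Monic → s ≠ 0 → t ≠ 0 →
  (∀ p : ℕ, p.Prime → (p : ℤ) ∣ t → ¬ (p : ℤ) ∣ s ∧ ¬ (p : ℤ) ∣ H.coeff 0 ∧
    (H.map (Int.castRingHom (ZMod p))).Separable) →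
  CndH (∅ : Set (HeightOneSpectrum (𝓞 ℚ))) l ((s : ℚ) / (t : ℚ) ^ l) (H.map (Int.castRingHom ℚ))

end Pool.Agent.W2helper83.BT
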