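import Mathlib
import Pool.Agent.W2helper83.BT.Final5
import Pool.Agent.W2helper83.BT.Defs5

/-! Assembly: periodic points of `c H (x ^ d)`. -/

set_option autoImplicit false

namespace Pool.Agent.W2helper83.BT

open IsDedekindDomain NumberField

theorem perh_of {d l : ℕ} (hR : RATH d l) (K : Type) [Field K] [NumberField K]
    (S : Set (HeightOneSpectrum (𝓞 K))) (hS : S.Finite) :
    ∃ B : ℕ, ∀ (c : K) (H : Polynomial K), c ≠ 0 → H.Monic → CndH S l c H →
      ∀ T : Finset K, (∀ x ∈ T, PerH d c H x) → T.card ≤ B := by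
  classical
  obtain ⟨R, hRfin, hR⟩ := hR K S hS
  refine ⟨hRfin.toFinset.card + 1, fun c H hc hH hC T hT => ?_⟩
  by_cases h0 : ∀ y ∈ T, y = 0
  · have : T ⊆ {0} := fun y hy => Finset.mem_singleton.2 (h0 y hy)
    have h1 := Finset.card_le_card this
    rw [Finset.card_singleton] at h1
    omega
  push Not at h0
  obtain ⟨y, hy, hy0⟩ := h0
  have hsub : T ⊆ insert y (hRfin.toFinset.image fun r => r * y) := by
    intro x hx
    by_cases hxy : x = y
    · rw [hxy]
      exact Finset.mem_insert_self _ _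
    · refine Finset.mem_insert_of_mem (Finset.mem_image.2 ⟨x / y, ?_, by field_simp⟩)
      rw [Set.Finite.mem_toFinset]
      exact hR c H x y hc hH hC (hT x hx) (hT y hy) hxy hy0
  calc T.card ≤ _ := Finset.card_le_card hsub
    _ ≤ _ := Finset.card_insert_le _ _
    _ ≤ _ := Nat.add_le_add_right Finset.card_image_le _

theorem rath_all_of (hPl : PLACE) (hA : LOCHA) (hB : LOCHB) (hRa : RATHStm) {d l : ℕ}
    (hd : 4 ≤ d) (hl : 2 ≤ l) (hdl : 8 ≤ d + l) : RATH d l := by
  have key : ∃ n : ℕ, POW l n ∧ 2 ≤ n ∧ n + 1 ≤ d := by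
    rcases Nat.lt_or_ge l 4 with h | h
    · interval_cases l
      · exact ⟨5, pow2', by norm_num, by omega⟩
      · exact ⟨4, pow3', by norm_num, by omega⟩
    · exact ⟨3, pow4' l h, by norm_num, by omega⟩
  obtain ⟨n, hP, hn2, hn⟩ := key
  exact hRa hPl hA hB d l n hP hn2 hn (by omega)

end Pool.Agent.W2helper83.BT
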