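import Mathlib
import Pool.Agent.W2helper83.BT.Final6
import Pool.Agent.W2helper19.BT4.Place
import Pool.Agent.W2helper12.BT5.Locha
import Pool.Agent.W2helper28.BT5.Lochb
import Pool.Agent.W2helper2.BT.Rath
import Pool.Agent.W2helper73.BT5.Corh

/-! Assembly: periodic points of `c H (x ^ d)`. -/

set_option autoImplicit false

namespace Pool.Agent.W2helper83.BT

open IsDedekindDomain NumberField

theorem perh_all {d l : ℕ} (hd : 4 ≤ d) (hl : 2 ≤ l) (hdl : 8 ≤ d + l) (K : Type) [Field K]
    [NumberField K] (S : Set (HeightOneSpectrum (𝓞 K))) (hS : S.Finite) :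
    ∃ B : ℕ, ∀ (c : K) (H : Polynomial K), c ≠ 0 → H.Monic → CndH S l c H →
      ∀ T : Finset K, (∀ x ∈ T, PerH d c H x) → T.card ≤ B :=
  perh_of (rath_all_of Pool.Agent.W2helper19.BT4.place Pool.Agent.W2helper12.BT5.locha
    Pool.Agent.W2helper28.BT5.lochb Pool.Agent.W2helper2.BT.rath hd hl hdl) K S hS

theorem corh' : CORH := Pool.Agent.W2helper73.BT5.corh

end Pool.Agent.W2helper83.BT
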