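import Mathlib
import Pool.Agent.W2helper83.BT.Final7

/-!
# Project BT, fifth part: polynomials in `x ^ d`, normal forms which depend on the prime
-/

set_option autoImplicit false

namespace Pool.Agent.W2helper83.BT

open IsDedekindDomain NumberField Polynomial
open Pool.Agent.W2helper73.BT (val_nat)
open Pool.Agent.W2helper49.BT4 (val_one_iff val_gt_iff val_eq_iff)
open Pool.Agent.W2helper2.BT (val_lt_iff val_one_iff')

/-- at every prime outside `S` some conjugate `P (u ^ d X) / u` is `c H` as in `CndH` -/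
def CndP {K : Type} [Field K] [NumberField K] (S : Set (HeightOneSpectrum (𝓞 K))) (d l : ℕ)
    (P : K[X]) : Prop :=
  ∀ v ∉ S, ∃ (u c : K) (H : K[X]), u ≠ 0 ∧ c ≠ 0 ∧ H.Monic ∧
    P.comp (C (u ^ d) * X) = C (u * c) * H ∧
    (∀ i, v.valuation K (H.coeff i) ≤ 1) ∧ (1 < v.valuation K c →
    (∃ h : K, v.valuation K c = v.valuation K h ^ l) ∧
    ∀ Z : K, v.valuation K Z ≤ 1 → v.valuation K (H.eval Z) < 1 →
      v.valuation K Z = 1 ∧ v.valuation K (H.derivative.eval Z) = 1)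

/-- periodic points of `x ↦ P (x ^ d)` -/
def PerP {K : Type} [Field K] (d : ℕ) (P : K[X]) (x : K) : Prop :=
  ∃ n : ℕ, 0 < n ∧ (fun x : K => P.eval (x ^ d))^[n] x = x

/-- finitely many ratios of periodic points -/
def RATP (d l : ℕ) : Prop := ∀ (K : Type) [Field K] [NumberField K]
  (S : Set (HeightOneSpectrum (𝓞 K))), S.Finite → ∃ R : Set K, R.Finite ∧
    ∀ (P : K[X]) (x y : K), CndP S d l P →
      PerP d P x → PerP d P y → x ≠ y → y ≠ 0 → x / y ∈ R

theorem perH_conj {K : Type} [Field K] {d : ℕ} {P H : K[X]} {u c x : K} (hu : u ≠ 0)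
    (h : P.comp (C (u ^ d) * X) = C (u * c) * H) (hx : PerP d P x) : PerH d c H (x / u) := by
  obtain ⟨n, hn, hx⟩ := hx
  refine ⟨n, hn, ?_⟩
  have key : ∀ z : K, fH d c H (z / u) = P.eval (z ^ d) / u := by
    intro z
    have h1 := congrArg (eval (z ^ d / u ^ d)) h
    rw [eval_comp, eval_mul, eval_mul, eval_C, eval_C, eval_X,
      mul_div_cancel₀ _ (pow_ne_zero d hu)] at h1
    rw [h1, fH, div_pow]
    field_simp
  have key2 : ∀ (n : ℕ) (z : K), (fH d c H)^[n] (z / u) =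
      (fun x : K => P.eval (x ^ d))^[n] z / u := by
    intro n z
    induction n with
    | zero => rfl
    | succ n ih => rw [Function.iterate_succ_apply', Function.iterate_succ_apply', ih, key]
  rw [key2, hx]

/-- the ratios of periodic points -/
theorem ratp_of (hPL : PLACE) (hA : LOCHA) (hB : LOCHB) {d l n : ℕ} (hP : POW l n) (hn : 2 ≤ n)
    (hnd : n + 1 ≤ d) (hl : 0 < l) : RATP d l := by
  classical
  intro K _ _ S hS
  have : NeZero d := ⟨by omega⟩
  let L := CyclotomicField d K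
  have : NumberField L := inferInstance
  have hζ := IsCyclotomicExtension.zeta_spec d K L
  set ζ := IsCyclotomicExtension.zeta d K L with hζdef
  obtain ⟨T, hT, hTv⟩ := hPL K L S hS
  have hfin : {w : HeightOneSpectrum (𝓞 L) | ((d : ℤ) : 𝓞 L) ∈ w.asIdeal}.Finite := by
    have hI : Ideal.span {((d : ℤ) : 𝓞 L)} ≠ ⊥ := by
      rw [Ne, Ideal.span_singleton_eq_bot]
      have : d ≠ 0 := by omega
      exact_mod_cast this
    refine (Ideal.finite_factors hI).subset (fun v hv => ?_)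
    exact Ideal.dvd_span_singleton.2 hv
  have hζd := hζ.pow_eq_one
  let r : Fin n → L := fun i => ζ ^ ((i : ℕ) + 1)
  have hr : Function.Injective r := by
    intro i j h
    have h1 := hζ.pow_inj (by omega) (by omega) h
    exact Fin.ext (by omega)
  have hroot : ∀ i, r i ^ d = 1 := by
    intro i
    show (ζ ^ ((i : ℕ) + 1)) ^ d = 1
    rw [← pow_mul, mul_comm, pow_mul, hζd, one_pow]
  have hne1 : ∀ i, r i ≠ 1 := fun i => hζ.pow_ne_one_of_pos_of_lt (by omega) (by omega)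
  have hinj := (algebraMap K L).injective
  have hfin2 := (hP L _ (hfin.union hT) r hr).union (Set.finite_range r)
  refine ⟨_, hfin2.preimage (f := algebraMap K L) hinj.injOn, ?_⟩
  intro P x₀ y₀ hC hx₀ hy₀ hxy₀ hy00
  rw [Set.mem_preimage]
  set ρ := algebraMap K L (x₀ / y₀) with hρ
  by_cases hin : ∃ i, r i = ρ
  · exact Or.inr hin
  push Not at hin
  left
  refine ⟨fun i h => hin i h.symm, ?_⟩
  intro i j w hw
  have hw1 : w ∉ T := fun h => hw (Or.inr h)
  obtain ⟨v, hvS, hvw⟩ := hTv w hw1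
  obtain ⟨u, c, H, hu, hc, hH, hPH, hC1, hC2⟩ := hC v hvS
  have hx := perH_conj hu hPH hx₀
  have hy := perH_conj hu hPH hy₀
  have hy0 : y₀ / u ≠ 0 := div_ne_zero hy00 hu
  have hxy : x₀ / u ≠ y₀ / u := fun h => hxy₀ ((div_left_inj' hu).1 h)
  have hru : x₀ / u / (y₀ / u) = x₀ / y₀ := by field_simp
  rw [← hru] at hρ
  generalize x₀ / u = x at hx hxy hρ
  generalize y₀ / u = y at hy hy0 hxy hρ
  set X := algebraMap K L x with hX
  set Y := algebraMap K L y with hY
  have hY0 : Y ≠ 0 := fun h => hy0 (hinj (by rw [← hY, h, map_zero]))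
  have hρ' : ρ = X / Y := by rw [hρ, map_div₀]
  have hs : ∀ i, ρ - r i ≠ 0 := fun i => sub_ne_zero.2 fun h => hin i h.symm
  have e1 : ∀ i, X - r i * Y = (ρ - r i) * Y := fun i => by rw [hρ', sub_mul, div_mul_cancel₀ _ hY0]
  have hco : ∀ i, w.valuation L (algebraMap K L (H.coeff i)) ≤ 1 := fun i => (hvw _).2 (hC1 i)
  have hd1 : w.valuation L (d : L) = 1 := val_nat w fun h => hw (Or.inl h)
  rcases le_or_gt (v.valuation K c) 1 with hc1 | hc1
  · have hloc := hB K L _ (w.valuation L) d c H x y (r i) (r j) (by omega) hd1 ⟨ζ, hζ⟩ hc hH hco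
      ((hvw c).2 hc1) hx hy hxy (hroot i) (hne1 i) (hroot j) (hne1 j)
      (by rw [← hX, ← hY, e1]; exact mul_ne_zero (hs i) hY0)
      (by rw [← hX, ← hY, e1]; exact mul_ne_zero (hs j) hY0)
    rw [← hX, ← hY, e1, e1, mul_div_mul_right _ _ hY0] at hloc
    exact ⟨1, one_ne_zero, by rw [hloc, map_one, one_pow]⟩
  obtain ⟨⟨h, hh⟩, hC3⟩ := hC2 hc1
  obtain ⟨k, h3⟩ := hA K L _ (w.valuation L) d c H x y (r i) (r j) (by omega) hd1 ⟨ζ, hζ⟩ hH hco
    ((val_gt_iff hvw c).2 hc1) (fun Z hZ1 hZ2 => by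
      obtain ⟨a, b⟩ := hC3 Z ((hvw Z).1 hZ1) ((val_lt_iff hvw _).1 hZ2)
      exact ⟨(val_one_iff' hvw _).2 a, (val_one_iff' hvw _).2 b⟩)
    hx hy hxy (hroot i) (hne1 i) (hroot j) (hne1 j)
    (by rw [← hX, ← hY, e1]; exact mul_ne_zero (hs i) hY0)
    (by rw [← hX, ← hY, e1]; exact mul_ne_zero (hs j) hY0)
  rw [← hX, ← hY, e1, e1, mul_div_mul_right _ _ hY0] at h3
  have hh0 : h ≠ 0 := by
    intro h0
    rw [h0, map_zero, zero_pow hl.ne'] at hh
    rw [hh] at hc1
    exact absurd hc1 (by simp)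
  have h5 : w.valuation L (algebraMap K L c) = w.valuation L (algebraMap K L h) ^ l := by
    rw [← map_pow, ← map_pow]
    rw [← map_pow] at hh
    exact (val_eq_iff hvw hc (pow_ne_zero _ hh0)).2 hh
  refine ⟨algebraMap K L h ^ k, zpow_ne_zero _ (by rw [Ne, map_eq_zero]; exact hh0), ?_⟩
  rw [h3, h5, map_zpow₀, ← zpow_natCast, ← zpow_natCast, ← zpow_mul, ← zpow_mul, mul_comm]


theorem perp_all {d l : ℕ} (hd : 4 ≤ d) (hl : 2 ≤ l) (hdl : 8 ≤ d + l) (K : Type) [Field K]
    [NumberField K] (S : Set (HeightOneSpectrum (𝓞 K))) (hS : S.Finite) :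
    ∃ B : ℕ, ∀ P : K[X], CndP S d l P → ∀ T : Finset K, (∀ x ∈ T, PerP d P x) →
      T.card ≤ B := by
  classical
  have key : ∃ n : ℕ, POW l n ∧ 2 ≤ n ∧ n + 1 ≤ d := by
    rcases Nat.lt_or_ge l 4 with h | h
    · interval_cases l
      · exact ⟨5, pow2', by norm_num, by omega⟩
      · exact ⟨4, pow3', by norm_num, by omega⟩
    · exact ⟨3, pow4' l h, by norm_num, by omega⟩
  obtain ⟨n, hP, hn2, hn⟩ := key
  obtain ⟨R, hRfin, hR⟩ := ratp_of Pool.Agent.W2helper19.BT4.place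
    Pool.Agent.W2helper12.BT5.locha Pool.Agent.W2helper28.BT5.lochb hP hn2 hn (by omega) K S hS
  refine ⟨hRfin.toFinset.card + 1, fun P hC T hT => ?_⟩
  by_cases h0 : ∀ y ∈ T, y = 0
  · have : T ⊆ {0} := fun y hy => Finset.mem_singleton.2 (h0 y hy)
    have h1 := Finset.card_le_card this
    rw [Finset.card_singleton] at h1
    omega
  push Not at h0
  obtain ⟨y, hy, hy0⟩ := h0
  have hsub : T ⊆ insert y (hRfin.toFinset.image fun r => r * y) := by
    intro x hx
    by_cases hxy : x = y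
    · rw [hxy]
      exact Finset.mem_insert_self _ _
    · refine Finset.mem_insert_of_mem (Finset.mem_image.2 ⟨x / y, ?_, by field_simp⟩)
      rw [Set.Finite.mem_toFinset]
      exact hR P x y hC (hT x hx) (hT y hy) hxy hy0
  calc T.card ≤ _ := Finset.card_le_card hsub
    _ ≤ _ := Finset.card_insert_le _ _
    _ ≤ _ := Nat.add_le_add_right Finset.card_image_le _

end Pool.Agent.W2helper83.BT
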