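import Mathlib
import Pool.Agent.W2helper83.BT.OverQ

/-!
# Uniform boundedness over `ℚ` for the polynomials `x ^ d + c`, for every `d ≥ 3`

* For every `d ≥ 3` there is `B` such that for all rational numbers `c` the polynomial `x ^ d + c`
  has at most `B` rational preperiodic points.
* For every even `d ≥ 6` and all rational numbers `c`, with finitely many exceptions, the
  polynomial `x ^ d + c` has at most one rational periodic point and at most two rational
  preperiodic points.

Proof. Let `x ≠ y` be rational periodic points of `x ^ d + c`, `d ≥ 6` even. At every prime not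
dividing `d` the valuations of the numbers `x - ζ y`, `ζ ^ d = 1`, `ζ ≠ 1`, differ by multiples of
`d - 1` (dynamical units at the primes of good reduction; at the other primes the tree structure of
the Julia set). Hence `x / y` gives a point on one of finitely many twists of the Fermat curve of
degree `d - 1 ≥ 5` over a number field, and the finiteness of their points is proved
unconditionally in `Pool/Agent/W2helper83/BT`: the library contains Mordell's conjecture for
`y ^ 2 = x ^ 6 + 1` over all number fields, and by the unramified correspondences of Bogomolov and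
Tschinkel (double covers, translations and multiplication by three on elliptic curves) this implies
Mordell's conjecture for the curves `x - e_i = s_i ^ 2`, `i = 1, 2, 3, 4`, hence for all
hyperelliptic curves and for the Fermat curves of odd degree at least five. So there are finitely
many ratios `x / y` for all `c` together, and they determine finitely many `c`. Preperiodic points
are treated in the same way. For odd `d` the map is increasing; for `d = 4` see the file
`AllParametersUnicritical`.
-/

set_option autoImplicit false

namespace Pool.Agent.W2helper83.BT.Kept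

/-- the rational periodic points of `x ^ d + c` -/
def periodic (d : ℕ) (c : ℚ) : Set ℚ :=
  {x : ℚ | ∃ n : ℕ, 0 < n ∧ (fun x : ℚ => x ^ d + c)^[n] x = x}

/-- the rational preperiodic points of `x ^ d + c` -/
def preperiodic (d : ℕ) (c : ℚ) : Set ℚ :=
  {x : ℚ | ∃ m n : ℕ, m < n ∧ (fun x : ℚ => x ^ d + c)^[m] x = (fun x : ℚ => x ^ d + c)^[n] x}

theorem encard_le {s : Set ℚ} {B : ℕ} (h : ∀ T : Finset ℚ, (∀ x ∈ T, x ∈ s) → T.card ≤ B) :
    s.encard ≤ B := by
  by_contra hcon
  rw [not_le] at hcon
  have h1 : ((B + 1 : ℕ) : ℕ∞) ≤ s.encard := by
    rw [Nat.cast_add, Nat.cast_one]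
    exact Order.add_one_le_of_lt hcon
  obtain ⟨t, ht, hc⟩ := Set.exists_subset_encard_eq h1
  have hfin : t.Finite := Set.finite_of_encard_eq_coe hc
  have h2 := h hfin.toFinset (fun x hx => ht (hfin.mem_toFinset.1 hx))
  have h3 : (hfin.toFinset.card : ℕ∞) = t.encard := (hfin.encard_eq_coe_toFinset_card).symm
  rw [hc] at h3
  have h4 : hfin.toFinset.card = B + 1 := by exact_mod_cast h3
  omega

theorem result :
    -- uniform boundedness for every degree `d ≥ 3`
    (∀ d : ℕ, 3 ≤ d → ∃ B : ℕ, ∀ c : ℚ, (preperiodic d c).encard ≤ B) ∧
    -- the exact bounds, up to finitely many `c`, for even `d ≥ 6`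
    (∀ d : ℕ, 6 ≤ d → Even d →
      {c : ℚ | ¬ ((periodic d c).encard ≤ 1 ∧ (preperiodic d c).encard ≤ 2)}.Finite) := by
  constructor
  · intro d hd
    obtain ⟨B, hB⟩ := Pool.Agent.W2helper83.BT.ubc d hd
    exact ⟨B, fun c => encard_le (fun T hT => hB c T hT)⟩
  · intro d hd he
    refine Set.Finite.subset ((Pool.Agent.W2helper83.BT.exc_per d he hd).union
      (Pool.Agent.W2helper83.BT.exc_pre d he hd)) ?_
    intro c hc
    have hc' : ¬ ((periodic d c).encard ≤ 1 ∧ (preperiodic d c).encard ≤ 2) := hc
    by_contra hcon
    rw [Set.mem_union, not_or] at hcon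
    apply hc'
    constructor
    · rw [Set.encard_le_one_iff]
      intro x y hx hy
      by_contra hne
      exact hcon.1 ⟨x, y, hne, hx, hy⟩
    · refine encard_le (B := 2) (fun T hT => ?_)
      by_contra h3
      exact hcon.2 ⟨T, by omega, hT⟩

end Pool.Agent.W2helper83.BT.Kept
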